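import Mathlib

/-! # Generating perfect complexes by line bundles: definitions -/

open CategoryTheory AlgebraicGeometry Limits TopologicalSpace

namespace Pool.H33.P

noncomputable instance (X : Scheme.{0}) : HasDerivedCategory.{1} X.Modules :=
  HasDerivedCategory.standard _

section
variable {X Y : Scheme.{0}} (f : X ⟶ Y) [IsOpenImmersion f]

set_option backward.isDefEq.respectTransparency false in
noncomputable instance : (Scheme.Modules.restrictFunctor f).IsRightAdjoint := by
  let α : X.presheaf ⟶ f.opensFunctor.op ⋙ Y.presheaf := { app U := (f.appIso U.unop).inv }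
  let φ : X.ringCatSheaf ⟶ (f.opensFunctor.sheafPushforwardContinuous _ _ _).obj Y.ringCatSheaf :=
    ⟨Functor.whiskerRight α (forget₂ CommRingCat RingCat)⟩
  exact (inferInstance : (SheafOfModules.pushforward.{0} φ).IsRightAdjoint)

noncomputable instance : PreservesFiniteLimits (Scheme.Modules.restrictFunctor f) := inferInstance

noncomputable instance : PreservesFiniteColimits (Scheme.Modules.restrictFunctor f) := inferInstance

noncomputable instance : (Scheme.Modules.restrictFunctor f).Additive :=
  have := Limits.preservesBinaryBiproducts_of_preservesBinaryCoproducts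
    (Scheme.Modules.restrictFunctor f)
  Functor.additive_of_preservesBinaryBiproducts _

end

/-- bounded complexes of finite free modules on `X` -/
def IsFF {X : Scheme.{0}} (K : CochainComplex X.Modules ℤ) : Prop :=
  (∃ a b : ℤ, K.IsStrictlyGE a ∧ K.IsStrictlyLE b) ∧
    ∀ n, ∃ m : ℕ, Nonempty (K.X n ≅ (SheafOfModules.free (R := X.ringCatSheaf) (Fin m) : X.Modules))

/-- perfect complexes: objects of the derived category of `O_X`-modules that are locally isomorphic
(in the derived category, i.e. quasi-isomorphic) to bounded complexes of finite free modules -/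
def IsPerfect (X : Scheme.{0}) : ObjectProperty (DerivedCategory X.Modules) := fun P =>
  ∀ x : X, ∃ U : X.Opens, x ∈ U ∧ ∃ K : CochainComplex (U : Scheme.{0}).Modules ℤ, IsFF K ∧
    Nonempty ((Scheme.Modules.restrictFunctor U.ι).mapDerivedCategory.obj P ≅
      DerivedCategory.Q.obj K)

/-- line bundles: modules that are locally isomorphic to the structure sheaf -/
def IsLineBundle {X : Scheme.{0}} (L : X.Modules) : Prop :=
  ∀ x : X, ∃ U : X.Opens, x ∈ U ∧
    Nonempty (L.restrict U.ι ≅ (SheafOfModules.unit _ : (U : Scheme.{0}).Modules))

/-- a module, as an object of the derived category -/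
noncomputable abbrev sg {X : Scheme.{0}} (L : X.Modules) : DerivedCategory X.Modules :=
  (DerivedCategory.singleFunctor X.Modules 0).obj L

/-- the property of being one of the two objects `A`, `B` -/
inductive Pair {C : Type*} (A B : C) : C → Prop
  | left : Pair A B A
  | right : Pair A B B

end Pool.H33.P
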