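import Mathlib
import Pool.Agent.H33.GP.Def

/-! Two line bundles generate the perfect complexes of the surface F_1, file A1 -/

section S_Def2

/-! # Auxiliary definitions for the proof -/

open CategoryTheory AlgebraicGeometry Limits TopologicalSpace

namespace Pool.H33.P

/-! ## Sections -/

section Sections
variable {X : Scheme.{0}}

/-- restriction of sections of a module -/
noncomputable def rs (M : X.Modules) {U V : X.Opens} (h : V ≤ U) (m : Γ(M, U)) : Γ(M, V) :=
  M.presheaf.map (homOfLE h).op m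

/-- restriction of functions -/
noncomputable def rf {U V : X.Opens} (h : V ≤ U) (f : Γ(X, U)) : Γ(X, V) :=
  X.presheaf.map (homOfLE h).op f

variable {ι : Type} (U : ι → X.Opens)

/-- a cocycle with values in the units -/
structure IsCocycle (c : ∀ l l', Γ(X, U l ⊓ U l')) : Prop where
  self : ∀ l, c l l = 1
  mul : ∀ l l' l'',
    rf (V := U l ⊓ U l' ⊓ U l'') inf_le_left (c l l') *
      rf (V := U l ⊓ U l' ⊓ U l'') (le_inf (inf_le_left.trans inf_le_right) inf_le_right) (c l' l'') =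
      rf (V := U l ⊓ U l' ⊓ U l'') (le_inf (inf_le_left.trans inf_le_left) inf_le_right) (c l l'')

/-- a section of the line bundle of the cocycle `c` -/
def IsSec (c : ∀ l l', Γ(X, U l ⊓ U l')) (s : ∀ l, Γ(X, U l)) : Prop :=
  ∀ l l', rf (V := U l ⊓ U l') inf_le_left (s l) =
    c l l' * rf (V := U l ⊓ U l') inf_le_right (s l')

/-- `L` is the line bundle of the cocycle `c`, with local generators `e` -/
structure IsTwist (c : ∀ l l', Γ(X, U l ⊓ U l')) (L : X.Modules) (e : ∀ l, Γ(L, U l)) : Prop where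
  bij : ∀ l (V : X.Opens) (h : V ≤ U l),
    Function.Bijective (fun f : Γ(X, V) => f • rs L h (e l))
  trans : ∀ l l', rs L (V := U l ⊓ U l') inf_le_right (e l') =
    c l l' • rs L (V := U l ⊓ U l') inf_le_left (e l)

/-- coherent modules (relative to the affine cover `U`) -/
structure IsCoh (M : X.Modules) : Prop where
  qc : M.IsQuasicoherent
  fin : ∀ l, Module.Finite Γ(X, U l) Γ(M, U l)

/-- vector bundles (relative to the affine cover `U`) -/
structure IsVB (M : X.Modules) : Prop where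
  qc : M.IsQuasicoherent
  fin : ∀ l, Module.Finite Γ(X, U l) Γ(M, U l)
  proj : ∀ l, Module.Projective Γ(X, U l) Γ(M, U l)

/-- exactness on sections over the opens `U l` -/
def SecExact (S : ShortComplex X.Modules) : Prop :=
  ∀ l, Function.Injective (S.f.app (U l)) ∧ Function.Exact (S.f.app (U l)) (S.g.app (U l)) ∧
    Function.Surjective (S.g.app (U l))

/-- `i` is a split monomorphism on each `U l` -/
def LocSplit {A B : X.Modules} (i : A ⟶ B) : Prop :=
  ∀ l, ∃ r : B.restrict (U l).ι ⟶ A.restrict (U l).ι,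
    (Scheme.Modules.restrictFunctor (U l).ι).map i ≫ r = 𝟙 _

/-- relative injectivity with respect to the locally split monomorphisms -/
def RelInj (J : X.Modules) : Prop :=
  ∀ (A B : X.Modules) (i : A ⟶ B), LocSplit U i → ∀ f : A ⟶ J, ∃ g : B ⟶ J, i ≫ g = f

end Sections

/-! ## The data of a Hirzebruch surface -/

/-- The structure on a scheme `X` that is used: four affine charts
`U 0 = {x0 ≠ 0, y ≠ 0}`, `U 1 = {x1 ≠ 0, y ≠ 0}`, `U 2 = {x0 ≠ 0, z ≠ 0}`, `U 3 = {x1 ≠ 0, z ≠ 0}`,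
line bundles `F` and `G` (cocycles `cF`, `cG`), sections `x0, x1` of `F`, `z` of `G` and `y` of `F + G`,
such that `x0, x1` and `y, z` have no common zeros. -/
structure ToricData (X : Scheme.{0}) where
  int : IsIntegral X
  U : Fin 4 → X.Opens
  aff : ∀ l, IsAffineOpen (U l)
  cov : ⨆ l, U l = ⊤
  inf12 : U 1 ⊓ U 2 = U 0 ⊓ U 3
  noeth : ∀ l, IsNoetherianRing Γ(X, U l)
  syz : ∀ l (m n : ℕ) (f : (Fin m → Γ(X, U l)) →ₗ[Γ(X, U l)] (Fin n → Γ(X, U l))),
    Module.Projective Γ(X, U l) (LinearMap.ker f)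
  cF : ∀ l l', Γ(X, U l ⊓ U l')ˣ
  cG : ∀ l l', Γ(X, U l ⊓ U l')ˣ
  cocF : IsCocycle U (fun l l' => (cF l l' : Γ(X, U l ⊓ U l')))
  cocG : IsCocycle U (fun l l' => (cG l l' : Γ(X, U l ⊓ U l')))
  x0 : ∀ l, Γ(X, U l)
  x1 : ∀ l, Γ(X, U l)
  y : ∀ l, Γ(X, U l)
  z : ∀ l, Γ(X, U l)
  sx0 : IsSec U (fun l l' => (cF l l' : Γ(X, U l ⊓ U l'))) x0
  sx1 : IsSec U (fun l l' => (cF l l' : Γ(X, U l ⊓ U l'))) x1
  sy : IsSec U (fun l l' => (cF l l' * cG l l' : Γ(X, U l ⊓ U l'))) y
  sz : IsSec U (fun l l' => (cG l l' : Γ(X, U l ⊓ U l'))) z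
  x00 : x0 0 = 1
  x02 : x0 2 = 1
  x11 : x1 1 = 1
  x13 : x1 3 = 1
  y0 : y 0 = 1
  y1 : y 1 = 1
  z2 : z 2 = 1
  z3 : z 3 = 1
  amp0 : ∀ l, U 0 ⊓ U l = X.basicOpen (x0 l * y l)
  amp1 : ∀ l, U 1 ⊓ U l = X.basicOpen (x1 l * y l)
  amp2 : ∀ l, U 2 ⊓ U l = X.basicOpen (x0 l * z l)
  amp3 : ∀ l, U 3 ⊓ U l = X.basicOpen (x1 l * z l)

/-- the cocycle of `a F + b G` -/
noncomputable def ToricData.c {X : Scheme.{0}} (T : ToricData X) (a b : ℤ) (l l' : Fin 4) :
    Γ(X, T.U l ⊓ T.U l') :=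
  ((T.cF l l' ^ a * T.cG l l' ^ b : Γ(X, T.U l ⊓ T.U l')ˣ) : Γ(X, T.U l ⊓ T.U l'))

/-- a family of line bundles `L a b` with cocycle `a F + b G` -/
structure LSys {X : Scheme.{0}} (T : ToricData X) where
  L : ℤ → ℤ → X.Modules
  e : ∀ a b l, Γ(L a b, T.U l)
  tw : ∀ a b, IsTwist T.U (T.c a b) (L a b) (e a b)

/-- finite direct sums of the line bundles -/
inductive IsFS {X : Scheme.{0}} {T : ToricData X} (S : LSys T) : X.Modules → Prop
  | zero (E : X.Modules) (h : IsZero E) : IsFS S E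
  | add (E : X.Modules) (a b : ℤ) (h : IsFS S E) : IsFS S (E ⊞ S.L a b)

end Pool.H33.P

end S_Def2

section S_TRI1

/-! # TRI1: two out of three and direct sums for triangulated properties of a derived category -/

open CategoryTheory Limits

namespace Pool.H33.P

universe w v u

variable {C : Type u} [Category.{v} C] [Abelian C] [HasDerivedCategory.{w} C]
  (Q : ObjectProperty (DerivedCategory C)) [Q.IsTriangulated] [Q.IsClosedUnderIsomorphisms]

/-- the single complex -/
noncomputable abbrev sgl {C : Type u} [Category.{v} C] [Abelian C] [HasDerivedCategory.{w} C]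
    (A : C) : DerivedCategory C := (DerivedCategory.singleFunctor C 0).obj A

/-- use `ShortComplex.ShortExact.singleTriangle_distinguished` and `Q.ext_of_isTriangulatedClosed₁` etc. -/
theorem ses1 {S : ShortComplex C} (hS : S.ShortExact) (h2 : Q (sgl S.X₂)) (h3 : Q (sgl S.X₃)) :
    Q (sgl S.X₁) :=
  Q.ext_of_isTriangulatedClosed₁ _ hS.singleTriangle_distinguished h2 h3

theorem ses2 {S : ShortComplex C} (hS : S.ShortExact) (h1 : Q (sgl S.X₁)) (h3 : Q (sgl S.X₃)) :
    Q (sgl S.X₂) :=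
  Q.ext_of_isTriangulatedClosed₂ _ hS.singleTriangle_distinguished h1 h3

theorem ses3 {S : ShortComplex C} (hS : S.ShortExact) (h1 : Q (sgl S.X₁)) (h2 : Q (sgl S.X₂)) :
    Q (sgl S.X₃) :=
  Q.ext_of_isTriangulatedClosed₃ _ hS.singleTriangle_distinguished h1 h2

theorem q_zero {A : C} (h : IsZero A) : Q (sgl A) := by
  have h0 : IsZero (sgl A) := Functor.map_isZero _ h
  obtain ⟨Z, hZ, hQ⟩ := Q.exists_prop_of_containsZero
  exact Q.prop_of_iso (hZ.iso h0) hQ

omit [Q.IsTriangulated] in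
theorem q_iso {A B : C} (e : A ≅ B) (h : Q (sgl A)) : Q (sgl B) :=
  Q.prop_of_iso ((DerivedCategory.singleFunctor C 0).mapIso e) h

theorem q_biprod {A B : C} (hA : Q (sgl A)) (hB : Q (sgl B)) : Q (sgl (A ⊞ B)) := by
  have hS : (ShortComplex.mk (biprod.inl : A ⟶ A ⊞ B) (biprod.snd : A ⊞ B ⟶ B) (by simp)).ShortExact :=
    { exact := ShortComplex.Splitting.exact
        { r := biprod.fst
          s := biprod.inr }
      mono_f := inferInstance
      epi_g := inferInstance }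
  exact ses2 Q hS hA hB

omit [Q.IsTriangulated] [Q.IsClosedUnderIsomorphisms] in
theorem q_left [Q.IsStableUnderRetracts] {A B : C} (h : Q (sgl (A ⊞ B))) : Q (sgl A) := by
  have r : Retract A (A ⊞ B) := ⟨biprod.inl, biprod.fst, by simp⟩
  exact Q.prop_of_retract (r.map (DerivedCategory.singleFunctor C 0)) h

omit [Q.IsTriangulated] [Q.IsClosedUnderIsomorphisms] in
theorem q_right [Q.IsStableUnderRetracts] {A B : C} (h : Q (sgl (A ⊞ B))) : Q (sgl B) := by
  have r : Retract B (A ⊞ B) := ⟨biprod.inr, biprod.snd, by simp⟩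
  exact Q.prop_of_retract (r.map (DerivedCategory.singleFunctor C 0)) h

end Pool.H33.P

end S_TRI1

section S_TRI2

/-! # TRI2: a bounded complex lies in `Q` if its cohomology objects do -/

open CategoryTheory Limits Pretriangulated

namespace Pool.H33.P

universe w v u

variable {C : Type u} [Category.{v} C] [Abelian C] [HasDerivedCategory.{w} C]
  (Q : ObjectProperty (DerivedCategory C)) [Q.IsTriangulated] [Q.IsClosedUnderIsomorphisms]

theorem tri2_iso1 (T : Triangle (DerivedCategory C)) (hT : T ∈ distTriang _) (i : ℤ)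
    (h3 : IsZero ((DerivedCategory.homologyFunctor C i).obj T.obj₃))
    (h3' : IsZero ((DerivedCategory.homologyFunctor C (i - 1)).obj T.obj₃)) :
    IsIso ((DerivedCategory.homologyFunctor C i).map T.mor₁) := by
  have h1 : Mono ((DerivedCategory.homologyFunctor C i).map T.mor₁) :=
    (DerivedCategory.HomologySequence.mono_homologyMap_mor₁_iff T hT (i - 1) i (by lia)).2
      (h3'.eq_of_src _ _)
  have h2 : Epi ((DerivedCategory.homologyFunctor C i).map T.mor₁) :=
    (DerivedCategory.HomologySequence.epi_homologyMap_mor₁_iff T hT i).2 (h3.eq_of_tgt _ _)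
  exact isIso_of_mono_of_epi _

theorem tri2_iso2 (T : Triangle (DerivedCategory C)) (hT : T ∈ distTriang _) (i : ℤ)
    (h1 : IsZero ((DerivedCategory.homologyFunctor C i).obj T.obj₁))
    (h1' : IsZero ((DerivedCategory.homologyFunctor C (i + 1)).obj T.obj₁)) :
    IsIso ((DerivedCategory.homologyFunctor C i).map T.mor₂) := by
  have e1 : Mono ((DerivedCategory.homologyFunctor C i).map T.mor₂) :=
    (DerivedCategory.HomologySequence.mono_homologyMap_mor₂_iff T hT i).2 (h1.eq_of_src _ _)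
  have e2 : Epi ((DerivedCategory.homologyFunctor C i).map T.mor₂) :=
    (DerivedCategory.HomologySequence.epi_homologyMap_mor₂_iff T hT i (i + 1) rfl).2
      (h1'.eq_of_tgt _ _)
  exact isIso_of_mono_of_epi _

theorem tri2_base (P : DerivedCategory C) (a : ℤ) (ha : P.IsGE a) (hb : P.IsLE a)
    (h : Q (sgl ((DerivedCategory.homologyFunctor C a).obj P))) : Q P := by
  obtain ⟨Y, ⟨e⟩⟩ := DerivedCategory.exists_iso_singleFunctor_obj_of_isGE_of_isLE P a
  have e1 : (DerivedCategory.homologyFunctor C a).obj P ≅ Y :=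
    (DerivedCategory.homologyFunctor C a).mapIso e ≪≫
      (DerivedCategory.singleFunctorCompHomologyFunctorIso C a).app Y
  have h1 : Q (sgl Y) := q_iso Q e1 h
  have e2 : ((DerivedCategory.singleFunctor C 0).obj Y)⟦(-a : ℤ)⟧ ≅
      (DerivedCategory.singleFunctor C a).obj Y :=
    ((DerivedCategory.singleFunctors C).shiftIso (-a) a 0 (by simp)).app Y
  exact Q.prop_of_iso (e2 ≪≫ e.symm) (Q.le_shift (-a) _ h1)

theorem tri2_ind (a : ℤ) (n : ℕ) : ∀ P : DerivedCategory C, P.IsGE a → P.IsLE (a + n) →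
    (∀ i : ℤ, Q (sgl ((DerivedCategory.homologyFunctor C i).obj P))) → Q P := by
  induction n with
  | zero =>
    intro P ha hb h
    exact tri2_base Q P a ha (by simpa using hb) (h a)
  | succ n ih =>
    intro P ha hb h
    obtain ⟨X, Y, hX, hY, f, g, δ, hT⟩ :=
      (DerivedCategory.TStructure.t (C := C)).exists_triangle P (a + n) (a + n + 1) rfl
    have hX' : X.IsLE (a + n) := ⟨hX⟩
    have hY' : Y.IsGE (a + n + 1) := ⟨hY⟩
    rw [DerivedCategory.isLE_iff] at hX' hb
    rw [DerivedCategory.isGE_iff] at hY' ha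
    have i1 : ∀ i : ℤ, i ≤ a + n → IsIso ((DerivedCategory.homologyFunctor C i).map f) :=
      fun i hi => tri2_iso1 _ hT i (hY' _ (by lia)) (hY' _ (by lia))
    have i2 : ∀ i : ℤ, a + n + 1 ≤ i → IsIso ((DerivedCategory.homologyFunctor C i).map g) :=
      fun i hi => tri2_iso2 _ hT i (hX' _ (by lia)) (hX' _ (by lia))
    have qX : Q X := by
      refine ih X ?_ ((DerivedCategory.isLE_iff _ _).2 hX') fun i => ?_
      · rw [DerivedCategory.isGE_iff]
        intro i hi
        have := i1 i (by lia)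
        exact (ha i hi).of_iso (asIso ((DerivedCategory.homologyFunctor C i).map f))
      · rcases le_or_gt i (a + n) with hi | hi
        · have := i1 i hi
          exact q_iso Q (asIso ((DerivedCategory.homologyFunctor C i).map f)).symm (h i)
        · exact q_zero Q (hX' i hi)
    have qY : Q Y := by
      refine tri2_base Q Y (a + n + 1) ((DerivedCategory.isGE_iff _ _).2 hY') ?_ ?_
      · rw [DerivedCategory.isLE_iff]
        intro i hi
        have := i2 i (by lia)
        exact (hb i (by push_cast; lia)).of_iso (asIso ((DerivedCategory.homologyFunctor C i).map g)).symm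
      · have := i2 (a + n + 1) le_rfl
        exact q_iso Q (asIso ((DerivedCategory.homologyFunctor C (a + n + 1)).map g)) (h _)
    exact Q.ext_of_isTriangulatedClosed₂ _ hT qX qY

/-- Induction on `b - a`: use the truncation triangles of the t-structure
`DerivedCategory.TStructure.t` (`exists_triangle`), `DerivedCategory.isGE_iff`, `isLE_iff`, the long
exact sequence (`DerivedCategory.HomologySequence`), and
`DerivedCategory.exists_iso_singleFunctor_obj_of_isGE_of_isLE`. -/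
theorem q_bounded (P : DerivedCategory C) (a b : ℤ) (ha : P.IsGE a) (hb : P.IsLE b)
    (h : ∀ i : ℤ, Q (sgl ((DerivedCategory.homologyFunctor C i).obj P))) : Q P := by
  refine tri2_ind Q a (b - a).toNat P ha ?_ h
  rw [DerivedCategory.isLE_iff] at hb ⊢
  intro i hi
  exact hb i (by have := Int.self_le_toNat (b - a); lia)

end Pool.H33.P

end S_TRI2

section S_TRI3

/-! # TRI3: an object with a finite relatively injective coresolution is a retract

Proof.  Let `d0 : V1 -> V0[1]`, `d1 : V2 -> V1[1]`, `d2 : V3 -> V2[1]` be the connecting maps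
(`ShortComplex.ShortExact.singleδ`) of the sequences `0 -> Vi -> Ei -> V(i+1) -> 0`.
(1) By naturality of the connecting maps (`ShortComplex.ShortExact.singleTriangle.map`, field `comm₃`) the
composite `V3 -> V2[1] -> V1[2] -> V0[3]` equals (connecting maps of the `J`-sequences) after
`V3 -> V2[1] -> W2[1]`, and `d2` followed by `w2[1]` is zero since `w2` extends along `i2`
(`a2`; consecutive maps of a distinguished triangle compose to zero).
(2) All three maps `d_i` have their cones in `Q`, hence also the composite (`ObjectProperty.trW`).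
(3) Since the composite `V3 -> V0[3]` is zero, its cone contains `V0[3]` as a retract. -/

open CategoryTheory Limits Pretriangulated

namespace Pool.H33.P

universe w v u

variable {C : Type u} [Category.{v} C] [Abelian C] [HasDerivedCategory.{w} C]
  (Q : ObjectProperty (DerivedCategory C)) [Q.IsTriangulated] [Q.IsStableUnderRetracts]

theorem tri3_unshift (A : DerivedCategory C) (h : Q (A⟦(1 : ℤ)⟧)) : Q A :=
  Q.prop_of_iso ((shiftEquiv (DerivedCategory C) (1 : ℤ)).unitIso.symm.app A) (Q.le_shift (-1) _ h)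

theorem tri3_trW {S : ShortComplex C} (hS : S.ShortExact) (h : Q (sgl S.X₂)) :
    Q.trW hS.singleδ :=
  ObjectProperty.trW.mk Q (T := hS.singleTriangle.rotate.rotate)
    (rot_of_distTriang _ (rot_of_distTriang _ hS.singleTriangle_distinguished)) (Q.le_shift 1 _ h)

/-- naturality of the connecting map -/
theorem tri3_nat {S S' : ShortComplex C} (h : S.ShortExact) (h' : S'.ShortExact) (f : S ⟶ S') :
    h.singleδ ≫ ((DerivedCategory.singleFunctor C 0).map f.τ₁)⟦(1 : ℤ)⟧' =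
      (DerivedCategory.singleFunctor C 0).map f.τ₃ ≫ h'.singleδ :=
  (ShortComplex.ShortExact.singleTriangle.map h h' f).comm₃

/-- the connecting map followed by the (shifted) first map is zero -/
theorem tri3_zero {S : ShortComplex C} (h : S.ShortExact) :
    h.singleδ ≫ ((DerivedCategory.singleFunctor C 0).map S.f)⟦(1 : ℤ)⟧' = 0 :=
  comp_distTriang_mor_zero₃₁ _ h.singleTriangle_distinguished

theorem tri3_retract {A B : DerivedCategory C} (f : A ⟶ B) (h : Q.trW f) (h0 : f = 0) : Q B := by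
  obtain ⟨Z, g, δ, hT, hZ⟩ := h
  have hm : Mono g := (Triangle.mk f g δ).mono₂ hT h0
  have : IsSplitMono g := isSplitMono_of_mono g
  exact Q.prop_of_retract ⟨g, retraction g, by simp⟩ hZ

theorem retract_chain {V0 V1 V2 V3 E0 E1 E2 J0 J1 W1 W2 : C}
    (i0 : V0 ⟶ E0) (p0 : E0 ⟶ V1) (z0 : i0 ≫ p0 = 0) (s0 : (ShortComplex.mk i0 p0 z0).ShortExact)
    (i1 : V1 ⟶ E1) (p1 : E1 ⟶ V2) (z1 : i1 ≫ p1 = 0) (s1 : (ShortComplex.mk i1 p1 z1).ShortExact)
    (i2 : V2 ⟶ E2) (p2 : E2 ⟶ V3) (z2 : i2 ≫ p2 = 0) (s2 : (ShortComplex.mk i2 p2 z2).ShortExact)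
    (j0 : V0 ⟶ J0) (r0 : J0 ⟶ W1) (y0 : j0 ≫ r0 = 0) (t0 : (ShortComplex.mk j0 r0 y0).ShortExact)
    (j1 : W1 ⟶ J1) (r1 : J1 ⟶ W2) (y1 : j1 ≫ r1 = 0) (t1 : (ShortComplex.mk j1 r1 y1).ShortExact)
    (a0 : E0 ⟶ J0) (h0 : i0 ≫ a0 = j0) (w1 : V1 ⟶ W1) (k0 : p0 ≫ w1 = a0 ≫ r0)
    (a1 : E1 ⟶ J1) (h1 : i1 ≫ a1 = w1 ≫ j1) (w2 : V2 ⟶ W2) (k1 : p1 ≫ w2 = a1 ≫ r1)
    (a2 : E2 ⟶ W2) (h2 : i2 ≫ a2 = w2)
    (q0 : Q (sgl E0)) (q1 : Q (sgl E1)) (q2 : Q (sgl E2)) : Q (sgl V0) := by
  let F0 : ShortComplex.mk i0 p0 z0 ⟶ ShortComplex.mk j0 r0 y0 :=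
    { τ₁ := 𝟙 _, τ₂ := a0, τ₃ := w1
      comm₁₂ := by simp [h0]
      comm₂₃ := by simp [k0] }
  let F1 : ShortComplex.mk i1 p1 z1 ⟶ ShortComplex.mk j1 r1 y1 :=
    { τ₁ := w1, τ₂ := a1, τ₃ := w2
      comm₁₂ := by simp [h1]
      comm₂₃ := by simp [k1] }
  have n0 : s0.singleδ = (DerivedCategory.singleFunctor C 0).map w1 ≫ t0.singleδ := by
    have := tri3_nat s0 t0 F0
    change s0.singleδ ≫ ((DerivedCategory.singleFunctor C 0).map (𝟙 V0))⟦(1 : ℤ)⟧' = _ at this
    rw [CategoryTheory.Functor.map_id, CategoryTheory.Functor.map_id] at this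
    exact (Category.comp_id _).symm.trans this
  have n1 : s1.singleδ ≫ ((DerivedCategory.singleFunctor C 0).map w1)⟦(1 : ℤ)⟧' =
      (DerivedCategory.singleFunctor C 0).map w2 ≫ t1.singleδ := tri3_nat s1 t1 F1
  have n2 : s2.singleδ ≫ ((DerivedCategory.singleFunctor C 0).map w2)⟦(1 : ℤ)⟧' = 0 := by
    have := tri3_zero s2
    rw [← h2, Functor.map_comp, Functor.map_comp]
    exact (Category.assoc _ _ _).symm.trans ((congrArg (· ≫ _) this).trans zero_comp)
  have m1 : s1.singleδ ≫ (s0.singleδ)⟦(1 : ℤ)⟧' =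
      (DerivedCategory.singleFunctor C 0).map w2 ≫ t1.singleδ ≫ (t0.singleδ)⟦(1 : ℤ)⟧' := by
    rw [n0, Functor.map_comp]
    exact (Category.assoc _ _ _).symm.trans ((congrArg (· ≫ _) n1).trans (Category.assoc _ _ _))
  have m2 : s2.singleδ ≫ (s1.singleδ ≫ (s0.singleδ)⟦(1 : ℤ)⟧')⟦(1 : ℤ)⟧' = 0 := by
    rw [m1, Functor.map_comp]
    exact (Category.assoc _ _ _).symm.trans ((congrArg (· ≫ _) n2).trans zero_comp)
  have c1 : Q.trW (s1.singleδ ≫ (s0.singleδ)⟦(1 : ℤ)⟧') :=
    Q.trW.comp_mem _ _ (tri3_trW Q s1 q1) ((tri3_trW Q s0 q0).shift 1)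
  have c2 : Q.trW (s2.singleδ ≫ (s1.singleδ ≫ (s0.singleδ)⟦(1 : ℤ)⟧')⟦(1 : ℤ)⟧') :=
    Q.trW.comp_mem _ _ (tri3_trW Q s2 q2) (c1.shift 1)
  exact tri3_unshift Q _ (tri3_unshift Q _ (tri3_unshift Q _ (tri3_retract Q _ c2 m2)))

end Pool.H33.P

end S_TRI3

section S_DIA

/-! # DIA: the total complex of a small double complex

`0 -> G -> X0 -> X1 -> 0`, `0 -> X0 -> P -> Q -> 0`, `0 -> X1 -> P' -> Q' -> 0` exact and a morphism from the
second sequence to the third over `X0 -> X1`.  Then `0 -> G -> P -> P' ⊞ Q -> Q' -> 0` is exact.  Take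
`W1 = cokernel (i ≫ a)` and for `j1` the map induced by `biprod.lift u b`. -/

open CategoryTheory Limits

namespace Pool.H33.P

universe v u

theorem total_exact {C : Type u} [Category.{v} C] [Abelian C] {G X0 X1 P Q P' Q' : C}
    (i : G ⟶ X0) (p : X0 ⟶ X1) (ip : i ≫ p = 0) (h1 : (ShortComplex.mk i p ip).ShortExact)
    (a : X0 ⟶ P) (b : P ⟶ Q) (ab : a ≫ b = 0) (h2 : (ShortComplex.mk a b ab).ShortExact)
    (a' : X1 ⟶ P') (b' : P' ⟶ Q') (ab' : a' ≫ b' = 0) (h3 : (ShortComplex.mk a' b' ab').ShortExact)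
    (u : P ⟶ P') (v : Q ⟶ Q') (hu : a ≫ u = p ≫ a') (hv : b ≫ v = u ≫ b') :
    ∃ (W1 : C) (r0 : P ⟶ W1) (j1 : W1 ⟶ P' ⊞ Q) (w0 : (i ≫ a) ≫ r0 = 0)
      (w1 : j1 ≫ biprod.desc b' (-v) = 0),
      (ShortComplex.mk (i ≫ a) r0 w0).ShortExact ∧
      (ShortComplex.mk j1 (biprod.desc b' (-v)) w1).ShortExact := by
  have mi : Mono i := h1.mono_f
  have ep : Epi p := h1.epi_g
  have ma : Mono a := h2.mono_f
  have eb : Epi b := h2.epi_g
  have ma' : Mono a' := h3.mono_f
  have eb' : Epi b' := h3.epi_g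
  have hz : (i ≫ a) ≫ biprod.lift u b = 0 := by
    ext
    · simp [hu, reassoc_of% ip]
    · simp [ab]
  have hw : biprod.lift u b ≫ biprod.desc b' (-v) = 0 := by
    rw [biprod.lift_desc, Preadditive.comp_neg, hv, add_neg_cancel]
  have hd : (biprod.desc b' (-v) : P' ⊞ Q ⟶ Q') = biprod.fst ≫ b' - biprod.snd ≫ v := by
    rw [biprod.desc_eq, Preadditive.comp_neg, sub_eq_add_neg]
  refine ⟨cokernel (i ≫ a), cokernel.π _, cokernel.desc _ (biprod.lift u b) hz,
    cokernel.condition _, ?_, ?_, ?_⟩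
  · rw [← cancel_epi (cokernel.π (i ≫ a)), cokernel.π_desc_assoc, hw, comp_zero]
  · exact { exact := ShortComplex.exact_cokernel _
            mono_f := mono_comp i a
            epi_g := inferInstance }
  · refine { exact := ?_, mono_f := ?_, epi_g := ?_ }
    · rw [ShortComplex.exact_iff_exact_up_to_refinements]
      intro Z z hzz
      change z ≫ biprod.desc b' (-v) = 0 at hzz
      obtain ⟨Z1, π1, hπ1, x, hx⟩ := surjective_up_to_refinements_of_epi b (z ≫ biprod.snd)
      have e1 : (π1 ≫ z ≫ biprod.fst - x ≫ u) ≫ b' = 0 := by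
        have e2 : z ≫ biprod.fst ≫ b' = z ≫ biprod.snd ≫ v := by
          rw [← sub_eq_zero, ← Preadditive.comp_sub, ← hd]
          exact hzz
        rw [Preadditive.sub_comp, Category.assoc, Category.assoc, Category.assoc, e2, ← hv,
          ← reassoc_of% hx, sub_self]
      obtain ⟨Z2, π2, hπ2, y, hy⟩ := h3.exact.exact_up_to_refinements _ e1
      obtain ⟨Z3, π3, hπ3, t, ht⟩ := surjective_up_to_refinements_of_epi p y
      refine ⟨Z3, π3 ≫ π2 ≫ π1, inferInstance, (π3 ≫ π2 ≫ x + t ≫ a) ≫ cokernel.π _, ?_⟩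
      change (π3 ≫ π2 ≫ π1) ≫ z = ((π3 ≫ π2 ≫ x + t ≫ a) ≫ cokernel.π (i ≫ a)) ≫
        cokernel.desc _ (biprod.lift u b) hz
      rw [Category.assoc _ (cokernel.π (i ≫ a)), cokernel.π_desc]
      change π2 ≫ (π1 ≫ z ≫ biprod.fst - x ≫ u) = y ≫ a' at hy
      ext
      · have e3 : π3 ≫ π2 ≫ (π1 ≫ z ≫ biprod.fst - x ≫ u) = t ≫ a ≫ u := by
          rw [hy, reassoc_of% ht, hu]
        rw [Preadditive.comp_sub, Preadditive.comp_sub, sub_eq_iff_eq_add] at e3
        simp only [Category.assoc, biprod.lift_fst, Preadditive.add_comp, e3]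
        rw [add_comm]
      · simp only [Category.assoc, biprod.lift_snd, Preadditive.add_comp, ab, comp_zero, add_zero, hx]
    · refine Preadditive.mono_of_cancel_zero _ fun {Z} g hg => ?_
      obtain ⟨Z1, π1, hπ1, x, hx⟩ := surjective_up_to_refinements_of_epi (cokernel.π (i ≫ a)) g
      have e0 : x ≫ biprod.lift u b = 0 := by
        have : π1 ≫ g ≫ cokernel.desc _ (biprod.lift u b) hz = 0 := by rw [hg, comp_zero]
        rw [reassoc_of% hx, cokernel.π_desc] at this
        exact this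
      have e1 : x ≫ u = 0 := by
        have := congrArg (· ≫ biprod.fst) e0
        simpa using this
      have e2 : x ≫ b = 0 := by
        have := congrArg (· ≫ biprod.snd) e0
        simpa using this
      obtain ⟨y, hy⟩ := h2.exact.lift' x e2
      change y ≫ a = x at hy
      have e3 : y ≫ p = 0 := by
        rw [← cancel_mono a', Category.assoc, ← hu, reassoc_of% hy, e1, zero_comp]
      obtain ⟨t, ht⟩ := h1.exact.lift' y e3
      change t ≫ i = y at ht
      have hc := cokernel.condition (i ≫ a)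
      rw [Category.assoc] at hc
      rw [← cancel_epi π1, hx, ← hy, ← ht, Category.assoc, Category.assoc, hc]
      exact comp_zero.trans comp_zero.symm
    · have : Epi (biprod.inl ≫ biprod.desc b' (-v)) := by rw [biprod.inl_desc]; exact eb'
      exact epi_of_epi biprod.inl _

end Pool.H33.P

end S_DIA

section S_LZ

/-! # LZ: local nature of zero objects, monomorphisms, epimorphisms, exactness in `X.Modules`

`isZero_of_cover`: sections of a sheaf over `V` are determined by their restrictions to `V ⊓ U i`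
(`Scheme.Modules.isSheaf`, `TopCat.Sheaf.eq_of_locally_eq'`), and `Γ(M.restrict (U i).ι, W) = Γ(M, (U i).ι ''ᵁ W)`.
The other statements follow since the restriction functors are exact (instances in `Def.lean`):
apply `isZero_of_cover` to kernel, cokernel, homology. -/

open CategoryTheory AlgebraicGeometry Limits TopologicalSpace

namespace Pool.H33.P

variable {X : Scheme.{0}} {ι : Type} (U : ι → X.Opens) (hU : ⨆ i, U i = ⊤)
include hU

theorem isZero_of_cover (M : X.Modules) (h : ∀ i, IsZero (M.restrict (U i).ι)) : IsZero M := by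
  rw [IsZero.iff_id_eq_zero]
  apply Scheme.Modules.hom_ext
  intro V
  ext m
  change m = 0
  let F : TopCat.Sheaf Ab X := ⟨M.presheaf, M.isSheaf⟩
  let W : ι → X.Opens := fun i => (U i).ι ''ᵁ ((U i).ι ⁻¹ᵁ V)
  have hW : ∀ i, W i = U i ⊓ V := fun i => by
    change (U i).ι ''ᵁ ((U i).ι ⁻¹ᵁ V) = _
    rw [Scheme.Hom.image_preimage_eq_opensRange_inf, Scheme.Opens.opensRange_ι]
  refine F.eq_of_locally_eq' W V (fun i => homOfLE (by rw [hW]; exact inf_le_right)) ?_ _ _ fun i => ?_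
  · intro x hx
    have : x ∈ (⨆ i, U i : X.Opens) := by rw [hU]; trivial
    obtain ⟨i, hi⟩ := Opens.mem_iSup.1 this
    exact Opens.mem_iSup.2 ⟨i, by rw [hW]; exact ⟨hi, hx⟩⟩
  · have key : ∀ s : Γ(M, W i), s = 0 := by
      intro s
      have e : (𝟙 (M.restrict (U i).ι) : _ ⟶ _) = 0 := (IsZero.iff_id_eq_zero _).1 (h i)
      have e' := congrArg (fun f => Scheme.Modules.Hom.app f ((U i).ι ⁻¹ᵁ V) s) e
      exact e'
    exact (key _).trans (key _).symm

theorem epi_of_cover {M N : X.Modules} (f : M ⟶ N)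
    (h : ∀ i, Epi ((Scheme.Modules.restrictFunctor (U i).ι).map f)) : Epi f := by
  refine Preadditive.epi_of_isZero_cokernel f (isZero_of_cover U hU _ fun i => ?_)
  have := h i
  have e : (Scheme.Modules.restrictFunctor (U i).ι).obj (cokernel f) ≅
      cokernel ((Scheme.Modules.restrictFunctor (U i).ι).map f) :=
    PreservesCokernel.iso (Scheme.Modules.restrictFunctor (U i).ι) f
  exact (isZero_cokernel_of_epi _).of_iso e

theorem mono_of_cover {M N : X.Modules} (f : M ⟶ N)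
    (h : ∀ i, Mono ((Scheme.Modules.restrictFunctor (U i).ι).map f)) : Mono f := by
  refine Preadditive.mono_of_isZero_kernel f (isZero_of_cover U hU _ fun i => ?_)
  have := h i
  have e : (Scheme.Modules.restrictFunctor (U i).ι).obj (kernel f) ≅
      kernel ((Scheme.Modules.restrictFunctor (U i).ι).map f) :=
    PreservesKernel.iso (Scheme.Modules.restrictFunctor (U i).ι) f
  exact (isZero_kernel_of_mono _).of_iso e

theorem isIso_of_cover {M N : X.Modules} (f : M ⟶ N)
    (h : ∀ i, IsIso ((Scheme.Modules.restrictFunctor (U i).ι).map f)) : IsIso f := by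
  have h1 : Mono f := mono_of_cover U hU f fun i => by have := h i; infer_instance
  have h2 : Epi f := epi_of_cover U hU f fun i => by have := h i; infer_instance
  exact isIso_of_mono_of_epi f

theorem exact_of_cover (S : ShortComplex X.Modules)
    (h : ∀ i, (S.map (Scheme.Modules.restrictFunctor (U i).ι)).Exact) : S.Exact := by
  rw [ShortComplex.exact_iff_isZero_homology]
  refine isZero_of_cover U hU _ fun i => ?_
  have h1 := (ShortComplex.exact_iff_isZero_homology _).1 (h i)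
  exact h1.of_iso (S.mapHomologyIso (Scheme.Modules.restrictFunctor (U i).ι)).symm

end Pool.H33.P

end S_LZ

section S_KOP

/-! # KOP: the functors `G ↦ j_* j^* G` and their relative injectivity

`Γ(K V G, W) = Γ(G, W ⊓ V)` up to equality of opens.  Adjunction: `Scheme.Modules.restrictAdjunction`. -/

open CategoryTheory AlgebraicGeometry Limits TopologicalSpace

namespace Pool.H33.P

variable {X : Scheme.{0}} {ι : Type} (U : ι → X.Opens)

/-- `j_* j^*` for the inclusion `j` of `V` -/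
noncomputable def KF (V : X.Opens) : X.Modules ⥤ X.Modules :=
  Scheme.Modules.restrictFunctor V.ι ⋙ Scheme.Modules.pushforward V.ι

/-- restriction in two steps, as functors -/
noncomputable def kop_iso {U V : X.Opens} (h : V ≤ U) :
    Scheme.Modules.restrictFunctor V.ι ≅
      Scheme.Modules.restrictFunctor U.ι ⋙ Scheme.Modules.restrictFunctor (X.homOfLE h) :=
  Scheme.Modules.restrictFunctorCongr (X.homOfLE_ι h).symm ≪≫
    Scheme.Modules.restrictFunctorComp (X.homOfLE h) U.ι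

theorem kop_retraction {U V : X.Opens} (h : V ≤ U) {A B : X.Modules} (i : A ⟶ B)
    (r : B.restrict U.ι ⟶ A.restrict U.ι)
    (hr : (Scheme.Modules.restrictFunctor U.ι).map i ≫ r = 𝟙 _) :
    ∃ r' : B.restrict V.ι ⟶ A.restrict V.ι,
      (Scheme.Modules.restrictFunctor V.ι).map i ≫ r' = 𝟙 _ := by
  refine ⟨(kop_iso h).hom.app B ≫ (Scheme.Modules.restrictFunctor (X.homOfLE h)).map r ≫
    (kop_iso h).inv.app A, ?_⟩
  have e : (Scheme.Modules.restrictFunctor (X.homOfLE h)).map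
        ((Scheme.Modules.restrictFunctor U.ι).map i) ≫
      (Scheme.Modules.restrictFunctor (X.homOfLE h)).map r = 𝟙 _ := by
    rw [← Functor.map_comp, hr]
    exact CategoryTheory.Functor.map_id _ _
  rw [(kop_iso h).hom.naturality_assoc, Functor.comp_map, reassoc_of% e]
  exact (kop_iso h).hom_inv_id_app A

theorem relInj_KF {V : X.Opens} (h : ∃ l, V ≤ U l) (G : X.Modules) : RelInj U ((KF V).obj G) := by
  obtain ⟨l, hl⟩ := h
  intro A B i hi f
  obtain ⟨r, hr⟩ := hi l
  obtain ⟨r', hr'⟩ := kop_retraction hl i r hr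
  let adj := Scheme.Modules.restrictAdjunction V.ι
  let f' : A.restrict V.ι ⟶ G.restrict V.ι := (adj.homEquiv A (G.restrict V.ι)).symm f
  refine ⟨adj.homEquiv B (G.restrict V.ι) (r' ≫ f'), ?_⟩
  have e := adj.homEquiv_naturality_left i (r' ≫ f')
  rw [reassoc_of% hr'] at e
  exact e.symm.trans ((adj.homEquiv A (G.restrict V.ι)).apply_symm_apply f)

theorem relInj_biprod {A B : X.Modules} (hA : RelInj U A) (hB : RelInj U B) :
    RelInj U (A ⊞ B) := by
  intro A' B' i hi f
  obtain ⟨g1, h1⟩ := hA A' B' i hi (f ≫ biprod.fst)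
  obtain ⟨g2, h2⟩ := hB A' B' i hi (f ≫ biprod.snd)
  refine ⟨biprod.lift g1 g2, ?_⟩
  apply biprod.hom_ext
  · rw [Category.assoc, biprod.lift_fst, h1]
  · rw [Category.assoc, biprod.lift_snd, h2]

theorem relInj_iso {A B : X.Modules} (e : A ≅ B) (hA : RelInj U A) : RelInj U B := by
  intro A' B' i hi f
  obtain ⟨g, h⟩ := hA A' B' i hi (f ≫ e.inv)
  exact ⟨g ≫ e.hom, by rw [reassoc_of% h, e.inv_hom_id, Category.comp_id]⟩

end Pool.H33.P

end S_KOP

section S_MVJ

/-! # MVJ: a relatively injective coresolution of length two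

For opens `A, B` with `C = A ⊔ B` and a module `G` the Mayer-Vietoris sequence
`0 -> K C G -> K A G ⊞ K B G -> K (A ⊓ B) G -> 0` is exact (for every module: it is left exact by the sheaf
axiom, and on opens `W ≤ A` the map `K B G -> K (A ⊓ B) G` is an isomorphism on sections over `W`; same for `B`;
outside of `C` everything vanishes locally - only needed for `C = ⊤` and for `C = A i = (A i ⊓ B0) ⊔ (A i ⊓ B1)`,
where one argues on opens `W` contained in `B0` or in `B1`).  Apply `total_exact` with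
`X0 = K A0 G ⊞ K A1 G`, `X1 = K (A0 ⊓ A1) G`, `P = ⊕ K (Ai ⊓ Bj) G`, `Q = ⊕ K (Ai ⊓ B0 ⊓ B1) G`,
`P' = ⊕ K (A0 ⊓ A1 ⊓ Bj) G`, `Q' = K (A0 ⊓ A1 ⊓ B0 ⊓ B1) G`. -/

open CategoryTheory AlgebraicGeometry Limits TopologicalSpace

namespace Pool.H33.P

/-! ### a category lemma -/

/-- A commutative square in which `a` and `d` are isomorphisms after `R` gives a split sequence. -/
theorem mvj_split1 {C D : Type*} [Category* C] [Category* D] [Abelian C] [Abelian D]
    (R : C ⥤ D) [R.Additive] {G X Y Z : C} (a : G ⟶ X) (b : G ⟶ Y) (c : X ⟶ Z) (d : Y ⟶ Z)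
    (w : a ≫ c = b ≫ d) (w' : biprod.lift a b ≫ biprod.desc c (-d) = 0)
    [ha : IsIso (R.map a)] [hd : IsIso (R.map d)] :
    Nonempty ((ShortComplex.mk _ _ w').map R).Splitting := by
  have hw : R.map a ≫ R.map c = R.map b ≫ R.map d := by
    rw [← R.map_comp, ← R.map_comp, w]
  let r : R.obj (X ⊞ Y) ⟶ R.obj G := R.map biprod.fst ≫ inv (R.map a)
  let s : R.obj Z ⟶ R.obj (X ⊞ Y) := -(inv (R.map d) ≫ R.map biprod.inr)
  have e1 : R.map (biprod.lift a b) ≫ r = 𝟙 _ := by
    show R.map (biprod.lift a b) ≫ R.map biprod.fst ≫ inv (R.map a) = 𝟙 _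
    rw [← Category.assoc, ← R.map_comp, biprod.lift_fst, IsIso.hom_inv_id]
  have e2 : s ≫ R.map (biprod.desc c (-d)) = 𝟙 _ := by
    show (-(inv (R.map d) ≫ R.map biprod.inr)) ≫ R.map (biprod.desc c (-d)) = 𝟙 _
    rw [Preadditive.neg_comp, Category.assoc, ← R.map_comp, biprod.inr_desc, R.map_neg,
      Preadditive.comp_neg, IsIso.inv_hom_id, neg_neg]
  have e3 : r ≫ R.map (biprod.lift a b) + R.map (biprod.desc c (-d)) ≫ s = 𝟙 (R.obj (X ⊞ Y)) := by
    show (R.map biprod.fst ≫ inv (R.map a)) ≫ R.map (biprod.lift a b) +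
      R.map (biprod.desc c (-d)) ≫ (-(inv (R.map d) ≫ R.map biprod.inr)) = 𝟙 (R.obj (X ⊞ Y))
    have h1 : biprod.lift a b = a ≫ biprod.inl + b ≫ biprod.inr := by
      ext <;> simp
    have h2 : biprod.desc c (-d) = biprod.fst ≫ c - biprod.snd ≫ d := by
      ext <;> simp
    have h3 : 𝟙 (R.obj (X ⊞ Y)) = R.map biprod.fst ≫ R.map biprod.inl +
        R.map biprod.snd ≫ R.map biprod.inr := by
      rw [← R.map_comp, ← R.map_comp, ← R.map_add, biprod.total, R.map_id]
    have h4 : inv (R.map a) ≫ R.map b = R.map c ≫ inv (R.map d) := by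
      rw [IsIso.inv_comp_eq, ← Category.assoc, IsIso.eq_comp_inv, hw]
    rw [h1, h2, h3, R.map_add, R.map_sub, R.map_comp, R.map_comp, R.map_comp, R.map_comp]
    simp only [Category.assoc, Preadditive.comp_add, Preadditive.sub_comp, Preadditive.comp_neg,
      IsIso.inv_hom_id_assoc, IsIso.hom_inv_id_assoc]
    rw [← Category.assoc (inv (R.map a)), h4]
    simp only [Category.assoc]
    abel
  exact ⟨⟨r, s, e1, e2, e3⟩⟩

theorem mvj_split2 {C D : Type*} [Category* C] [Category* D] [Abelian C] [Abelian D]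
    (R : C ⥤ D) [R.Additive] {G X Y Z : C} (a : G ⟶ X) (b : G ⟶ Y) (c : X ⟶ Z) (d : Y ⟶ Z)
    (w : a ≫ c = b ≫ d) (w' : biprod.lift a b ≫ biprod.desc c (-d) = 0)
    [hb : IsIso (R.map b)] [hc : IsIso (R.map c)] :
    Nonempty ((ShortComplex.mk _ _ w').map R).Splitting := by
  have hw : R.map a ≫ R.map c = R.map b ≫ R.map d := by
    rw [← R.map_comp, ← R.map_comp, w]
  let r : R.obj (X ⊞ Y) ⟶ R.obj G := R.map biprod.snd ≫ inv (R.map b)
  let s : R.obj Z ⟶ R.obj (X ⊞ Y) := inv (R.map c) ≫ R.map biprod.inl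
  have e1 : R.map (biprod.lift a b) ≫ r = 𝟙 _ := by
    show R.map (biprod.lift a b) ≫ R.map biprod.snd ≫ inv (R.map b) = 𝟙 _
    rw [← Category.assoc, ← R.map_comp, biprod.lift_snd, IsIso.hom_inv_id]
  have e2 : s ≫ R.map (biprod.desc c (-d)) = 𝟙 _ := by
    show (inv (R.map c) ≫ R.map biprod.inl) ≫ R.map (biprod.desc c (-d)) = 𝟙 _
    rw [Category.assoc, ← R.map_comp, biprod.inl_desc, IsIso.inv_hom_id]
  have e3 : r ≫ R.map (biprod.lift a b) + R.map (biprod.desc c (-d)) ≫ s = 𝟙 (R.obj (X ⊞ Y)) := by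
    show (R.map biprod.snd ≫ inv (R.map b)) ≫ R.map (biprod.lift a b) +
      R.map (biprod.desc c (-d)) ≫ (inv (R.map c) ≫ R.map biprod.inl) = 𝟙 (R.obj (X ⊞ Y))
    have h1 : biprod.lift a b = a ≫ biprod.inl + b ≫ biprod.inr := by
      ext <;> simp
    have h2 : biprod.desc c (-d) = biprod.fst ≫ c - biprod.snd ≫ d := by
      ext <;> simp
    have h3 : 𝟙 (R.obj (X ⊞ Y)) = R.map biprod.fst ≫ R.map biprod.inl +
        R.map biprod.snd ≫ R.map biprod.inr := by
      rw [← R.map_comp, ← R.map_comp, ← R.map_add, biprod.total, R.map_id]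
    have h4 : inv (R.map b) ≫ R.map a = R.map d ≫ inv (R.map c) := by
      rw [IsIso.inv_comp_eq, ← Category.assoc, IsIso.eq_comp_inv, hw]
    rw [h1, h2, h3, R.map_add, R.map_sub, R.map_comp, R.map_comp, R.map_comp, R.map_comp]
    simp only [Category.assoc, Preadditive.comp_add, Preadditive.sub_comp,
      IsIso.inv_hom_id_assoc, IsIso.hom_inv_id_assoc]
    rw [← Category.assoc (inv (R.map b)), h4]
    simp only [Category.assoc]
    abel
  exact ⟨⟨r, s, e1, e2, e3⟩⟩

variable {X : Scheme.{0}}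

/-- the additive structure of `KF` -/
noncomputable instance mvj_additive (V : X.Opens) : (KF V).Additive := by
  unfold KF
  infer_instance

/-- the unit `G ⟶ j_* j^* G` -/
noncomputable def mvj_unit (V : X.Opens) : 𝟭 X.Modules ⟶ KF V :=
  (Scheme.Modules.restrictAdjunction V.ι).unit

theorem mvj_isIso_map (M : X.Modules) {U V : X.Opens} (h : V ≤ U) (h' : U ≤ V) :
    IsIso (M.presheaf.map (homOfLE h).op) := by
  have : U = V := le_antisymm h' h
  subst this
  have e : (homOfLE h) = 𝟙 U := rfl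
  rw [e, op_id, M.presheaf.map_id]
  infer_instance

theorem mvj_img (V W : X.Opens) : V.ι ''ᵁ (V.ι ⁻¹ᵁ W) = V ⊓ W := by
  rw [Scheme.Hom.image_preimage_eq_opensRange_inf, Scheme.Opens.opensRange_ι]

theorem mvj_img_le (V : X.Opens) (W : (V : Scheme.{0}).Opens) : V.ι ''ᵁ W ≤ V := by
  have := Scheme.Hom.image_le_opensRange V.ι W
  rwa [Scheme.Opens.opensRange_ι] at this

/-- `M` is supported on `V` (that is, `M` is the push-forward of its restriction to `V`) -/
def MvjSupp (V : X.Opens) (M : X.Modules) : Prop :=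
  ∀ (W W' : X.Opens) (h : W' ≤ W), V ⊓ W ≤ W' → IsIso (M.presheaf.map (homOfLE h).op)

theorem mvj_t1 (V : X.Opens) (M : X.Modules) {W W' : X.Opens} (h : W' ≤ W)
    (h' : V.ι ''ᵁ (V.ι ⁻¹ᵁ W') ≤ V.ι ''ᵁ (V.ι ⁻¹ᵁ W))
    (hi : IsIso (M.presheaf.map (homOfLE h').op)) :
    IsIso (((KF V).obj M).presheaf.map (homOfLE h).op) := hi

theorem mvj_supp_KF (V : X.Opens) (M : X.Modules) : MvjSupp V ((KF V).obj M) := by
  intro W W' h hW
  have h1 : V.ι ''ᵁ (V.ι ⁻¹ᵁ W') ≤ V.ι ''ᵁ (V.ι ⁻¹ᵁ W) := by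
    rw [mvj_img, mvj_img]
    exact inf_le_inf_left _ h
  have h2 : V.ι ''ᵁ (V.ι ⁻¹ᵁ W) ≤ V.ι ''ᵁ (V.ι ⁻¹ᵁ W') := by
    rw [mvj_img, mvj_img]
    exact le_inf inf_le_left hW
  exact mvj_t1 V M h h1 (mvj_isIso_map M h1 h2)

theorem mvj_supp_KF' (V B : X.Opens) (M : X.Modules) (hM : MvjSupp V M) :
    MvjSupp (V ⊓ B) ((KF B).obj M) := by
  intro W W' h hW
  have h1 : B.ι ''ᵁ (B.ι ⁻¹ᵁ W') ≤ B.ι ''ᵁ (B.ι ⁻¹ᵁ W) := by
    rw [mvj_img, mvj_img]
    exact inf_le_inf_left _ h
  refine mvj_t1 B M h h1 (hM _ _ h1 ?_)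
  rw [mvj_img, mvj_img]
  exact le_inf (inf_le_right.trans inf_le_left) ((inf_assoc _ _ _).symm.le.trans hW)

theorem mvj_supp_mono {V V' : X.Opens} (h : V ≤ V') (M : X.Modules) (hM : MvjSupp V M) :
    MvjSupp V' M :=
  fun W W' hW h' => hM W W' hW ((inf_le_inf_right _ h).trans h')

theorem mvj_isIso_unit (V : X.Opens) (M : X.Modules) (hM : MvjSupp V M) :
    IsIso ((mvj_unit V).app M) := by
  rw [Scheme.Modules.Hom.isIso_iff_isIso_app]
  intro W
  have h := hM W (V.ι ''ᵁ (V.ι ⁻¹ᵁ W)) (V.ι.image_preimage_le W) (mvj_img V W).ge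
  exact h

theorem mvj_relInj {ι : Type} (U : ι → X.Opens) {V : X.Opens} (h : ∃ l, V ≤ U l) (M : X.Modules)
    (hM : MvjSupp V M) : RelInj U M := by
  have := mvj_isIso_unit V M hM
  exact relInj_iso U (asIso ((mvj_unit V).app M)).symm (relInj_KF U h M)

/-- unit is an isomorphism after restriction -/
theorem mvj_isIso_restrict_unit (V : X.Opens) (M : X.Modules) :
    IsIso ((Scheme.Modules.restrictFunctor V.ι).map ((mvj_unit V).app M)) := by
  rw [Scheme.Modules.Hom.isIso_iff_isIso_app]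
  intro W
  have h1 : V.ι ''ᵁ (V.ι ⁻¹ᵁ (V.ι ''ᵁ W)) ≤ V.ι ''ᵁ W := by
    rw [mvj_img]
    exact inf_le_right
  have h2 : V.ι ''ᵁ W ≤ V.ι ''ᵁ (V.ι ⁻¹ᵁ (V.ι ''ᵁ W)) := by
    rw [mvj_img]
    exact le_inf (mvj_img_le V W) le_rfl
  have h3 := mvj_isIso_map M h1 h2
  exact h3

theorem mvj_isIso_restrict_KF_unit (V A : X.Opens) (M : X.Modules) :
    IsIso ((Scheme.Modules.restrictFunctor V.ι).map ((KF A).map ((mvj_unit V).app M))) := by
  rw [Scheme.Modules.Hom.isIso_iff_isIso_app]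
  intro W
  have h1 : V.ι ''ᵁ (V.ι ⁻¹ᵁ (A.ι ''ᵁ (A.ι ⁻¹ᵁ (V.ι ''ᵁ W)))) ≤ A.ι ''ᵁ (A.ι ⁻¹ᵁ (V.ι ''ᵁ W)) := by
    rw [mvj_img, mvj_img]
    exact inf_le_right
  have h2 : A.ι ''ᵁ (A.ι ⁻¹ᵁ (V.ι ''ᵁ W)) ≤ V.ι ''ᵁ (V.ι ⁻¹ᵁ (A.ι ''ᵁ (A.ι ⁻¹ᵁ (V.ι ''ᵁ W)))) := by
    rw [mvj_img, mvj_img]
    exact le_inf (inf_le_right.trans (mvj_img_le V W)) le_rfl
  have h3 := mvj_isIso_map M h1 h2
  exact h3

theorem mvj_sq (A B : X.Opens) (M : X.Modules) :
    (mvj_unit A).app M ≫ (KF A).map ((mvj_unit B).app M) =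
      (mvj_unit B).app M ≫ (mvj_unit A).app ((KF B).obj M) :=
  ((mvj_unit A).naturality ((mvj_unit B).app M)).symm

theorem mvj_zero (A B : X.Opens) (M : X.Modules) :
    biprod.lift ((mvj_unit A).app M) ((mvj_unit B).app M) ≫
      biprod.desc ((KF A).map ((mvj_unit B).app M)) (-((mvj_unit A).app ((KF B).obj M))) = 0 := by
  rw [biprod.lift_desc, Preadditive.comp_neg, mvj_sq A B M]
  exact add_neg_cancel _

/-- the Mayer-Vietoris sequence of `A ⊔ B = ⊤` -/
theorem mvj_exact (A B : X.Opens) (hAB : A ⊔ B = ⊤) (M : X.Modules) :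
    (ShortComplex.mk _ _ (mvj_zero A B M)).ShortExact := by
  let U : Bool → X.Opens := fun b => if b then A else B
  have hU : ⨆ b, U b = ⊤ := by
    rw [iSup_bool_eq]
    exact hAB
  have key : ∀ b, Nonempty ((ShortComplex.mk _ _ (mvj_zero A B M)).map
      (Scheme.Modules.restrictFunctor (U b).ι)).Splitting := by
    intro b
    cases b
    · have i1 := mvj_isIso_restrict_unit B M
      have i2 := mvj_isIso_restrict_KF_unit B A M
      exact mvj_split2 (Scheme.Modules.restrictFunctor B.ι) _ _ _ _ (mvj_sq A B M) _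
    · have i1 := mvj_isIso_restrict_unit A M
      have i2 := mvj_isIso_restrict_unit A ((KF B).obj M)
      exact mvj_split1 (Scheme.Modules.restrictFunctor A.ι) _ _ _ _ (mvj_sq A B M) _
  have h1 := mono_of_cover U hU (ShortComplex.mk _ _ (mvj_zero A B M)).f
    (fun b => (key b).some.mono_f)
  have h2 := epi_of_cover U hU (ShortComplex.mk _ _ (mvj_zero A B M)).g
    (fun b => (key b).some.epi_g)
  exact ⟨exact_of_cover U hU _ (fun b => (key b).some.exact)⟩

theorem mvj_relInj_biprod {ι : Type} (U : ι → X.Opens) (B : X.Opens) {A0 A1 : X.Opens}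
    {M0 M1 : X.Modules} (h0 : MvjSupp A0 M0) (h1 : MvjSupp A1 M1)
    (h00 : ∃ l, A0 ⊓ B ≤ U l) (h10 : ∃ l, A1 ⊓ B ≤ U l) :
    RelInj U ((KF B).obj (M0 ⊞ M1)) := by
  have : PreservesBinaryBiproducts (KF B) := preservesBinaryBiproducts_of_preservesBiproducts _
  refine relInj_iso U ((KF B).mapBiprod M0 M1).symm (relInj_biprod U ?_ ?_)
  · exact mvj_relInj U h00 _ (mvj_supp_KF' A0 B M0 h0)
  · exact mvj_relInj U h10 _ (mvj_supp_KF' A1 B M1 h1)

theorem mvj_relInj_biprod2 {ι : Type} (U : ι → X.Opens) (B B' : X.Opens) {A0 A1 : X.Opens}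
    {M0 M1 : X.Modules} (h0 : MvjSupp A0 M0) (h1 : MvjSupp A1 M1)
    (h00 : ∃ l, A0 ⊓ B' ≤ U l) (h10 : ∃ l, A1 ⊓ B' ≤ U l) :
    RelInj U ((KF B).obj ((KF B').obj (M0 ⊞ M1))) := by
  have : PreservesBinaryBiproducts (KF B') := preservesBinaryBiproducts_of_preservesBiproducts _
  refine relInj_iso U ((KF B).mapIso ((KF B').mapBiprod M0 M1)).symm ?_
  refine mvj_relInj_biprod U B (mvj_supp_KF' A0 B' M0 h0) (mvj_supp_KF' A1 B' M1 h1) ?_ ?_
  · exact h00.imp fun l hl => inf_le_left.trans hl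
  · exact h10.imp fun l hl => inf_le_left.trans hl

theorem exists_coresolution {X : Scheme.{0}} {ι : Type} (U : ι → X.Opens) (A0 A1 B0 B1 : X.Opens)
    (hA : A0 ⊔ A1 = ⊤) (hB : B0 ⊔ B1 = ⊤) (h00 : ∃ l, A0 ⊓ B0 ≤ U l) (h01 : ∃ l, A0 ⊓ B1 ≤ U l)
    (h10 : ∃ l, A1 ⊓ B0 ≤ U l) (h11 : ∃ l, A1 ⊓ B1 ≤ U l) (G : X.Modules) :
    ∃ (J0 J1 W1 W2 : X.Modules) (j0 : G ⟶ J0) (r0 : J0 ⟶ W1) (w0 : j0 ≫ r0 = 0)
      (j1 : W1 ⟶ J1) (r1 : J1 ⟶ W2) (w1 : j1 ≫ r1 = 0),
      (ShortComplex.mk j0 r0 w0).ShortExact ∧ (ShortComplex.mk j1 r1 w1).ShortExact ∧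
      RelInj U J0 ∧ RelInj U J1 ∧ RelInj U W2 := by
  have e1 := mvj_exact A0 A1 hA G
  let X0 : X.Modules := (KF A0).obj G ⊞ (KF A1).obj G
  let X1 : X.Modules := (KF A0).obj ((KF A1).obj G)
  have e2 := mvj_exact B0 B1 hB X0
  have e3 := mvj_exact B0 B1 hB X1
  let p : X0 ⟶ X1 := biprod.desc ((KF A0).map ((mvj_unit A1).app G))
    (-((mvj_unit A0).app ((KF A1).obj G)))
  have hX1 : MvjSupp A0 X1 := mvj_supp_KF A0 _
  obtain ⟨W1, r0, j1, w0, w1, s0, s1⟩ := total_exact _ _ _ e1 _ _ _ e2 _ _ _ e3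
    (biprod.map ((KF B0).map p) ((KF B1).map p)) ((KF B0).map ((KF B1).map p))
    (by
      apply biprod.hom_ext
      · simp only [Category.assoc, biprod.map_fst, biprod.lift_fst, biprod.lift_fst_assoc]
        exact ((mvj_unit B0).naturality p).symm
      · simp only [Category.assoc, biprod.map_snd, biprod.lift_snd, biprod.lift_snd_assoc]
        exact ((mvj_unit B1).naturality p).symm)
    (by
      apply biprod.hom_ext'
      · simp only [biprod.inl_desc_assoc, biprod.inl_map_assoc, biprod.inl_desc]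
        rw [← (KF B0).map_comp, ← (KF B0).map_comp]
        exact congrArg _ ((mvj_unit B1).naturality p).symm
      · simp only [biprod.inr_desc_assoc, biprod.inr_map_assoc, biprod.inr_desc,
          Preadditive.neg_comp, Preadditive.comp_neg]
        exact congrArg _ ((mvj_unit B0).naturality ((KF B1).map p)).symm)
  refine ⟨_, _, W1, _, _, r0, w0, j1, _, w1, s0, s1, ?_, ?_, ?_⟩
  · exact relInj_biprod U
      (mvj_relInj_biprod U B0 (mvj_supp_KF A0 G) (mvj_supp_KF A1 G) h00 h10)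
      (mvj_relInj_biprod U B1 (mvj_supp_KF A0 G) (mvj_supp_KF A1 G) h01 h11)
  · refine relInj_biprod U (relInj_biprod U ?_ ?_) ?_
    · exact mvj_relInj U h00 _ (mvj_supp_KF' A0 B0 _ hX1)
    · exact mvj_relInj U h01 _ (mvj_supp_KF' A0 B1 _ hX1)
    · exact mvj_relInj_biprod2 U B0 B1 (mvj_supp_KF A0 G) (mvj_supp_KF A1 G) h01 h11
  · exact mvj_relInj U (h01.imp fun l hl => inf_le_left.trans hl) _
      (mvj_supp_KF' _ B0 _ (mvj_supp_KF' A0 B1 _ hX1))

end Pool.H33.P

end S_MVJ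

section S_SEC

/-! # SEC: cocycles and sections -/

open CategoryTheory AlgebraicGeometry Limits TopologicalSpace

namespace Pool.H33.P

variable {X : Scheme.{0}} (T : ToricData X)

theorem sec_rf_mul {U V : X.Opens} (h : V ≤ U) (f g : Γ(X, U)) :
    rf h (f * g) = rf h f * rf h g :=
  map_mul (X.presheaf.map (homOfLE h).op).hom f g

theorem sec_rf_one {U V : X.Opens} (h : V ≤ U) : rf h (1 : Γ(X, U)) = 1 :=
  map_one (X.presheaf.map (homOfLE h).op).hom

theorem sec_rf_pow {U V : X.Opens} (h : V ≤ U) (f : Γ(X, U)) (n : ℕ) :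
    rf h (f ^ n) = rf h f ^ n :=
  map_pow (X.presheaf.map (homOfLE h).op).hom f n

theorem c_add (a b a' b' : ℤ) (l l' : Fin 4) : T.c (a + a') (b + b') l l' = T.c a b l l' * T.c a' b' l l' := by
  unfold ToricData.c
  rw [← Units.val_mul]
  congr 1
  rw [zpow_add, zpow_add]
  exact mul_mul_mul_comm _ _ _ _

/-- unit version of the restriction -/
noncomputable def sec_ru {U V : X.Opens} (h : V ≤ U) : Γ(X, U)ˣ →* Γ(X, V)ˣ :=
  Units.map (X.presheaf.map (homOfLE h).op).hom

theorem sec_ru_val {U V : X.Opens} (h : V ≤ U) (f : Γ(X, U)ˣ) :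
    ((sec_ru h f : Γ(X, V)ˣ) : Γ(X, V)) = rf h (f : Γ(X, U)) := rfl

theorem cocycle_c (a b : ℤ) : IsCocycle T.U (T.c a b) := by
  have hF : ∀ l l' l'',
      sec_ru (V := T.U l ⊓ T.U l' ⊓ T.U l'') inf_le_left (T.cF l l') *
      sec_ru (V := T.U l ⊓ T.U l' ⊓ T.U l'') (le_inf (inf_le_left.trans inf_le_right) inf_le_right) (T.cF l' l'') =
      sec_ru (V := T.U l ⊓ T.U l' ⊓ T.U l'') (le_inf (inf_le_left.trans inf_le_left) inf_le_right) (T.cF l l'') := by
    intro l l' l''
    ext1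
    exact T.cocF.mul l l' l''
  have hG : ∀ l l' l'',
      sec_ru (V := T.U l ⊓ T.U l' ⊓ T.U l'') inf_le_left (T.cG l l') *
      sec_ru (V := T.U l ⊓ T.U l' ⊓ T.U l'') (le_inf (inf_le_left.trans inf_le_right) inf_le_right) (T.cG l' l'') =
      sec_ru (V := T.U l ⊓ T.U l' ⊓ T.U l'') (le_inf (inf_le_left.trans inf_le_left) inf_le_right) (T.cG l l'') := by
    intro l l' l''
    ext1
    exact T.cocG.mul l l' l''
  constructor
  · intro l
    have h1 : T.cF l l = 1 := Units.ext (T.cocF.self l)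
    have h2 : T.cG l l = 1 := Units.ext (T.cocG.self l)
    unfold ToricData.c
    rw [h1, h2, one_zpow, one_zpow, one_mul]
    rfl
  · intro l l' l''
    unfold ToricData.c
    rw [← sec_ru_val, ← sec_ru_val, ← sec_ru_val, ← Units.val_mul]
    congr 1
    rw [map_mul, map_mul, map_mul, map_zpow, map_zpow, map_zpow, map_zpow, map_zpow, map_zpow,
      ← hF, ← hG, mul_zpow, mul_zpow]
    exact mul_mul_mul_comm _ _ _ _

theorem sec_one : IsSec T.U (T.c 0 0) (fun _ => 1) := by
  intro l l'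
  unfold ToricData.c
  rw [zpow_zero, zpow_zero, one_mul, sec_rf_one, sec_rf_one, Units.val_one, one_mul]

theorem sec_mul {a b a' b' : ℤ} {s s' : ∀ l, Γ(X, T.U l)} (h : IsSec T.U (T.c a b) s)
    (h' : IsSec T.U (T.c a' b') s') : IsSec T.U (T.c (a + a') (b + b')) (fun l => s l * s' l) := by
  intro l l'
  rw [sec_rf_mul, sec_rf_mul, h l l', h' l l', c_add]
  exact mul_mul_mul_comm _ _ _ _

theorem sec_pow {a b : ℤ} {s : ∀ l, Γ(X, T.U l)} (h : IsSec T.U (T.c a b) s) (n : ℕ) :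
    IsSec T.U (T.c (n * a) (n * b)) (fun l => s l ^ n) := by
  induction n with
  | zero =>
    have := sec_one T
    simpa using this
  | succ n ih =>
    have := sec_mul T ih h
    have e1 : ((n + 1 : ℕ) : ℤ) * a = n * a + a := by push_cast; ring
    have e2 : ((n + 1 : ℕ) : ℤ) * b = n * b + b := by push_cast; ring
    rw [e1, e2]
    simpa only [pow_succ] using this

theorem sec_x0 : IsSec T.U (T.c 1 0) T.x0 := by
  intro l l'
  have := T.sx0 l l'
  unfold ToricData.c
  rw [zpow_one, zpow_zero, mul_one]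
  exact this

theorem sec_x1 : IsSec T.U (T.c 1 0) T.x1 := by
  intro l l'
  have := T.sx1 l l'
  unfold ToricData.c
  rw [zpow_one, zpow_zero, mul_one]
  exact this

theorem sec_y : IsSec T.U (T.c 1 1) T.y := by
  intro l l'
  have := T.sy l l'
  unfold ToricData.c
  rw [zpow_one, zpow_one]
  exact this

theorem sec_z : IsSec T.U (T.c 0 1) T.z := by
  intro l l'
  have := T.sz l l'
  unfold ToricData.c
  rw [zpow_one, zpow_zero, one_mul]
  exact this

theorem unit_x (l : Fin 4) : T.x0 l = 1 ∨ T.x1 l = 1 := by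
  fin_cases l
  · exact Or.inl T.x00
  · exact Or.inr T.x11
  · exact Or.inl T.x02
  · exact Or.inr T.x13

theorem unit_yz (l : Fin 4) : T.y l = 1 ∨ T.z l = 1 := by
  fin_cases l
  · exact Or.inl T.y0
  · exact Or.inl T.y1
  · exact Or.inr T.z2
  · exact Or.inr T.z3

/-- for every chart `k` there is a section `s` of some `c a b`, equal to `1` on the chart, whose nonvanishing
locus is the chart -/
theorem exists_ample (k : Fin 4) : ∃ (a b : ℤ) (s : ∀ l, Γ(X, T.U l)), IsSec T.U (T.c a b) s ∧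
    s k = 1 ∧ ∀ l, T.U k ⊓ T.U l = X.basicOpen (s l) := by
  fin_cases k
  · refine ⟨_, _, _, sec_mul T (sec_x0 T) (sec_y T), ?_, fun l => T.amp0 l⟩
    change T.x0 0 * T.y 0 = 1
    rw [T.x00, T.y0, one_mul]
  · refine ⟨_, _, _, sec_mul T (sec_x1 T) (sec_y T), ?_, fun l => T.amp1 l⟩
    change T.x1 1 * T.y 1 = 1
    rw [T.x11, T.y1, one_mul]
  · refine ⟨_, _, _, sec_mul T (sec_x0 T) (sec_z T), ?_, fun l => T.amp2 l⟩
    change T.x0 2 * T.z 2 = 1
    rw [T.x02, T.z2, one_mul]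
  · refine ⟨_, _, _, sec_mul T (sec_x1 T) (sec_z T), ?_, fun l => T.amp3 l⟩
    change T.x1 3 * T.z 3 = 1
    rw [T.x13, T.z3, one_mul]

/-- intersections of charts are basic opens of the chart -/
theorem basic_inf (k l : Fin 4) : ∃ f : Γ(X, T.U k), T.U k ⊓ T.U l = X.basicOpen f := by
  obtain ⟨a, b, s, -, -, h⟩ := exists_ample T l
  exact ⟨s k, by rw [inf_comm]; exact h k⟩

theorem affine_inf (k l : Fin 4) : IsAffineOpen (T.U k ⊓ T.U l) := by
  obtain ⟨f, hf⟩ := basic_inf T k l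
  rw [hf]
  exact (T.aff k).basicOpen f

end Pool.H33.P

end S_SEC
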