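import Mathlib
import Pool.Agent.H33.GP.Def
import Pool.Agent.H33.GP.A1

/-! Two line bundles generate the perfect complexes of the surface F_1, file A2 -/

section S_LOCM

/-! # LOCM: sections of a quasi-coherent module over basic opens of affine opens

Transport to `Spec Γ(X, U)` by `hU.isoSpec` / `hU.fromSpec` (restriction along the open immersion
`hU.fromSpec : Spec Γ(X, U) ⟶ X`, `Scheme.Modules.isQuasicoherent_restrictFunctor`) and use
`isQuasicoherent_iff_isIso_fromTildeΓ`, `isIso_fromTildeΓ_iff_isLocalizing`. -/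

open CategoryTheory AlgebraicGeometry Limits TopologicalSpace

namespace Pool.H33.P

variable {X : Scheme.{0}}

theorem locm_rs_rs (M : X.Modules) {U V W : X.Opens} (h : V ≤ U) (h' : W ≤ V) (m : Γ(M, U)) :
    rs M h' (rs M h m) = rs M (h'.trans h) m := by
  unfold rs
  rw [← M.presheaf.map_comp_apply, ← op_comp, homOfLE_comp]

theorem locm_rs_refl (M : X.Modules) {U : X.Opens} (m : Γ(M, U)) :
    rs M (le_refl U) m = m := by
  unfold rs
  have : (homOfLE (le_refl U)).op = 𝟙 _ := rfl
  rw [this, M.presheaf.map_id]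
  rfl

theorem locm_rs_smul (M : X.Modules) {U V : X.Opens} (h : V ≤ U) (r : Γ(X, U)) (m : Γ(M, U)) :
    rs M h (r • m) = rf h r • rs M h m :=
  Scheme.Modules.map_smul M (homOfLE h) r m

theorem locm_rf_rf {U V W : X.Opens} (h : V ≤ U) (h' : W ≤ V) (m : Γ(X, U)) :
    rf h' (rf h m) = rf (h'.trans h) m := by
  unfold rf
  rw [← CategoryTheory.comp_apply, ← X.presheaf.map_comp, ← op_comp, homOfLE_comp]

theorem locm_rf_refl {U : X.Opens} (m : Γ(X, U)) : rf (le_refl U) m = m := by
  unfold rf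
  have : (homOfLE (le_refl U)).op = 𝟙 _ := rfl
  rw [this, X.presheaf.map_id]
  rfl

theorem locm_appLE {U : X.Opens} (hU : IsAffineOpen U) (W : (Spec Γ(X, U)).Opens)
    (e : W ≤ hU.fromSpec ⁻¹ᵁ U) :
    (Scheme.ΓSpecIso Γ(X, U)).inv ≫ (Spec Γ(X, U)).presheaf.map W.leTop.op =
      hU.fromSpec.appLE U W e := by
  rw [Scheme.Hom.appLE, hU.fromSpec_app_self, Category.assoc, ← Functor.map_comp]
  rfl

theorem locm_ring {U : X.Opens} (hU : IsAffineOpen U) (W : (Spec Γ(X, U)).Opens)
    (h : hU.fromSpec ''ᵁ W ≤ U) (r : Γ(X, U)) :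
    (hU.fromSpec.appIso W).inv ((Spec Γ(X, U)).presheaf.map W.leTop.op
      ((Scheme.ΓSpecIso Γ(X, U)).inv r)) = rf h r := by
  have e : W ≤ hU.fromSpec ⁻¹ᵁ U := by
    rw [hU.fromSpec_preimage_self]
    exact le_top
  have h1 := locm_appLE hU W e
  have h2 := hU.fromSpec.appLE_appIso_inv e
  rw [← h1, Category.assoc] at h2
  exact congr($h2 r)

theorem locm_smul {U : X.Opens} (hU : IsAffineOpen U) (M : X.Modules)
    (W : (Spec Γ(X, U)).Opens) (h : hU.fromSpec ''ᵁ W ≤ U) (r : Γ(X, U))
    (x : Γ(M.restrict hU.fromSpec, W)) :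
    (M.restrictAppIso hU.fromSpec W).hom (r • x) =
      rf h r • (M.restrictAppIso hU.fromSpec W).hom x := by
  rw [Scheme.Modules.smul_Spec_def, ← locm_ring hU W h r]
  rfl

/-- sections over the images -/
theorem locm_loc {U : X.Opens} (hU : IsAffineOpen U) (M : X.Modules) (hM : M.IsQuasicoherent)
    (f : Γ(X, U)) :
    IsLocalizedModule (.powers f) ((modulesSpecToSheaf.obj (M.restrict hU.fromSpec)).obj.map
      (PrimeSpectrum.basicOpen f).leTop.op).hom := by
  have h1 : (M.restrict hU.fromSpec).IsQuasicoherent :=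
    Scheme.Modules.isQuasicoherent_restrictFunctor hU.fromSpec M
  have h2 : IsIso (M.restrict hU.fromSpec).fromTildeΓ :=
    Scheme.Modules.isIso_fromTildeΓ_of_isQuasicoherent _
  exact (isIso_fromTildeΓ_iff_isLocalizing _).1 h2 f

theorem locm_surj {U : X.Opens} (hU : IsAffineOpen U) (M : X.Modules) (hM : M.IsQuasicoherent)
    (f : Γ(X, U)) (W : (Spec Γ(X, U)).Opens) (hW : W = PrimeSpectrum.basicOpen f)
    (hWU : hU.fromSpec ''ᵁ W ≤ U) (hDT : hU.fromSpec ''ᵁ W ≤ hU.fromSpec ''ᵁ ⊤)
    (s : Γ(M, hU.fromSpec ''ᵁ W)) :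
    ∃ (n : ℕ) (t : Γ(M, hU.fromSpec ''ᵁ ⊤)), rs M hDT t = rf hWU f ^ n • s := by
  subst hW
  have hloc := locm_loc hU M hM f
  obtain ⟨⟨t, ⟨_, n, rfl⟩⟩, ht⟩ := hloc.surj ((M.restrictAppIso hU.fromSpec _).inv s)
  have h1 := locm_smul hU M _ hWU (f ^ n) ((M.restrictAppIso hU.fromSpec _).inv s)
  refine ⟨n, (M.restrictAppIso hU.fromSpec ⊤).hom t, ?_⟩
  have h2 : rf hWU (f ^ n) = rf hWU f ^ n :=
    map_pow (X.presheaf.map (homOfLE hWU).op).hom f n
  rw [h2] at h1
  exact (congrArg (M.restrictAppIso hU.fromSpec _).hom ht).symm.trans h1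

theorem locm_inj {U : X.Opens} (hU : IsAffineOpen U) (M : X.Modules) (hM : M.IsQuasicoherent)
    (f : Γ(X, U)) (W : (Spec Γ(X, U)).Opens) (hW : W = PrimeSpectrum.basicOpen f)
    (hTU : hU.fromSpec ''ᵁ ⊤ ≤ U) (hDT : hU.fromSpec ''ᵁ W ≤ hU.fromSpec ''ᵁ ⊤)
    (t : Γ(M, hU.fromSpec ''ᵁ ⊤)) (ht : rs M hDT t = 0) :
    ∃ n : ℕ, rf hTU (f ^ n) • t = 0 := by
  subst hW
  have hloc := locm_loc hU M hM f
  have h1 := (IsLocalizedModule.eq_zero_iff (.powers f) ((modulesSpecToSheaf.obj
    (M.restrict hU.fromSpec)).obj.map (PrimeSpectrum.basicOpen f).leTop.op).hom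
    (m := (M.restrictAppIso hU.fromSpec ⊤).inv t)).1 ht
  obtain ⟨⟨_, n, rfl⟩, hn⟩ := h1
  refine ⟨n, ?_⟩
  have h2 := locm_smul hU M ⊤ hTU (f ^ n) ((M.restrictAppIso hU.fromSpec ⊤).inv t)
  have h3 : (M.restrictAppIso hU.fromSpec ⊤).hom
      (f ^ n • (M.restrictAppIso hU.fromSpec ⊤).inv t) = 0 :=
    (congrArg (M.restrictAppIso hU.fromSpec ⊤).hom hn).trans (map_zero _)
  rw [h3] at h2
  exact h2.symm

theorem locm_image {U : X.Opens} (hU : IsAffineOpen U) (f : Γ(X, U)) :
    ∃ W : (Spec Γ(X, U)).Opens, W = PrimeSpectrum.basicOpen f ∧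
      hU.fromSpec ''ᵁ W = X.basicOpen f :=
  ⟨PrimeSpectrum.basicOpen f, rfl, hU.fromSpec_image_basicOpen f⟩

theorem locm_top {U : X.Opens} (hU : IsAffineOpen U) : hU.fromSpec ''ᵁ ⊤ = U := by
  rw [Scheme.Hom.image_top_eq_opensRange, hU.opensRange_fromSpec]

theorem loc_surj (M : X.Modules) (hM : M.IsQuasicoherent) {U : X.Opens} (hU : IsAffineOpen U)
    (f : Γ(X, U)) {V : X.Opens} (hV : V = X.basicOpen f) (hVU : V ≤ U) (s : Γ(M, V)) :
    ∃ (n : ℕ) (t : Γ(M, U)), rs M hVU t = rf hVU (f ^ n) • s := by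
  obtain ⟨W, hW, hWi⟩ := locm_image hU f
  rw [← hV] at hWi
  subst hWi
  have hT : U ≤ hU.fromSpec ''ᵁ ⊤ := (locm_top hU).ge
  obtain ⟨n, t, ht⟩ := locm_surj hU M hM f W hW hVU (hVU.trans hT) s
  have h2 : rf hVU (f ^ n) = rf hVU f ^ n :=
    map_pow (X.presheaf.map (homOfLE hVU).op).hom f n
  refine ⟨n, rs M hT t, ?_⟩
  rw [locm_rs_rs, h2]
  exact ht

theorem loc_inj (M : X.Modules) (hM : M.IsQuasicoherent) {U : X.Opens} (hU : IsAffineOpen U)
    (f : Γ(X, U)) {V : X.Opens} (hV : V = X.basicOpen f) (hVU : V ≤ U) (t : Γ(M, U))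
    (ht : rs M hVU t = 0) : ∃ n : ℕ, f ^ n • t = 0 := by
  obtain ⟨W, hW, hWi⟩ := locm_image hU f
  rw [← hV] at hWi
  subst hWi
  have hT : U ≤ hU.fromSpec ''ᵁ ⊤ := (locm_top hU).ge
  have hT' : hU.fromSpec ''ᵁ ⊤ ≤ U := (locm_top hU).le
  obtain ⟨n, hn⟩ := locm_inj hU M hM f W hW hT' (hVU.trans hT) (rs M hT' t) (by
    rw [locm_rs_rs]; exact ht)
  refine ⟨n, ?_⟩
  rw [← locm_rs_smul] at hn
  have h3 := congrArg (rs M hT) hn
  rw [locm_rs_rs, locm_rs_refl] at h3
  rw [h3]
  exact map_zero (M.presheaf.map (homOfLE hT).op).hom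

/-- the same for functions -/
theorem loc_surj_fun {U : X.Opens} (hU : IsAffineOpen U)
    (f : Γ(X, U)) {V : X.Opens} (hV : V = X.basicOpen f) (hVU : V ≤ U) (s : Γ(X, V)) :
    ∃ (n : ℕ) (t : Γ(X, U)), rf hVU t = rf hVU (f ^ n) * s := by
  subst hV
  have h1 := hU.isLocalization_basicOpen f
  obtain ⟨⟨t, ⟨_, n, rfl⟩⟩, ht⟩ := IsLocalization.surj (Submonoid.powers f) s
  refine ⟨n, t, ?_⟩
  rw [mul_comm]
  exact ht.symm

end Pool.H33.P

end S_LOCM

section S_QCK

/-! # QCK: closure properties of quasi-coherent modules; sections of kernels and biproducts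

Locality: `SheafOfModules.IsQuasicoherent.of_coversTop` and `Scheme.Modules.overFunctorEquiv` /
`overEquiv`.  For kernels, cokernels: on an affine open, the quasi-coherent modules are the essential image of
the exact (prove it: sections over basic opens are localisations) fully faithful functor `tilde`. -/

open CategoryTheory AlgebraicGeometry Limits TopologicalSpace
open Scheme.Modules (restrictFunctor restrictFunctorComp restrictFunctorCongr)

namespace Pool.H33.P

variable {X : Scheme.{0}}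

set_option backward.isDefEq.respectTransparency false in
/-- presentation of `M.over U` from a presentation of the restriction -/
noncomputable def qckPresOver (M : X.Modules) (U : X.Opens)
    (P : (M.restrict U.ι).Presentation) :
    (SheafOfModules.over (M : SheafOfModules.{0} X.ringCatSheaf) U).Presentation := by
  let e := Scheme.Modules.overEquiv U
  let P1 : (e.functor.obj (SheafOfModules.over (M : SheafOfModules.{0} X.ringCatSheaf) U)).Presentation :=
    SheafOfModules.Presentation.ofIsIso.{0, 0, 0} ((Scheme.Modules.overFunctorEquiv U).app M).inv P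
  let η0 : e.functor.obj (SheafOfModules.unit _) ≅ SheafOfModules.unit _ := Iso.refl _
  let η : SheafOfModules.unit _ ≅ e.inverse.obj (SheafOfModules.unit _) :=
    e.unitIso.app _ ≪≫ e.inverse.mapIso η0
  exact ((P1.map e.inverse η).ofIsIso (e.unitIso.app _).inv)

theorem qck_of_pres {ι : Type} (U : ι → X.Opens) (hU : ⨆ i, U i = ⊤) (M : X.Modules)
    (h : ∀ i, Nonempty (M.restrict (U i).ι).Presentation) : M.IsQuasicoherent := by
  refine SheafOfModules.QuasicoherentData.isQuasicoherent (M := M)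
    { I := ι, X := U, coversTop := ?_, presentation := fun i => qckPresOver M (U i) (h i).some }
  rw [Opens.coversTop_iff]
  exact hU

set_option backward.isDefEq.respectTransparency false in
theorem qc_of_cover {ι : Type} (U : ι → X.Opens) (hU : ⨆ i, U i = ⊤) (M : X.Modules)
    (h : ∀ i, (M.restrict (U i).ι).IsQuasicoherent) : M.IsQuasicoherent := by
  have h1 := fun i => @Scheme.Modules.exists_isOpenCover_presentation _ (M.restrict (U i).ι) (h i)
  choose κ V pres hV hV' using h1
  refine qck_of_pres (ι := Σ i, κ i) (fun j => (U j.1).ι ''ᵁ (V j.1 j.2)) ?_ M ?_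
  · rw [iSup_sigma]
    rw [← top_le_iff, ← hU]
    refine iSup_mono fun i => ?_
    have h2 : (U i).ι ''ᵁ (⨆ j, V i j) = ⨆ j, (U i).ι ''ᵁ (V i j) := by
      simp [Scheme.Hom.image_iSup]
    rw [← h2, IsOpenCover.iSup_eq_top (hV i)]
    simp
  · rintro ⟨i, j⟩
    let g := ((U i).ι.isoImage (V i j)).inv
    let iso : restrictFunctor (U i).ι ⋙ restrictFunctor (V i j).ι ⋙ restrictFunctor g ≅
        restrictFunctor ((U i).ι ''ᵁ (V i j)).ι :=
      (Functor.associator _ _ _).symm ≪≫ Functor.isoWhiskerRight (restrictFunctorComp _ _).symm _ ≪≫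
        (restrictFunctorComp _ _).symm ≪≫ restrictFunctorCongr (by simp [g])
    exact ⟨SheafOfModules.Presentation.ofIsIso.{0, 0, 0} (iso.app M).hom
      (Scheme.Modules.presentationRestrict g (pres i j))⟩

theorem qc_of_iso {M N : X.Modules} (e : M ≅ N) (h : M.IsQuasicoherent) : N.IsQuasicoherent :=
  (SheafOfModules.isQuasicoherent X.ringCatSheaf).prop_of_iso e h

theorem qc_unit : ((SheafOfModules.unit _ : X.Modules)).IsQuasicoherent := by
  have e : (SheafOfModules.unit X.ringCatSheaf : X.Modules) ≅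
      (SheafOfModules.free (R := X.ringCatSheaf) PUnit : X.Modules) :=
    (coproductUniqueIso (fun (_ : PUnit) => (SheafOfModules.unit X.ringCatSheaf : X.Modules))).symm
  exact qc_of_iso e.symm (inferInstance : (SheafOfModules.free (R := X.ringCatSheaf) PUnit).IsQuasicoherent)

/-- sections of a biproduct -/
theorem sec_biprod (M N : X.Modules) (V : X.Opens) :
    Function.Bijective (fun p : Γ((M ⊞ N : X.Modules), V) =>
      (((biprod.fst : M ⊞ N ⟶ M).app V p, (biprod.snd : M ⊞ N ⟶ N).app V p) : Γ(M, V) × Γ(N, V))) := by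
  constructor
  · intro p q hpq
    simp only [Prod.mk.injEq] at hpq
    have key : ∀ r : Γ((M ⊞ N : X.Modules), V), r =
        (biprod.inl : M ⟶ M ⊞ N).app V ((biprod.fst : M ⊞ N ⟶ M).app V r) +
        (biprod.inr : N ⟶ M ⊞ N).app V ((biprod.snd : M ⊞ N ⟶ N).app V r) := by
      intro r
      have := congrArg (fun φ : (M ⊞ N : X.Modules) ⟶ M ⊞ N => φ.app V r)
        (biprod.total (X := M) (Y := N))
      exact this.symm
    rw [key p, key q, hpq.1, hpq.2]
  · rintro ⟨a, b⟩
    refine ⟨(biprod.inl : M ⟶ M ⊞ N).app V a + (biprod.inr : N ⟶ M ⊞ N).app V b, ?_⟩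
    have h1 : ∀ x, (biprod.fst : M ⊞ N ⟶ M).app V ((biprod.inl : M ⟶ M ⊞ N).app V x) = x := by
      intro x
      exact congrArg (fun φ : M ⟶ M => φ.app V x) (biprod.inl_fst (X := M) (Y := N))
    have h2 : ∀ x, (biprod.snd : M ⊞ N ⟶ N).app V ((biprod.inl : M ⟶ M ⊞ N).app V x) = 0 := by
      intro x
      exact congrArg (fun φ : M ⟶ N => φ.app V x) (biprod.inl_snd (X := M) (Y := N))
    have h3 : ∀ x, (biprod.fst : M ⊞ N ⟶ M).app V ((biprod.inr : N ⟶ M ⊞ N).app V x) = 0 := by
      intro x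
      exact congrArg (fun φ : N ⟶ M => φ.app V x) (biprod.inr_fst (X := M) (Y := N))
    have h4 : ∀ x, (biprod.snd : M ⊞ N ⟶ N).app V ((biprod.inr : N ⟶ M ⊞ N).app V x) = x := by
      intro x
      exact congrArg (fun φ : N ⟶ N => φ.app V x) (biprod.inr_snd (X := M) (Y := N))
    simp [h1, h2, h3, h4]

theorem qc_zero {M : X.Modules} (h : IsZero M) : M.IsQuasicoherent := by
  have h2 : IsZero (SheafOfModules.free (R := X.ringCatSheaf) PEmpty : X.Modules) := by
    rw [IsZero.iff_id_eq_zero]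
    exact Limits.Sigma.hom_ext (f := fun (_ : PEmpty) => (SheafOfModules.unit X.ringCatSheaf : X.Modules)) _ _ (by rintro ⟨⟩)
  exact qc_of_iso (h2.iso h) (inferInstance : (SheafOfModules.free (R := X.ringCatSheaf) PEmpty).IsQuasicoherent)


/-- sections of the kernel (no quasi-coherence needed) -/
theorem sec_kernel {M N : X.Modules} (f : M ⟶ N) (V : X.Opens) :
    Function.Injective ((kernel.ι f).app V) ∧
      ∀ m : Γ(M, V), f.app V m = 0 ↔ ∃ k : Γ(kernel f, V), (kernel.ι f).app V k = m := by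
  let E : X.Modules ⥤ Ab.{0} := Scheme.Modules.toPresheaf X ⋙ (evaluation _ _).obj (.op V)
  have hE0 : PreservesLimits ((evaluation (X.Opens)ᵒᵖ Ab.{0}).obj (.op V)) := inferInstance
  have hE : PreservesLimits E := @comp_preservesLimits _ _ _ _ _ _ (Scheme.Modules.toPresheaf X) ((evaluation (X.Opens)ᵒᵖ Ab.{0}).obj (.op V)) inferInstance hE0
  have hf : Mono (E.map (kernel.ι f)) := inferInstance
  have hinj : Function.Injective ((kernel.ι f).app V) := (AddCommGrpCat.mono_iff_injective _).1 hf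
  refine ⟨hinj, fun m => ⟨fun hm => ?_, ?_⟩⟩
  · have hAdd : E.PreservesZeroMorphisms := ⟨fun _ _ => rfl⟩
    let S : ShortComplex X.Modules := ⟨kernel.ι f, f, kernel.condition f⟩
    have hS : S.Exact := S.exact_of_f_is_kernel (kernelIsKernel f)
    have hS2 : (S.map E).Exact := hS.map_of_mono_of_preservesKernel E inferInstance inferInstance
    rw [ShortComplex.ab_exact_iff] at hS2
    exact hS2 m hm
  · rintro ⟨k, rfl⟩
    exact congrArg (fun φ : kernel f ⟶ N => φ.app V k) (kernel.condition f)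

set_option backward.isDefEq.respectTransparency false in
theorem qck_of_affine (M : X.Modules)
    (h : ∀ (R : CommRingCat.{0}) (j : Spec R ⟶ X) [IsOpenImmersion j], (M.restrict j).IsQuasicoherent) :
    M.IsQuasicoherent := by
  refine qc_of_cover (ι := X.affineOpens) (fun U => U.1) (iSup_affineOpens_eq_top X) M ?_
  intro U
  have := h _ (U.2.isoSpec.inv ≫ U.1.ι)
  have h2 : ((M.restrict (U.2.isoSpec.inv ≫ U.1.ι)).restrict U.2.isoSpec.hom).IsQuasicoherent :=
    inferInstance
  refine qc_of_iso (((restrictFunctorComp U.2.isoSpec.hom (U.2.isoSpec.inv ≫ U.1.ι)).symm ≪≫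
    restrictFunctorCongr (by simp)).app M) h2

theorem qck_spec_coker {R : CommRingCat.{0}} {M N : (Spec R).Modules} (f : M ⟶ N)
    (hM : M.IsQuasicoherent) (hN : N.IsQuasicoherent) : (cokernel f).IsQuasicoherent := by
  have hM' : (tilde.functor R).essImage M := by
    rw [essImage_tilde]; exact hM
  have hN' : (tilde.functor R).essImage N := by
    rw [essImage_tilde]; exact hN
  obtain ⟨A, ⟨a⟩⟩ := hM'
  obtain ⟨B, ⟨b⟩⟩ := hN'
  let g := (tilde.functor R).preimage (a.hom ≫ f ≫ b.inv)
  let iso : cokernel ((tilde.functor R).map g) ≅ cokernel f := by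
    refine cokernel.mapIso _ _ a b ?_
    simp only [g, (tilde.functor R).map_preimage]
    simp
  have h1 : ((tilde.functor R).obj (cokernel g)).IsQuasicoherent := inferInstance
  exact qc_of_iso (PreservesCokernel.iso (tilde.functor R) g ≪≫ iso) h1

theorem qck_spec_biprod {R : CommRingCat.{0}} {M N : (Spec R).Modules}
    (hM : M.IsQuasicoherent) (hN : N.IsQuasicoherent) : (M ⊞ N).IsQuasicoherent := by
  have hM' : (tilde.functor R).essImage M := by
    rw [essImage_tilde]; exact hM
  have hN' : (tilde.functor R).essImage N := by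
    rw [essImage_tilde]; exact hN
  obtain ⟨A, ⟨a⟩⟩ := hM'
  obtain ⟨B, ⟨b⟩⟩ := hN'
  have h1 : ((tilde.functor R).obj (A ⊞ B)).IsQuasicoherent := inferInstance
  have : PreservesBinaryBiproduct A B (tilde.functor R) :=
    preservesBinaryBiproduct_of_preservesBinaryCoproduct (tilde.functor R)
  exact qc_of_iso ((tilde.functor R).mapBiprod A B ≪≫ biprod.mapIso a b) h1

theorem qck_spec_ker {R : CommRingCat.{0}} {M N : (Spec R).Modules} (f : M ⟶ N)
    (hM : M.IsQuasicoherent) (hN : N.IsQuasicoherent) : (kernel f).IsQuasicoherent := by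
  rw [isQuasicoherent_iff_isIso_fromTildeΓ, isIso_fromTildeΓ_iff_isLocalizing] at hM hN ⊢
  intro r
  have hMr := hM r
  have hNr := hN r
  let U : (Spec R).Opens := PrimeSpectrum.basicOpen r
  let φM := ((modulesSpecToSheaf.obj M).obj.map U.leTop.op).hom
  let φN := ((modulesSpecToSheaf.obj N).obj.map U.leTop.op).hom
  have kiU := (sec_kernel f U).1
  have kiT := (sec_kernel f ⊤).1
  have keU := (sec_kernel f U).2
  have keT := (sec_kernel f ⊤).2
  have surjM : ∀ x : Γ(M, U), ∃ (n : ℕ) (t : Γ(M, ⊤)), r ^ n • x = M.presheaf.map U.leTop.op t := by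
    intro x
    obtain ⟨⟨y, ⟨_, n, rfl⟩⟩, hn⟩ := hMr.surj x
    exact ⟨n, y, hn⟩
  have injM : ∀ x : Γ(M, ⊤), M.presheaf.map U.leTop.op x = 0 → ∃ n : ℕ, r ^ n • x = 0 := by
    intro x hx
    obtain ⟨⟨_, n, rfl⟩, hn⟩ := (IsLocalizedModule.eq_zero_iff (.powers r) φM).mp hx
    exact ⟨n, hn⟩
  have injN : ∀ x : Γ(N, ⊤), N.presheaf.map U.leTop.op x = 0 → ∃ n : ℕ, r ^ n • x = 0 := by
    intro x hx
    obtain ⟨⟨_, n, rfl⟩, hn⟩ := (IsLocalizedModule.eq_zero_iff (.powers r) φN).mp hx
    exact ⟨n, hn⟩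
  have nat : ∀ {A B : (Spec R).Modules} (g : A ⟶ B) (x : Γ(A, ⊤)),
      B.presheaf.map U.leTop.op (g.app ⊤ x) = g.app U (A.presheaf.map U.leTop.op x) := by
    intro A B g x
    exact (congrArg (fun φ => φ x) (g.mapPresheaf.naturality U.leTop.op)).symm
  have lin : ∀ {A B : (Spec R).Modules} (g : A ⟶ B) (V : (Spec R).Opens) (s : R) (x : Γ(A, V)),
      g.app V (s • x) = s • g.app V x := by
    intro A B g V s x
    rw [Scheme.Modules.smul_Spec_def, Scheme.Modules.smul_Spec_def, Scheme.Modules.Hom.app_smul]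
  have key1 : ∀ x : Γ(kernel f, U), ∃ (n : ℕ) (k : Γ(kernel f, ⊤)),
      r ^ n • x = (kernel f).presheaf.map U.leTop.op k := by
    intro x
    obtain ⟨n, t, ht⟩ := surjM ((kernel.ι f).app U x)
    have h1 : N.presheaf.map U.leTop.op (f.app ⊤ t) = 0 := by
      rw [nat, ← ht, lin, (keU _).2 ⟨x, rfl⟩, smul_zero]
    obtain ⟨m, hm⟩ := injN _ h1
    rw [← lin] at hm
    obtain ⟨k, hk⟩ := (keT _).1 hm
    refine ⟨m + n, k, ?_⟩
    apply kiU
    rw [lin, pow_add, mul_smul, ht, ← nat, hk, Scheme.Modules.map_smul_Spec]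
  have key2 : ∀ x : Γ(kernel f, ⊤), (kernel f).presheaf.map U.leTop.op x = 0 →
      ∃ n : ℕ, r ^ n • x = 0 := by
    intro x hx
    have h1 : M.presheaf.map U.leTop.op ((kernel.ι f).app ⊤ x) = 0 := by
      rw [nat, hx, map_zero]
    obtain ⟨n, hn⟩ := injM _ h1
    refine ⟨n, kiT ?_⟩
    rw [lin, hn, map_zero]
  refine IsLocalizedModule.Away.mk_of_addCommGroup ?_ ?_ ?_
  · exact Scheme.Modules.isUnit_algebraMap_end_of_le_basicOpen r le_rfl
  · intro x
    exact key1 x
  · intro x hx
    exact key2 x hx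

theorem qc_biprod {M N : X.Modules} (hM : M.IsQuasicoherent) (hN : N.IsQuasicoherent) :
    (M ⊞ N).IsQuasicoherent := by
  refine qck_of_affine _ fun R j _ => ?_
  have h1 : (M.restrict j).IsQuasicoherent := inferInstance
  have h2 : (N.restrict j).IsQuasicoherent := inferInstance
  have : PreservesBinaryBiproduct M N (restrictFunctor j) :=
    preservesBinaryBiproduct_of_preservesBinaryCoproduct (restrictFunctor j)
  exact qc_of_iso ((restrictFunctor j).mapBiprod M N).symm (qck_spec_biprod h1 h2)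

theorem qc_kernel {M N : X.Modules} (f : M ⟶ N) (hM : M.IsQuasicoherent) (hN : N.IsQuasicoherent) :
    (kernel f).IsQuasicoherent := by
  refine qck_of_affine _ fun R j _ => ?_
  have h1 : (M.restrict j).IsQuasicoherent := inferInstance
  have h2 : (N.restrict j).IsQuasicoherent := inferInstance
  exact qc_of_iso (PreservesKernel.iso (restrictFunctor j) f).symm (qck_spec_ker ((restrictFunctor j).map f) h1 h2)

theorem qc_cokernel {M N : X.Modules} (f : M ⟶ N) (hM : M.IsQuasicoherent)
    (hN : N.IsQuasicoherent) : (cokernel f).IsQuasicoherent := by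
  refine qck_of_affine _ fun R j _ => ?_
  have h1 : (M.restrict j).IsQuasicoherent := inferInstance
  have h2 : (N.restrict j).IsQuasicoherent := inferInstance
  exact qc_of_iso (PreservesCokernel.iso (restrictFunctor j) f).symm (qck_spec_coker ((restrictFunctor j).map f) h1 h2)

end Pool.H33.P

end S_QCK

section S_PFREE

/-! # PFREE: modules that are locally free of finite rank are perfect; restriction of free modules -/

open CategoryTheory AlgebraicGeometry Limits TopologicalSpace

namespace Pool.H33.P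

theorem pfree_zero (X : Scheme.{0}) :
    IsZero (SheafOfModules.free (R := X.ringCatSheaf) (Fin 0) : X.Modules) := by
  rw [IsZero.iff_id_eq_zero]
  apply Sigma.hom_ext
  intro i
  exact i.elim0

theorem pfree_ff {X : Scheme.{0}} (m : ℕ) (A : X.Modules)
    (e : A ≅ (SheafOfModules.free (R := X.ringCatSheaf) (Fin m) : X.Modules)) :
    IsFF ((HomologicalComplex.single X.Modules (ComplexShape.up ℤ) 0).obj A) := by
  refine ⟨⟨0, 0, inferInstance, inferInstance⟩, ?_⟩
  intro n
  by_cases hn : n = 0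
  · subst hn
    exact ⟨m, ⟨HomologicalComplex.singleObjXSelf (ComplexShape.up ℤ) 0 _ ≪≫ e⟩⟩
  · refine ⟨0, ⟨IsZero.iso ?_ (pfree_zero X)⟩⟩
    exact HomologicalComplex.isZero_single_obj_X (ComplexShape.up ℤ) 0 _ n hn

theorem perfect_of_free {X : Scheme.{0}} (M : X.Modules)
    (h : ∀ x : X, ∃ V : X.Opens, x ∈ V ∧ ∃ m : ℕ,
      Nonempty (M.restrict V.ι ≅ (SheafOfModules.free (R := (V : Scheme.{0}).ringCatSheaf) (Fin m) :
        (V : Scheme.{0}).Modules))) : IsPerfect X (sg M) := by
  intro x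
  obtain ⟨V, hx, m, ⟨e⟩⟩ := h x
  refine ⟨V, hx, _, pfree_ff m (M.restrict V.ι) e, ⟨?_⟩⟩
  exact ((Scheme.Modules.restrictFunctor V.ι).mapDerivedCategorySingleFunctor 0).app M

/-- the restriction of a free module along an open immersion is free -/
theorem restrict_free {X Y : Scheme.{0}} (f : X ⟶ Y) [IsOpenImmersion f] (m : ℕ) :
    Nonempty ((Scheme.Modules.restrictFunctor f).obj
      (SheafOfModules.free (R := Y.ringCatSheaf) (Fin m) : Y.Modules) ≅
      (SheafOfModules.free (R := X.ringCatSheaf) (Fin m) : X.Modules)) := by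
  have : PreservesColimitsOfSize.{0, 0} (Scheme.Modules.restrictFunctor f) := inferInstance
  refine ⟨?_⟩
  refine PreservesCoproduct.iso (Scheme.Modules.restrictFunctor f)
    (fun _ : Fin m => (SheafOfModules.unit Y.ringCatSheaf : Y.Modules)) ≪≫ ?_
  exact Sigma.mapIso (fun _ => Scheme.Modules.restrictUnitIso f)

theorem free_one (X : Scheme.{0}) :
    Nonempty ((SheafOfModules.unit X.ringCatSheaf : X.Modules) ≅
      (SheafOfModules.free (R := X.ringCatSheaf) (Fin 1) : X.Modules)) :=
  ⟨(coproductUniqueIso (fun _ : Fin 1 => (SheafOfModules.unit X.ringCatSheaf : X.Modules))).symm⟩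

/-- an open immersion along which the module becomes free -/
theorem free_of_immersion {X Y : Scheme.{0}} (M : X.Modules) (f : Y ⟶ X) [IsOpenImmersion f] (m : ℕ)
    (e : Nonempty (M.restrict f ≅
      (SheafOfModules.free (R := Y.ringCatSheaf) (Fin m) : Y.Modules))) :
    Nonempty (M.restrict f.opensRange.ι ≅ (SheafOfModules.free
      (R := (f.opensRange : Scheme.{0}).ringCatSheaf) (Fin m) :
        (f.opensRange : Scheme.{0}).Modules)) := by
  obtain ⟨e⟩ := e
  have h1 : f.opensRange.ι = f.isoOpensRange.inv ≫ f := by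
    rw [Iso.eq_inv_comp, Scheme.Hom.isoOpensRange_hom_ι]
  obtain ⟨e2⟩ := restrict_free f.isoOpensRange.inv m
  refine ⟨(Scheme.Modules.restrictFunctorCongr h1).app M ≪≫
    (Scheme.Modules.restrictFunctorComp f.isoOpensRange.inv f).app M ≪≫
    (Scheme.Modules.restrictFunctor f.isoOpensRange.inv).mapIso e ≪≫ e2⟩

end Pool.H33.P

end S_PFREE

section S_PTR0

/-! # PTR0: epimorphisms of modules are locally surjective; local lifting of maps from finite free modules -/

open CategoryTheory AlgebraicGeometry Limits TopologicalSpace Opposite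

namespace Pool.H33.P

variable {X : Scheme.{0}}

theorem epi_locally_surj {B C : X.Modules} (g : B ⟶ C) [Epi g] (V : X.Opens) (s : Γ(C, V))
    (x : X) (hx : x ∈ V) : ∃ (W : X.Opens) (h : W ≤ V) (t : Γ(B, W)), x ∈ W ∧ g.app W t = rs C h s := by
  let α := 𝟙 X.ringCatSheaf.obj
  let adj := PresheafOfModules.sheafificationAdjunction.{0} α
  let F : SheafOfModules.{0} X.ringCatSheaf ⥤ PresheafOfModules.{0} X.ringCatSheaf.obj :=
    SheafOfModules.forget _ ⋙ PresheafOfModules.restrictScalars α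
  let B0 : SheafOfModules.{0} X.ringCatSheaf := B
  let C0 : SheafOfModules.{0} X.ringCatSheaf := C
  let g0 : B0 ⟶ C0 := g
  have hg0 : Epi g0 := inferInstanceAs (Epi g)
  have hc : IsIso adj.counit :=
    inferInstanceAs (IsIso (PresheafOfModules.sheafificationAdjunction.{0} α).counit)
  have hc' : ∀ Y, IsIso (adj.counit.app Y) := fun Y => inferInstance
  let f' : F.obj B0 ⟶ F.obj C0 := F.map g0
  let q := cokernel.π f'
  have e1 : Epi ((PresheafOfModules.sheafification.{0} α).map f') := by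
    have h1 : (PresheafOfModules.sheafification.{0} α).map f' ≫ adj.counit.app C0 = adj.counit.app B0 ≫ g0 :=
      adj.counit.naturality g0
    have h2 : Epi ((PresheafOfModules.sheafification.{0} α).map f' ≫ adj.counit.app C0) := by
      rw [h1]
      have := hc' B0
      exact epi_comp (adj.counit.app B0) g0
    have h3 : (PresheafOfModules.sheafification.{0} α).map f' =
      ((PresheafOfModules.sheafification.{0} α).map f' ≫ adj.counit.app C0) ≫ inv (adj.counit.app C0) := by
      rw [Category.assoc, IsIso.hom_inv_id, Category.comp_id]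
    rw [h3]
    exact epi_comp _ _
  have e2 : (PresheafOfModules.sheafification.{0} α).map q = 0 := by
    rw [← cancel_epi ((PresheafOfModules.sheafification.{0} α).map f'), ← Functor.map_comp,
      cokernel.condition, Functor.map_zero, comp_zero]
  have e3 : q ≫ adj.unit.app (cokernel f') = 0 := by
    have := adj.unit.naturality q
    refine Eq.trans this ?_
    change _ ≫ F.map ((PresheafOfModules.sheafification.{0} α).map q) = 0
    rw [e2]
    have : F.map (0 : (PresheafOfModules.sheafification.{0} α).obj (F.obj C0) ⟶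
      (PresheafOfModules.sheafification.{0} α).obj (cokernel f')) = 0 := rfl
    rw [this, comp_zero]
  have e4 : (PresheafOfModules.toPresheaf _).map q ≫
      CategoryTheory.toSheafify (Opens.grothendieckTopology X) (cokernel f').presheaf = 0 := by
    have := congrArg (PresheafOfModules.toPresheaf _).map e3
    rw [Functor.map_comp] at this
    refine Eq.trans this ?_
    exact Functor.map_zero _ _ _
  let s' : (F.obj C0).presheaf.obj (op V) := s
  let z : (cokernel f').presheaf.obj (op V) := ((PresheafOfModules.toPresheaf _).map q).app (op V) s'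
  have e5 : (CategoryTheory.toSheafify (Opens.grothendieckTopology X) (cokernel f').presheaf).app (op V) z = 0 := by
    have := congrArg (fun φ => φ.app (op V) s') e4
    exact this
  have e6 := Presheaf.equalizerSieve_mem (Opens.grothendieckTopology X)
    (CategoryTheory.toSheafify (Opens.grothendieckTopology X) (cokernel f').presheaf) z 0
      (by rw [e5, map_zero])
  obtain ⟨W, i, hi, hxW⟩ := e6 x hx
  refine ⟨W, leOfHom i, ?_⟩
  have e7 : (cokernel f').presheaf.map i.op z = 0 := by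
    have h := hi
    simp only [Presheaf.equalizerSieve_apply, map_zero] at h
    exact h
  have hex : ((ShortComplex.mk f' q (cokernel.condition f')).map
      (PresheafOfModules.evaluation.{0} X.ringCatSheaf.obj (op W))).Exact :=
    (ShortComplex.exact_cokernel f').map _
  rw [ShortComplex.moduleCat_exact_iff] at hex
  obtain ⟨t, ht⟩ := hex ((F.obj C0).presheaf.map i.op s') (by
    have h8 := ConcreteCategory.congr_hom (((PresheafOfModules.toPresheaf _).map q).naturality i.op) s'
    exact h8.trans e7)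
  exact ⟨t, hxW, ht⟩
/-- the structure sheaf -/
noncomputable def ptr0_O (X : Scheme.{0}) : X.Modules := SheafOfModules.unit X.ringCatSheaf

/-- the free module -/
noncomputable def ptr0_F (X : Scheme.{0}) (m : ℕ) : X.Modules :=
  SheafOfModules.free (R := X.ringCatSheaf) (Fin m)

/-- the inclusions into a free module -/
noncomputable def ptr0_in (X : Scheme.{0}) (m : ℕ) (i : Fin m) : ptr0_O X ⟶ ptr0_F X m :=
  SheafOfModules.ιFree (R := X.ringCatSheaf) i

theorem ptr0_free_ext {m : ℕ} {M : X.Modules}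
    {f g : ptr0_F X m ⟶ M}
    (h : ∀ i, ptr0_in X m i ≫ f = ptr0_in X m i ≫ g) : f = g :=
  Sigma.hom_ext (C := SheafOfModules X.ringCatSheaf) f g h

theorem ptr0_free_desc {m : ℕ} {M : X.Modules}
    (ψ : ∀ _ : Fin m, ptr0_O X ⟶ M) :
    ∃ f : ptr0_F X m ⟶ M,
      ∀ i, ptr0_in X m i ≫ f = ψ i :=
  ⟨Sigma.desc (C := SheafOfModules X.ringCatSheaf) ψ,
    fun i => Sigma.ι_desc (C := SheafOfModules X.ringCatSheaf) ψ i⟩

/-- the section `1` -/
def ptr0_one (X : Scheme.{0}) (V : X.Opens) : Γ(ptr0_O X, V) :=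
  (1 : Γ(X, V))

theorem ptr0_rs_one {V W : X.Opens} (h : V ≤ W) :
    rs (ptr0_O X) h (ptr0_one X W) = ptr0_one X V :=
  map_one (X.presheaf.map (homOfLE h).op).hom

theorem ptr0_unit_hom (M : X.Modules) (s : Γ(M, ⊤)) :
    ∃ φ : ptr0_O X ⟶ M, φ.app ⊤ (ptr0_one X ⊤) = s := by
  let σ : SheafOfModules.sections (show SheafOfModules X.ringCatSheaf from M) :=
    PresheafOfModules.sectionsMk (fun V => rs M (V := V.unop) le_top s) (by
      intro V W f
      change M.presheaf.map f (M.presheaf.map _ s) = M.presheaf.map _ s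
      rw [← ConcreteCategory.comp_apply, ← Functor.map_comp]
      rfl)
  refine ⟨(SheafOfModules.unitHomEquiv _).symm σ, ?_⟩
  have h := SheafOfModules.unitHomEquiv_apply_coe (show SheafOfModules X.ringCatSheaf from M)
    ((SheafOfModules.unitHomEquiv _).symm σ) (op ⊤)
  rw [Equiv.apply_symm_apply] at h
  refine Eq.trans h.symm ?_
  change M.presheaf.map _ s = s
  have : M.presheaf.map (𝟙 (op ⊤)) s = s := by
    rw [M.presheaf.map_id]; rfl
  exact this

theorem ptr0_unit_ext {M : X.Modules}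
    {f g : ptr0_O X ⟶ M}
    (h : f.app ⊤ (ptr0_one X ⊤) = g.app ⊤ (ptr0_one X ⊤)) : f = g := by
  apply (SheafOfModules.unitHomEquiv (show SheafOfModules X.ringCatSheaf from M)).injective
  apply PresheafOfModules.sections_ext
  intro V
  have key : ∀ φ : ptr0_O X ⟶ M,
      φ.app V.unop (ptr0_one X V.unop) = rs M le_top (φ.app ⊤ (ptr0_one X ⊤)) := by
    intro φ
    rw [← ptr0_rs_one (X := X) (le_top : V.unop ≤ ⊤)]
    exact ConcreteCategory.congr_hom (φ.mapPresheaf.naturality (homOfLE (le_top : V.unop ≤ ⊤)).op)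
      (ptr0_one X ⊤)
  exact (key f).trans ((congrArg _ h).trans (key g).symm)

/-- the restriction of the structure sheaf -/
noncomputable def ptr0_rO (W : X.Opens) : (ptr0_O X).restrict W.ι ≅ ptr0_O (W : Scheme.{0}) :=
  Scheme.Modules.restrictUnitIso W.ι

theorem ptr0_rO_one (W : X.Opens) : (ptr0_rO W).inv.app ⊤ (ptr0_one (W : Scheme.{0}) ⊤) =
    ptr0_one X (W.ι ''ᵁ ⊤) :=
  map_one (W.ι.appIso ⊤).inv.hom

/-- lift the finitely many basis sections -/
theorem lift_free_local {B C : X.Modules} (g : B ⟶ C) [Epi g] (m : ℕ)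
    (f : (SheafOfModules.free (R := X.ringCatSheaf) (Fin m) : X.Modules) ⟶ C) (x : X) :
    ∃ (W : X.Opens) (t : (Scheme.Modules.restrictFunctor W.ι).obj
        (SheafOfModules.free (R := X.ringCatSheaf) (Fin m) : X.Modules) ⟶
        (Scheme.Modules.restrictFunctor W.ι).obj B), x ∈ W ∧
      t ≫ (Scheme.Modules.restrictFunctor W.ι).map g = (Scheme.Modules.restrictFunctor W.ι).map f := by
  let f0 : ptr0_F X m ⟶ C := f
  have h1 : ∀ i : Fin m, ∃ (W : X.Opens) (h : W ≤ ⊤) (t : Γ(B, W)), x ∈ W ∧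
      g.app W t = rs C h ((ptr0_in X m i ≫ f0).app ⊤ (ptr0_one X ⊤)) := fun i =>
    epi_locally_surj g ⊤ _ x trivial
  choose W0 hW0 t0 hx0 ht0 using h1
  let W : X.Opens := Finset.univ.inf W0
  have hxW : x ∈ W := by
    change x ∈ ((Finset.univ.inf W0 : X.Opens) : Set X)
    rw [Opens.coe_finset_inf]
    simp only [Finset.inf_eq_iInf, Function.comp_apply, Finset.mem_univ, iInf_pos, Set.iInf_eq_iInter,
      Set.mem_iInter]
    exact hx0
  have hW : ∀ i, W ≤ W0 i := fun i => Finset.inf_le (Finset.mem_univ i)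
  have hW' : ∀ i, W.ι ''ᵁ ⊤ ≤ W0 i := fun i => by
    rw [Scheme.Opens.ι_image_top]; exact hW i
  have h2 : ∀ i : Fin m, ∃ φ : ptr0_O (W : Scheme.{0}) ⟶ B.restrict W.ι,
      φ.app ⊤ (ptr0_one (W : Scheme.{0}) ⊤) = (rs B (hW' i) (t0 i) : Γ(B, W.ι ''ᵁ ⊤)) := fun i =>
    ptr0_unit_hom (B.restrict W.ι) _
  choose ψ hψ using h2
  let adj := Scheme.Modules.restrictAdjunction W.ι
  obtain ⟨k, hk⟩ := ptr0_free_desc (M := (Scheme.Modules.pushforward W.ι).obj (B.restrict W.ι))
    (fun i => (adj.homEquiv (ptr0_O X) (B.restrict W.ι)) ((ptr0_rO W).hom ≫ ψ i))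
  have key : ((adj.homEquiv (ptr0_F X m) (B.restrict W.ι)).symm k) ≫
      (Scheme.Modules.restrictFunctor W.ι).map g = (Scheme.Modules.restrictFunctor W.ι).map f0 := by
    apply (adj.homEquiv _ _).injective
    rw [adj.homEquiv_naturality_right, Equiv.apply_symm_apply]
    apply ptr0_free_ext
    intro i
    rw [← Category.assoc, hk i, ← adj.homEquiv_naturality_right, ← adj.homEquiv_naturality_left]
    congr 1
    rw [← Functor.map_comp, Category.assoc, ← cancel_epi (ptr0_rO W).inv, Iso.inv_hom_id_assoc]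
    apply ptr0_unit_ext
    change g.app (W.ι ''ᵁ ⊤) ((ψ i).app ⊤ (ptr0_one _ ⊤)) =
      (ptr0_in X m i ≫ f0).app (W.ι ''ᵁ ⊤) ((ptr0_rO W).inv.app ⊤ (ptr0_one _ ⊤))
    rw [hψ i, ptr0_rO_one, ← ptr0_rs_one (X := X) (le_top : W.ι ''ᵁ ⊤ ≤ ⊤)]
    have n1 : ∀ {M N : X.Modules} (φ : M ⟶ N) {V V' : X.Opens} (h : V ≤ V') (s : Γ(M, V')),
        φ.app V (rs M h s) = rs N h (φ.app V' s) := by
      intro M N φ V V' h s
      exact ConcreteCategory.congr_hom (φ.mapPresheaf.naturality (homOfLE h).op) s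
    rw [n1, n1, ht0 i]
    change C.presheaf.map _ (C.presheaf.map _ _) = C.presheaf.map _ _
    rw [← ConcreteCategory.comp_apply, ← Functor.map_comp]
    rfl
  exact ⟨W, _, hxW, key⟩

end Pool.H33.P

end S_PTR0

section S_SPL

/-! # SPL: a linear retraction on the sections over the affine opens gives a locally split monomorphism

On the affine open `U l`: morphisms between the restrictions of quasi-coherent modules are the linear maps
between the sections (`tilde.adjunction`, `isIso_fromTildeΓ_of_isQuasicoherent`, transported by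
`(hA l).isoSpec`). -/

open CategoryTheory AlgebraicGeometry Limits TopologicalSpace
open Scheme.Modules (restrictFunctor restrictFunctorComp restrictFunctorCongr)

namespace Pool.H33.P

variable {X : Scheme.{0}} {ι : Type} (U : ι → X.Opens)

theorem spl_cat {C : Type*} [Category C] {TA TB A B : C} (a : TA ⟶ A) (b : TB ⟶ B) (i : A ⟶ B)
    (ti : TA ⟶ TB) (tr : TB ⟶ TA) (ha : IsIso a) (hb : IsIso b) (h1 : ti ≫ b = a ≫ i)
    (h2 : ti ≫ tr = 𝟙 _) : ∃ s : B ⟶ A, i ≫ s = 𝟙 A := by
  refine ⟨inv b ≫ tr ≫ a, ?_⟩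
  rw [← cancel_epi a, ← Category.assoc, ← h1]
  simp only [Category.assoc, IsIso.hom_inv_id_assoc]
  rw [reassoc_of% h2, Category.comp_id]

/-- on an affine scheme: a retraction on global sections gives a retraction -/
theorem spl_spec {R : CommRingCat.{0}} {A B : (Spec R).Modules} (hA : A.IsQuasicoherent)
    (hB : B.IsQuasicoherent) (i : A ⟶ B)
    (r : (moduleSpecΓFunctor (R := R)).obj B ⟶ (moduleSpecΓFunctor (R := R)).obj A)
    (h : (moduleSpecΓFunctor (R := R)).map i ≫ r = 𝟙 _) :
    ∃ s : B ⟶ A, i ≫ s = 𝟙 A := by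
  have hA' : IsIso A.fromTildeΓ := inferInstance
  have hB' : IsIso B.fromTildeΓ := inferInstance
  have nat : tilde.map ((moduleSpecΓFunctor (R := R)).map i) ≫ B.fromTildeΓ =
      A.fromTildeΓ ≫ i := Scheme.Modules.fromTildeΓNatTrans.naturality i
  refine spl_cat A.fromTildeΓ B.fromTildeΓ i (tilde.map ((moduleSpecΓFunctor (R := R)).map i))
    (tilde.map r) hA' hB' nat ?_
  have := tilde.map_comp ((moduleSpecΓFunctor (R := R)).map i) r
  rw [h, tilde.map_id] at this
  exact this.symm

/-- the module map on the global sections over the affine scheme -/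
noncomputable def splMap {V : X.Opens} (hV : IsAffineOpen V) {A B : X.Modules}
    (r : Γ(B, V) →ₗ[Γ(X, V)] Γ(A, V)) :
    (moduleSpecΓFunctor (R := Γ(X, V))).obj (B.restrict hV.fromSpec) ⟶
      (moduleSpecΓFunctor (R := Γ(X, V))).obj (A.restrict hV.fromSpec) :=
  ModuleCat.ofHom (R := Γ(X, V))
    (X := Γ(B.restrict hV.fromSpec, ⊤)) (Y := Γ(A.restrict hV.fromSpec, ⊤))
    { toFun := fun x => (A.restrictAppIso hV.fromSpec ⊤).inv (rs A (locm_top hV).le
        (r (rs B (locm_top hV).ge ((B.restrictAppIso hV.fromSpec ⊤).hom x))))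
      map_add' := by
        intro x y
        simp only [rs, map_add]
      map_smul' := by
        intro c x
        rw [locm_smul hV B ⊤ (locm_top hV).le c x, locm_rs_smul, locm_rf_rf, locm_rf_refl, map_smul,
          locm_rs_smul]
        simp only [RingHom.id_apply]
        have h1 := locm_smul hV A ⊤ (locm_top hV).le c ((A.restrictAppIso hV.fromSpec ⊤).inv
          (rs A (locm_top hV).le
            (r (rs B (locm_top hV).ge ((B.restrictAppIso hV.fromSpec ⊤).hom x)))))
        exact h1.symm }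

theorem spl_affine {V : X.Opens} (hV : IsAffineOpen V) {A B : X.Modules}
    (hqA : A.IsQuasicoherent) (hqB : B.IsQuasicoherent) (i : A ⟶ B)
    (r : Γ(B, V) →ₗ[Γ(X, V)] Γ(A, V)) (h : ∀ m : Γ(A, V), r (i.app V m) = m) :
    ∃ s : B.restrict hV.fromSpec ⟶ A.restrict hV.fromSpec,
      (restrictFunctor hV.fromSpec).map i ≫ s = 𝟙 _ := by
  refine spl_spec inferInstance inferInstance _ (splMap hV r) ?_
  have key : ∀ x : Γ(A, hV.fromSpec ''ᵁ ⊤),
      rs A (locm_top hV).le (r (rs B (locm_top hV).ge (i.app (hV.fromSpec ''ᵁ ⊤) x))) = x := by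
    intro x
    have nat : rs B (locm_top hV).ge (i.app (hV.fromSpec ''ᵁ ⊤) x) =
        i.app V (rs A (locm_top hV).ge x) :=
      (congrArg (fun φ => φ x) (i.mapPresheaf.naturality (homOfLE (locm_top hV).ge).op)).symm
    rw [nat, h, locm_rs_rs, locm_rs_refl]
  ext x
  exact key x

theorem locSplit_of_sec (hA : ∀ i, IsAffineOpen (U i)) {A B : X.Modules}
    (hqA : A.IsQuasicoherent) (hqB : B.IsQuasicoherent) (i : A ⟶ B)
    (h : ∀ l, ∃ r : Γ(B, U l) →ₗ[Γ(X, U l)] Γ(A, U l), ∀ m : Γ(A, U l), r (i.app (U l) m) = m) :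
    LocSplit U i := by
  intro l
  obtain ⟨r, hr⟩ := h l
  obtain ⟨s, hs⟩ := spl_affine (hA l) hqA hqB i r hr
  let e : restrictFunctor (U l).ι ≅
      restrictFunctor (hA l).fromSpec ⋙ restrictFunctor (hA l).isoSpec.hom :=
    restrictFunctorCongr (by simp) ≪≫ restrictFunctorComp _ _
  refine ⟨e.hom.app B ≫ (restrictFunctor (hA l).isoSpec.hom).map s ≫ e.inv.app A, ?_⟩
  rw [e.hom.naturality_assoc]
  have h1 : (restrictFunctor (hA l).fromSpec ⋙ restrictFunctor (hA l).isoSpec.hom).map i ≫
      (restrictFunctor (hA l).isoSpec.hom).map s = 𝟙 _ := by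
    rw [Functor.comp_map, ← Functor.map_comp, hs]
    exact CategoryTheory.Functor.map_id _ _
  have h2 := congrArg (fun φ => φ ≫ e.inv.app A) h1
  simp only [Category.assoc, Category.id_comp] at h2
  rw [h2]
  exact e.hom_inv_id_app A

theorem mono_of_locSplit (hU : ⨆ i, U i = ⊤) {A B : X.Modules} (i : A ⟶ B) (h : LocSplit U i) :
    Mono i := by
  have h1 : ∀ (l : ι) (W : (U l : Scheme.{0}).Opens), Function.Injective (i.app ((U l).ι ''ᵁ W)) := by
    intro l W
    obtain ⟨r, hr⟩ := h l
    have h2 : ∀ m : Γ(A.restrict (U l).ι, W),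
        r.app W (((restrictFunctor (U l).ι).map i).app W m) = m := by
      intro m
      exact congrArg (fun φ : A.restrict (U l).ι ⟶ A.restrict (U l).ι => φ.app W m) hr
    exact Function.LeftInverse.injective (g := r.app W) h2
  have h2 : ∀ (V : X.Opens) (m : Γ(A, V)), i.app V m = 0 → m = 0 := by
    intro V m hm
    have hle : ∀ l, (U l).ι ''ᵁ ((U l).ι ⁻¹ᵁ V) ≤ V := fun l => (U l).ι.image_preimage_le V
    refine TopCat.Sheaf.eq_of_locally_eq' ⟨_, A.isSheaf⟩ (fun l => (U l).ι ''ᵁ ((U l).ι ⁻¹ᵁ V)) V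
      (fun l => homOfLE (hle l)) ?_ _ _ ?_
    · have : ∀ l, (U l).ι ''ᵁ ((U l).ι ⁻¹ᵁ V) = U l ⊓ V := by
        intro l
        simp [Scheme.Hom.image_preimage_eq_opensRange_inf]
      simp only [this]
      rw [← iSup_inf_eq, hU, top_inf_eq]
    · intro l
      rw [map_zero]
      apply h1 l
      rw [map_zero]
      have nat := congrArg (fun φ => φ m) (i.mapPresheaf.naturality (homOfLE (hle l)).op)
      refine nat.trans ?_
      exact (congrArg (B.presheaf.map (homOfLE (hle l)).op) hm).trans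
        (map_zero (B.presheaf.map (homOfLE (hle l)).op).hom)
  have h3 : Mono ((Scheme.Modules.toPresheaf X).map i) := by
    have : ∀ V, Mono (((Scheme.Modules.toPresheaf X).map i).app V) := by
      intro V
      rw [AddCommGrpCat.mono_iff_injective]
      rw [injective_iff_map_eq_zero]
      intro m hm
      exact h2 V.unop m hm
    exact NatTrans.mono_of_mono_app _
  exact (Scheme.Modules.toPresheaf X).mono_of_mono_map h3

end Pool.H33.P

end S_SPL
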