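import Mathlib
import Pool.Agent.H33.GP.Def
import Pool.Agent.H33.GP.A1
import Pool.Agent.H33.GP.A2

/-! Two line bundles generate the perfect complexes of the surface F_1, file A3 -/

section S_GLU

/-! # GLU: gluing morphisms out of a quasi-coherent module

Elementary proof from LOCM: a section `m` of `M` over `V` restricted to a basic open `D = D(s) ≤ V`,
`s ∈ Γ(X, U l)`, is of the form `s ^ (-k) t`, `t ∈ Γ(M, U l)`; its image is `s ^ (-k) ψ l t`. -/

open CategoryTheory AlgebraicGeometry Limits TopologicalSpace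

namespace Pool.H33.P

variable {X : Scheme.{0}} {ι : Type} (U : ι → X.Opens)

/-! ## restriction maps -/

theorem glu_rs_smul (M : X.Modules) {U V : X.Opens} (h : V ≤ U) (r : Γ(X, U)) (m : Γ(M, U)) :
    rs M h (r • m) = rf h r • rs M h m :=
  Scheme.Modules.map_smul M (homOfLE h) r m

theorem glu_rs_add (M : X.Modules) {U V : X.Opens} (h : V ≤ U) (m m' : Γ(M, U)) :
    rs M h (m + m') = rs M h m + rs M h m' :=
  map_add (M.presheaf.map (homOfLE h).op).hom m m'

theorem glu_rs_sub (M : X.Modules) {U V : X.Opens} (h : V ≤ U) (m m' : Γ(M, U)) :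
    rs M h (m - m') = rs M h m - rs M h m' :=
  map_sub (M.presheaf.map (homOfLE h).op).hom m m'

theorem glu_rs_zero (M : X.Modules) {U V : X.Opens} (h : V ≤ U) :
    rs M h (0 : Γ(M, U)) = 0 :=
  map_zero (M.presheaf.map (homOfLE h).op).hom

theorem glu_rf_mul {U V : X.Opens} (h : V ≤ U) (r s : Γ(X, U)) :
    rf h (r * s) = rf h r * rf h s :=
  map_mul (X.presheaf.map (homOfLE h).op).hom r s

theorem glu_rf_pow {U V : X.Opens} (h : V ≤ U) (r : Γ(X, U)) (n : ℕ) :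
    rf h (r ^ n) = rf h r ^ n :=
  map_pow (X.presheaf.map (homOfLE h).op).hom r n

theorem glu_rf_one {U V : X.Opens} (h : V ≤ U) : rf h (1 : Γ(X, U)) = 1 :=
  map_one (X.presheaf.map (homOfLE h).op).hom

theorem glu_rs_rs (M : X.Modules) {U V W : X.Opens} (h : V ≤ U) (h' : W ≤ V) (m : Γ(M, U)) :
    rs M h' (rs M h m) = rs M (h'.trans h) m := by
  unfold rs
  rw [← M.presheaf.map_comp_apply, ← op_comp, homOfLE_comp]

theorem glu_rf_rf {U V W : X.Opens} (h : V ≤ U) (h' : W ≤ V) (m : Γ(X, U)) :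
    rf h' (rf h m) = rf (h'.trans h) m := by
  unfold rf
  rw [← CategoryTheory.comp_apply, ← X.presheaf.map_comp, ← op_comp, homOfLE_comp]

theorem glu_rs_app {M N : X.Modules} (φ : M ⟶ N) {U V : X.Opens} (h : V ≤ U) (m : Γ(M, U)) :
    φ.app V (rs M h m) = rs N h (φ.app U m) := by
  have := (φ.mapPresheaf).naturality (homOfLE h).op
  exact congr($this m)

theorem glu_unit {U V W : X.Opens} (s : Γ(X, U)) (hV : V = X.basicOpen s) (hVU : V ≤ U)
    (hWV : W ≤ V) : IsUnit (rf (hWV.trans hVU) s) := by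
  subst hV
  have h1 : IsUnit (rf hVU s) := X.toRingedSpace.isUnit_res_basicOpen s
  rw [← glu_rf_rf hVU hWV]
  exact h1.map (X.presheaf.map (homOfLE hWV).op).hom

theorem glu_cancel (N : X.Modules) {W : X.Opens} {u : Γ(X, W)} (hu : IsUnit u) {n n' : Γ(N, W)}
    (h : u • n = u • n') : n = n' := by
  obtain ⟨v, rfl⟩ := hu
  have h1 : (v⁻¹ : Γ(X, W)ˣ).1 • (v.1 • n) = (v⁻¹ : Γ(X, W)ˣ).1 • (v.1 • n') := by rw [h]
  rwa [smul_smul, smul_smul, Units.inv_mul, one_smul, one_smul] at h1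

theorem glu_div (N : X.Modules) {W : X.Opens} {u : Γ(X, W)} (hu : IsUnit u) (n : Γ(N, W)) :
    ∃ n', n = u • n' := by
  obtain ⟨v, rfl⟩ := hu
  exact ⟨(v⁻¹ : Γ(X, W)ˣ).1 • n, by rw [smul_smul, Units.mul_inv, one_smul]⟩

theorem glu_ext (N : X.Modules) (V : X.Opens) {κ : Type} (W : κ → X.Opens) (hW : ∀ i, W i ≤ V)
    (hc : V ≤ ⨆ i, W i) (n n' : Γ(N, V)) (h : ∀ i, rs N (hW i) n = rs N (hW i) n') : n = n' :=
  TopCat.Sheaf.eq_of_locally_eq' ⟨_, N.isSheaf⟩ W V (fun i => homOfLE (hW i)) hc n n' h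

theorem glu_glue (N : X.Modules) (V : X.Opens) {κ : Type} (W : κ → X.Opens) (hW : ∀ i, W i ≤ V)
    (hc : V ≤ ⨆ i, W i) (n : ∀ i, Γ(N, W i))
    (h : ∀ i j, rs N (V := W i ⊓ W j) inf_le_left (n i) =
      rs N (V := W i ⊓ W j) inf_le_right (n j)) :
    ∃ m : Γ(N, V), ∀ i, rs N (hW i) m = n i := by
  obtain ⟨m, hm, -⟩ := TopCat.Sheaf.existsUnique_gluing' ⟨_, N.isSheaf⟩ W V
    (fun i => homOfLE (hW i)) hc n h
  exact ⟨m, hm⟩

/-- the index set of the basic opens in `V` -/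
abbrev GluJ (V : X.Opens) : Type := {p : Σ l, Γ(X, U l) // X.basicOpen p.2 ≤ V}

theorem glu_cover (hU : ⨆ i, U i = ⊤) (hA : ∀ i, IsAffineOpen (U i)) (V : X.Opens) :
    V ≤ ⨆ p : GluJ U V, X.basicOpen p.1.2 := by
  intro x hx
  have h1 : x ∈ ⨆ i, U i := by rw [hU]; trivial
  obtain ⟨l, hl⟩ := Opens.mem_iSup.1 h1
  obtain ⟨f, hf, hxf⟩ := (hA l).exists_basicOpen_le ⟨x, hx⟩ hl
  exact Opens.mem_iSup.2 ⟨⟨⟨l, f⟩, hf⟩, hxf⟩

theorem hom_ext_cover (hU : ⨆ i, U i = ⊤) (hA : ∀ i, IsAffineOpen (U i))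
    {M N : X.Modules} (hM : M.IsQuasicoherent) (f g : M ⟶ N)
    (h : ∀ l (m : Γ(M, U l)), f.app (U l) m = g.app (U l) m) : f = g := by
  apply Scheme.Modules.hom_ext
  intro V
  ext m
  refine glu_ext N V (fun p : GluJ U V => X.basicOpen p.1.2) (fun p => p.2)
    (glu_cover U hU hA V) _ _ ?_
  rintro ⟨⟨l, s⟩, hs⟩
  obtain ⟨k, t, ht⟩ := loc_surj M hM (hA l) s rfl (X.basicOpen_le s) (rs M hs m)
  have hu : IsUnit (rf (X.basicOpen_le s) (s ^ k)) := by
    rw [glu_rf_pow]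
    exact (glu_unit s rfl (X.basicOpen_le s) le_rfl).pow k
  refine glu_cancel N hu ?_
  rw [← glu_rs_app, ← glu_rs_app]
  have e1 := f.app_smul (rf (X.basicOpen_le s) (s ^ k)) (rs M hs m)
  have e2 := g.app_smul (rf (X.basicOpen_le s) (s ^ k)) (rs M hs m)
  rw [← ht, glu_rs_app] at e1 e2
  rw [← e1, ← e2, h]

/-! ## linear maps on affine opens -/

theorem glu_lin {M N : X.Modules} (hM : M.IsQuasicoherent) {A : X.Opens} (hA : IsAffineOpen A)
    (f : Γ(M, A) →ₗ[Γ(X, A)] Γ(N, A)) (u : Γ(X, A)) {W : X.Opens} (hW : W = X.basicOpen u)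
    (hWA : W ≤ A) (x : Γ(M, A)) (hx : rs M hWA x = 0) : rs N hWA (f x) = 0 := by
  obtain ⟨n, hn⟩ := loc_inj M hM hA u hW hWA x hx
  have h1 : u ^ n • f x = 0 := by rw [← f.map_smul, hn, f.map_zero]
  have h2 : rs N hWA (u ^ n • f x) = 0 := by rw [h1, glu_rs_zero]
  rw [glu_rs_smul, glu_rf_pow] at h2
  have hu := (glu_unit u hW hWA le_rfl).pow n
  refine glu_cancel N hu ?_
  rw [smul_zero]
  exact h2

section Main

variable {U} (hU : ⨆ i, U i = ⊤) (hA : ∀ i, IsAffineOpen (U i))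
    (hAA : ∀ i j, ∃ f : Γ(X, U i), U i ⊓ U j = X.basicOpen f)
    {M N : X.Modules} (hM : M.IsQuasicoherent)
    (ψ : ∀ l, Γ(M, U l) →ₗ[Γ(X, U l)] Γ(N, U l))
    (χ : ∀ l l', Γ(M, U l ⊓ U l') →ₗ[Γ(X, U l ⊓ U l')] Γ(N, U l ⊓ U l'))
    (h1 : ∀ l l' (m : Γ(M, U l)),
      rs N (V := U l ⊓ U l') inf_le_left (ψ l m) = χ l l' (rs M (V := U l ⊓ U l') inf_le_left m))
    (h2 : ∀ l l' (m : Γ(M, U l')),
      rs N (V := U l ⊓ U l') inf_le_right (ψ l' m) = χ l l' (rs M (V := U l ⊓ U l') inf_le_right m))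

include hA hAA hM h1 h2 in
theorem glu_compat {l l' : ι} (s : Γ(X, U l)) (s' : Γ(X, U l')) {D D' W : X.Opens}
    (hD : D = X.basicOpen s) (hD' : D' = X.basicOpen s') (hW : W = D ⊓ D')
    (h : W ≤ U l) (h' : W ≤ U l') (k k' : ℕ) (t : Γ(M, U l)) (t' : Γ(M, U l'))
    (m : Γ(M, W)) (n n' : Γ(N, W)) (e1 : rs M h t = rf h s ^ k • m)
    (e2 : rs M h' t' = rf h' s' ^ k' • m) (e3 : rs N h (ψ l t) = rf h s ^ k • n)
    (e4 : rs N h' (ψ l' t') = rf h' s' ^ k' • n') : n = n' := by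
  have hWA : W ≤ U l ⊓ U l' := le_inf h h'
  have hAff : IsAffineOpen (U l ⊓ U l') := by
    obtain ⟨f, hf⟩ := hAA l l'
    rw [hf]
    exact (hA l).basicOpen f
  have hWD : W ≤ D := hW ▸ inf_le_left
  have hWD' : W ≤ D' := hW ▸ inf_le_right
  have hu := glu_unit s hD (hD ▸ X.basicOpen_le s) hWD
  have hu' := glu_unit s' hD' (hD' ▸ X.basicOpen_le s') hWD'
  set sA : Γ(X, U l ⊓ U l') := rf inf_le_left s with hsA
  set sA' : Γ(X, U l ⊓ U l') := rf inf_le_right s' with hsA'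
  have hWb : W = X.basicOpen (sA * sA') := by
    rw [Scheme.basicOpen_mul, hsA, hsA']
    unfold rf
    rw [Scheme.basicOpen_res, Scheme.basicOpen_res, ← hD, ← hD', hW]
    apply le_antisymm
    · refine le_inf (le_inf (hW ▸ hWA) inf_le_left) (le_inf (hW ▸ hWA) inf_le_right)
    · exact le_inf (inf_le_left.trans inf_le_right) (inf_le_right.trans inf_le_right)
  have hx : rs M hWA (sA' ^ k' • rs M inf_le_left t - sA ^ k • rs M inf_le_right t') = 0 := by
    rw [glu_rs_sub, glu_rs_smul, glu_rs_smul, glu_rs_rs, glu_rs_rs, glu_rf_pow, glu_rf_pow, hsA,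
      hsA', glu_rf_rf, glu_rf_rf, e1, e2, smul_smul, smul_smul, mul_comm, sub_self]
  have hy := glu_lin (N := N) hM hAff (χ l l') _ hWb hWA _ hx
  rw [map_sub, map_smul, map_smul, ← h1, ← h2, glu_rs_sub, glu_rs_smul, glu_rs_smul, glu_rs_rs,
    glu_rs_rs, glu_rf_pow, glu_rf_pow, hsA, hsA', glu_rf_rf, glu_rf_rf, e3, e4, smul_smul,
    smul_smul, sub_eq_zero, mul_comm] at hy
  exact glu_cancel N ((hu.pow k).mul (hu'.pow k')) hy

/-- `n` is the image of `m` -/
def GluE (ψ : ∀ l, Γ(M, U l) →ₗ[Γ(X, U l)] Γ(N, U l)) (V : X.Opens) (m : Γ(M, V))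
    (n : Γ(N, V)) : Prop :=
  ∀ (l : ι) (s : Γ(X, U l)) (hs : X.basicOpen s ≤ V), ∃ (k : ℕ) (t : Γ(M, U l)),
    rs M (X.basicOpen_le s) t = rf (X.basicOpen_le s) s ^ k • rs M hs m ∧
    rs N (X.basicOpen_le s) (ψ l t) = rf (X.basicOpen_le s) s ^ k • rs N hs n

include hA hAA hM h1 h2 in
/-- the images on one basic open agree -/
theorem glu_same {l : ι} (s : Γ(X, U l)) {k k' : ℕ} {t t' : Γ(M, U l)}
    {m : Γ(M, X.basicOpen s)} {n n' : Γ(N, X.basicOpen s)}
    (e1 : rs M (X.basicOpen_le s) t = rf (X.basicOpen_le s) s ^ k • m)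
    (e2 : rs M (X.basicOpen_le s) t' = rf (X.basicOpen_le s) s ^ k' • m)
    (e3 : rs N (X.basicOpen_le s) (ψ l t) = rf (X.basicOpen_le s) s ^ k • n)
    (e4 : rs N (X.basicOpen_le s) (ψ l t') = rf (X.basicOpen_le s) s ^ k' • n') : n = n' :=
  glu_compat hA hAA hM ψ χ h1 h2 s s rfl rfl (inf_idem _).symm _ _ k k' t t' m n n' e1 e2 e3 e4

include hU hA hAA hM h1 h2 in
theorem glu_unique {V : X.Opens} {m : Γ(M, V)} {n n' : Γ(N, V)} (h : GluE ψ V m n)
    (h' : GluE ψ V m n') : n = n' := by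
  refine glu_ext N V (fun p : GluJ U V => X.basicOpen p.1.2) (fun p => p.2)
    (glu_cover U hU hA V) _ _ ?_
  rintro ⟨⟨l, s⟩, hs⟩
  obtain ⟨k, t, e1, e3⟩ := h l s hs
  obtain ⟨k', t', e2, e4⟩ := h' l s hs
  exact glu_same hA hAA hM ψ χ h1 h2 s e1 e2 e3 e4

include hU hA hAA hM h1 h2 in
theorem glu_exists (V : X.Opens) (m : Γ(M, V)) : ∃ n, GluE ψ V m n := by
  have hex : ∀ p : GluJ U V, ∃ (k : ℕ) (t : Γ(M, U p.1.1)) (n : Γ(N, X.basicOpen p.1.2)),
      rs M (X.basicOpen_le p.1.2) t = rf (X.basicOpen_le p.1.2) p.1.2 ^ k • rs M p.2 m ∧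
      rs N (X.basicOpen_le p.1.2) (ψ p.1.1 t) = rf (X.basicOpen_le p.1.2) p.1.2 ^ k • n := by
    rintro ⟨⟨l, s⟩, hs⟩
    obtain ⟨k, t, ht⟩ := loc_surj M hM (hA l) s rfl (X.basicOpen_le s) (rs M hs m)
    obtain ⟨n, hn⟩ := glu_div N ((glu_unit s rfl (X.basicOpen_le s) le_rfl).pow k)
      (rs N (X.basicOpen_le s) (ψ l t))
    refine ⟨k, t, n, ?_, hn⟩
    rw [ht, glu_rf_pow]
  choose k t n e1 e2 using hex
  obtain ⟨n0, hn0⟩ := glu_glue N V (fun p : GluJ U V => X.basicOpen p.1.2) (fun p => p.2)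
    (glu_cover U hU hA V) n (by
      intro p q
      refine glu_compat hA hAA hM ψ χ h1 h2 p.1.2 q.1.2 rfl rfl rfl
        (inf_le_left.trans (X.basicOpen_le _)) (inf_le_right.trans (X.basicOpen_le _))
        (k p) (k q) (t p) (t q) (rs M (inf_le_left.trans p.2) m) _ _ ?_ ?_ ?_ ?_
      · rw [← glu_rs_rs M (X.basicOpen_le p.1.2) inf_le_left, e1, glu_rs_smul, glu_rf_pow,
          glu_rf_rf, glu_rs_rs]
      · rw [← glu_rs_rs M (X.basicOpen_le q.1.2) inf_le_right, e1, glu_rs_smul, glu_rf_pow,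
          glu_rf_rf, glu_rs_rs]
      · rw [← glu_rs_rs N (X.basicOpen_le p.1.2) inf_le_left, e2, glu_rs_smul, glu_rf_pow,
          glu_rf_rf]
      · rw [← glu_rs_rs N (X.basicOpen_le q.1.2) inf_le_right, e2, glu_rs_smul, glu_rf_pow,
          glu_rf_rf])
  refine ⟨n0, ?_⟩
  intro l s hs
  have h3 := hn0 ⟨⟨l, s⟩, hs⟩
  refine ⟨k ⟨⟨l, s⟩, hs⟩, t ⟨⟨l, s⟩, hs⟩, e1 ⟨⟨l, s⟩, hs⟩, ?_⟩
  rw [h3]
  exact e2 ⟨⟨l, s⟩, hs⟩

theorem GluE.add {V : X.Opens} {m m' : Γ(M, V)} {n n' : Γ(N, V)} (h : GluE ψ V m n)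
    (h' : GluE ψ V m' n') : GluE ψ V (m + m') (n + n') := by
  intro l s hs
  obtain ⟨k, t, e1, e3⟩ := h l s hs
  obtain ⟨k', t', e2, e4⟩ := h' l s hs
  refine ⟨k + k', s ^ k' • t + s ^ k • t', ?_, ?_⟩
  · rw [glu_rs_add, glu_rs_smul, glu_rs_smul, e1, e2, glu_rf_pow, glu_rf_pow, glu_rs_add,
      smul_smul, smul_smul, ← pow_add, ← pow_add, smul_add, add_comm k' k]
  · rw [map_add, map_smul, map_smul, glu_rs_add, glu_rs_smul, glu_rs_smul, e3, e4, glu_rf_pow,
      glu_rf_pow, glu_rs_add, smul_smul, smul_smul, ← pow_add, ← pow_add, smul_add, add_comm k' k]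

include hA in
theorem GluE.smul {V : X.Opens} {m : Γ(M, V)} {n : Γ(N, V)} (r : Γ(X, V)) (h : GluE ψ V m n) :
    GluE ψ V (r • m) (r • n) := by
  intro l s hs
  obtain ⟨k, t, e1, e3⟩ := h l s hs
  obtain ⟨j, a, ha⟩ := loc_surj_fun (hA l) s rfl (X.basicOpen_le s) (rf hs r)
  refine ⟨k + j, a • t, ?_, ?_⟩
  · rw [glu_rs_smul, ha, e1, glu_rs_smul, smul_smul, smul_smul, glu_rf_pow, pow_add]
    congr 1
    ring
  · rw [map_smul, glu_rs_smul, ha, e3, glu_rs_smul, smul_smul, smul_smul, glu_rf_pow, pow_add]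
    congr 1
    ring

theorem GluE.res {V V' : X.Opens} (hV : V' ≤ V) {m : Γ(M, V)} {n : Γ(N, V)} (h : GluE ψ V m n) :
    GluE ψ V' (rs M hV m) (rs N hV n) := by
  intro l s hs
  obtain ⟨k, t, e1, e3⟩ := h l s (hs.trans hV)
  refine ⟨k, t, ?_, ?_⟩
  · rw [e1, glu_rs_rs]
  · rw [e3, glu_rs_rs]

include hA hAA hM h1 h2 in
theorem GluE.base (l : ι) (m : Γ(M, U l)) : GluE ψ (U l) m (ψ l m) := by
  intro l' s hs
  obtain ⟨k, t, ht⟩ := loc_surj M hM (hA l') s rfl (X.basicOpen_le s) (rs M hs m)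
  obtain ⟨n, hn⟩ := glu_div N ((glu_unit s rfl (X.basicOpen_le s) le_rfl).pow k)
    (rs N (X.basicOpen_le s) (ψ l' t))
  rw [glu_rf_pow] at ht
  refine ⟨k, t, ht, ?_⟩
  rw [hn]
  congr 1
  refine glu_compat hA hAA hM ψ χ h1 h2 s (1 : Γ(X, U l)) (D' := U l) rfl ?_ ?_
    (X.basicOpen_le s) hs k 0 t m (rs M hs m) _ _ ht ?_ hn ?_
  · rw [Scheme.basicOpen_of_isUnit X isUnit_one]
  · exact (inf_eq_left.2 hs).symm
  · rw [pow_zero, one_smul]
  · rw [pow_zero, one_smul]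

end Main

theorem glue_hom (hU : ⨆ i, U i = ⊤) (hA : ∀ i, IsAffineOpen (U i))
    (hAA : ∀ i j, ∃ f : Γ(X, U i), U i ⊓ U j = X.basicOpen f)
    {M N : X.Modules} (hM : M.IsQuasicoherent)
    (ψ : ∀ l, Γ(M, U l) →ₗ[Γ(X, U l)] Γ(N, U l))
    (χ : ∀ l l', Γ(M, U l ⊓ U l') →ₗ[Γ(X, U l ⊓ U l')] Γ(N, U l ⊓ U l'))
    (h1 : ∀ l l' (m : Γ(M, U l)),
      rs N (V := U l ⊓ U l') inf_le_left (ψ l m) = χ l l' (rs M (V := U l ⊓ U l') inf_le_left m))
    (h2 : ∀ l l' (m : Γ(M, U l')),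
      rs N (V := U l ⊓ U l') inf_le_right (ψ l' m) = χ l l' (rs M (V := U l ⊓ U l') inf_le_right m)) :
    ∃ φ : M ⟶ N, ∀ l (m : Γ(M, U l)), φ.app (U l) m = ψ l m := by
  choose F hF using fun (V : X.Opens) (m : Γ(M, V)) =>
    glu_exists hU hA hAA hM ψ χ h1 h2 V m
  have huniq : ∀ {V : X.Opens} {m : Γ(M, V)} {n : Γ(N, V)}, GluE ψ V m n → F V m = n := by
    intro V m n hn
    exact glu_unique hU hA hAA hM ψ χ h1 h2 (hF V m) hn
  have hadd : ∀ (V : X.Opens) (m m' : Γ(M, V)), F V (m + m') = F V m + F V m' := fun V m m' =>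
    huniq ((hF V m).add ψ (hF V m'))
  have hsmul : ∀ (V : X.Opens) (r : Γ(X, V)) (m : Γ(M, V)), F V (r • m) = r • F V m :=
    fun V r m => huniq ((hF V m).smul hA ψ r)
  have hres : ∀ {V V' : X.Opens} (h : V' ≤ V) (m : Γ(M, V)),
      F V' (rs M h m) = rs N h (F V m) := fun {V V'} h m => huniq ((hF V m).res ψ h)
  let φ : M ⟶ N := ⟨fun V ↦ ModuleCat.ofHom
    ⟨⟨fun m => F V.unop m, fun m m' => hadd V.unop m m'⟩, fun r m => hsmul V.unop r m⟩,
    fun {V V'} i ↦ by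
      ext m
      exact hres (leOfHom i.unop) m⟩
  refine ⟨φ, ?_⟩
  intro l m
  exact huniq (GluE.base hA hAA hM ψ χ h1 h2 l m)

end Pool.H33.P

end S_GLU

section S_QSP

/-! # QSP: exactness of sequences of quasi-coherent modules and of their sections over affine opens -/

open CategoryTheory AlgebraicGeometry Limits TopologicalSpace

namespace Pool.H33.P

variable {X : Scheme.{0}}

theorem qsp_rs_app {M N : X.Modules} (g : M ⟶ N) {U V : X.Opens} (h : V ≤ U) (m : Γ(M, U)) :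
    rs N h (g.app U m) = g.app V (rs M h m) :=
  (NatTrans.naturality_apply g.mapPresheaf (homOfLE h).op m).symm

theorem qsp_rs_sub (M : X.Modules) {U V : X.Opens} (h : V ≤ U) (m m' : Γ(M, U)) :
    rs M h (m - m') = rs M h m - rs M h m' := map_sub _ _ _

theorem qsp_unit {U V : X.Opens} (hVU : V ≤ U) (a : Γ(X, U)) (hV : V = X.basicOpen a) :
    IsUnit (rf hVU a) := by
  subst hV
  exact RingedSpace.isUnit_res_basicOpen _ a

theorem qsp_basic {U : X.Opens} (hU : IsAffineOpen U) {W : X.Opens} {x : X} (hxU : x ∈ U)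
    (hxW : x ∈ W) : ∃ a : Γ(X, U), X.basicOpen a ≤ W ∧ x ∈ X.basicOpen a :=
  hU.exists_basicOpen_le ⟨x, hxW⟩ hxU

/-- epimorphisms of quasi-coherent modules are surjective on sections over affine opens -/
theorem qsp_surj {M N : X.Modules} (g : M ⟶ N) [Epi g] (hM : M.IsQuasicoherent)
    (hN : N.IsQuasicoherent) {V : X.Opens} (hV : IsAffineOpen V) :
    Function.Surjective (g.app V) := by
  intro s
  let J : Ideal Γ(X, V) :=
    { carrier := {a | ∃ m, g.app V m = a • s}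
      add_mem' := by
        rintro a b ⟨m, hm⟩ ⟨n, hn⟩
        exact ⟨m + n, by rw [map_add, hm, hn, add_smul]⟩
      zero_mem' := ⟨0, by rw [map_zero, zero_smul]⟩
      smul_mem' := by
        rintro a b ⟨m, hm⟩
        exact ⟨a • m, by rw [Scheme.Modules.Hom.app_smul, hm, smul_smul]; rfl⟩ }
  have hJ : V ≤ ⨆ f : (J.radical : Set Γ(X, V)), X.basicOpen f.1 := by
    intro x hx
    obtain ⟨W, hW, t, hxW, ht⟩ := epi_locally_surj g V s x hx
    obtain ⟨a, haW, hxa⟩ := qsp_basic hV hx hxW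
    have haV : X.basicOpen a ≤ V := X.basicOpen_le a
    obtain ⟨n, t', ht'⟩ := loc_surj M hM hV a rfl haV (rs M haW t)
    have h1 : rs N haV (g.app V t' - a ^ n • s) = 0 := by
      rw [qsp_rs_sub, qsp_rs_app, ht', Scheme.Modules.Hom.app_smul, ← qsp_rs_app, ht, locm_rs_rs,
        locm_rs_smul, sub_self]
    obtain ⟨m, hm⟩ := loc_inj N hN hV a rfl haV _ h1
    have h2 : a ^ (m + n) ∈ J := by
      refine ⟨a ^ m • t', ?_⟩
      rw [smul_sub, sub_eq_zero, smul_smul, ← pow_add] at hm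
      rw [Scheme.Modules.Hom.app_smul, hm]
    have h3 : a ∈ J.radical := ⟨m + n, h2⟩
    exact (le_iSup (fun f : (J.radical : Set Γ(X, V)) => X.basicOpen f.1) ⟨a, h3⟩) hxa
  rw [hV.self_le_iSup_basicOpen_iff, Ideal.span_eq, Ideal.radical_eq_top, Ideal.eq_top_iff_one]
    at hJ
  obtain ⟨m, hm⟩ := hJ
  exact ⟨m, by rw [hm, one_smul]⟩

theorem qsp_inj {M N : X.Modules} (f : M ⟶ N) [Mono f] (V : X.Opens) :
    Function.Injective (f.app V) := by
  rw [injective_iff_map_eq_zero]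
  intro m hm
  obtain ⟨k, hk⟩ := ((sec_kernel f V).2 m).1 hm
  rw [← hk, kernel.ι_of_mono f]
  rfl

/-- sections over an affine open are exact on quasi-coherent modules -/
theorem sec_exact {S : ShortComplex X.Modules} (hS : S.ShortExact) (h1 : S.X₁.IsQuasicoherent)
    (h2 : S.X₂.IsQuasicoherent) (h3 : S.X₃.IsQuasicoherent) {V : X.Opens} (hV : IsAffineOpen V) :
    Function.Injective (S.f.app V) ∧ Function.Exact (S.f.app V) (S.g.app V) ∧
      Function.Surjective (S.g.app V) := by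
  have := hS.mono_f
  have := hS.epi_g
  refine ⟨qsp_inj _ _, ?_, qsp_surj _ h2 h3 hV⟩
  intro m
  constructor
  · intro hm
    obtain ⟨k, hk⟩ := ((sec_kernel S.g V).2 m).1 hm
    obtain ⟨l, hl⟩ : ∃ l : kernel S.g ⟶ S.X₁, l ≫ S.f = kernel.ι S.g :=
      ⟨hS.fIsKernel.lift (KernelFork.ofι (kernel.ι S.g) (kernel.condition S.g)),
        hS.fIsKernel.fac (KernelFork.ofι (kernel.ι S.g) (kernel.condition S.g))
          WalkingParallelPair.zero⟩
    refine ⟨l.app V k, ?_⟩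
    have h4 : (l ≫ S.f).app V k = m := by rw [hl, hk]
    exact h4
  · rintro ⟨k, rfl⟩
    have h : (S.f ≫ S.g).app V k = 0 := by
      rw [S.zero]
      rfl
    exact h

theorem isZero_of_sec {ι : Type} (U : ι → X.Opens) (hU : ⨆ i, U i = ⊤)
    (hA : ∀ i, IsAffineOpen (U i)) (M : X.Modules) (hM : M.IsQuasicoherent)
    (h : ∀ i, Subsingleton Γ(M, U i)) : IsZero M := by
  have key : ∀ (W : X.Opens) (s : Γ(M, W)), s = 0 := by
    intro W s
    let κ := {V : X.Opens // V ≤ W ∧ ∃ i, ∃ a : Γ(X, U i), V = X.basicOpen a}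
    refine TopCat.Sheaf.eq_of_locally_eq' ⟨M.presheaf, M.isSheaf⟩ (fun V : κ => V.1) W
      (fun V => homOfLE V.2.1) ?_ s 0 ?_
    · intro x hx
      obtain ⟨i, hi⟩ : ∃ i, x ∈ U i := by
        have hx' : x ∈ (⨆ i, U i : X.Opens) := by rw [hU]; trivial
        exact TopologicalSpace.Opens.mem_iSup.mp hx'
      obtain ⟨a, haW, hxa⟩ := qsp_basic (hA i) hi hx
      exact (le_iSup (fun V : κ => V.1) ⟨X.basicOpen a, haW, i, a, rfl⟩) hxa
    · rintro ⟨V, hVW, i, a, hV⟩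
      have hVU : V ≤ U i := hV ▸ X.basicOpen_le a
      show rs M hVW s = rs M hVW 0
      obtain ⟨n, t, ht⟩ := loc_surj M hM (hA i) a hV hVU (rs M hVW s)
      have ht0 : t = 0 := (h i).elim _ _
      have h0 : rs M hVU (0 : Γ(M, U i)) = 0 := map_zero _
      have h0' : rs M hVW (0 : Γ(M, W)) = 0 := map_zero _
      rw [ht0, h0] at ht
      have hu : IsUnit (rf hVU (a ^ n)) := by
        have : rf hVU (a ^ n) = (rf hVU a) ^ n := map_pow _ _ _
        rw [this]
        exact (qsp_unit hVU a hV).pow n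
      rw [h0']
      exact (hu.smul_eq_zero).mp ht.symm
  rw [IsZero.iff_id_eq_zero]
  ext W s
  exact key W s

theorem epi_of_sec {ι : Type} (U : ι → X.Opens) (hU : ⨆ i, U i = ⊤)
    (hA : ∀ i, IsAffineOpen (U i)) {M N : X.Modules} (f : M ⟶ N) (hM : M.IsQuasicoherent)
    (hN : N.IsQuasicoherent) (h : ∀ i, Function.Surjective (f.app (U i))) : Epi f := by
  have hc := qc_cokernel f hM hN
  refine Preadditive.epi_of_isZero_cokernel f (isZero_of_sec U hU hA _ hc fun i => ?_)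
  have hs : ∀ x : Γ(cokernel f, U i), x = 0 := by
    intro x
    obtain ⟨y, rfl⟩ := qsp_surj (cokernel.π f) hN hc (hA i) x
    obtain ⟨z, rfl⟩ := h i y
    have h1 : (f ≫ cokernel.π f).app (U i) z = 0 := by
      rw [cokernel.condition]
      rfl
    exact h1
  exact ⟨fun a b => by rw [hs a, hs b]⟩

theorem mono_of_sec {ι : Type} (U : ι → X.Opens) (hU : ⨆ i, U i = ⊤)
    (hA : ∀ i, IsAffineOpen (U i)) {M N : X.Modules} (f : M ⟶ N) (hM : M.IsQuasicoherent)
    (hN : N.IsQuasicoherent) (h : ∀ i, Function.Injective (f.app (U i))) : Mono f := by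
  have hc := qc_kernel f hM hN
  refine Preadditive.mono_of_isZero_kernel f (isZero_of_sec U hU hA _ hc fun i => ?_)
  have hs : ∀ x : Γ(kernel f, U i), x = 0 := by
    intro x
    apply (sec_kernel f (U i)).1
    apply h i
    rw [((sec_kernel f (U i)).2 _).2 ⟨x, rfl⟩, map_zero, map_zero]
  exact ⟨fun a b => by rw [hs a, hs b]⟩

theorem shortExact_of_sec {ι : Type} (U : ι → X.Opens) (hU : ⨆ i, U i = ⊤)
    (hA : ∀ i, IsAffineOpen (U i)) (S : ShortComplex X.Modules) (h1 : S.X₁.IsQuasicoherent)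
    (h2 : S.X₂.IsQuasicoherent) (h3 : S.X₃.IsQuasicoherent) (h : SecExact U S) : S.ShortExact := by
  have hm : Mono S.f := mono_of_sec U hU hA S.f h1 h2 (fun i => (h i).1)
  have he : Epi S.g := epi_of_sec U hU hA S.g h2 h3 (fun i => (h i).2.2)
  refine ⟨?_⟩
  rw [ShortComplex.exact_iff_epi_kernel_lift]
  refine epi_of_sec U hU hA _ h1 (qc_kernel S.g h2 h3) (fun i => ?_)
  intro k
  have hk : S.g.app (U i) ((kernel.ι S.g).app (U i) k) = 0 :=
    ((sec_kernel S.g (U i)).2 _).2 ⟨k, rfl⟩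
  obtain ⟨a, ha⟩ := ((h i).2.1 _).1 hk
  refine ⟨a, (sec_kernel S.g (U i)).1 ?_⟩
  rw [← ha]
  have h4 : (kernel.lift S.g S.f S.zero ≫ kernel.ι S.g).app (U i) a = S.f.app (U i) a := by
    rw [kernel.lift_ι]
  exact h4

end Pool.H33.P

end S_QSP

section S_LBP

/-! # LBP: the module of a cocycle is a line bundle; line bundles are perfect

`twist_lineBundle`: on `U l` the map `f ↦ f • e l` is an isomorphism from the structure sheaf.
`twist_qc`: quasi-coherence is local (`SheafOfModules.IsQuasicoherent.of_coversTop`, see also `QCK.qc_of_cover`,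
which you may import). -/

open CategoryTheory AlgebraicGeometry Limits TopologicalSpace

namespace Pool.H33.P

variable {X : Scheme.{0}}

theorem lbp_rs_smul (M : X.Modules) {U V : X.Opens} (h : V ≤ U) (r : Γ(X, U)) (m : Γ(M, U)) :
    rs M h (r • m) = rf h r • rs M h m :=
  Scheme.Modules.map_smul M (homOfLE h) r m

theorem lbp_rs_rs (M : X.Modules) {U V W : X.Opens} (h : V ≤ U) (h' : W ≤ V) (m : Γ(M, U)) :
    rs M h' (rs M h m) = rs M (h'.trans h) m := by
  unfold rs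
  rw [← M.presheaf.map_comp_apply, ← op_comp, homOfLE_comp]

/-- the structure sheaf as a module -/
noncomputable def lbpO (X : Scheme.{0}) : X.Modules := SheafOfModules.unit X.ringCatSheaf

/-- the morphism from the structure sheaf given by a section -/
noncomputable def lbpHom (M : X.Modules) (s : ∀ V : X.Opens, Γ(M, V))
    (hs : ∀ (V W : X.Opens) (h : W ≤ V), rs M h (s V) = s W) :
    lbpO X ⟶ M :=
  ⟨fun V ↦ ModuleCat.ofHom (LinearMap.toSpanSingleton Γ(X, V.unop) Γ(M, V.unop) (s V.unop)),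
    fun {V W} i ↦ by
      refine ModuleCat.hom_ext (LinearMap.ext fun (f : Γ(X, V.unop)) => ?_)
      have h1 := lbp_rs_smul M (leOfHom i.unop) f (s V.unop)
      rw [hs] at h1
      exact h1.symm⟩

theorem lbpHom_app (M : X.Modules) (s : ∀ V : X.Opens, Γ(M, V))
    (hs : ∀ (V W : X.Opens) (h : W ≤ V), rs M h (s V) = s W) (V : X.Opens) (f : Γ(X, V)) :
    (lbpHom M s hs).app V (f : Γ(lbpO X, V)) = f • s V := rfl

theorem lbp_isIso (M : X.Modules) (s : ∀ V : X.Opens, Γ(M, V))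
    (hs : ∀ (V W : X.Opens) (h : W ≤ V), rs M h (s V) = s W)
    (hb : ∀ V, Function.Bijective (fun f : Γ(X, V) => f • s V)) : IsIso (lbpHom M s hs) := by
  rw [Scheme.Modules.Hom.isIso_iff_isIso_app]
  intro V
  rw [ConcreteCategory.isIso_iff_bijective]
  exact hb V

theorem lbp_local {ι : Type} {U : ι → X.Opens}
    {c : ∀ l l', Γ(X, U l ⊓ U l')} {L : X.Modules} {e : ∀ l, Γ(L, U l)} (h : IsTwist U c L e)
    (l : ι) : Nonempty (L.restrict (U l).ι ≅ (SheafOfModules.unit _ : (U l : Scheme.{0}).Modules)) := by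
  have hle : ∀ V : (U l : Scheme.{0}).Opens, (U l).ι ''ᵁ V ≤ U l := fun V => by
    have := Scheme.Hom.image_mono (U l).ι (le_top : V ≤ ⊤)
    rwa [Scheme.Opens.ι_image_top] at this
  set M : (U l : Scheme.{0}).Modules := L.restrict (U l).ι with hM
  set s : ∀ V : (U l : Scheme.{0}).Opens, Γ(M, V) := fun V =>
    (L.restrictAppIso (U l).ι V).inv (rs L (hle V) (e l)) with hs
  have hss : ∀ (V W : (U l : Scheme.{0}).Opens) (h : W ≤ V), rs M h (s V) = s W := by
    intro V W h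
    exact lbp_rs_rs L (hle V) (Scheme.Hom.image_mono (U l).ι h) (e l)
  have hb : ∀ V, Function.Bijective (fun f : Γ((U l : Scheme.{0}), V) => f • s V) := by
    intro V
    have h1 := h.bij l ((U l).ι ''ᵁ V) (hle V)
    have h2 : (fun f : Γ((U l : Scheme.{0}), V) => f • s V) =
        (L.restrictAppIso (U l).ι V).inv ∘
          (fun f : Γ(X, (U l).ι ''ᵁ V) => f • rs L (hle V) (e l)) ∘
          ((U l).ι.appIso V).inv := by
      funext f
      rfl
    rw [h2]
    refine Function.Bijective.comp ?_ (h1.comp ?_)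
    · exact (ConcreteCategory.isIso_iff_bijective _).1 inferInstance
    · exact (ConcreteCategory.isIso_iff_bijective _).1 inferInstance
  have h3 := lbp_isIso M s hss hb
  exact ⟨(asIso (lbpHom M s hss)).symm⟩

theorem twist_lineBundle {ι : Type} {U : ι → X.Opens} (hU : ⨆ i, U i = ⊤)
    {c : ∀ l l', Γ(X, U l ⊓ U l')} {L : X.Modules} {e : ∀ l, Γ(L, U l)} (h : IsTwist U c L e) :
    IsLineBundle L := by
  intro x
  have h1 : x ∈ ⨆ i, U i := by rw [hU]; trivial
  obtain ⟨l, hl⟩ := Opens.mem_iSup.1 h1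
  exact ⟨U l, hl, lbp_local h l⟩

theorem twist_qc {ι : Type} {U : ι → X.Opens} (hU : ⨆ i, U i = ⊤)
    {c : ∀ l l', Γ(X, U l ⊓ U l')} {L : X.Modules} {e : ∀ l, Γ(L, U l)} (h : IsTwist U c L e) :
    L.IsQuasicoherent := by
  refine qc_of_cover U hU L ?_
  intro l
  obtain ⟨i⟩ := lbp_local h l
  exact qc_of_iso i.symm qc_unit

theorem lineBundle_perfect {L : X.Modules} (h : IsLineBundle L) : IsPerfect X (sg L) := by
  refine perfect_of_free L ?_
  intro x
  obtain ⟨V, hx, ⟨e⟩⟩ := h x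
  obtain ⟨e2⟩ := free_one (V : Scheme.{0})
  exact ⟨V, hx, 1, ⟨e ≪≫ e2⟩⟩

end Pool.H33.P

end S_LBP

section S_FSP

/-! # FSP: finite direct sums of the line bundles `L a b` -/

open CategoryTheory AlgebraicGeometry Limits TopologicalSpace

namespace Pool.H33.P

variable {X : Scheme.{0}} {T : ToricData X} (S : LSys T)

theorem fs_qc {E : X.Modules} (h : IsFS S E) : E.IsQuasicoherent := by
  induction h with
  | zero E h => exact qc_zero h
  | add E a b _ ih => exact qc_biprod ih (twist_qc T.cov (S.tw a b))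

theorem fsp_rs_refl (M : X.Modules) {U : X.Opens} (m : Γ(M, U)) :
    rs M (le_refl U) m = m := by
  unfold rs
  have : (homOfLE (le_refl U)).op = 𝟙 _ := rfl
  rw [this, M.presheaf.map_id]
  rfl

/-- the linear map on sections -/
noncomputable def fspL {M N : X.Modules} (f : M ⟶ N) (V : X.Opens) :
    Γ(M, V) →ₗ[Γ(X, V)] Γ(N, V) :=
  { toFun := fun x => f.app V x
    map_add' := fun x y => map_add _ x y
    map_smul' := fun r x => Scheme.Modules.Hom.app_smul f r x }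

theorem fsp_L_sec (a b : ℤ) (l : Fin 4) :
    Nonempty (Γ(S.L a b, T.U l) ≃ₗ[Γ(X, T.U l)] Γ(X, T.U l)) :=
  ⟨(LinearEquiv.ofBijective (LinearMap.toSpanSingleton Γ(X, T.U l) Γ(S.L a b, T.U l)
    (rs (S.L a b) le_rfl (S.e a b l))) ((S.tw a b).bij l (T.U l) le_rfl)).symm⟩

theorem fsp_biprod_sec (M N : X.Modules) (V : X.Opens) :
    Nonempty (Γ((M ⊞ N : X.Modules), V) ≃ₗ[Γ(X, V)] Γ(M, V) × Γ(N, V)) :=
  ⟨LinearEquiv.ofBijective ((fspL (biprod.fst : M ⊞ N ⟶ M) V).prod (fspL (biprod.snd : M ⊞ N ⟶ N) V))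
    (sec_biprod M N V)⟩

theorem fsp_zero_sec {E : X.Modules} (h : IsZero E) (V : X.Opens) : Subsingleton Γ(E, V) := by
  refine ⟨fun x y => ?_⟩
  have h1 : 𝟙 E = 0 := h.eq_of_src _ _
  have h2 : ∀ x : Γ(E, V), x = 0 := fun x => congr_arg (fun φ => Scheme.Modules.Hom.app φ V x) h1
  rw [h2 x, h2 y]

theorem fs_sec {E : X.Modules} (h : IsFS S E) (l : Fin 4) :
    ∃ n : ℕ, Nonempty (Γ(E, T.U l) ≃ₗ[Γ(X, T.U l)] (Fin n → Γ(X, T.U l))) := by
  induction h with
  | zero E h =>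
    have := fsp_zero_sec h (T.U l)
    refine ⟨0, ⟨LinearEquiv.ofBijective (0 : _ →ₗ[_] _) ⟨fun x y _ => Subsingleton.elim x y, fun y => ⟨0, ?_⟩⟩⟩⟩
    exact Subsingleton.elim _ _
  | add E a b _ ih =>
    obtain ⟨n, ⟨e⟩⟩ := ih
    obtain ⟨f⟩ := fsp_L_sec S a b l
    obtain ⟨g⟩ := fsp_biprod_sec E (S.L a b) (T.U l)
    refine ⟨n + 1, ⟨g ≪≫ₗ (e.prodCongr f) ≪≫ₗ ?_⟩⟩
    exact (LinearEquiv.prodComm _ _ _) ≪≫ₗ (Fin.consLinearEquiv Γ(X, T.U l) (fun _ => Γ(X, T.U l)))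

theorem fs_vb {E : X.Modules} (h : IsFS S E) : IsVB T.U E := by
  refine ⟨fs_qc S h, fun l => ?_, fun l => ?_⟩
  · obtain ⟨n, ⟨e⟩⟩ := fs_sec S h l
    exact Module.Finite.equiv e.symm
  · obtain ⟨n, ⟨e⟩⟩ := fs_sec S h l
    exact Module.Projective.of_equiv e.symm

theorem fs_q (Q : ObjectProperty (DerivedCategory X.Modules)) [Q.IsTriangulated]
    [Q.IsClosedUnderIsomorphisms] (hQ : ∀ a b, Q (sg (S.L a b))) {E : X.Modules} (h : IsFS S E) :
    Q (sg E) := by
  induction h with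
  | zero E h => exact q_zero Q h
  | add E a b _ ih => exact q_biprod Q ih (hQ a b)

/-- a finite family of maps from (or to) line bundles can be assembled -/
theorem fs_desc {M : X.Modules} (n : ℕ) (a b : Fin n → ℤ) (φ : ∀ i, S.L (a i) (b i) ⟶ M) :
    ∃ (E : X.Modules) (p : E ⟶ M), IsFS S E ∧
      ∀ i, ∃ j : S.L (a i) (b i) ⟶ E, j ≫ p = φ i := by
  induction n with
  | zero =>
    obtain ⟨Z, hZ⟩ := HasZeroObject.zero (C := X.Modules)
    exact ⟨Z, 0, IsFS.zero _ hZ, fun i => i.elim0⟩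
  | succ n ih =>
    obtain ⟨E, p, hE, hp⟩ := ih (fun i => a i.castSucc) (fun i => b i.castSucc) (fun i => φ i.castSucc)
    refine ⟨E ⊞ S.L (a (Fin.last n)) (b (Fin.last n)), biprod.desc p (φ (Fin.last n)),
      IsFS.add _ _ _ hE, fun i => ?_⟩
    induction i using Fin.lastCases with
    | last => exact ⟨biprod.inr, biprod.inr_desc _ _⟩
    | cast i =>
      obtain ⟨j, hj⟩ := hp i
      exact ⟨j ≫ biprod.inl, by rw [Category.assoc, biprod.inl_desc, hj]⟩

theorem fs_lift {M : X.Modules} (n : ℕ) (a b : Fin n → ℤ) (φ : ∀ i, M ⟶ S.L (a i) (b i)) :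
    ∃ (E : X.Modules) (p : M ⟶ E), IsFS S E ∧
      ∀ i, ∃ j : E ⟶ S.L (a i) (b i), p ≫ j = φ i := by
  induction n with
  | zero =>
    obtain ⟨Z, hZ⟩ := HasZeroObject.zero (C := X.Modules)
    exact ⟨Z, 0, IsFS.zero _ hZ, fun i => i.elim0⟩
  | succ n ih =>
    obtain ⟨E, p, hE, hp⟩ := ih (fun i => a i.castSucc) (fun i => b i.castSucc) (fun i => φ i.castSucc)
    refine ⟨E ⊞ S.L (a (Fin.last n)) (b (Fin.last n)), biprod.lift p (φ (Fin.last n)),
      IsFS.add _ _ _ hE, fun i => ?_⟩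
    induction i using Fin.lastCases with
    | last => exact ⟨biprod.snd, biprod.lift_snd _ _⟩
    | cast i =>
      obtain ⟨j, hj⟩ := hp i
      exact ⟨biprod.fst ≫ j, by rw [← Category.assoc, biprod.lift_fst, hj]⟩

end Pool.H33.P

end S_FSP

section S_TWI

/-! # TWI: the line bundle of a cocycle

Sections over `V`: families `f l : Γ(X, V ⊓ U l)` with `f l = c l l' * f l'` on `V ⊓ U l ⊓ U l'`.  The
generator `e l` is the family `l' ↦ c l' l` (restricted to `U l ⊓ U l'`), indeed `f • e l` has components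
`f * c l' l`. -/

open CategoryTheory AlgebraicGeometry Limits TopologicalSpace

namespace Pool.H33.P

section twi

variable {X : Scheme.{0}}

theorem twi_rf_rf {U V W : X.Opens} (h : V ≤ U) (h' : W ≤ V) (f : Γ(X, U)) :
    rf h' (rf h f) = rf (h'.trans h) f := by
  unfold rf
  rw [← ConcreteCategory.comp_apply, ← X.presheaf.map_comp]
  rfl

theorem twi_rf_self {U : X.Opens} (h : U ≤ U) (f : Γ(X, U)) : rf h f = f := by
  unfold rf
  have : (homOfLE h).op = 𝟙 (Opposite.op U) := rfl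
  rw [this, X.presheaf.map_id]
  rfl

theorem twi_rf_add {U V : X.Opens} (h : V ≤ U) (f g : Γ(X, U)) :
    rf h (f + g) = rf h f + rf h g := map_add _ _ _

theorem twi_rf_neg {U V : X.Opens} (h : V ≤ U) (f : Γ(X, U)) :
    rf h (-f) = -rf h f := map_neg _ _

theorem twi_rf_zero {U V : X.Opens} (h : V ≤ U) : rf h (0 : Γ(X, U)) = 0 := map_zero _

theorem twi_rf_mul {U V : X.Opens} (h : V ≤ U) (f g : Γ(X, U)) :
    rf h (f * g) = rf h f * rf h g := map_mul _ _ _

theorem twi_rf_one {U V : X.Opens} (h : V ≤ U) : rf h (1 : Γ(X, U)) = 1 := map_one _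

variable {ι : Type} (U : ι → X.Opens) (c : ∀ l l', Γ(X, U l ⊓ U l'))

/-- sections over `V` of the line bundle of the cocycle `c` -/
def twiSec (V : X.Opens) : AddSubgroup (∀ l, Γ(X, V ⊓ U l)) where
  carrier := {f | ∀ l l', rf (V := V ⊓ U l ⊓ U l') inf_le_left (f l) =
    rf (le_inf (inf_le_left.trans inf_le_right) inf_le_right) (c l l') *
      rf (le_inf (inf_le_left.trans inf_le_left) inf_le_right) (f l')}
  add_mem' := by
    intro f g hf hg l l'
    rw [Pi.add_apply, Pi.add_apply, twi_rf_add, twi_rf_add, mul_add, hf l l', hg l l']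
  zero_mem' := by
    intro l l'
    rw [Pi.zero_apply, Pi.zero_apply, twi_rf_zero, twi_rf_zero, mul_zero]
  neg_mem' := by
    intro f hf l l'
    rw [Pi.neg_apply, Pi.neg_apply, twi_rf_neg, twi_rf_neg, mul_neg, hf l l']

theorem twi_mem {V : X.Opens} (f : ∀ l, Γ(X, V ⊓ U l)) :
    f ∈ twiSec U c V ↔ ∀ l l', rf (V := V ⊓ U l ⊓ U l') inf_le_left (f l) =
      rf (le_inf (inf_le_left.trans inf_le_right) inf_le_right) (c l l') *
        rf (le_inf (inf_le_left.trans inf_le_left) inf_le_right) (f l') := Iff.rfl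

/-- restriction of sections -/
noncomputable def twiRes {V W : X.Opens} (h : V ≤ W) : twiSec U c W →+ twiSec U c V where
  toFun f := ⟨fun l => rf (inf_le_inf_right _ h) (f.1 l), by
    intro l l'
    have hf := congrArg (rf (V := V ⊓ U l ⊓ U l')
      (inf_le_inf_right _ (inf_le_inf_right _ h))) (f.2 l l')
    rw [twi_rf_mul, twi_rf_rf, twi_rf_rf, twi_rf_rf] at hf
    rw [twi_rf_rf, twi_rf_rf]
    exact hf⟩
  map_zero' := by
    apply Subtype.ext
    funext l
    exact twi_rf_zero _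
  map_add' f g := by
    apply Subtype.ext
    funext l
    exact twi_rf_add _ _ _

theorem twiRes_apply {V W : X.Opens} (h : V ≤ W) (f : twiSec U c W) (l : ι) :
    (twiRes U c h f).1 l = rf (inf_le_inf_right _ h) (f.1 l) := rfl

noncomputable instance twiModule (V : X.Opens) : Module Γ(X, V) (twiSec U c V) where
  smul r f := ⟨fun l => rf inf_le_left r * f.1 l, by
    intro l l'
    have hf := f.2 l l'
    rw [twi_rf_mul, twi_rf_mul, twi_rf_rf, twi_rf_rf, hf, mul_left_comm]⟩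
  one_smul f := by
    apply Subtype.ext
    funext l
    show rf _ 1 * f.1 l = f.1 l
    rw [twi_rf_one, one_mul]
  mul_smul r s f := by
    apply Subtype.ext
    funext l
    show rf _ (r * s) * f.1 l = rf _ r * (rf _ s * f.1 l)
    rw [twi_rf_mul, mul_assoc]
  smul_zero r := by
    apply Subtype.ext
    funext l
    show rf _ r * 0 = 0
    rw [mul_zero]
  smul_add r f g := by
    apply Subtype.ext
    funext l
    show rf _ r * (f.1 l + g.1 l) = rf _ r * f.1 l + rf _ r * g.1 l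
    rw [mul_add]
  add_smul r s f := by
    apply Subtype.ext
    funext l
    show rf _ (r + s) * f.1 l = rf _ r * f.1 l + rf _ s * f.1 l
    rw [twi_rf_add, add_mul]
  zero_smul f := by
    apply Subtype.ext
    funext l
    show rf _ 0 * f.1 l = 0
    rw [twi_rf_zero, zero_mul]

theorem twi_smul_apply {V : X.Opens} (r : Γ(X, V)) (f : twiSec U c V) (l : ι) :
    (r • f).1 l = rf inf_le_left r * f.1 l := rfl

theorem twiRes_smul {V W : X.Opens} (h : V ≤ W) (r : Γ(X, W)) (f : twiSec U c W) :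
    twiRes U c h (r • f) = rf h r • twiRes U c h f := by
  apply Subtype.ext
  funext l
  rw [twiRes_apply, twi_smul_apply, twi_smul_apply, twiRes_apply, twi_rf_mul, twi_rf_rf, twi_rf_rf]

/-- the presheaf of abelian groups -/
noncomputable def twiPre : (TopologicalSpace.Opens X)ᵒᵖ ⥤ Ab.{0} where
  obj V := AddCommGrpCat.of (twiSec U c V.unop)
  map {V W} i := AddCommGrpCat.ofHom (twiRes U c (leOfHom i.unop))
  map_id V := by
    ext f l
    exact twi_rf_self _ _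
  map_comp {V W Z} i j := by
    ext f l
    exact (twi_rf_rf _ _ _).symm

noncomputable instance twiModule' (V : (TopologicalSpace.Opens X)ᵒᵖ) :
    Module (X.ringCatSheaf.obj.obj V) ((twiPre U c).obj V) :=
  inferInstanceAs (Module Γ(X, V.unop) (twiSec U c V.unop))

/-- the presheaf of modules -/
noncomputable def twiPM : X.PresheafOfModules :=
  PresheafOfModules.ofPresheaf (R := X.ringCatSheaf.obj) (twiPre U c)
    (fun _ _ i r m => twiRes_smul U c (leOfHom i.unop) r m)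

theorem twi_glue {κ : Type} (V : κ → X.Opens) (W : X.Opens) (hV : ∀ i, V i ≤ W)
    (hW : W ≤ ⨆ i, V i) (s : ∀ i, Γ(X, V i))
    (hs : ∀ i j, rf (V := V i ⊓ V j) inf_le_left (s i) = rf inf_le_right (s j)) :
    ∃ t : Γ(X, W), ∀ i, rf (hV i) t = s i := by
  obtain ⟨t, ht, -⟩ := X.sheaf.existsUnique_gluing' V W (fun i => homOfLE (hV i)) hW s
    (fun i j => hs i j)
  exact ⟨t, ht⟩

theorem twi_sep {κ : Type} (V : κ → X.Opens) (W : X.Opens) (hV : ∀ i, V i ≤ W)
    (hW : W ≤ ⨆ i, V i) (s t : Γ(X, W)) (h : ∀ i, rf (hV i) s = rf (hV i) t) : s = t :=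
  X.sheaf.eq_of_locally_eq' V W (fun i => homOfLE (hV i)) hW s t h

theorem twi_isSheaf : TopCat.Presheaf.IsSheaf (X := X) (twiPre U c) := by
  rw [TopCat.Presheaf.isSheaf_iff_isSheafUniqueGluing]
  intro κ V sf cpt
  have hsf : ∀ i j l, rf (V := V i ⊓ V j ⊓ U l) (inf_le_inf_right _ inf_le_left) ((sf i).1 l) =
      rf (inf_le_inf_right _ inf_le_right) ((sf j).1 l) := fun i j l =>
    congrFun (congrArg Subtype.val (cpt i j)) l
  have h1 : ∀ l, ∃ t : Γ(X, iSup V ⊓ U l), ∀ i,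
      rf (inf_le_inf_right _ (le_iSup V i)) t = (sf i).1 l := by
    intro l
    refine twi_glue (fun i => V i ⊓ U l) _ (fun i => inf_le_inf_right _ (le_iSup V i)) ?_ _ ?_
    · rw [iSup_inf_eq]
    · intro i j
      have h2 := congrArg (rf (V := V i ⊓ U l ⊓ (V j ⊓ U l))
        (le_inf (inf_le_inf inf_le_left inf_le_left) (inf_le_left.trans inf_le_right))) (hsf i j l)
      rw [twi_rf_rf, twi_rf_rf] at h2
      exact h2
  choose g hg using h1
  have hgm : g ∈ twiSec U c (iSup V) := by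
    intro l l'
    refine twi_sep (fun i => V i ⊓ U l ⊓ U l') _
      (fun i => inf_le_inf_right _ (inf_le_inf_right _ (le_iSup V i))) ?_ _ _ ?_
    · rw [iSup_inf_eq, iSup_inf_eq]
    · intro i
      have h3 := (sf i).2 l l'
      rw [← hg, ← hg, twi_rf_rf, twi_rf_rf] at h3
      rw [twi_rf_mul, twi_rf_rf, twi_rf_rf, twi_rf_rf]
      exact h3
  refine ⟨⟨g, hgm⟩, ?_, ?_⟩
  · intro i
    apply Subtype.ext
    funext l
    exact hg l i
  · rintro ⟨g', hg'm⟩ hg'
    apply Subtype.ext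
    funext l
    refine twi_sep (fun i => V i ⊓ U l) _ (fun i => inf_le_inf_right _ (le_iSup V i)) ?_ _ _ ?_
    · rw [iSup_inf_eq]
    · intro i
      rw [hg]
      exact congrFun (congrArg Subtype.val (hg' i)) l

/-- the line bundle of a cocycle -/
noncomputable def twiM : X.Modules where
  val := twiPM U c
  isSheaf := twi_isSheaf U c

end twi

theorem exists_twist {X : Scheme.{0}} {ι : Type} (U : ι → X.Opens)
    (c : ∀ l l', Γ(X, U l ⊓ U l')) (hc : IsCocycle U c) :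
    ∃ (L : X.Modules) (e : ∀ l, Γ(L, U l)), IsTwist U c L e := by
  have he : ∀ l, (fun l' => rf (V := U l ⊓ U l') (le_inf inf_le_right inf_le_left) (c l' l)) ∈
      twiSec U c (U l) := by
    intro l l' l''
    have h1 := hc.mul l' l'' l
    have h2 := congrArg (rf (V := U l ⊓ U l' ⊓ U l'')
      (le_inf (le_inf (inf_le_left.trans inf_le_right) inf_le_right)
        (inf_le_left.trans inf_le_left))) h1
    rw [twi_rf_mul, twi_rf_rf, twi_rf_rf, twi_rf_rf] at h2
    rw [twi_rf_rf, twi_rf_rf]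
    exact h2.symm
  refine ⟨twiM U c, fun l => (⟨_, he l⟩ : twiSec U c (U l)), ?_, ?_⟩
  · intro l V h
    show Function.Bijective (fun f : Γ(X, V) =>
      (f • twiRes U c h (⟨_, he l⟩ : twiSec U c (U l)) : twiSec U c V))
    constructor
    · intro f g hfg
      have h1 := congrFun (congrArg Subtype.val hfg) l
      simp only [twi_smul_apply, twiRes_apply] at h1
      rw [twi_rf_rf, hc.self l, twi_rf_one, mul_one, mul_one] at h1
      have h2 := congrArg (rf (V := V) (le_inf le_rfl h)) h1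
      rw [twi_rf_rf, twi_rf_rf, twi_rf_self, twi_rf_self] at h2
      exact h2
    · rintro ⟨g, hg⟩
      refine ⟨rf (le_inf le_rfl h) (g l), ?_⟩
      apply Subtype.ext
      funext l'
      simp only [twi_smul_apply, twiRes_apply]
      rw [twi_rf_rf, twi_rf_rf]
      have h1 := congrArg (rf (V := V ⊓ U l') (le_inf le_rfl (inf_le_left.trans h))) (hg l' l)
      rw [twi_rf_mul, twi_rf_rf, twi_rf_rf, twi_rf_rf, twi_rf_self] at h1
      rw [h1, mul_comm]
  · intro l l'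
    have key : twiRes U c (V := U l ⊓ U l') inf_le_right (⟨_, he l'⟩ : twiSec U c (U l')) =
        (c l l' • (twiRes U c (V := U l ⊓ U l') inf_le_left (⟨_, he l⟩ : twiSec U c (U l)) :
          twiSec U c (U l ⊓ U l')) : twiSec U c (U l ⊓ U l')) := by
      apply Subtype.ext
      funext l''
      simp only [twi_smul_apply, twiRes_apply]
      rw [twi_rf_rf, twi_rf_rf]
      have h1 := congrArg (rf (V := U l ⊓ U l' ⊓ U l'')
        (le_inf (le_inf inf_le_right (inf_le_left.trans inf_le_left))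
          (inf_le_left.trans inf_le_right))) (hc.mul l'' l l')
      rw [twi_rf_mul, twi_rf_rf, twi_rf_rf, twi_rf_rf] at h1
      rw [← h1, mul_comm]
    exact key

end Pool.H33.P

end S_TWI
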