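import Mathlib
import Pool.Agent.H33.GP.Def
import Pool.Agent.H33.GP.A1
import Pool.Agent.H33.GP.A2
import Pool.Agent.H33.GP.A3

/-! Two line bundles generate the perfect complexes of the surface F_1, file A4 -/

section S_KOS

/-! # KOS: Koszul sequences of two sections without common zeros

A section `s` of `c a1 b1` gives `mul s : L a b ⟶ L (a+a1) (b+b1)`, `e l ↦ s l • e l` (by `glue_hom`).  The sequence
`0 -> L -> L(1) ⊞ L(2) -> L(12) -> 0` with maps `(mul s1, mul s2)` and `(mul s2, - mul s1)` is exact on sections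
over every `U l`, since `s1 l` or `s2 l` is a unit; conclude by `shortExact_of_sec`. -/

open CategoryTheory AlgebraicGeometry Limits TopologicalSpace

namespace Pool.H33.P

variable {X : Scheme.{0}} {T : ToricData X} (S : LSys T)

theorem kos_rs_smul (M : X.Modules) {U V : X.Opens} (h : V ≤ U) (r : Γ(X, U)) (m : Γ(M, U)) :
    rs M h (r • m) = rf h r • rs M h m :=
  Scheme.Modules.map_smul M (homOfLE h) r m

theorem kos_rf_mul {U V : X.Opens} (h : V ≤ U) (r s : Γ(X, U)) :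
    rf h (r * s) = rf h r * rf h s :=
  map_mul (X.presheaf.map (homOfLE h).op).hom r s

theorem kos_rs_refl (M : X.Modules) {U : X.Opens} (m : Γ(M, U)) :
    rs M (le_refl U) m = m := by
  unfold rs
  have : (homOfLE (le_refl U)).op = 𝟙 _ := rfl
  rw [this, M.presheaf.map_id]
  rfl

theorem kos_rs_app {M N : X.Modules} (φ : M ⟶ N) {U V : X.Opens} (h : V ≤ U) (m : Γ(M, U)) :
    φ.app V (rs M h m) = rs N h (φ.app U m) := by
  have := (φ.mapPresheaf).naturality (homOfLE h).op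
  exact congr($this m)

/-- coordinates of sections of the line bundle over `V ≤ U l` -/
noncomputable def kosE (a b : ℤ) (l : Fin 4) (V : X.Opens) (h : V ≤ T.U l) :
    Γ(X, V) ≃ₗ[Γ(X, V)] Γ(S.L a b, V) :=
  LinearEquiv.ofBijective (LinearMap.toSpanSingleton Γ(X, V) Γ(S.L a b, V) (rs (S.L a b) h (S.e a b l)))
    ((S.tw a b).bij l V h)

theorem kosE_apply (a b : ℤ) (l : Fin 4) (V : X.Opens) (h : V ≤ T.U l) (r : Γ(X, V)) :
    kosE S a b l V h r = r • rs (S.L a b) h (S.e a b l) := rfl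

/-- multiplication in coordinates -/
noncomputable def kosM (a b a' b' : ℤ) (l : Fin 4) (V : X.Opens) (h : V ≤ T.U l) (s : Γ(X, V)) :
    Γ(S.L a b, V) →ₗ[Γ(X, V)] Γ(S.L a' b', V) :=
  (kosE S a' b' l V h).toLinearMap ∘ₗ (LinearMap.mulLeft Γ(X, V) s) ∘ₗ
    (kosE S a b l V h).symm.toLinearMap

theorem kosM_apply (a b a' b' : ℤ) (l : Fin 4) (V : X.Opens) (h : V ≤ T.U l) (s r : Γ(X, V)) :
    kosM S a b a' b' l V h s (r • rs (S.L a b) h (S.e a b l)) =
      (s * r) • rs (S.L a' b') h (S.e a' b' l) := by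
  rw [← kosE_apply, ← kosE_apply]
  simp [kosM]

theorem kos_exists_coord (a b : ℤ) (l : Fin 4) (V : X.Opens) (h : V ≤ T.U l) (m : Γ(S.L a b, V)) :
    ∃ r : Γ(X, V), m = r • rs (S.L a b) h (S.e a b l) := by
  obtain ⟨r, hr⟩ := ((S.tw a b).bij l V h).2 m
  exact ⟨r, hr.symm⟩

theorem kos_exists_coord' (a b : ℤ) (l : Fin 4) (m : Γ(S.L a b, T.U l)) :
    ∃ r : Γ(X, T.U l), m = r • S.e a b l := by
  obtain ⟨r, hr⟩ := kos_exists_coord S a b l (T.U l) le_rfl m
  exact ⟨r, by rw [hr, kos_rs_refl]⟩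

theorem kos_inj (a b : ℤ) (l : Fin 4) {r r' : Γ(X, T.U l)}
    (h : r • S.e a b l = r' • S.e a b l) : r = r' := by
  apply ((S.tw a b).bij l (T.U l) le_rfl).1
  simp only [kos_rs_refl]
  exact h

theorem kos_exists_mul {a b a1 b1 : ℤ} {s : ∀ l, Γ(X, T.U l)} (h : IsSec T.U (T.c a1 b1) s)
    (a' b' : ℤ) (ha : a' = a + a1) (hb : b' = b + b1) :
    ∃ φ : S.L a b ⟶ S.L a' b',
      ∀ l, φ.app (T.U l) (S.e a b l) = s l • S.e a' b' l := by
  obtain ⟨φ, hφ⟩ := glue_hom T.U T.cov T.aff (fun i j => basic_inf T i j)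
    (M := S.L a b) (N := S.L a' b') (twist_qc T.cov (S.tw a b))
    (fun l => kosM S a b a' b' l (T.U l) le_rfl (s l))
    (fun l l' => kosM S a b a' b' l (T.U l ⊓ T.U l') inf_le_left (rf inf_le_left (s l)))
    (by
      intro l l' m
      obtain ⟨r, rfl⟩ := kos_exists_coord S a b l (T.U l) le_rfl m
      rw [kosM_apply, kos_rs_smul, kos_rs_smul, kos_rs_refl, kos_rs_refl, kosM_apply, kos_rf_mul])
    (by
      intro l l' m
      obtain ⟨r, rfl⟩ := kos_exists_coord S a b l' (T.U l') le_rfl m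
      rw [kosM_apply, kos_rs_smul, kos_rs_smul, kos_rs_refl, kos_rs_refl, (S.tw a b).trans,
        (S.tw a' b').trans, smul_smul, smul_smul, kosM_apply, kos_rf_mul, h l l', ha, hb, c_add]
      congr 1
      ring)
  refine ⟨φ, fun l => ?_⟩
  have h1 := hφ l (S.e a b l)
  rw [h1]
  have h2 := kosM_apply S a b a' b' l (T.U l) le_rfl (s l) 1
  rw [one_smul, kos_rs_refl, kos_rs_refl, mul_one] at h2
  exact h2

theorem exists_mul {a b a1 b1 : ℤ} {s : ∀ l, Γ(X, T.U l)} (h : IsSec T.U (T.c a1 b1) s) :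
    ∃ φ : S.L a b ⟶ S.L (a + a1) (b + b1),
      ∀ l, φ.app (T.U l) (S.e a b l) = s l • S.e (a + a1) (b + b1) l :=
  kos_exists_mul S h _ _ rfl rfl

theorem kos_app_smul {M N : X.Modules} (φ : M ⟶ N) {U : X.Opens} (r : Γ(X, U)) (m : Γ(M, U)) :
    φ.app U (r • m) = r • φ.app U m := Scheme.Modules.Hom.app_smul φ r m

theorem kos_comp_app {M N K : X.Modules} (φ : M ⟶ N) (ψ : N ⟶ K) {U : X.Opens} (m : Γ(M, U)) :
    (φ ≫ ψ).app U m = ψ.app U (φ.app U m) := rfl

theorem kos_biprod {M N : X.Modules} {U : X.Opens} (x : Γ((M ⊞ N : X.Modules), U)) :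
    x = (biprod.inl : M ⟶ M ⊞ N).app U ((biprod.fst : M ⊞ N ⟶ M).app U x) +
      (biprod.inr : N ⟶ M ⊞ N).app U ((biprod.snd : M ⊞ N ⟶ N).app U x) := by
  have h := congr_arg (fun φ => Scheme.Modules.Hom.app φ U x) (biprod.total (X := M) (Y := N))
  exact h.symm

theorem koszul (a b a1 b1 a2 b2 : ℤ) (s1 s2 : ∀ l, Γ(X, T.U l))
    (h1 : IsSec T.U (T.c a1 b1) s1) (h2 : IsSec T.U (T.c a2 b2) s2)
    (hc : ∀ l, IsUnit (s1 l) ∨ IsUnit (s2 l)) :
    ∃ (f : S.L a b ⟶ S.L (a + a1) (b + b1) ⊞ S.L (a + a2) (b + b2))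
      (g : S.L (a + a1) (b + b1) ⊞ S.L (a + a2) (b + b2) ⟶ S.L (a + a1 + a2) (b + b1 + b2))
      (w : f ≫ g = 0), (ShortComplex.mk f g w).ShortExact := by
  obtain ⟨m1, hm1⟩ := kos_exists_mul S h1 (a := a) (b := b) (a + a1) (b + b1) rfl rfl
  obtain ⟨m2, hm2⟩ := kos_exists_mul S h2 (a := a) (b := b) (a + a2) (b + b2) rfl rfl
  obtain ⟨n2, hn2⟩ := kos_exists_mul S h2 (a := a + a1) (b := b + b1) (a + a1 + a2) (b + b1 + b2) rfl rfl
  obtain ⟨n1, hn1⟩ := kos_exists_mul S h1 (a := a + a2) (b := b + b2) (a + a1 + a2) (b + b1 + b2)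
    (by ring) (by ring)
  have hcomm : m1 ≫ n2 = m2 ≫ n1 := by
    apply hom_ext_cover T.U T.cov T.aff (twist_qc T.cov (S.tw a b))
    intro l m
    obtain ⟨r, rfl⟩ := kos_exists_coord' S a b l m
    rw [kos_comp_app, kos_comp_app, kos_app_smul, kos_app_smul, kos_app_smul, kos_app_smul,
      hm1, hm2, kos_app_smul, kos_app_smul, hn1, hn2, smul_smul, smul_smul, smul_smul, smul_smul]
    congr 1
    ring
  refine ⟨biprod.lift m1 m2, biprod.desc n2 (-n1), ?_, ?_⟩
  · rw [biprod.lift_desc, Preadditive.comp_neg, hcomm, add_neg_cancel]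
  · have q0 := twist_qc T.cov (S.tw a b)
    have q1 := twist_qc T.cov (S.tw (a + a1) (b + b1))
    have q2 := twist_qc T.cov (S.tw (a + a2) (b + b2))
    have q3 := twist_qc T.cov (S.tw (a + a1 + a2) (b + b1 + b2))
    apply shortExact_of_sec T.U T.cov T.aff _ q0 (qc_biprod q1 q2) q3
    -- formulas
    have ff : ∀ l (x : Γ(S.L a b, T.U l)),
        (biprod.fst : S.L (a + a1) (b + b1) ⊞ S.L (a + a2) (b + b2) ⟶ _).app (T.U l)
          ((biprod.lift m1 m2).app (T.U l) x) = m1.app (T.U l) x := by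
      intro l x
      rw [← kos_comp_app, biprod.lift_fst]
    have fs : ∀ l (x : Γ(S.L a b, T.U l)),
        (biprod.snd : S.L (a + a1) (b + b1) ⊞ S.L (a + a2) (b + b2) ⟶ _).app (T.U l)
          ((biprod.lift m1 m2).app (T.U l) x) = m2.app (T.U l) x := by
      intro l x
      rw [← kos_comp_app, biprod.lift_snd]
    have gl : ∀ l (p : Γ(S.L (a + a1) (b + b1), T.U l)),
        (biprod.desc n2 (-n1)).app (T.U l)
          ((biprod.inl : _ ⟶ S.L (a + a1) (b + b1) ⊞ S.L (a + a2) (b + b2)).app (T.U l) p) =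
          n2.app (T.U l) p := by
      intro l p
      rw [← kos_comp_app, biprod.inl_desc]
    have gr : ∀ l (p : Γ(S.L (a + a2) (b + b2), T.U l)),
        (biprod.desc n2 (-n1)).app (T.U l)
          ((biprod.inr : _ ⟶ S.L (a + a1) (b + b1) ⊞ S.L (a + a2) (b + b2)).app (T.U l) p) =
          - n1.app (T.U l) p := by
      intro l p
      rw [← kos_comp_app, biprod.inr_desc]
      rfl
    intro l
    refine ⟨?_, ?_, ?_⟩
    · rw [injective_iff_map_eq_zero]
      intro x hx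
      obtain ⟨r, rfl⟩ := kos_exists_coord' S a b l x
      have e1 := ff l (r • S.e a b l)
      have e2 := fs l (r • S.e a b l)
      change (biprod.lift m1 m2).app (T.U l) (r • S.e a b l) = 0 at hx
      rw [hx, map_zero, kos_app_smul, hm1, smul_smul] at e1
      rw [hx, map_zero, kos_app_smul, hm2, smul_smul] at e2
      have z1 : r * s1 l = 0 := kos_inj S (a + a1) (b + b1) l (by rw [← e1, zero_smul])
      have z2 : r * s2 l = 0 := kos_inj S (a + a2) (b + b2) l (by rw [← e2, zero_smul])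
      have : r = 0 := by
        rcases hc l with hu | hu
        · exact (hu.mul_left_eq_zero).1 z1
        · exact (hu.mul_left_eq_zero).1 z2
      rw [this, zero_smul]
    · intro y
      constructor
      · intro hy
        change (biprod.desc n2 (-n1)).app (T.U l) y = 0 at hy
        obtain ⟨p, q, rfl⟩ : ∃ (p : Γ(S.L (a + a1) (b + b1), T.U l)) (q : Γ(S.L (a + a2) (b + b2), T.U l)),
            y = (biprod.inl : _ ⟶ S.L (a + a1) (b + b1) ⊞ S.L (a + a2) (b + b2)).app (T.U l) p +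
              (biprod.inr : _ ⟶ S.L (a + a1) (b + b1) ⊞ S.L (a + a2) (b + b2)).app (T.U l) q :=
          ⟨_, _, kos_biprod y⟩
        obtain ⟨r1, rfl⟩ := kos_exists_coord' S _ _ l p
        obtain ⟨r2, rfl⟩ := kos_exists_coord' S _ _ l q
        rw [map_add, gl, gr, kos_app_smul, kos_app_smul, hn1, hn2, smul_smul, smul_smul,
          ← sub_eq_add_neg, ← sub_smul] at hy
        have hz : r1 * s2 l - r2 * s1 l = 0 :=
          kos_inj S (a + a1 + a2) (b + b1 + b2) l (by rw [hy, zero_smul])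
        have hz' : r1 * s2 l = r2 * s1 l := sub_eq_zero.1 hz
        have key : ∃ r : Γ(X, T.U l), r * s1 l = r1 ∧ r * s2 l = r2 := by
          rcases hc l with ⟨u, hu⟩ | ⟨u, hu⟩
          · refine ⟨r1 * ↑u⁻¹, ?_, ?_⟩
            · rw [← hu, mul_assoc, Units.inv_mul, mul_one]
            · calc r1 * ↑u⁻¹ * s2 l = (r1 * s2 l) * ↑u⁻¹ := by ring
                _ = r2 * (↑u * ↑u⁻¹) := by rw [hz', ← hu]; ring
                _ = r2 := by rw [Units.mul_inv, mul_one]
          · refine ⟨r2 * ↑u⁻¹, ?_, ?_⟩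
            · calc r2 * ↑u⁻¹ * s1 l = (r2 * s1 l) * ↑u⁻¹ := by ring
                _ = r1 * (↑u * ↑u⁻¹) := by rw [← hz', ← hu]; ring
                _ = r1 := by rw [Units.mul_inv, mul_one]
            · rw [← hu, mul_assoc, Units.inv_mul, mul_one]
        obtain ⟨r, k1, k2⟩ := key
        refine ⟨r • S.e a b l, ?_⟩
        change (biprod.lift m1 m2).app (T.U l) (r • S.e a b l) = _
        have v1 : m1.app (T.U l) (r • S.e a b l) = r1 • S.e (a + a1) (b + b1) l := by
          rw [kos_app_smul, hm1, smul_smul, k1]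
        have v2 : m2.app (T.U l) (r • S.e a b l) = r2 • S.e (a + a2) (b + b2) l := by
          rw [kos_app_smul, hm2, smul_smul, k2]
        rw [kos_biprod ((biprod.lift m1 m2).app (T.U l) (r • S.e a b l)), ff, fs, v1, v2]
      · rintro ⟨x, rfl⟩
        change (biprod.desc n2 (-n1)).app (T.U l) ((biprod.lift m1 m2).app (T.U l) x) = 0
        rw [← kos_comp_app, biprod.lift_desc, Preadditive.comp_neg, hcomm, add_neg_cancel]
        rfl
    · intro t
      obtain ⟨r, rfl⟩ := kos_exists_coord' S _ _ l t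
      rcases hc l with ⟨u, hu⟩ | ⟨u, hu⟩
      · refine ⟨(biprod.inr : _ ⟶ S.L (a + a1) (b + b1) ⊞ S.L (a + a2) (b + b2)).app (T.U l)
          ((-(r * ↑u⁻¹)) • S.e _ _ l), ?_⟩
        change (biprod.desc n2 (-n1)).app (T.U l) _ = _
        rw [gr, kos_app_smul, hn1, smul_smul, ← neg_smul, ← hu]
        congr 1
        rw [neg_mul, neg_neg, mul_assoc, Units.inv_mul, mul_one]
      · refine ⟨(biprod.inl : _ ⟶ S.L (a + a1) (b + b1) ⊞ S.L (a + a2) (b + b2)).app (T.U l)
          ((r * ↑u⁻¹) • S.e _ _ l), ?_⟩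
        change (biprod.desc n2 (-n1)).app (T.U l) _ = _
        rw [gl, kos_app_smul, hn2, smul_smul, ← hu, mul_assoc, Units.inv_mul, mul_one]

end Pool.H33.P

end S_KOS

section S_GEN

/-! # GEN: coherent modules are quotients of finite sums of the line bundles `L a b`

`gen_one`: let `s` be the ample section for the chart `k` (`exists_ample`), of class `(a, b)`.  For all `l` the section
`s l ^ n • t` on `U k ⊓ U l = basicOpen (s l)` extends to `t l : Γ(M, U l)` for `n` large (`loc_surj`), and, after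
multiplying by `s l ^ m`, `t l' = (c a b)^(-n-m) • t l` on `U l ⊓ U l'` (`loc_inj` on this affine open, since both
sides agree on its basic open `U k ⊓ U l ⊓ U l'`).  Then `e l ↦ t l` defines a map from `L (-(n+m) a) (-(n+m) b)` by
`glue_hom`; for `l = k` take `t k = t`.
`exists_epi`: apply `gen_one` to finitely many generators of `Γ(M, U k)`, `k : Fin 4`, `fs_desc` and `epi_of_sec`. -/

open CategoryTheory AlgebraicGeometry Limits TopologicalSpace

namespace Pool.H33.P

variable {X : Scheme.{0}} {T : ToricData X} (S : LSys T)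

theorem gen_rs_rs (M : X.Modules) {U V W : X.Opens} (h : V ≤ U) (h' : W ≤ V) (m : Γ(M, U)) :
    rs M h' (rs M h m) = rs M (h'.trans h) m := by
  unfold rs
  have : (homOfLE (h'.trans h)).op = (homOfLE h).op ≫ (homOfLE h').op := rfl
  rw [this, M.presheaf.map_comp]
  rfl

theorem gen_rf_rf {U V W : X.Opens} (h : V ≤ U) (h' : W ≤ V) (m : Γ(X, U)) :
    rf h' (rf h m) = rf (h'.trans h) m := by
  unfold rf
  have : (homOfLE (h'.trans h)).op = (homOfLE h).op ≫ (homOfLE h').op := rfl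
  rw [this, X.presheaf.map_comp]
  rfl

theorem gen_rf_pow {U V : X.Opens} (h : V ≤ U) (r : Γ(X, U)) (n : ℕ) :
    rf h (r ^ n) = (rf h r) ^ n :=
  map_pow (X.presheaf.map (homOfLE h).op).hom r n

theorem gen_rf_one {U V : X.Opens} (h : V ≤ U) : rf h (1 : Γ(X, U)) = 1 :=
  map_one (X.presheaf.map (homOfLE h).op).hom

theorem gen_rs_sub (M : X.Modules) {U V : X.Opens} (h : V ≤ U) (m m' : Γ(M, U)) :
    rs M h (m - m') = rs M h m - rs M h m' := map_sub _ _ _

theorem gen_rs_add (M : X.Modules) {U V : X.Opens} (h : V ≤ U) (m m' : Γ(M, U)) :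
    rs M h (m + m') = rs M h m + rs M h m' := map_add _ _ _

theorem gen_rs_zero (M : X.Modules) {U V : X.Opens} (h : V ≤ U) :
    rs M h (0 : Γ(M, U)) = 0 := map_zero _

theorem gen_rs_inj (M : X.Modules) {U V : X.Opens} (h : V ≤ U) (e : V = U) {m m' : Γ(M, U)}
    (hm : rs M h m = rs M h m') : m = m' := by
  subst e
  rwa [kos_rs_refl, kos_rs_refl] at hm

/-- gluing a map out of a line bundle -/
theorem gen_glue {M : X.Modules} (a b : ℤ) (t : ∀ l, Γ(M, T.U l))
    (ht : ∀ l l', rs M (V := T.U l ⊓ T.U l') inf_le_right (t l') =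
      T.c a b l l' • rs M (V := T.U l ⊓ T.U l') inf_le_left (t l)) :
    ∃ φ : S.L a b ⟶ M, ∀ l, φ.app (T.U l) (S.e a b l) = t l := by
  obtain ⟨φ, hφ⟩ := glue_hom T.U T.cov T.aff (fun i j => basic_inf T i j)
    (M := S.L a b) (N := M) (twist_qc T.cov (S.tw a b))
    (fun l => (LinearMap.toSpanSingleton Γ(X, T.U l) Γ(M, T.U l) (t l)) ∘ₗ
      (kosE S a b l (T.U l) le_rfl).symm.toLinearMap)
    (fun l l' => (LinearMap.toSpanSingleton Γ(X, T.U l ⊓ T.U l') Γ(M, T.U l ⊓ T.U l')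
      (rs M inf_le_left (t l))) ∘ₗ (kosE S a b l (T.U l ⊓ T.U l') inf_le_left).symm.toLinearMap)
    (by
      intro l l' m
      obtain ⟨r, rfl⟩ := kos_exists_coord S a b l (T.U l) le_rfl m
      rw [kos_rs_smul, gen_rs_rs, ← kosE_apply, ← kosE_apply]
      simp only [LinearMap.comp_apply, LinearEquiv.coe_coe, LinearEquiv.symm_apply_apply,
        LinearMap.toSpanSingleton_apply]
      rw [kos_rs_smul])
    (by
      intro l l' m
      obtain ⟨r, rfl⟩ := kos_exists_coord S a b l' (T.U l') le_rfl m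
      rw [kos_rs_smul, kos_rs_refl, (S.tw a b).trans l l', smul_smul, ← kosE_apply,
        ← kos_rs_refl (S.L a b) (S.e a b l'), ← kosE_apply]
      simp only [LinearMap.comp_apply, LinearEquiv.coe_coe, LinearEquiv.symm_apply_apply,
        LinearMap.toSpanSingleton_apply]
      rw [kos_rs_smul, ht l l', smul_smul])
  refine ⟨φ, fun l => ?_⟩
  rw [hφ l]
  have h2 : S.e a b l = kosE S a b l (T.U l) le_rfl 1 := by
    rw [kosE_apply, one_smul, kos_rs_refl]
  conv_lhs => rw [h2]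
  simp only [LinearMap.comp_apply, LinearEquiv.coe_coe, LinearEquiv.symm_apply_apply,
    LinearMap.toSpanSingleton_apply, one_smul]

theorem gen_c_inv (T : ToricData X) (a b : ℤ) (n : ℕ) (l l' : Fin 4) :
    T.c (-(n * a)) (-(n * b)) l l' * (T.c a b l l') ^ n = 1 := by
  unfold ToricData.c
  rw [← Units.val_pow_eq_pow_val, ← Units.val_mul, ← Units.val_one]
  congr 1
  rw [mul_pow, ← zpow_natCast (_ ^ a), ← zpow_natCast (_ ^ b), ← zpow_mul, ← zpow_mul,
    mul_mul_mul_comm, ← zpow_add, ← zpow_add]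
  have e1 : -(n * a) + a * n = 0 := by ring
  have e2 : -(n * b) + b * n = 0 := by ring
  rw [e1, e2, zpow_zero, zpow_zero, mul_one]

theorem gen_one {M : X.Modules} (hM : M.IsQuasicoherent) (k : Fin 4) (t : Γ(M, T.U k)) :
    ∃ (a b : ℤ) (φ : S.L a b ⟶ M), φ.app (T.U k) (S.e a b k) = t := by
  obtain ⟨a, b, s, hs, hsk, hsl⟩ := exists_ample T k
  -- extension of `s ^ N t`
  have step1 : ∀ l, ∃ n : ℕ, ∃ u : Γ(M, T.U l), rs M (V := T.U k ⊓ T.U l) inf_le_right u =
      rf (V := T.U k ⊓ T.U l) inf_le_right (s l ^ n) • rs M (V := T.U k ⊓ T.U l) inf_le_left t :=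
    fun l => loc_surj M hM (T.aff l) (s l) (hsl l) inf_le_right (rs M inf_le_left t)
  choose n u hu using step1
  obtain ⟨N, hN⟩ : ∃ N, ∀ l, n l ≤ N := ⟨Finset.univ.sup n, fun l => Finset.le_sup (Finset.mem_univ l)⟩
  obtain ⟨v, hv⟩ : ∃ v : ∀ l, Γ(M, T.U l), ∀ l, rs M (V := T.U k ⊓ T.U l) inf_le_right (v l) =
      rf (V := T.U k ⊓ T.U l) inf_le_right (s l ^ N) • rs M (V := T.U k ⊓ T.U l) inf_le_left t := by
    refine ⟨fun l => s l ^ (N - n l) • u l, fun l => ?_⟩
    rw [kos_rs_smul, hu, smul_smul, ← kos_rf_mul, ← pow_add, Nat.sub_add_cancel (hN l)]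
  -- compatibility
  have step2 : ∀ l l', ∃ m : ℕ, (rf (V := T.U l ⊓ T.U l') inf_le_left (s l)) ^ m •
      (rs M inf_le_right (v l') - T.c (-(N * a)) (-(N * b)) l l' • rs M inf_le_left (v l)) = 0 := by
    intro l l'
    have hW : (T.U k ⊓ T.U l ⊓ T.U l') ≤ T.U l ⊓ T.U l' :=
      le_inf (inf_le_left.trans inf_le_right) inf_le_right
    have hWb : T.U k ⊓ T.U l ⊓ T.U l' =
        X.basicOpen (rf (V := T.U l ⊓ T.U l') inf_le_left (s l)) := by
      unfold rf
      rw [Scheme.basicOpen_res, ← hsl l]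
      ext x
      simp only [Opens.coe_inf, Set.mem_inter_iff, SetLike.mem_coe]
      tauto
    refine loc_inj M hM (affine_inf T l l') _ hWb hW _ ?_
    rw [gen_rs_sub, kos_rs_smul, gen_rs_rs, gen_rs_rs]
    have hkl : T.U k ⊓ T.U l ⊓ T.U l' ≤ T.U k ⊓ T.U l := inf_le_left
    have hkl' : T.U k ⊓ T.U l ⊓ T.U l' ≤ T.U k ⊓ T.U l' :=
      le_inf (inf_le_left.trans inf_le_left) inf_le_right
    have e1 := congr_arg (rs M hkl) (hv l)
    have e2 := congr_arg (rs M hkl') (hv l')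
    rw [gen_rs_rs, kos_rs_smul, gen_rs_rs, gen_rf_rf, gen_rf_pow] at e1 e2
    rw [e1, e2, smul_smul, sub_eq_zero]
    congr 1
    -- identity of functions
    have hsec := congr_arg (rf hW) (hs l l')
    rw [kos_rf_mul, gen_rf_rf, gen_rf_rf] at hsec
    rw [hsec, mul_pow, ← mul_assoc, ← gen_rf_pow hW, ← kos_rf_mul, gen_c_inv, gen_rf_one, one_mul]
  choose m hm using step2
  obtain ⟨K, hK⟩ : ∃ K, ∀ l l', m l l' ≤ K := by
    refine ⟨Finset.univ.sup (fun p : Fin 4 × Fin 4 => m p.1 p.2), fun l l' => ?_⟩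
    exact Finset.le_sup (f := fun p : Fin 4 × Fin 4 => m p.1 p.2) (Finset.mem_univ (l, l'))
  have hK' : ∀ l l', (rf (V := T.U l ⊓ T.U l') inf_le_left (s l)) ^ K •
      (rs M inf_le_right (v l') - T.c (-(N * a)) (-(N * b)) l l' • rs M inf_le_left (v l)) = 0 := by
    intro l l'
    rw [← Nat.sub_add_cancel (hK l l'), pow_add, mul_smul, hm, smul_zero]
  obtain ⟨φ, hφ⟩ := gen_glue S (M := M) (-(((N + K : ℕ) : ℤ) * a)) (-(((N + K : ℕ) : ℤ) * b))
    (fun l => s l ^ K • v l) (by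
      intro l l'
      have h1 := hK' l l'
      rw [smul_sub, sub_eq_zero, smul_smul] at h1
      rw [kos_rs_smul, kos_rs_smul, gen_rf_pow, gen_rf_pow]
      have h2 : T.c (-(((N + K : ℕ) : ℤ) * a)) (-(((N + K : ℕ) : ℤ) * b)) l l' =
          T.c (-((K : ℤ) * a)) (-((K : ℤ) * b)) l l' * T.c (-((N : ℤ) * a)) (-((N : ℤ) * b)) l l' := by
        rw [← c_add]
        congr 1 <;> (push_cast; ring)
      have h3 : rf (V := T.U l ⊓ T.U l') inf_le_right (s l') ^ K =
          T.c (-((K : ℤ) * a)) (-((K : ℤ) * b)) l l' * rf (V := T.U l ⊓ T.U l') inf_le_left (s l) ^ K := by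
        rw [hs l l', mul_pow, ← mul_assoc, gen_c_inv, one_mul]
      rw [h3, h2, mul_smul, h1, smul_smul, smul_smul]
      congr 1
      ring)
  refine ⟨_, _, φ, ?_⟩
  rw [hφ k]
  apply gen_rs_inj M (V := T.U k ⊓ T.U k) inf_le_right (inf_idem _)
  rw [kos_rs_smul, hv, hsk, one_pow, one_pow, gen_rf_one, one_smul, one_smul]

theorem exists_epi {M : X.Modules} (hM : IsCoh T.U M) :
    ∃ (E : X.Modules) (p : E ⟶ M), IsFS S E ∧ Epi p := by
  classical
  have h1 : ∀ k, ∃ (n : ℕ) (g : Fin n → Γ(M, T.U k)),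
      Submodule.span Γ(X, T.U k) (Set.range g) = ⊤ := fun k =>
    haveI := hM.fin k
    Module.Finite.exists_fin
  choose n g hg using h1
  let ι := Σ k : Fin 4, Fin (n k)
  have h2 : ∀ i : ι, ∃ (a b : ℤ) (φ : S.L a b ⟶ M), φ.app (T.U i.1) (S.e a b i.1) = g i.1 i.2 :=
    fun i => gen_one S hM.qc i.1 (g i.1 i.2)
  choose a b φ hφ using h2
  let e : Fin (Fintype.card ι) ≃ ι := (Fintype.equivFin ι).symm
  obtain ⟨E, p, hE, hp⟩ := fs_desc S (M := M) (Fintype.card ι) (fun i => a (e i)) (fun i => b (e i))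
    (fun i => φ (e i))
  refine ⟨E, p, hE, ?_⟩
  apply epi_of_sec T.U T.cov T.aff p (fs_qc S hE) hM.qc
  intro k
  let q : Γ(E, T.U k) →ₗ[Γ(X, T.U k)] Γ(M, T.U k) :=
    { toFun := fun x => p.app (T.U k) x
      map_add' := fun x y => map_add _ x y
      map_smul' := fun r x => kos_app_smul p r x }
  have hq : LinearMap.range q = ⊤ := by
    rw [eq_top_iff, ← hg k, Submodule.span_le]
    rintro _ ⟨j, rfl⟩
    have key : ∀ i : ι, ∃ w : S.L (a i) (b i) ⟶ E, w ≫ p = φ i := by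
      intro i
      obtain ⟨i', rfl⟩ := e.surjective i
      exact hp i'
    obtain ⟨w, hw⟩ := key ⟨k, j⟩
    refine ⟨w.app (T.U k) (S.e _ _ k), ?_⟩
    change p.app (T.U k) (w.app (T.U k) (S.e _ _ k)) = _
    rw [← kos_comp_app, hw]
    exact hφ ⟨k, j⟩
  intro y
  have hy : y ∈ LinearMap.range q := by rw [hq]; trivial
  obtain ⟨x, hx⟩ := hy
  exact ⟨x, hx⟩

end Pool.H33.P

end S_GEN

section S_EMB

/-! # EMB: vector bundles embed, locally split, into finite sums of the line bundles `L a b`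

`emb_one`: let `s` be the ample section for the chart `k`, of class `(a, b)`; `O = U k ⊓ U l` is a basic open both of
`U k` and of `U l`.  The functional `lam` localises to `Γ(M, O)`; for `m : Γ(M, U l)` the function
`s l ^ n * lam_O (m|O)` extends (uniquely, `X` is integral, so restriction of functions to nonempty opens is
injective) to `U l` for `n` large, uniformly in `m` since `Γ(M, U l)` is finitely generated; this defines linear
`lam l : Γ(M, U l) → Γ(X, U l)`, and `m ↦ lam l m • e l` glue to `M ⟶ L (n a) (n b)` by `glue_hom` (the compatibility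
on `U l ⊓ U l'` is checked after restriction to `U k ⊓ U l ⊓ U l'`, where it is clear).
`exists_embed`: for each chart choose finitely many functionals `lam i` such that
`(lam i) : Γ(M, U k) → Γ(X, U k)^r` has a linear retraction (finite projective), apply `emb_one`, `fs_lift`,
`locSplit_of_sec`.  The sections of the cokernel over `U l` are a direct summand complement, hence finite
projective (`sec_exact`). -/

open CategoryTheory AlgebraicGeometry Limits TopologicalSpace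

namespace Pool.H33.P

section basic
variable {X : Scheme.{0}}

lemma emb_rs_add (M : X.Modules) {U V : X.Opens} (h : V ≤ U) (m m' : Γ(M, U)) :
    rs M h (m + m') = rs M h m + rs M h m' := by
  unfold rs
  exact map_add _ _ _

lemma emb_rs_zero (M : X.Modules) {U V : X.Opens} (h : V ≤ U) : rs M h (0 : Γ(M, U)) = 0 := by
  unfold rs
  exact map_zero _

lemma emb_rs_smul (M : X.Modules) {U V : X.Opens} (h : V ≤ U) (f : Γ(X, U)) (m : Γ(M, U)) :
    rs M h (f • m) = rf h f • rs M h m := by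
  unfold rs rf
  exact Scheme.Modules.map_smul M _ _ _

lemma emb_rs_rs (M : X.Modules) {U V W : X.Opens} (h : V ≤ U) (h' : W ≤ V) (m : Γ(M, U)) :
    rs M h' (rs M h m) = rs M (h'.trans h) m := by
  unfold rs
  rw [← ConcreteCategory.comp_apply, ← M.presheaf.map_comp]
  rfl

lemma emb_rs_self (M : X.Modules) {U : X.Opens} (h : U ≤ U) (m : Γ(M, U)) : rs M h m = m := by
  unfold rs
  have : (homOfLE h).op = 𝟙 (Opposite.op U) := rfl
  rw [this, M.presheaf.map_id]
  rfl

/-- restriction of functions as a ring homomorphism -/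
noncomputable def embRf {U V : X.Opens} (h : V ≤ U) : Γ(X, U) →+* Γ(X, V) :=
  (X.presheaf.map (homOfLE h).op).hom

lemma emb_rf_eq {U V : X.Opens} (h : V ≤ U) (f : Γ(X, U)) : rf h f = embRf h f := rfl

lemma emb_rf_self {U : X.Opens} (h : U ≤ U) (f : Γ(X, U)) : rf h f = f := by
  unfold rf
  have : (homOfLE h).op = 𝟙 (Opposite.op U) := rfl
  rw [this, X.presheaf.map_id]
  rfl

lemma emb_rf_rf {U V W : X.Opens} (h : V ≤ U) (h' : W ≤ V) (f : Γ(X, U)) :
    rf h' (rf h f) = rf (h'.trans h) f := by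
  unfold rf
  rw [← ConcreteCategory.comp_apply, ← X.presheaf.map_comp]
  rfl

lemma emb_rs_sub (M : X.Modules) {U V : X.Opens} (h : V ≤ U) (m m' : Γ(M, U)) :
    rs M h (m - m') = rs M h m - rs M h m' := by
  unfold rs
  exact map_sub _ _ _

/-- the germ at the generic point -/
noncomputable def embGm [IsIntegral X] {V : X.Opens} (hV : genericPoint X ∈ V) : Γ(X, V) →+* X.functionField :=
  (X.presheaf.germ V (genericPoint X) hV).hom

lemma emb_gm_inj [IsIntegral X] {V : X.Opens} (hV : genericPoint X ∈ V) : Function.Injective (embGm hV) :=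
  germ_injective_of_isIntegral X (genericPoint X) hV

lemma emb_gm_rf [IsIntegral X] {U V : X.Opens} (h : V ≤ U) (hV : genericPoint X ∈ V) (f : Γ(X, U)) :
    embGm hV (rf h f) = embGm (h hV) f := by
  unfold embGm rf
  exact X.presheaf.germ_res_apply (homOfLE h) (genericPoint X) hV f

lemma emb_gm_ne [IsIntegral X] {V : X.Opens} (hV : genericPoint X ∈ V) {f : Γ(X, V)} (hf : f ≠ 0) :
    embGm hV f ≠ 0 := by
  intro h
  exact hf (emb_gm_inj hV (by rw [h, map_zero]))

lemma emb_bot [IsIntegral X] {V : X.Opens} (hV : genericPoint X ∉ V) : Subsingleton Γ(X, V) := by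
  have : V = ⊥ := by
    rw [eq_bot_iff]
    intro x hx
    exact absurd (((genericPoint_spec X).mem_open_set_iff V.isOpen).mpr (by simpa using ⟨x, hx⟩)) hV
  rw [this]
  infer_instance

lemma emb_sub (M : X.Modules) {V : X.Opens} (h : Subsingleton Γ(X, V)) : Subsingleton Γ(M, V) :=
  Module.subsingleton Γ(X, V) Γ(M, V)

lemma emb_unit {U V : X.Opens} (f : Γ(X, U)) (hV : V = X.basicOpen f) (h : V ≤ U) : IsUnit (rf h f) := by
  subst hV
  exact X.toRingedSpace.isUnit_res_basicOpen f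

/-- basic opens inside -/
lemma emb_basic [IsIntegral X] {U : X.Opens} (hU : IsAffineOpen U) {W : X.Opens} (hW : genericPoint X ∈ W) (hWU : W ≤ U) :
    ∃ g : Γ(X, U), g ≠ 0 ∧ X.basicOpen g ≤ W ∧ genericPoint X ∈ X.basicOpen g := by
  obtain ⟨g, hg, hx⟩ := hU.exists_basicOpen_le ⟨genericPoint X, hW⟩ (hWU hW)
  refine ⟨g, ?_, hg, hx⟩
  rintro rfl
  simp at hx

end basic

section functional

variable {X : Scheme.{0}} [IsIntegral X] {M : X.Modules} (hM : M.IsQuasicoherent) {U : X.Opens}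
  (hU : IsAffineOpen U) (hη : genericPoint X ∈ U) (lam : Γ(M, U) →ₗ[Γ(X, U)] Γ(X, U))

include hM hU in
/-- functionals vanish on sections which vanish generically -/
lemma emb_vanish {W : X.Opens} (hW : genericPoint X ∈ W) (hWU : W ≤ U) (x : Γ(M, U)) (hx : rs M hWU x = 0) :
    lam x = 0 := by
  obtain ⟨g, hg, hgW, hηg⟩ := emb_basic hU hW hWU
  have h1 : rs M (hgW.trans hWU) x = 0 := by
    rw [← emb_rs_rs M hWU hgW, hx, emb_rs_zero]
  obtain ⟨n, hn⟩ := loc_inj M hM hU g rfl (hgW.trans hWU) x h1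
  have h2 : g ^ n * lam x = 0 := by
    rw [← smul_eq_mul, ← map_smul, hn, map_zero]
  have hη : genericPoint X ∈ U := hWU hW
  apply emb_gm_inj hη
  have h3 := congrArg (embGm hη) h2
  rw [map_mul, map_pow, map_zero] at h3
  rw [map_zero]
  rcases mul_eq_zero.1 h3 with h4 | h4
  · exact absurd h4 (pow_ne_zero n (emb_gm_ne hη hg))
  · exact h4

include hM hU hη in
/-- every section is generically the restriction of a section over `U`, up to a multiple -/
lemma emb_ex {V : X.Opens} (hV : genericPoint X ∈ V) (m : Γ(M, V)) :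
    ∃ (W : X.Opens) (hWV : W ≤ V) (hWU : W ≤ U) (a : Γ(X, U)) (t : Γ(M, U)), genericPoint X ∈ W ∧ a ≠ 0 ∧
      rs M hWU t = rf hWU a • rs M hWV m := by
  obtain ⟨g, hg, hgW, hηg⟩ := emb_basic hU (W := V ⊓ U) ⟨hV, hη⟩ inf_le_right
  obtain ⟨n, t, ht⟩ := loc_surj M hM hU g rfl (hgW.trans inf_le_right) (rs M (hgW.trans inf_le_left) m)
  refine ⟨X.basicOpen g, hgW.trans inf_le_left, hgW.trans inf_le_right, g ^ n, t, hηg, ?_, ht⟩
  intro h
  have h3 := congrArg (embGm hη) h
  rw [map_pow, map_zero] at h3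
  exact absurd h3 (pow_ne_zero n (emb_gm_ne hη hg))

/-- the value of the functional in the function field -/
noncomputable def embL {V : X.Opens} (hV : genericPoint X ∈ V) (m : Γ(M, V)) : X.functionField :=
  embGm hη (lam (emb_ex hM hU hη hV m).choose_spec.choose_spec.choose_spec.choose_spec.choose) /
    embGm hη (emb_ex hM hU hη hV m).choose_spec.choose_spec.choose_spec.choose

lemma embL_eq {V : X.Opens} (hV : genericPoint X ∈ V) (m : Γ(M, V)) {W : X.Opens} (hWV : W ≤ V) (hWU : W ≤ U)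
    (a : Γ(X, U)) (t : Γ(M, U)) (hW : genericPoint X ∈ W) (ha : a ≠ 0)
    (h : rs M hWU t = rf hWU a • rs M hWV m) : embL hM hU hη lam hV m = embGm hη (lam t) / embGm hη a := by
  have key := (emb_ex hM hU hη hV m).choose_spec.choose_spec.choose_spec.choose_spec.choose_spec
  unfold embL
  set W' := (emb_ex hM hU hη hV m).choose with hW'
  set hWV' := (emb_ex hM hU hη hV m).choose_spec.choose
  set hWU' := (emb_ex hM hU hη hV m).choose_spec.choose_spec.choose
  set a' := (emb_ex hM hU hη hV m).choose_spec.choose_spec.choose_spec.choose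
  set t' := (emb_ex hM hU hη hV m).choose_spec.choose_spec.choose_spec.choose_spec.choose
  obtain ⟨k1, k2, k3⟩ := key
  obtain ⟨W'', hA, hB, hη'', h1, h2⟩ : ∃ W'' : X.Opens, ∃ (_ : W'' ≤ W) (_ : W'' ≤ W') (_ : genericPoint X ∈ W'')
      (_ : W'' ≤ U), W'' ≤ V := ⟨W ⊓ W', inf_le_left, inf_le_right, ⟨hW, k1⟩, inf_le_left.trans hWU, inf_le_left.trans hWV⟩
  have e1 : rs M h1 t = rf h1 a • rs M h2 m := by
    have := congrArg (rs M hA) h
    rw [emb_rs_rs, emb_rs_smul, emb_rs_rs, emb_rf_rf] at this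
    exact this
  have e2 : rs M h1 t' = rf h1 a' • rs M h2 m := by
    have := congrArg (rs M hB) k3
    rw [emb_rs_rs, emb_rs_smul, emb_rs_rs, emb_rf_rf] at this
    exact this
  have h3 : lam (a' • t - a • t') = 0 := by
    refine emb_vanish hM hU lam hη'' h1 _ ?_
    rw [emb_rs_sub, emb_rs_smul, emb_rs_smul, e1, e2, smul_smul, smul_smul, mul_comm, sub_self]
  rw [map_sub, map_smul, map_smul, smul_eq_mul, smul_eq_mul, sub_eq_zero] at h3
  have h4 := congrArg (embGm hη) h3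
  rw [map_mul, map_mul] at h4
  rw [div_eq_div_iff (emb_gm_ne hη k2) (emb_gm_ne hη ha), mul_comm, ← h4, mul_comm]

lemma embL_ex {V : X.Opens} (hV : genericPoint X ∈ V) (m : Γ(M, V)) :
    ∃ (W : X.Opens) (hWV : W ≤ V) (hWU : W ≤ U) (a : Γ(X, U)) (t : Γ(M, U)), genericPoint X ∈ W ∧ a ≠ 0 ∧
      rs M hWU t = rf hWU a • rs M hWV m ∧ embL hM hU hη lam hV m = embGm hη (lam t) / embGm hη a := by
  obtain ⟨W, h1, h2, a, t, h3, h4, h5⟩ := emb_ex hM hU hη hV m
  exact ⟨W, h1, h2, a, t, h3, h4, h5, embL_eq hM hU hη lam hV m h1 h2 a t h3 h4 h5⟩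

lemma embL_self (m : Γ(M, U)) : embL hM hU hη lam hη m = embGm hη (lam m) := by
  have h := embL_eq hM hU hη lam hη m le_rfl le_rfl (1 : Γ(X, U)) m hη (by
    intro h
    have := congrArg (embGm hη) h
    rw [map_one, map_zero] at this
    exact one_ne_zero this) (by rw [emb_rf_eq, map_one, one_smul])
  rw [h, map_one, div_one]

lemma embL_rs {V V' : X.Opens} (hV' : genericPoint X ∈ V') (h : V' ≤ V) (m : Γ(M, V)) :
    embL hM hU hη lam hV' (rs M h m) = embL hM hU hη lam (h hV') m := by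
  obtain ⟨W, h1, h2, a, t, h3, h4, h5, h6⟩ := embL_ex hM hU hη lam hV' (rs M h m)
  rw [h6]
  symm
  refine embL_eq hM hU hη lam _ m (h1.trans h) h2 a t h3 h4 ?_
  rw [h5, emb_rs_rs]

lemma embL_add {V : X.Opens} (hV : genericPoint X ∈ V) (m m' : Γ(M, V)) :
    embL hM hU hη lam hV (m + m') = embL hM hU hη lam hV m + embL hM hU hη lam hV m' := by
  obtain ⟨W, h1, h2, a, t, h3, h4, h5, h6⟩ := embL_ex hM hU hη lam hV m
  obtain ⟨W', h1', h2', a', t', h3', h4', h5', h6'⟩ := embL_ex hM hU hη lam hV m'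
  obtain ⟨W'', hA, hB, hη'', h7, h8⟩ : ∃ W'' : X.Opens, ∃ (_ : W'' ≤ W) (_ : W'' ≤ W') (_ : genericPoint X ∈ W'')
      (_ : W'' ≤ U), W'' ≤ V := ⟨W ⊓ W', inf_le_left, inf_le_right, ⟨h3, h3'⟩, inf_le_left.trans h2, inf_le_left.trans h1⟩
  have e1 : rs M h7 t = rf h7 a • rs M h8 m := by
    have := congrArg (rs M hA) h5
    rw [emb_rs_rs, emb_rs_smul, emb_rs_rs, emb_rf_rf] at this
    exact this
  have e2 : rs M h7 t' = rf h7 a' • rs M h8 m' := by
    have := congrArg (rs M hB) h5'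
    rw [emb_rs_rs, emb_rs_smul, emb_rs_rs, emb_rf_rf] at this
    exact this
  have ha := emb_gm_ne hη h4
  have ha' := emb_gm_ne hη h4'
  rw [h6, h6', embL_eq hM hU hη lam hV (m + m') h8 h7 (a * a') (a' • t + a • t') hη'' (by
    intro h
    have := congrArg (embGm hη) h
    rw [map_mul, map_zero] at this
    exact mul_ne_zero ha ha' this) (by
    rw [emb_rs_add, emb_rs_smul, emb_rs_smul, e1, e2, emb_rs_add, smul_add, smul_smul, smul_smul, emb_rf_eq,
      emb_rf_eq, emb_rf_eq, map_mul, mul_comm (embRf h7 a') (embRf h7 a)])]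
  rw [map_add, map_smul, map_smul, map_add, smul_eq_mul, smul_eq_mul, map_mul, map_mul, map_mul]
  field_simp

lemma embL_smul {V : X.Opens} (hV : genericPoint X ∈ V) (f : Γ(X, V)) (m : Γ(M, V)) :
    embL hM hU hη lam hV (f • m) = embGm hV f * embL hM hU hη lam hV m := by
  obtain ⟨W, h1, h2, a, t, h3, h4, h5, h6⟩ := embL_ex hM hU hη lam hV m
  obtain ⟨g, hg, hgW, hηg⟩ := emb_basic hU h3 h2
  obtain ⟨n, f', hf'⟩ := loc_surj_fun hU g rfl (hgW.trans h2) (rf (hgW.trans h1) f)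
  have ha := emb_gm_ne hη h4
  have hg' := emb_gm_ne hη hg
  have e1 : embGm hη f' = embGm hη g ^ n * embGm hV f := by
    have := congrArg (embGm hηg) hf'
    rw [map_mul, emb_gm_rf, emb_gm_rf, emb_gm_rf, map_pow] at this
    exact this
  have e2 : rs M (hgW.trans h2) (f' • t) = rf (hgW.trans h2) (g ^ n * a) • rs M (hgW.trans h1) (f • m) := by
    have e3 := congrArg (rs M hgW) h5
    rw [emb_rs_rs, emb_rs_smul, emb_rs_rs, emb_rf_rf] at e3
    rw [emb_rs_smul, e3, hf', emb_rs_smul, smul_smul, smul_smul, emb_rf_eq _ (g ^ n * a), map_mul]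
    congr 1
    rw [emb_rf_eq _ (g ^ n), emb_rf_eq _ a]
    ring
  rw [h6, embL_eq hM hU hη lam hV (f • m) (hgW.trans h1) (hgW.trans h2) (g ^ n * a) (f' • t) hηg (by
    intro h
    have := congrArg (embGm hη) h
    rw [map_mul, map_pow, map_zero] at this
    exact mul_ne_zero (pow_ne_zero n hg') ha this) e2]
  rw [map_smul, smul_eq_mul, map_mul, map_mul, map_pow, e1]
  field_simp

/-- linear functionals over other opens -/
lemma emb_lin {V : X.Opens} (hV : genericPoint X ∈ V) (c : X.functionField)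
    (h : ∀ m : Γ(M, V), ∃ g : Γ(X, V), embGm hV g = c * embL hM hU hη lam hV m) :
    ∃ μ : Γ(M, V) →ₗ[Γ(X, V)] Γ(X, V), ∀ m, embGm hV (μ m) = c * embL hM hU hη lam hV m := by
  choose μ hμ using h
  refine ⟨{ toFun := μ, map_add' := fun m m' => ?_, map_smul' := fun f m => ?_ }, fun m => hμ m⟩
  · apply emb_gm_inj hV
    rw [map_add, hμ, hμ, hμ, embL_add, mul_add]
  · apply emb_gm_inj hV
    rw [hμ, embL_smul, smul_eq_mul, RingHom.id_apply, map_mul, hμ]
    ring

end functional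

variable {X : Scheme.{0}} {T : ToricData X} (S : LSys T)

/-- extension of the functional over one chart -/
lemma emb_chart [IsIntegral X] {M : X.Modules} (hM : IsCoh T.U M) (k l : Fin 4) (hη : genericPoint X ∈ T.U k)
    (hηl : genericPoint X ∈ T.U l) (lam : Γ(M, T.U k) →ₗ[Γ(X, T.U k)] Γ(X, T.U k)) (s : Γ(X, T.U l))
    (hs : T.U k ⊓ T.U l = X.basicOpen s) :
    ∃ n : ℕ, ∀ n', n ≤ n' → ∀ m : Γ(M, T.U l), ∃ g : Γ(X, T.U l), embGm hηl g =
      embGm hηl s ^ n' * embL hM.qc (T.aff k) hη lam hηl m := by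
  -- one section
  have hO : genericPoint X ∈ T.U k ⊓ T.U l := ⟨hη, hηl⟩
  have one : ∀ m : Γ(M, T.U l), ∃ n : ℕ, ∃ g : Γ(X, T.U l), embGm hηl g =
      embGm hηl s ^ n * embL hM.qc (T.aff k) hη lam hηl m := by
    intro m
    obtain ⟨f, hf⟩ := basic_inf T k l
    obtain ⟨n1, t, ht⟩ := loc_surj M hM.qc (T.aff k) f hf inf_le_left (rs M inf_le_right m)
    obtain ⟨u, hu⟩ := (emb_unit f hf inf_le_left).pow n1
    obtain ⟨n, g, hg⟩ := loc_surj_fun (T.aff l) s hs inf_le_right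
      (((u⁻¹ : Γ(X, T.U k ⊓ T.U l)ˣ) : Γ(X, T.U k ⊓ T.U l)) * rf inf_le_left (lam t))
    refine ⟨n, g, ?_⟩
    have h1 := congrArg (embGm hO) hg
    rw [emb_gm_rf, map_mul, emb_gm_rf, map_pow, map_mul, emb_gm_rf] at h1
    have h2 : embL hM.qc (T.aff k) hη lam hηl m = embGm hO ((u⁻¹ : Γ(X, T.U k ⊓ T.U l)ˣ) : Γ(X, T.U k ⊓ T.U l)) *
        embGm hη (lam t) := by
      have h3 := embL_smul hM.qc (T.aff k) hη lam hO (rf inf_le_left (f ^ n1)) (rs M inf_le_right m)
      rw [← ht, embL_rs, embL_self, embL_rs] at h3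
      have h4 : embGm hO ((u⁻¹ : Γ(X, T.U k ⊓ T.U l)ˣ) : Γ(X, T.U k ⊓ T.U l)) * embGm hO (rf inf_le_left (f ^ n1)) = 1 := by
        rw [← map_mul, emb_rf_eq, map_pow, ← emb_rf_eq, ← hu, Units.inv_mul, map_one]
      rw [h3, ← mul_assoc, h4, one_mul]
    rw [h2]
    exact h1
  -- closure under multiples
  have up : ∀ (m : Γ(M, T.U l)) (n n' : ℕ), n ≤ n' → (∃ g : Γ(X, T.U l), embGm hηl g =
      embGm hηl s ^ n * embL hM.qc (T.aff k) hη lam hηl m) → ∃ g : Γ(X, T.U l), embGm hηl g =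
      embGm hηl s ^ n' * embL hM.qc (T.aff k) hη lam hηl m := by
    rintro m n n' hnn' ⟨g, hg⟩
    refine ⟨s ^ (n' - n) * g, ?_⟩
    rw [map_mul, map_pow, hg, ← mul_assoc, ← pow_add, Nat.sub_add_cancel hnn']
  choose N hN using one
  obtain ⟨G, hG⟩ := (hM.fin l).fg_top
  refine ⟨G.sup N, fun n' hn' m => ?_⟩
  have hm : m ∈ Submodule.span Γ(X, T.U l) (G : Set Γ(M, T.U l)) := by rw [hG]; trivial
  induction hm using Submodule.span_induction with
  | mem x hx => exact up x (N x) n' ((Finset.le_sup (f := N) hx).trans hn') (hN x)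
  | zero =>
    refine ⟨0, ?_⟩
    have h0 := embL_smul hM.qc (T.aff k) hη lam hηl 0 (0 : Γ(M, T.U l))
    rw [zero_smul, map_zero, zero_mul] at h0
    rw [h0, mul_zero, map_zero]
  | add x y _ _ hx hy =>
    obtain ⟨g, hg⟩ := hx
    obtain ⟨g', hg'⟩ := hy
    exact ⟨g + g', by rw [map_add, hg, hg', embL_add, mul_add]⟩
  | smul a x _ hx =>
    obtain ⟨g, hg⟩ := hx
    exact ⟨a * g, by rw [map_mul, hg, embL_smul]; ring⟩

theorem emb_one {M : X.Modules} (hM : IsCoh T.U M) (k : Fin 4)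
    (lam : Γ(M, T.U k) →ₗ[Γ(X, T.U k)] Γ(X, T.U k)) :
    ∃ (a b : ℤ) (φ : M ⟶ S.L a b), ∀ m : Γ(M, T.U k), φ.app (T.U k) m = lam m • S.e a b k := by
  classical
  have hint : IsIntegral X := T.int
  by_cases hη : genericPoint X ∈ T.U k
  swap
  · have h1 := emb_bot hη
    have h2 := emb_sub (S.L 0 0) h1
    exact ⟨0, 0, 0, fun m => h2.elim _ _⟩
  obtain ⟨a0, b0, s, hsec, hsk, hs⟩ := exists_ample T k
  -- the exponent
  have hN : ∀ l : Fin 4, ∃ N : ℕ, ∀ n', N ≤ n' → ∀ hηl : genericPoint X ∈ T.U l, ∀ m : Γ(M, T.U l),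
      ∃ g : Γ(X, T.U l), embGm hηl g = embGm hηl (s l) ^ n' * embL hM.qc (T.aff k) hη lam hηl m := by
    intro l
    by_cases hηl : genericPoint X ∈ T.U l
    · obtain ⟨N, hN⟩ := emb_chart hM k l hη hηl lam (s l) (hs l)
      exact ⟨N, fun n' hn' _ m => hN n' hn' m⟩
    · exact ⟨0, fun n' _ h => absurd h hηl⟩
  choose N hN using hN
  set n : ℕ := Finset.univ.sup N with hn
  have hN' := fun l => hN l n (Finset.le_sup (Finset.mem_univ l))
  -- the functionals
  have hlam : ∀ l : Fin 4, ∃ μ : Γ(M, T.U l) →ₗ[Γ(X, T.U l)] Γ(X, T.U l), ∀ hηl : genericPoint X ∈ T.U l,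
      ∀ m, embGm hηl (μ m) = embGm hηl (s l) ^ n * embL hM.qc (T.aff k) hη lam hηl m := by
    intro l
    by_cases hηl : genericPoint X ∈ T.U l
    · obtain ⟨μ, hμ⟩ := emb_lin hM.qc (T.aff k) hη lam hηl _ (hN' l hηl)
      exact ⟨μ, fun _ => hμ⟩
    · exact ⟨0, fun h => absurd h hηl⟩
  choose μ hμ using hlam
  have hchi : ∀ l l' : Fin 4, ∃ χ : Γ(M, T.U l ⊓ T.U l') →ₗ[Γ(X, T.U l ⊓ T.U l')] Γ(X, T.U l ⊓ T.U l'),
      ∀ (hηl : genericPoint X ∈ T.U l) (hO : genericPoint X ∈ T.U l ⊓ T.U l'),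
      ∀ m, embGm hO (χ m) = embGm hηl (s l) ^ n * embL hM.qc (T.aff k) hη lam hO m := by
    intro l l'
    by_cases hO : genericPoint X ∈ T.U l ⊓ T.U l'
    · have hηl : genericPoint X ∈ T.U l := hO.1
      obtain ⟨χ, hχ⟩ := emb_lin hM.qc (T.aff k) hη lam hO (embGm hηl (s l) ^ n) (by
        intro m'
        obtain ⟨f, hf⟩ := basic_inf T l l'
        obtain ⟨j, t, ht⟩ := loc_surj M hM.qc (T.aff l) f hf inf_le_left m'
        obtain ⟨u, hu⟩ := (emb_unit f hf inf_le_left).pow j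
        refine ⟨((u⁻¹ : Γ(X, T.U l ⊓ T.U l')ˣ) : Γ(X, T.U l ⊓ T.U l')) * rf inf_le_left (μ l t), ?_⟩
        have h3 := embL_smul hM.qc (T.aff k) hη lam hO (rf inf_le_left (f ^ j)) m'
        rw [← ht, embL_rs] at h3
        have h4 : embGm hO ((u⁻¹ : Γ(X, T.U l ⊓ T.U l')ˣ) : Γ(X, T.U l ⊓ T.U l')) * embGm hO (rf inf_le_left (f ^ j)) = 1 := by
          rw [← map_mul, emb_rf_eq, map_pow, ← emb_rf_eq, ← hu, Units.inv_mul, map_one]
        rw [map_mul, emb_gm_rf, hμ l hηl t, h3]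
        calc _ = (embGm hO ((u⁻¹ : Γ(X, T.U l ⊓ T.U l')ˣ) : Γ(X, T.U l ⊓ T.U l')) * embGm hO (rf inf_le_left (f ^ j))) *
              (embGm hηl (s l) ^ n * embL hM.qc (T.aff k) hη lam hO m') := by ring
          _ = _ := by rw [h4, one_mul])
      exact ⟨χ, fun _ _ => hχ⟩
    · exact ⟨0, fun _ h => absurd h hO⟩
  choose χ hχ using hchi
  have tw := S.tw (n * a0) (n * b0)
  obtain ⟨φ, hφ⟩ := glue_hom T.U T.cov T.aff (basic_inf T) (M := M) (N := S.L (n * a0) (n * b0)) hM.qc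
    (fun l => (LinearMap.toSpanSingleton Γ(X, T.U l) Γ(S.L (n * a0) (n * b0), T.U l) (S.e (n * a0) (n * b0) l)).comp (μ l))
    (fun l l' => (LinearMap.toSpanSingleton Γ(X, T.U l ⊓ T.U l') Γ(S.L (n * a0) (n * b0), T.U l ⊓ T.U l')
      (rs (S.L (n * a0) (n * b0)) inf_le_left (S.e (n * a0) (n * b0) l))).comp (χ l l')) (by
      intro l l' m
      simp only [LinearMap.comp_apply, LinearMap.toSpanSingleton_apply]
      rw [emb_rs_smul]
      by_cases hO : genericPoint X ∈ T.U l ⊓ T.U l'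
      · congr 1
        apply emb_gm_inj hO
        rw [emb_gm_rf, hχ l l' hO.1 hO, hμ l hO.1, embL_rs]
      · exact (emb_sub _ (emb_bot hO)).elim _ _) (by
      intro l l' m
      simp only [LinearMap.comp_apply, LinearMap.toSpanSingleton_apply]
      rw [emb_rs_smul, tw.trans l l', smul_smul]
      by_cases hO : genericPoint X ∈ T.U l ⊓ T.U l'
      · congr 1
        apply emb_gm_inj hO
        have h1 := sec_pow T hsec n l l'
        have h2 := congrArg (embGm hO) h1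
        rw [emb_gm_rf, map_mul, emb_gm_rf, map_pow, map_pow] at h2
        rw [map_mul, emb_gm_rf, hχ l l' hO.1 hO, hμ l' hO.2, embL_rs, h2]
        ring
      · exact (emb_sub _ (emb_bot hO)).elim _ _)
  refine ⟨n * a0, n * b0, φ, fun m => ?_⟩
  rw [hφ k m]
  simp only [LinearMap.comp_apply, LinearMap.toSpanSingleton_apply]
  congr 1
  apply emb_gm_inj hη
  rw [hμ k hη, embL_self, hsk, map_one, one_pow, one_mul]

/-- the linear map on sections -/
noncomputable def embApp {X : Scheme.{0}} {M N : X.Modules} (φ : M ⟶ N) (V : X.Opens) :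
    Γ(M, V) →ₗ[Γ(X, V)] Γ(N, V) where
  toFun := φ.app V
  map_add' := fun m m' => map_add (φ.app V).hom m m'
  map_smul' := fun f m => Scheme.Modules.Hom.app_smul φ f m

/-- a complement of a split submodule is projective -/
lemma emb_proj {A P Q R : Type} [CommRing A] [AddCommGroup P] [AddCommGroup Q] [AddCommGroup R] [Module A P]
    [Module A Q] [Module A R] (i : P →ₗ[A] Q) (π : Q →ₗ[A] R) (r : Q →ₗ[A] P) (hr : ∀ x, r (i x) = x)
    (hex : Function.Exact i π) (hs : Function.Surjective π) [Module.Projective A Q] : Module.Projective A R := by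
  have hF : ∀ x x' : Q, π x = π x' → x - i (r x) = x' - i (r x') := by
    intro x x' h
    have h1 : π (x - x') = 0 := by rw [map_sub, h, sub_self]
    obtain ⟨m, hm⟩ := (hex _).1 h1
    have h2 : i (r (x - x')) = x - x' := by rw [← hm, hr]
    rw [map_sub, map_sub] at h2
    rw [sub_eq_sub_iff_sub_eq_sub, ← h2]
  choose g hg using hs
  let s : R →ₗ[A] Q :=
    { toFun := fun v => g v - i (r (g v))
      map_add' := fun v v' => by
        rw [hF (g (v + v')) (g v + g v') (by rw [map_add, hg, hg, hg])]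
        rw [map_add, map_add]
        abel
      map_smul' := fun a v => by
        rw [hF (g (a • v)) (a • g v) (by rw [map_smul, hg, hg])]
        rw [map_smul, map_smul, RingHom.id_apply, smul_sub] }
  refine Module.Projective.of_split s π ?_
  ext v
  have h0 : π (i (r (g v))) = 0 := hex.apply_apply_eq_zero _
  show π (g v - i (r (g v))) = v
  rw [map_sub, h0, hg, sub_zero]

theorem exists_embed {M : X.Modules} (hM : IsVB T.U M) :
    ∃ (E V : X.Modules) (i : M ⟶ E) (p : E ⟶ V) (w : i ≫ p = 0),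
      (ShortComplex.mk i p w).ShortExact ∧ IsFS S E ∧ LocSplit T.U i ∧ IsVB T.U V := by
  classical
  have hcoh : IsCoh T.U M := ⟨hM.qc, hM.fin⟩
  -- finitely many functionals
  have h1 : ∀ k : Fin 4, ∃ (r : ℕ) (ρ : (Fin r → Γ(X, T.U k)) →ₗ[Γ(X, T.U k)] Γ(M, T.U k))
      (σ : Γ(M, T.U k) →ₗ[Γ(X, T.U k)] (Fin r → Γ(X, T.U k))), ∀ m, ρ (σ m) = m := by
    intro k
    have hf := hM.fin k
    have hp := hM.proj k
    obtain ⟨r, ρ, hρ⟩ := Module.Finite.exists_fin' Γ(X, T.U k) Γ(M, T.U k)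
    obtain ⟨σ, hσ⟩ := Module.projective_lifting_property ρ LinearMap.id hρ
    exact ⟨r, ρ, σ, fun m => LinearMap.congr_fun hσ m⟩
  choose r ρ σ hρσ using h1
  have h2 : ∀ kj : (Σ k : Fin 4, Fin (r k)), ∃ (a b : ℤ) (φ : M ⟶ S.L a b), ∀ m : Γ(M, T.U kj.1),
      φ.app (T.U kj.1) m = (σ kj.1 m kj.2) • S.e a b kj.1 := by
    rintro ⟨k, j⟩
    exact emb_one S hcoh k ((LinearMap.proj j).comp (σ k))
  choose a b φ hφ using h2
  let q := Fintype.equivFin (Σ k : Fin 4, Fin (r k))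
  obtain ⟨E, i, hE, hi⟩ := fs_lift S (Fintype.card (Σ k : Fin 4, Fin (r k))) (fun x => a (q.symm x))
    (fun x => b (q.symm x)) (fun x => φ (q.symm x))
  have hi' : ∀ kj : (Σ k : Fin 4, Fin (r k)), ∃ j : E ⟶ S.L (a kj) (b kj), i ≫ j = φ kj := by
    intro kj
    have := hi (q kj)
    rwa [q.symm_apply_apply] at this
  choose π hπ using hi'
  have hEqc := fs_qc S hE
  -- the retractions
  have hret : ∀ l : Fin 4, ∃ r : Γ(E, T.U l) →ₗ[Γ(X, T.U l)] Γ(M, T.U l), ∀ m : Γ(M, T.U l), r (i.app (T.U l) m) = m := by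
    intro l
    have hbij : ∀ j : Fin (r l), Function.Bijective (LinearMap.toSpanSingleton Γ(X, T.U l)
        Γ(S.L (a ⟨l, j⟩) (b ⟨l, j⟩), T.U l) (S.e (a ⟨l, j⟩) (b ⟨l, j⟩) l)) := by
      intro j
      have h3 := (S.tw (a ⟨l, j⟩) (b ⟨l, j⟩)).bij l (T.U l) le_rfl
      rw [emb_rs_self] at h3
      exact h3
    let coef := fun j : Fin (r l) => (LinearEquiv.ofBijective _ (hbij j)).symm
    let R : Γ(E, T.U l) →ₗ[Γ(X, T.U l)] (Fin (r l) → Γ(X, T.U l)) :=
      LinearMap.pi (fun j => (coef j).toLinearMap.comp (embApp (π ⟨l, j⟩) (T.U l)))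
    refine ⟨(ρ l).comp R, fun m => ?_⟩
    have hR : R (i.app (T.U l) m) = σ l m := by
      funext j
      show (coef j) ((π ⟨l, j⟩).app (T.U l) (i.app (T.U l) m)) = σ l m j
      have h4 : (π ⟨l, j⟩).app (T.U l) (i.app (T.U l) m) = (φ ⟨l, j⟩).app (T.U l) m := by
        rw [← hπ ⟨l, j⟩]
        rfl
      rw [h4, hφ ⟨l, j⟩ m]
      exact (LinearEquiv.ofBijective _ (hbij j)).symm_apply_apply (σ l m j)
    rw [LinearMap.comp_apply, hR, hρσ]
  have hLS : LocSplit T.U i := locSplit_of_sec T.U T.aff hM.qc hEqc i hret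
  have hmono : Mono i := mono_of_locSplit T.U T.cov i hLS
  have hVqc := qc_cokernel i hM.qc hEqc
  have hSE : (ShortComplex.mk i (cokernel.π i) (cokernel.condition i)).ShortExact :=
    { exact := ShortComplex.exact_cokernel i
      mono_f := hmono
      epi_g := inferInstanceAs (Epi (cokernel.π i)) }
  refine ⟨E, cokernel i, i, cokernel.π i, cokernel.condition i, hSE, hE, hLS, hVqc, fun l => ?_, fun l => ?_⟩
  · obtain ⟨-, -, h3⟩ := sec_exact hSE hM.qc hEqc hVqc (T.aff l)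
    have h4 := (fs_vb S hE).fin l
    exact Module.Finite.of_surjective (embApp (cokernel.π i) (T.U l)) h3
  · obtain ⟨-, h2, h3⟩ := sec_exact hSE hM.qc hEqc hVqc (T.aff l)
    have h4 := (fs_vb S hE).proj l
    obtain ⟨r', hr'⟩ := hret l
    exact emb_proj (embApp i (T.U l)) (embApp (cokernel.π i) (T.U l)) r' hr' h2 h3

end Pool.H33.P

end S_EMB

section S_PAR

/-! # PAR: all line bundles `L a b` are generated by `L 0 0` and `L 2 4`

Write `(a, b)` for `L a b`; classes: `x0, x1 : (1, 0)`, `y : (1, 1)`, `z : (0, 1)`.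
1. Koszul for `y ^ 2`, `z ^ 2`: `0 -> (0,0) -> (2,2) ⊞ (0,2) -> (2,4) -> 0`; hence `(2,2)`, `(0,2)`.
2. Koszul for `x0`, `x1`: `0 -> (a,b) -> (a+1,b) ⊞ (a+1,b) -> (a+2,b) -> 0`; hence `(1,2)` and then all `(a,2)`.
3. Koszul for `y`, `z`: `0 -> (0,0) -> (1,1) ⊞ (0,1) -> (1,2) -> 0`; hence `(1,1)`, `(0,1)`, and by 2. all `(a,1)`.
4. Koszul for `y`, `z`: `0 -> (a,b) -> (a+1,b+1) ⊞ (a,b+1) -> (a+1,b+2) -> 0`: from all `(a,b)`, `(a,b+1)` to all
`(a,b+2)` and from all `(a,b+1)`, `(a,b+2)` to all `(a,b)`. -/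

open CategoryTheory AlgebraicGeometry Limits TopologicalSpace

namespace Pool.H33.P

variable {X : Scheme.{0}} {T : ToricData X} (S : LSys T)

section
variable (Q : ObjectProperty (DerivedCategory X.Modules)) [Q.IsTriangulated]
    [Q.IsStableUnderRetracts]

theorem par_cast {a b a' b' : ℤ} (ha : a = a') (hb : b = b') (h : Q (sg (S.L a b))) :
    Q (sg (S.L a' b')) := by
  subst ha hb; exact h

/-- the Koszul sequence for `x0, x1` -/
theorem par_kx (a b : ℤ) : ∃ (f : S.L a b ⟶ S.L (a + 1) (b + 0) ⊞ S.L (a + 1) (b + 0))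
    (g : S.L (a + 1) (b + 0) ⊞ S.L (a + 1) (b + 0) ⟶ S.L (a + 1 + 1) (b + 0 + 0)) (w : f ≫ g = 0),
    (ShortComplex.mk f g w).ShortExact :=
  koszul S a b 1 0 1 0 T.x0 T.x1 (sec_x0 T) (sec_x1 T) fun l => by
    rcases unit_x T l with h | h
    · left; rw [h]; exact isUnit_one
    · right; rw [h]; exact isUnit_one

/-- the Koszul sequence for `y, z` -/
theorem par_ky (a b : ℤ) : ∃ (f : S.L a b ⟶ S.L (a + 1) (b + 1) ⊞ S.L (a + 0) (b + 1))
    (g : S.L (a + 1) (b + 1) ⊞ S.L (a + 0) (b + 1) ⟶ S.L (a + 1 + 0) (b + 1 + 1)) (w : f ≫ g = 0),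
    (ShortComplex.mk f g w).ShortExact :=
  koszul S a b 1 1 0 1 T.y T.z (sec_y T) (sec_z T) fun l => by
    rcases unit_yz T l with h | h
    · left; rw [h]; exact isUnit_one
    · right; rw [h]; exact isUnit_one

/-- the Koszul sequence for `y ^ 2, z ^ 2` -/
theorem par_kyy (a b : ℤ) : ∃ (f : S.L a b ⟶ S.L (a + 2) (b + 2) ⊞ S.L (a + 0) (b + 2))
    (g : S.L (a + 2) (b + 2) ⊞ S.L (a + 0) (b + 2) ⟶ S.L (a + 2 + 0) (b + 2 + 2)) (w : f ≫ g = 0),
    (ShortComplex.mk f g w).ShortExact := by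
  have hy : IsSec T.U (T.c 2 2) (fun l => T.y l ^ 2) := by
    have := sec_pow T (sec_y T) 2
    simpa using this
  have hz : IsSec T.U (T.c 0 2) (fun l => T.z l ^ 2) := by
    have := sec_pow T (sec_z T) 2
    simpa using this
  exact koszul S a b 2 2 0 2 _ _ hy hz fun l => by
    rcases unit_yz T l with h | h
    · left; simp only [h, one_pow]; exact isUnit_one
    · right; simp only [h, one_pow]; exact isUnit_one

theorem par_up {a b : ℤ} (h0 : Q (sg (S.L a b))) (h1 : Q (sg (S.L (a + 1) b))) :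
    Q (sg (S.L (a + 2) b)) := by
  obtain ⟨f, g, w, h⟩ := par_kx S a b
  have e := q_biprod Q (par_cast S Q rfl (add_zero b).symm h1) (par_cast S Q rfl (add_zero b).symm h1)
  exact par_cast S Q (by ring) (by ring) (ses3 Q h h0 e)

theorem par_down {a b : ℤ} (h1 : Q (sg (S.L (a + 1) b))) (h2 : Q (sg (S.L (a + 2) b))) :
    Q (sg (S.L a b)) := by
  obtain ⟨f, g, w, h⟩ := par_kx S a b
  have e := q_biprod Q (par_cast S Q rfl (add_zero b).symm h1) (par_cast S Q rfl (add_zero b).symm h1)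
  exact ses1 Q h e (par_cast S Q (by ring) (by ring) h2)

/-- two consecutive ones generate all -/
theorem par_row {a b : ℤ} (h0 : Q (sg (S.L a b))) (h1 : Q (sg (S.L (a + 1) b))) (c : ℤ) :
    Q (sg (S.L c b)) := by
  have up : ∀ n : ℕ, Q (sg (S.L (a + n) b)) ∧ Q (sg (S.L (a + n + 1) b)) := by
    intro n
    induction n with
    | zero => exact ⟨par_cast S Q (by simp) rfl h0, par_cast S Q (by simp) rfl h1⟩
    | succ n ih =>
      exact ⟨par_cast S Q (by push_cast; ring) rfl ih.2,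
        par_cast S Q (by push_cast; ring) rfl (par_up S Q ih.1 ih.2)⟩
  have down : ∀ n : ℕ, Q (sg (S.L (a - n) b)) ∧ Q (sg (S.L (a - n + 1) b)) := by
    intro n
    induction n with
    | zero => exact ⟨par_cast S Q (by simp) rfl h0, par_cast S Q (by simp) rfl h1⟩
    | succ n ih =>
      refine ⟨?_, par_cast S Q (by push_cast; ring) rfl ih.1⟩
      apply par_down S Q
      · exact par_cast S Q (by push_cast; ring) rfl ih.1
      · exact par_cast S Q (by push_cast; ring) rfl ih.2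
  rcases le_total a c with h | h
  · obtain ⟨n, hn⟩ := Int.eq_ofNat_of_zero_le (sub_nonneg.2 h)
    exact par_cast S Q (by rw [← hn]; ring) rfl (up n).1
  · obtain ⟨n, hn⟩ := Int.eq_ofNat_of_zero_le (sub_nonneg.2 h)
    exact par_cast S Q (by rw [← hn]; ring) rfl (down n).1

theorem par_rowup {b : ℤ} (h0 : ∀ a, Q (sg (S.L a b))) (h1 : ∀ a, Q (sg (S.L a (b + 1)))) (a : ℤ) :
    Q (sg (S.L a (b + 2))) := by
  obtain ⟨f, g, w, h⟩ := par_ky S (a - 1) b
  have e := q_biprod Q (h1 (a - 1 + 1)) (h1 (a - 1 + 0))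
  exact par_cast S Q (by ring) (by ring) (ses3 Q h (h0 _) e)

theorem par_rowdown {b : ℤ} (h1 : ∀ a, Q (sg (S.L a (b + 1)))) (h2 : ∀ a, Q (sg (S.L a (b + 2))))
    (a : ℤ) : Q (sg (S.L a b)) := by
  obtain ⟨f, g, w, h⟩ := par_ky S a b
  have e := q_biprod Q (h1 (a + 1)) (h1 (a + 0))
  exact ses1 Q h e (par_cast S Q rfl (by ring) (h2 (a + 1 + 0)))

end

theorem all_L (Q : ObjectProperty (DerivedCategory X.Modules)) [Q.IsTriangulated]
    [Q.IsStableUnderRetracts] (h0 : Q (sg (S.L 0 0))) (h1 : Q (sg (S.L 2 4))) (a b : ℤ) :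
    Q (sg (S.L a b)) := by
  -- step 1
  obtain ⟨f, g, w, h⟩ := par_kyy S 0 0
  have e1 := ses2 Q h h0 (par_cast S Q (by norm_num) (by norm_num) h1)
  have h22 : Q (sg (S.L 2 2)) := par_cast S Q (by norm_num) (by norm_num) (q_left Q e1)
  have h02 : Q (sg (S.L 0 2)) := par_cast S Q (by norm_num) (by norm_num) (q_right Q e1)
  -- step 2
  obtain ⟨f2, g2, w2, h2⟩ := par_kx S 0 2
  have e2 := ses2 Q h2 h02 (par_cast S Q (by norm_num) (by norm_num) h22)
  have h12 : Q (sg (S.L 1 2)) := par_cast S Q (by norm_num) (by norm_num) (q_left Q e2)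
  have r2 : ∀ a, Q (sg (S.L a 2)) := par_row S Q h02 (par_cast S Q (by norm_num) rfl h12)
  -- step 3
  obtain ⟨f3, g3, w3, h3⟩ := par_ky S 0 0
  have e3 := ses2 Q h3 h0 (par_cast S Q (by norm_num) (by norm_num) h12)
  have h11 : Q (sg (S.L 1 1)) := par_cast S Q (by norm_num) (by norm_num) (q_left Q e3)
  have h01 : Q (sg (S.L 0 1)) := par_cast S Q (by norm_num) (by norm_num) (q_right Q e3)
  have r1 : ∀ a, Q (sg (S.L a 1)) := par_row S Q h01 (par_cast S Q (by norm_num) rfl h11)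
  -- step 4
  have up : ∀ n : ℕ, (∀ a, Q (sg (S.L a (1 + n)))) ∧ ∀ a, Q (sg (S.L a (1 + n + 1))) := by
    intro n
    induction n with
    | zero => exact ⟨fun a => par_cast S Q rfl (by simp) (r1 a), fun a => par_cast S Q rfl (by norm_num) (r2 a)⟩
    | succ n ih =>
      exact ⟨fun a => par_cast S Q rfl (by push_cast; ring) (ih.2 a),
        fun a => par_cast S Q rfl (by push_cast; ring) (par_rowup S Q ih.1 ih.2 a)⟩
  have down : ∀ n : ℕ, (∀ a, Q (sg (S.L a (1 - n)))) ∧ ∀ a, Q (sg (S.L a (1 - n + 1))) := by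
    intro n
    induction n with
    | zero => exact ⟨fun a => par_cast S Q rfl (by simp) (r1 a), fun a => par_cast S Q rfl (by norm_num) (r2 a)⟩
    | succ n ih =>
      refine ⟨?_, fun a => par_cast S Q rfl (by push_cast; ring) (ih.1 a)⟩
      intro a
      apply par_rowdown S Q
      · exact fun a => par_cast S Q rfl (by push_cast; ring) (ih.1 a)
      · exact fun a => par_cast S Q rfl (by push_cast; ring) (ih.2 a)
  rcases le_total 1 b with hb | hb
  · obtain ⟨n, hn⟩ := Int.eq_ofNat_of_zero_le (sub_nonneg.2 hb)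
    exact par_cast S Q rfl (by rw [← hn]; ring) ((up n).1 a)
  · obtain ⟨n, hn⟩ := Int.eq_ofNat_of_zero_le (sub_nonneg.2 hb)
    exact par_cast S Q rfl (by rw [← hn]; ring) ((down n).1 a)

end Pool.H33.P

end S_PAR
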