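import Mathlib
import Pool.Agent.H33.GP.Def
import Pool.Agent.H33.GP.A1
import Pool.Agent.H33.GP.A2
import Pool.Agent.H33.GP.A3

/-! Two line bundles generate the perfect complexes of the surface F_1, file A5 -/

section S_PRS

/-! # PRS: restriction of complexes and of perfect complexes to smaller opens

`restrictFunctorComp` and `restrictFunctorCongr` (with `X.homOfLE h ≫ U.ι = V.ι`), applied to complexes by
`NatIso.mapHomologicalComplex` or the like, and `Functor.mapDerivedCategoryFactors`. -/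

open CategoryTheory AlgebraicGeometry Limits TopologicalSpace

namespace Pool.H33.P

/-- restriction of complexes to an open subset -/
noncomputable abbrev rc {X : Scheme.{0}} (V : X.Opens) (K : CochainComplex X.Modules ℤ) :
    CochainComplex (V : Scheme.{0}).Modules ℤ :=
  ((Scheme.Modules.restrictFunctor V.ι).mapHomologicalComplex (ComplexShape.up ℤ)).obj K

variable {X : Scheme.{0}}

theorem rd_Q (V : X.Opens) (K : CochainComplex X.Modules ℤ) :
    Nonempty ((Scheme.Modules.restrictFunctor V.ι).mapDerivedCategory.obj (DerivedCategory.Q.obj K) ≅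
      DerivedCategory.Q.obj (rc V K)) :=
  ⟨(Scheme.Modules.restrictFunctor V.ι).mapDerivedCategoryFactors.app K⟩

/-- restriction of free modules (`Scheme.Modules.restrictUnitIso`, the restriction functor preserves
coproducts) -/
theorem free_restrict {Y : Scheme.{0}} (f : Y ⟶ X) [IsOpenImmersion f] (m : ℕ) :
    Nonempty ((Scheme.Modules.restrictFunctor f).obj
        (SheafOfModules.free (R := X.ringCatSheaf) (Fin m) : X.Modules) ≅
      (SheafOfModules.free (R := Y.ringCatSheaf) (Fin m) : Y.Modules)) := by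
  let D : Discrete (Fin m) ⥤ X.Modules :=
    Discrete.functor fun _ => (SheafOfModules.unit X.ringCatSheaf : X.Modules)
  let D' : Discrete (Fin m) ⥤ Y.Modules :=
    Discrete.functor fun _ => (SheafOfModules.unit Y.ringCatSheaf : Y.Modules)
  let c : Cocone D := SheafOfModules.freeCofan (R := X.ringCatSheaf) (Fin m)
  have hc : IsColimit c := SheafOfModules.isColimitFreeCofan (R := X.ringCatSheaf) (Fin m)
  let c' : Cocone D' := SheafOfModules.freeCofan (R := Y.ringCatSheaf) (Fin m)
  have hc' : IsColimit c' := SheafOfModules.isColimitFreeCofan (R := Y.ringCatSheaf) (Fin m)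
  have h1 : IsColimit ((Scheme.Modules.restrictFunctor f).mapCocone c) := isColimitOfPreserves _ hc
  let e : D ⋙ Scheme.Modules.restrictFunctor f ≅ D' :=
    Discrete.natIso fun _ => Scheme.Modules.restrictUnitIso f
  exact ⟨h1.coconePointsIsoOfNatIso hc' e⟩

theorem ff_restrict {Y : Scheme.{0}} (f : Y ⟶ X) [IsOpenImmersion f]
    {K : CochainComplex X.Modules ℤ} (hK : IsFF K) :
    IsFF (((Scheme.Modules.restrictFunctor f).mapHomologicalComplex (ComplexShape.up ℤ)).obj K) := by
  obtain ⟨⟨a, b, ha, hb⟩, h⟩ := hK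
  refine ⟨⟨a, b, ?_, ?_⟩, fun n => ?_⟩
  · rw [CochainComplex.isStrictlyGE_iff] at ha ⊢
    exact fun i hi => Functor.map_isZero (Scheme.Modules.restrictFunctor f) (ha i hi)
  · rw [CochainComplex.isStrictlyLE_iff] at hb ⊢
    exact fun i hi => Functor.map_isZero (Scheme.Modules.restrictFunctor f) (hb i hi)
  · obtain ⟨m, ⟨e⟩⟩ := h n
    obtain ⟨e'⟩ := free_restrict f m
    exact ⟨m, ⟨(Scheme.Modules.restrictFunctor f).mapIso e ≪≫ e'⟩⟩

/-- restriction in two steps, as functors -/
noncomputable def prs_iso {U V : X.Opens} (h : V ≤ U) :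
    Scheme.Modules.restrictFunctor U.ι ⋙ Scheme.Modules.restrictFunctor (X.homOfLE h) ≅
      Scheme.Modules.restrictFunctor V.ι :=
  (Scheme.Modules.restrictFunctorComp (X.homOfLE h) U.ι).symm ≪≫
    Scheme.Modules.restrictFunctorCongr (X.homOfLE_ι h)

/-- restriction in two steps -/
theorem rc_rc {U V : X.Opens} (h : V ≤ U) (K : CochainComplex X.Modules ℤ) :
    Nonempty (((Scheme.Modules.restrictFunctor (X.homOfLE h)).mapHomologicalComplex
      (ComplexShape.up ℤ)).obj (rc U K) ≅ rc V K) :=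
  ⟨(Functor.mapHomologicalComplexCompIso (prs_iso h) (ComplexShape.up ℤ)).app K⟩

theorem perfectAt_mono {U V : X.Opens} (h : V ≤ U) (P : DerivedCategory X.Modules)
    (K : CochainComplex (U : Scheme.{0}).Modules ℤ) (hK : IsFF K)
    (e : Nonempty ((Scheme.Modules.restrictFunctor U.ι).mapDerivedCategory.obj P ≅
      DerivedCategory.Q.obj K)) :
    ∃ K' : CochainComplex (V : Scheme.{0}).Modules ℤ, IsFF K' ∧
      Nonempty ((Scheme.Modules.restrictFunctor V.ι).mapDerivedCategory.obj P ≅
        DerivedCategory.Q.obj K') := by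
  obtain ⟨e⟩ := e
  refine ⟨_, ff_restrict (X.homOfLE h) hK, ?_⟩
  let K0 : CochainComplex X.Modules ℤ := DerivedCategory.Q.objPreimage P
  let e0 : DerivedCategory.Q.obj K0 ≅ P := DerivedCategory.Q.objObjPreimageIso P
  obtain ⟨e1⟩ := rc_rc h K0
  let R := Scheme.Modules.restrictFunctor (X.homOfLE h)
  have e2 : DerivedCategory.Q.obj ((R.mapHomologicalComplex (ComplexShape.up ℤ)).obj (rc U K0)) ≅
      R.mapDerivedCategory.obj ((Scheme.Modules.restrictFunctor U.ι).mapDerivedCategory.obj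
        (DerivedCategory.Q.obj K0)) :=
    (R.mapDerivedCategoryFactors.app (rc U K0)).symm ≪≫
      R.mapDerivedCategory.mapIso
        ((Scheme.Modules.restrictFunctor U.ι).mapDerivedCategoryFactors.app K0).symm
  exact ⟨(Scheme.Modules.restrictFunctor V.ι).mapDerivedCategory.mapIso e0.symm ≪≫
    (Scheme.Modules.restrictFunctor V.ι).mapDerivedCategoryFactors.app K0 ≪≫
    DerivedCategory.Q.mapIso e1.symm ≪≫ e2 ≪≫
    R.mapDerivedCategory.mapIso
      ((Scheme.Modules.restrictFunctor U.ι).mapDerivedCategory.mapIso e0 ≪≫ e) ≪≫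
    R.mapDerivedCategoryFactors.app K⟩

end Pool.H33.P

end S_PRS

section S_PTR1

/-! # PTR1: maps from a bounded complex of finite free modules to an acyclic complex are locally null-homotopic

`K` lives in degrees `a, ..., b`.  Construct the homotopy `h n : K n ⟶ C (n - 1)` by descending induction on `n` from
`h (b+1) = 0`, shrinking the neighbourhood of `x` at each step: on the current neighbourhood
`f n - d ≫ h (n+1) : K n ⟶ C n` (composition order of Mathlib) followed by `d` is zero, so it factors through the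
cycles, which are the image of `C (n-1)` (exactness; restriction is exact), and `lift_free_local` applies. -/

open CategoryTheory AlgebraicGeometry Limits TopologicalSpace

namespace Pool.H33.P

/-- homotopies to zero under additive functors -/
noncomputable def PTR1_mapH {C D : Type*} [Category* C] [Category* D] [Preadditive C] [Preadditive D]
    (F : C ⥤ D) [F.Additive] {K L : CochainComplex C ℤ} {f : K ⟶ L} (h : Homotopy f 0) :
    Homotopy ((F.mapHomologicalComplex (ComplexShape.up ℤ)).map f) 0 :=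
  (F.mapHomotopy h).trans (Homotopy.ofEq (Functor.map_zero _ _ _))

noncomputable def PTR1_isoH {C D : Type*} [Category* C] [Category* D] [Preadditive C] [Preadditive D]
    (F G : C ⥤ D) [F.Additive] [G.Additive] (α : F ≅ G) {K L : CochainComplex C ℤ} {f : K ⟶ L}
    (h : Homotopy ((F.mapHomologicalComplex (ComplexShape.up ℤ)).map f) 0) :
    Homotopy ((G.mapHomologicalComplex (ComplexShape.up ℤ)).map f) 0 := by
  let β := NatIso.mapHomologicalComplex α (ComplexShape.up ℤ)
  have h1 : (G.mapHomologicalComplex (ComplexShape.up ℤ)).map f =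
      β.inv.app K ≫ (F.mapHomologicalComplex (ComplexShape.up ℤ)).map f ≫ β.hom.app L := by
    rw [β.hom.naturality, Iso.inv_hom_id_app_assoc]
  refine (Homotopy.ofEq h1).trans ?_
  refine ((h.compRight (β.hom.app L)).compLeft (β.inv.app K)).trans (Homotopy.ofEq ?_)
  rw [zero_comp, comp_zero]

theorem PTR1_transfer {X : Scheme.{0}} (W : X.Opens) (U : (W : Scheme.{0}).Opens)
    {K C : CochainComplex X.Modules ℤ} (f : K ⟶ C)
    (h : Nonempty (Homotopy (((Scheme.Modules.restrictFunctor U.ι).mapHomologicalComplex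
      (ComplexShape.up ℤ)).map (((Scheme.Modules.restrictFunctor W.ι).mapHomologicalComplex
        (ComplexShape.up ℤ)).map f)) 0)) :
    Nonempty (Homotopy (((Scheme.Modules.restrictFunctor (W.ι ''ᵁ U).ι).mapHomologicalComplex
      (ComplexShape.up ℤ)).map f) 0) := by
  obtain ⟨h⟩ := h
  let F : X.Modules ⥤ (U : Scheme.{0}).Modules :=
    Scheme.Modules.restrictFunctor W.ι ⋙ Scheme.Modules.restrictFunctor U.ι
  let e := W.ι.isoImage U
  have h1 : Homotopy ((F.mapHomologicalComplex (ComplexShape.up ℤ)).map f) 0 := h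
  have h2 := PTR1_mapH (Scheme.Modules.restrictFunctor e.inv) h1
  let G : X.Modules ⥤ ((W.ι ''ᵁ U : X.Opens) : Scheme.{0}).Modules :=
    F ⋙ Scheme.Modules.restrictFunctor e.inv
  have h3 : Homotopy ((G.mapHomologicalComplex (ComplexShape.up ℤ)).map f) 0 := h2
  have he : e.inv ≫ U.ι ≫ W.ι = (W.ι ''ᵁ U).ι := W.ι.isoImage_inv_ι U
  let α : G ≅ Scheme.Modules.restrictFunctor (W.ι ''ᵁ U).ι :=
    Functor.isoWhiskerRight (Scheme.Modules.restrictFunctorComp U.ι W.ι).symm
      (Scheme.Modules.restrictFunctor e.inv) ≪≫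
    (Scheme.Modules.restrictFunctorComp e.inv (U.ι ≫ W.ι)).symm ≪≫
      Scheme.Modules.restrictFunctorCongr he
  exact ⟨PTR1_isoH G _ α h3⟩

theorem PTR1_exact {C D : Type*} [Category* C] [Category* D] [Abelian C] [Abelian D]
    (F : C ⥤ D) [F.Additive] [PreservesFiniteLimits F] [PreservesFiniteColimits F]
    (K : CochainComplex C ℤ) (hK : ∀ i, K.ExactAt i) (i : ℤ) :
    ((F.mapHomologicalComplex (ComplexShape.up ℤ)).obj K).ExactAt i := by
  have h := hK i
  rw [HomologicalComplex.exactAt_iff' _ (i - 1) i (i + 1) (by simp) (by simp)] at h ⊢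
  exact h.map F

theorem PTR1_lift {X : Scheme.{0}} (x : X) (A B Z : X.Modules)
    (hA : ∃ m : ℕ, Nonempty (A ≅ (SheafOfModules.free (R := X.ringCatSheaf) (Fin m) : X.Modules)))
    (g : B ⟶ Z) [Epi g] (l : A ⟶ Z) :
    ∃ W : X.Opens, x ∈ W ∧ ∃ t : (Scheme.Modules.restrictFunctor W.ι).obj A ⟶
      (Scheme.Modules.restrictFunctor W.ι).obj B,
      t ≫ (Scheme.Modules.restrictFunctor W.ι).map g =
        (Scheme.Modules.restrictFunctor W.ι).map l := by
  obtain ⟨m, ⟨φ⟩⟩ := hA
  obtain ⟨W, t, hxW, ht⟩ := lift_free_local g m (φ.inv ≫ l) x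
  refine ⟨W, hxW, (Scheme.Modules.restrictFunctor W.ι).map φ.hom ≫ t, ?_⟩
  have e1 := Category.assoc ((Scheme.Modules.restrictFunctor W.ι).map φ.hom) t
    ((Scheme.Modules.restrictFunctor W.ι).map g)
  have e2 := congrArg (fun z => (Scheme.Modules.restrictFunctor W.ι).map φ.hom ≫ z) ht
  have e3 := ((Scheme.Modules.restrictFunctor W.ι).map_comp φ.hom (φ.inv ≫ l)).symm
  have e4 := congrArg (Scheme.Modules.restrictFunctor W.ι).map (Iso.hom_inv_id_assoc φ l)
  exact e1.trans (e2.trans (e3.trans e4))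

noncomputable def PTR1_upd {D : Type*} [Category* D] (A B : ℤ → D) (h : ∀ a b, A a ⟶ B b)
    (j k : ℤ) (t : A j ⟶ B k) : ∀ a b, A a ⟶ B b := fun a b =>
  if hab : a = j ∧ b = k then eqToHom (by rw [hab.1]) ≫ t ≫ eqToHom (by rw [hab.2]) else h a b

theorem PTR1_upd_same {D : Type*} [Category* D] (A B : ℤ → D) (h : ∀ a b, A a ⟶ B b)
    (j k : ℤ) (t : A j ⟶ B k) : PTR1_upd A B h j k t j k = t := by
  unfold PTR1_upd
  rw [dif_pos ⟨rfl, rfl⟩]
  simp

theorem PTR1_upd_ne {D : Type*} [Category* D] (A B : ℤ → D) (h : ∀ a b, A a ⟶ B b)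
    (j k : ℤ) (t : A j ⟶ B k) (a b : ℤ) (hab : a ≠ j) : PTR1_upd A B h j k t a b = h a b := by
  unfold PTR1_upd
  rw [dif_neg (fun h => hab h.1)]

/-- the step, in general -/
theorem PTR1_step0 {C D : Type*} [Category* C] [Category* D] [Abelian C] [Abelian D]
    (R : C ⥤ D) [R.Additive] (K L : CochainComplex C ℤ) (f : K ⟶ L) (j : ℤ)
    (h : ∀ a b, K.X a ⟶ L.X b)
    (heq : ∀ n n' n'', n' + 1 = n → n + 1 = n'' → j < n →
      f.f n = K.d n n'' ≫ h n'' n + h n n' ≫ L.d n' n)
    (t : R.obj (K.X j) ⟶ R.obj (L.X (j - 1)))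
    (ht : t ≫ R.map (L.d (j - 1) j) = R.map (f.f j - K.d j (j + 1) ≫ h (j + 1) j)) :
    ∃ h' : ∀ a b, R.obj (K.X a) ⟶ R.obj (L.X b),
      ∀ n n' n'', n' + 1 = n → n + 1 = n'' → j ≤ n →
        R.map (f.f n) = R.map (K.d n n'') ≫ h' n'' n + h' n n' ≫ R.map (L.d n' n) := by
  refine ⟨PTR1_upd (fun a => R.obj (K.X a)) (fun b => R.obj (L.X b)) (fun a b => R.map (h a b))
    j (j - 1) t, ?_⟩
  intro n n' n'' h1 h2 h3
  rcases eq_or_lt_of_le h3 with h4 | h4
  · subst h4
    obtain rfl : n' = j - 1 := by linarith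
    subst h2
    rw [PTR1_upd_ne _ _ _ _ _ _ _ _ (by linarith), PTR1_upd_same, ht, ← R.map_comp, ← R.map_add]
    congr 1
    abel
  · rw [PTR1_upd_ne _ _ _ _ _ _ _ _ (by linarith), PTR1_upd_ne _ _ _ _ _ _ _ _ (by linarith),
      ← R.map_comp, ← R.map_comp, ← R.map_add, heq n n' n'' h1 h2 h4]

theorem PTR1_gen {C D : Type*} [Category* C] [Category* D] (R : C ⥤ D) {A B Z Y : C}
    (t : R.obj A ⟶ R.obj B) (g : B ⟶ Z) (i : Z ⟶ Y) (l : A ⟶ Z) (d : B ⟶ Y) (k : A ⟶ Y)
    (ht : t ≫ R.map g = R.map l) (hd : g ≫ i = d) (hk : l ≫ i = k) :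
    t ≫ R.map d = R.map k := by
  rw [← hd, ← hk, R.map_comp, R.map_comp, reassoc_of% ht]

/-- the step -/
theorem PTR1_step {X : Scheme.{0}} (x : X) (K C : CochainComplex X.Modules ℤ) (hK : IsFF K)
    (hC : ∀ i, C.ExactAt i) (f : K ⟶ C) (j : ℤ) (h : ∀ a b, K.X a ⟶ C.X b)
    (heq : ∀ n n' n'', n' + 1 = n → n + 1 = n'' → j < n →
      f.f n = K.d n n'' ≫ h n'' n + h n n' ≫ C.d n' n) :
    ∃ W : X.Opens, x ∈ W ∧ ∃ h' : ∀ a b, (rc W K).X a ⟶ (rc W C).X b,
      ∀ n n' n'', n' + 1 = n → n + 1 = n'' → j ≤ n →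
        (((Scheme.Modules.restrictFunctor W.ι).mapHomologicalComplex
          (ComplexShape.up ℤ)).map f).f n =
          (rc W K).d n n'' ≫ h' n'' n + h' n n' ≫ (rc W C).d n' n := by
  have hg : (f.f j - K.d j (j + 1) ≫ h (j + 1) j) ≫ C.d j (j + 1) = 0 := by
    have h1 := heq (j + 1) j (j + 2) rfl (by ring) (by linarith)
    rw [Preadditive.sub_comp, f.comm, h1, Category.assoc, Preadditive.comp_add,
      K.d_comp_d_assoc, zero_comp, zero_add, sub_self]
  have hex := hC j
  rw [HomologicalComplex.exactAt_iff' _ (j - 1) j (j + 1) (by simp) (by simp)] at hex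
  have hepi : Epi (C.sc' (j - 1) j (j + 1)).toCycles := hex.epi_toCycles
  have hl := (C.sc' (j - 1) j (j + 1)).liftCycles_i _ hg
  obtain ⟨W, hxW, t, ht⟩ := PTR1_lift x _ _ _ (hK.2 j) (C.sc' (j - 1) j (j + 1)).toCycles
    ((C.sc' (j - 1) j (j + 1)).liftCycles _ hg)
  refine ⟨W, hxW, ?_⟩
  refine PTR1_step0 (Scheme.Modules.restrictFunctor W.ι) K C f j h heq t ?_
  exact PTR1_gen (Scheme.Modules.restrictFunctor W.ι) t _ _ _ _ _ ht
    (C.sc' (j - 1) j (j + 1)).toCycles_i hl

theorem PTR1_claim (N : ℕ) : ∀ {X : Scheme.{0}} (x : X) (K C : CochainComplex X.Modules ℤ)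
    (_ : IsFF K) (_ : ∀ i, C.ExactAt i) (f : K ⟶ C) (j : ℤ) (_ : ∀ n, n < j - N → IsZero (K.X n))
    (h : ∀ a b, K.X a ⟶ C.X b)
    (_ : ∀ n n' n'', n' + 1 = n → n + 1 = n'' → j ≤ n →
      f.f n = K.d n n'' ≫ h n'' n + h n n' ≫ C.d n' n),
    ∃ U : X.Opens, x ∈ U ∧ Nonempty (Homotopy
      (((Scheme.Modules.restrictFunctor U.ι).mapHomologicalComplex (ComplexShape.up ℤ)).map f)
      (0 : rc U K ⟶ rc U C)) := by
  induction N with
  | zero =>
    intro X x K C hK hC f j hj h heq
    refine ⟨⊤, trivial, ⟨PTR1_mapH _ ?_⟩⟩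
    refine { hom := fun a b => if b + 1 = a then h a b else 0, zero := ?_, comm := ?_ }
    · intro a b hab
      exact if_neg hab
    · intro n
      rw [dNext_eq _ (show (ComplexShape.up ℤ).Rel n (n + 1) from rfl),
        prevD_eq _ (show (ComplexShape.up ℤ).Rel (n - 1) n from by simp)]
      rw [if_pos rfl, if_pos (by ring), HomologicalComplex.zero_f, add_zero]
      by_cases hn : j ≤ n
      · exact heq n (n - 1) (n + 1) (by ring) rfl hn
      · exact (hj n (by simpa using hn)).eq_of_src _ _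
  | succ N ih =>
    intro X x K C hK hC f j hj h heq
    obtain ⟨W, hxW, h', heq'⟩ := PTR1_step x K C hK hC f (j - 1) h
      (fun n n' n'' h1 h2 h3 => heq n n' n'' h1 h2 (by linarith))
    have hKW : IsFF (rc W K) := ff_restrict W.ι hK
    have hCW : ∀ i, (rc W C).ExactAt i := fun i => PTR1_exact _ C hC i
    obtain ⟨U, hxU, hU⟩ := ih (⟨x, hxW⟩ : W) (rc W K) (rc W C) hKW hCW
      (((Scheme.Modules.restrictFunctor W.ι).mapHomologicalComplex (ComplexShape.up ℤ)).map f)
      (j - 1) (fun n hn => ((Scheme.Modules.restrictFunctor W.ι).map_isZero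
        (hj n (by push_cast; linarith)))) h' heq'
    refine ⟨W.ι ''ᵁ U, ⟨⟨x, hxW⟩, hxU, rfl⟩, PTR1_transfer W U f hU⟩

theorem local_homotopy {X : Scheme.{0}} (x : X) (K C : CochainComplex X.Modules ℤ) (hK : IsFF K)
    (hC : ∀ i, C.ExactAt i) (f : K ⟶ C) :
    ∃ U : X.Opens, x ∈ U ∧ Nonempty (Homotopy
      (((Scheme.Modules.restrictFunctor U.ι).mapHomologicalComplex (ComplexShape.up ℤ)).map f)
      (0 : rc U K ⟶ rc U C)) := by
  obtain ⟨a, b, ha, hb⟩ := hK.1
  refine PTR1_claim (b + 1 - a).toNat x K C hK hC f (b + 1) ?_ (fun _ _ => 0) ?_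
  · intro n hn
    apply K.isZero_of_isStrictlyGE a n
  · intro n n' n'' h1 h2 h3
    apply IsZero.eq_of_src
    apply K.isZero_of_isStrictlyLE b n

end Pool.H33.P

end S_PTR1

section S_PTR2

/-! # PTR2: perfect complexes form a triangulated subcategory of `D(X)`

Zero, shifts, isomorphisms are easy (restriction commutes with shifts; the shift of a bounded complex of finite free
modules is such).  Cones: near `x` (use `perfectAt_mono`) the two objects are `Q.obj K`, `Q.obj L`.
`exists_chain_map`: write the morphism as a fraction (`DerivedCategory.right_fac`): `s : M ⟶ K` a quasi-isomorphism,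
`g : M ⟶ L`.  The canonical map `K ⟶ mappingCone s` goes to an acyclic complex, so is null-homotopic near `x`
(`local_homotopy`); hence there is near `x` a chain map `t : K ⟶ M` with `t ≫ s` homotopic to the identity (homotopy
category is pretriangulated), and `f = Q.map (t ≫ g)` near `x`.  Then the third object is, near `x`, the mapping cone
of a map of bounded complexes of finite free modules, again such a complex (degreewise a biproduct). -/

open CategoryTheory AlgebraicGeometry Limits TopologicalSpace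

namespace Pool.H33.P

/-- the mapping cone of a quasi-isomorphism is exact -/
theorem ptr2_cone_exact {C : Type*} [Category C] [Abelian C] [HasDerivedCategory C]
    {M K : CochainComplex C ℤ} (s : M ⟶ K) (hs : IsIso (DerivedCategory.Q.map s)) (i : ℤ) :
    (CochainComplex.mappingCone s).ExactAt i := by
  have h1 : QuasiIso s := (DerivedCategory.isIso_Q_map_iff_quasiIso (C := C) s).1 hs
  have h2 : (HomotopyCategory.subcategoryAcyclic C).trW ((HomotopyCategory.quotient C (ComplexShape.up ℤ)).map s) := by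
    rw [← HomotopyCategory.quasiIso_eq_trW_subcategoryAcyclic, HomotopyCategory.quotient_map_mem_quasiIso_iff]
    exact h1
  have h3 := (ObjectProperty.trW_iff_of_distinguished (HomotopyCategory.subcategoryAcyclic C) _
    (HomotopyCategory.mappingCone_triangleh_distinguished s)).1 h2
  exact (HomotopyCategory.quotient_obj_mem_subcategoryAcyclic_iff_exactAt (CochainComplex.mappingCone s)).1 h3 i

/-- a section up to homotopy when the cone is contractible after an additive functor -/
theorem ptr2_section {C D : Type*} [Category C] [Abelian C] [Category D] [Abelian D] [HasDerivedCategory D]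
    (F : C ⥤ D) [F.Additive] {M K : CochainComplex C ℤ} (s : M ⟶ K)
    (h : Nonempty (Homotopy ((F.mapHomologicalComplex (ComplexShape.up ℤ)).map (CochainComplex.mappingCone.inr s)) 0)) :
    ∃ t : (F.mapHomologicalComplex (ComplexShape.up ℤ)).obj K ⟶ (F.mapHomologicalComplex (ComplexShape.up ℤ)).obj M,
      DerivedCategory.Q.map t ≫ DerivedCategory.Q.map ((F.mapHomologicalComplex (ComplexShape.up ℤ)).map s) = 𝟙 _ := by
  obtain ⟨h⟩ := h
  set s' := (F.mapHomologicalComplex (ComplexShape.up ℤ)).map s with hs'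
  have h1 : (HomotopyCategory.quotient D (ComplexShape.up ℤ)).map (CochainComplex.mappingCone.inr s') = 0 := by
    rw [← CochainComplex.mappingCone.map_inr s F, Functor.map_comp, HomotopyCategory.eq_of_homotopy _ _ h,
      Functor.map_zero, zero_comp]
  have h0 : 𝟙 ((HomotopyCategory.quotient D (ComplexShape.up ℤ)).obj ((F.mapHomologicalComplex (ComplexShape.up ℤ)).obj K)) ≫
      (HomotopyCategory.quotient D (ComplexShape.up ℤ)).map (CochainComplex.mappingCone.inr s') = 0 := by
    rw [h1, comp_zero]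
  obtain ⟨g, hg⟩ : ∃ g : (HomotopyCategory.quotient D (ComplexShape.up ℤ)).obj ((F.mapHomologicalComplex (ComplexShape.up ℤ)).obj K) ⟶
      (HomotopyCategory.quotient D (ComplexShape.up ℤ)).obj ((F.mapHomologicalComplex (ComplexShape.up ℤ)).obj M),
      𝟙 _ = g ≫ (HomotopyCategory.quotient D (ComplexShape.up ℤ)).map s' :=
    Pretriangulated.Triangle.coyoneda_exact₂ (CochainComplex.mappingCone.triangleh s')
    (HomotopyCategory.mappingCone_triangleh_distinguished s')
    (𝟙 ((HomotopyCategory.quotient D (ComplexShape.up ℤ)).obj ((F.mapHomologicalComplex (ComplexShape.up ℤ)).obj K))) h0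
  obtain ⟨t, ht⟩ := (HomotopyCategory.quotient D (ComplexShape.up ℤ)).map_surjective g
  refine ⟨t, ?_⟩
  have h2 : (HomotopyCategory.quotient D (ComplexShape.up ℤ)).map (t ≫ s') = (HomotopyCategory.quotient D (ComplexShape.up ℤ)).map (𝟙 _) := by
    rw [Functor.map_comp, ht, CategoryTheory.Functor.map_id]
    exact hg.symm
  have h3 := HomotopyCategory.homotopyOfEq _ _ h2
  rw [← Functor.map_comp, DerivedCategory.Q_map_eq_of_homotopy _ h3, CategoryTheory.Functor.map_id]

theorem exists_chain_map {X : Scheme.{0}} (x : X) (K L : CochainComplex X.Modules ℤ) (hK : IsFF K)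
    (f : DerivedCategory.Q.obj K ⟶ DerivedCategory.Q.obj L) :
    ∃ (U : X.Opens) (g : rc U K ⟶ rc U L), x ∈ U ∧
      (Scheme.Modules.restrictFunctor U.ι).mapDerivedCategory.map f =
        (Scheme.Modules.restrictFunctor U.ι).mapDerivedCategoryFactors.hom.app K ≫
          DerivedCategory.Q.map g ≫
          (Scheme.Modules.restrictFunctor U.ι).mapDerivedCategoryFactors.inv.app L := by
  obtain ⟨M, s, hs, g, rfl⟩ := DerivedCategory.right_fac f
  obtain ⟨U, hx, hH⟩ := local_homotopy x K (CochainComplex.mappingCone s) hK (ptr2_cone_exact s hs)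
    (CochainComplex.mappingCone.inr s)
  obtain ⟨t, ht⟩ := ptr2_section (Scheme.Modules.restrictFunctor U.ι) s hH
  refine ⟨U, t ≫ ((Scheme.Modules.restrictFunctor U.ι).mapHomologicalComplex (ComplexShape.up ℤ)).map g, hx, ?_⟩
  set F := Scheme.Modules.restrictFunctor U.ι with hF
  have n1 := F.mapDerivedCategoryFactors_hom_naturality s
  have n2 := F.mapDerivedCategoryFactors_hom_naturality g
  have hi : IsIso (DerivedCategory.Q.map ((F.mapHomologicalComplex (ComplexShape.up ℤ)).map s)) := by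
    have : DerivedCategory.Q.map ((F.mapHomologicalComplex (ComplexShape.up ℤ)).map s) =
        F.mapDerivedCategoryFactors.inv.app M ≫ F.mapDerivedCategory.map (DerivedCategory.Q.map s) ≫
          F.mapDerivedCategoryFactors.hom.app K := by
      rw [n1]
      simp
    rw [this]
    infer_instance
  rw [Functor.map_comp, Functor.map_inv]
  rw [IsIso.inv_comp_eq]
  have e1 : F.mapDerivedCategory.map (DerivedCategory.Q.map g) = F.mapDerivedCategoryFactors.hom.app M ≫
      DerivedCategory.Q.map ((F.mapHomologicalComplex (ComplexShape.up ℤ)).map g) ≫ F.mapDerivedCategoryFactors.inv.app L := by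
    rw [← Category.assoc, ← n2, Category.assoc, Iso.hom_inv_id_app]
    erw [Category.comp_id]
  have e2 : DerivedCategory.Q.map ((F.mapHomologicalComplex (ComplexShape.up ℤ)).map s) ≫ DerivedCategory.Q.map t = 𝟙 _ := by
    rw [← cancel_mono (DerivedCategory.Q.map ((F.mapHomologicalComplex (ComplexShape.up ℤ)).map s)), Category.assoc, ht]
    erw [Category.comp_id]
  rw [e1, Functor.map_comp, ← Category.assoc (F.mapDerivedCategory.map (DerivedCategory.Q.map s)), n1, Category.assoc,
    Category.assoc, ← Category.assoc (DerivedCategory.Q.map ((F.mapHomologicalComplex (ComplexShape.up ℤ)).map s)), e2,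
    Category.id_comp]


noncomputable def ptr2_e {X : Scheme.{0}} (m m' : ℕ) :
    ((SheafOfModules.free (R := X.ringCatSheaf) (Fin m)) ⊞ (SheafOfModules.free (R := X.ringCatSheaf) (Fin m'))) ≅
      (SheafOfModules.free (R := X.ringCatSheaf) (Fin (m + m'))) :=
  biprod.isoCoprod _ _ ≪≫ SheafOfModules.freeSumIso _ _ ≪≫
    (SheafOfModules.freeFunctor (R := X.ringCatSheaf)).mapIso (finSumFinEquiv (m := m) (n := m')).toIso

theorem ptr2_free_biprod {X : Scheme.{0}} (m m' : ℕ) : Nonempty
    (((SheafOfModules.free (R := X.ringCatSheaf) (Fin m) : X.Modules) ⊞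
      (SheafOfModules.free (R := X.ringCatSheaf) (Fin m') : X.Modules)) ≅
      (SheafOfModules.free (R := X.ringCatSheaf) (Fin (m + m')) : X.Modules)) :=
  ⟨ptr2_e m m'⟩

theorem ptr2_free_zero {X : Scheme.{0}} : IsZero (SheafOfModules.free (R := X.ringCatSheaf) (Fin 0) : X.Modules) := by
  have h : IsZero (SheafOfModules.free (R := X.ringCatSheaf) (Fin 0)) := by
    rw [IsZero.iff_id_eq_zero]
    exact Cofan.IsColimit.hom_ext (SheafOfModules.isColimitFreeCofan (Fin 0)) _ _ (fun i => i.elim0)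
  exact h

theorem ff_cone {X : Scheme.{0}} {K L : CochainComplex X.Modules ℤ} (hK : IsFF K) (hL : IsFF L)
    (g : K ⟶ L) : IsFF (CochainComplex.mappingCone g) := by
  obtain ⟨⟨a, b, ha, hb⟩, hK⟩ := hK
  obtain ⟨⟨a', b', ha', hb'⟩, hL⟩ := hL
  refine ⟨⟨min (a - 1) a', max b b', ?_, ?_⟩, fun n => ?_⟩
  · rw [CochainComplex.isStrictlyGE_iff]
    intro i hi
    rw [CochainComplex.mappingCone.isZero_X_iff]
    exact ⟨K.isZero_of_isStrictlyGE a _, L.isZero_of_isStrictlyGE a' _⟩
  · rw [CochainComplex.isStrictlyLE_iff]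
    intro i hi
    rw [CochainComplex.mappingCone.isZero_X_iff]
    exact ⟨K.isZero_of_isStrictlyLE b _, L.isZero_of_isStrictlyLE b' _⟩
  · obtain ⟨m, ⟨e⟩⟩ := hK (n + 1)
    obtain ⟨m', ⟨e'⟩⟩ := hL n
    obtain ⟨e''⟩ := ptr2_free_biprod (X := X) m m'
    exact ⟨m + m', ⟨HomologicalComplex.homotopyCofiber.XIsoBiprod g n (n + 1) rfl ≪≫ biprod.mapIso e e' ≪≫ e''⟩⟩

theorem perfect_iso (X : Scheme.{0}) : (IsPerfect X).IsClosedUnderIsomorphisms where
  of_iso := by
    intro P P' e h x
    obtain ⟨U, hx, K, hK, ⟨e'⟩⟩ := h x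
    exact ⟨U, hx, K, hK, ⟨(Scheme.Modules.restrictFunctor U.ι).mapDerivedCategory.mapIso e.symm ≪≫ e'⟩⟩

open scoped ZeroObject in
/-- the zero complex -/
theorem ptr2_ff_zero (X : Scheme.{0}) : IsFF (0 : CochainComplex X.Modules ℤ) := by
  have h0 : ∀ n, IsZero ((0 : CochainComplex X.Modules ℤ).X n) := fun n =>
    (HomologicalComplex.eval X.Modules (ComplexShape.up ℤ) n).map_isZero (isZero_zero _)
  refine ⟨⟨0, 0, ?_, ?_⟩, fun n => ⟨0, ⟨(h0 n).iso ptr2_free_zero⟩⟩⟩
  · rw [CochainComplex.isStrictlyGE_iff]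
    intro i _
    exact h0 i
  · rw [CochainComplex.isStrictlyLE_iff]
    intro i _
    exact h0 i

theorem ptr2_ff_shift {X : Scheme.{0}} {K : CochainComplex X.Modules ℤ} (hK : IsFF K) (a : ℤ) : IsFF (K⟦a⟧) := by
  obtain ⟨⟨c, d, hc, hd⟩, hK⟩ := hK
  exact ⟨⟨c - a, d - a, K.isStrictlyGE_shift c a _ (by ring), K.isStrictlyLE_shift d a _ (by ring)⟩,
    fun n => hK (n + a)⟩

/-- composition of exact functors on derived categories, on objects -/
theorem ptr2_comp {A B C : Type*} [Category A] [Abelian A] [HasDerivedCategory A] [Category B] [Abelian B]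
    [HasDerivedCategory B] [Category C] [Abelian C] [HasDerivedCategory C]
    (F : A ⥤ B) [F.Additive] [PreservesFiniteLimits F] [PreservesFiniteColimits F]
    (G : B ⥤ C) [G.Additive] [PreservesFiniteLimits G] [PreservesFiniteColimits G]
    (H : A ⥤ C) [H.Additive] [PreservesFiniteLimits H] [PreservesFiniteColimits H]
    (α : H ≅ F ⋙ G) (P : DerivedCategory A) :
    Nonempty (H.mapDerivedCategory.obj P ≅ G.mapDerivedCategory.obj (F.mapDerivedCategory.obj P)) := by
  let M := DerivedCategory.Q.objPreimage P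
  let e : DerivedCategory.Q.obj M ≅ P := DerivedCategory.Q.objObjPreimageIso P
  let i0 : (H.mapHomologicalComplex (ComplexShape.up ℤ)).obj M ≅
      (G.mapHomologicalComplex (ComplexShape.up ℤ)).obj ((F.mapHomologicalComplex (ComplexShape.up ℤ)).obj M) :=
    HomologicalComplex.Hom.isoOfComponents (fun i => α.app (M.X i)) (fun i j _ => (α.hom.naturality (M.d i j)).symm)
  exact ⟨H.mapDerivedCategory.mapIso e.symm ≪≫ H.mapDerivedCategoryFactors.app M ≪≫ DerivedCategory.Q.mapIso i0 ≪≫
    (G.mapDerivedCategoryFactors.app _).symm ≪≫ G.mapDerivedCategory.mapIso ((F.mapDerivedCategoryFactors.app M).symm ≪≫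
      F.mapDerivedCategory.mapIso e)⟩

/-- perfectness can be tested with open immersions -/
theorem ptr2_imm {X Y : Scheme.{0}} (j : Y ⟶ X) [IsOpenImmersion j] (x : X) (hx : x ∈ j.opensRange)
    (P : DerivedCategory X.Modules) (K : CochainComplex Y.Modules ℤ) (hK : IsFF K)
    (e : Nonempty ((Scheme.Modules.restrictFunctor j).mapDerivedCategory.obj P ≅ DerivedCategory.Q.obj K)) :
    ∃ U : X.Opens, x ∈ U ∧ ∃ K : CochainComplex (U : Scheme.{0}).Modules ℤ, IsFF K ∧
    Nonempty ((Scheme.Modules.restrictFunctor U.ι).mapDerivedCategory.obj P ≅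
      DerivedCategory.Q.obj K) := by
  obtain ⟨e⟩ := e
  have h1 : j.opensRange.ι = j.isoOpensRange.inv ≫ j := (Scheme.Hom.isoOpensRange_inv_comp j).symm
  obtain ⟨e2⟩ := ptr2_comp (Scheme.Modules.restrictFunctor j) (Scheme.Modules.restrictFunctor j.isoOpensRange.inv)
    (Scheme.Modules.restrictFunctor j.opensRange.ι)
    (Scheme.Modules.restrictFunctorCongr h1 ≪≫ Scheme.Modules.restrictFunctorComp _ _) P
  exact ⟨j.opensRange, hx, _, ff_restrict j.isoOpensRange.inv hK,
    ⟨e2 ≪≫ (Scheme.Modules.restrictFunctor j.isoOpensRange.inv).mapDerivedCategory.mapIso e ≪≫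
      (Scheme.Modules.restrictFunctor j.isoOpensRange.inv).mapDerivedCategoryFactors.app K⟩⟩

open scoped ZeroObject in
/-- the zero object is perfect -/
theorem ptr2_zero (X : Scheme.{0}) : IsPerfect X (0 : DerivedCategory X.Modules) := by
  intro x
  refine ⟨⊤, trivial, 0, ptr2_ff_zero _, ⟨?_⟩⟩
  exact (Functor.map_isZero _ (isZero_zero _)).iso (Functor.map_isZero _ (isZero_zero _))

theorem ptr2_shift (X : Scheme.{0}) (P : DerivedCategory X.Modules) (hP : IsPerfect X P) (a : ℤ) :
    IsPerfect X (P⟦a⟧) := by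
  intro x
  obtain ⟨U, hx, K, hK, ⟨e⟩⟩ := hP x
  refine ⟨U, hx, K⟦a⟧, ptr2_ff_shift hK a, ⟨?_⟩⟩
  exact ((Scheme.Modules.restrictFunctor U.ι).mapDerivedCategory.commShiftIso a).app P ≪≫
    (shiftFunctor (DerivedCategory (U : Scheme.{0}).Modules) a).mapIso e ≪≫
      ((DerivedCategory.Q.commShiftIso a).app K).symm

theorem ptr2_cone (X : Scheme.{0}) (T : Pretriangulated.Triangle (DerivedCategory X.Modules)) (hT : T ∈ distTriang _)
    (h1 : IsPerfect X T.obj₁) (h2 : IsPerfect X T.obj₂) : IsPerfect X T.obj₃ := by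
  intro x
  obtain ⟨U₁, hx1, K₁, hK₁, e₁⟩ := h1 x
  obtain ⟨U₂, hx2, K₂, hK₂, e₂⟩ := h2 x
  obtain ⟨V, hV1, hV2, hxV⟩ : ∃ V : X.Opens, ∃ (_ : V ≤ U₁) (_ : V ≤ U₂), x ∈ V :=
    ⟨U₁ ⊓ U₂, inf_le_left, inf_le_right, ⟨hx1, hx2⟩⟩
  obtain ⟨K, hK, ⟨eK⟩⟩ := perfectAt_mono hV1 T.obj₁ K₁ hK₁ e₁
  obtain ⟨L, hL, ⟨eL⟩⟩ := perfectAt_mono hV2 T.obj₂ K₂ hK₂ e₂
  obtain ⟨W, g, hxW, hg⟩ := exists_chain_map (X := (V : Scheme.{0})) ⟨x, hxV⟩ K L hK
    (eK.inv ≫ (Scheme.Modules.restrictFunctor V.ι).mapDerivedCategory.map T.mor₁ ≫ eL.hom)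
  -- the triangle over `W`
  let F := (Scheme.Modules.restrictFunctor V.ι).mapDerivedCategory
  let G := (Scheme.Modules.restrictFunctor W.ι).mapDerivedCategory
  have hg' : G.map (eK.inv ≫ F.map T.mor₁ ≫ eL.hom) =
    (Scheme.Modules.restrictFunctor W.ι).mapDerivedCategoryFactors.hom.app K ≫
      DerivedCategory.Q.map g ≫ (Scheme.Modules.restrictFunctor W.ι).mapDerivedCategoryFactors.inv.app L := hg
  have hT1 := F.map_distinguished T hT
  have hT2 := G.map_distinguished _ hT1
  have hT3 : DerivedCategory.Q.mapTriangle.obj (CochainComplex.mappingCone.triangle g) ∈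
      distTriang (DerivedCategory (W : Scheme.{0}).Modules) := by
    rw [DerivedCategory.mem_distTriang_iff]
    exact ⟨_, _, g, ⟨Iso.refl _⟩⟩
  let eT := Pretriangulated.isoTriangleOfIso₁₂ _ _ hT2 hT3
    (G.mapIso eK ≪≫ (Scheme.Modules.restrictFunctor W.ι).mapDerivedCategoryFactors.app K)
    (G.mapIso eL ≪≫ (Scheme.Modules.restrictFunctor W.ι).mapDerivedCategoryFactors.app L) (by
      show G.map (F.map T.mor₁) ≫ (G.map eL.hom ≫ (Scheme.Modules.restrictFunctor W.ι).mapDerivedCategoryFactors.hom.app L) =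
        (G.map eK.hom ≫ (Scheme.Modules.restrictFunctor W.ι).mapDerivedCategoryFactors.hom.app K) ≫ DerivedCategory.Q.map g
      have h3 : (Scheme.Modules.restrictFunctor W.ι).mapDerivedCategoryFactors.hom.app K ≫ DerivedCategory.Q.map g =
          G.map (eK.inv ≫ F.map T.mor₁ ≫ eL.hom) ≫ (Scheme.Modules.restrictFunctor W.ι).mapDerivedCategoryFactors.hom.app L := by
        rw [hg', Category.assoc, Category.assoc, Iso.inv_hom_id_app]
        erw [Category.comp_id]
      rw [Category.assoc, h3, ← Category.assoc, ← Category.assoc, ← G.map_comp, ← G.map_comp, Iso.hom_inv_id_assoc])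
  have e3 : G.obj (F.obj T.obj₃) ≅ DerivedCategory.Q.obj (CochainComplex.mappingCone g) :=
    Pretriangulated.Triangle.π₃.mapIso eT
  -- to `X`
  obtain ⟨e4⟩ := ptr2_comp (Scheme.Modules.restrictFunctor V.ι) (Scheme.Modules.restrictFunctor W.ι)
    (Scheme.Modules.restrictFunctor (W.ι ≫ V.ι)) (Scheme.Modules.restrictFunctorComp _ _) T.obj₃
  refine ptr2_imm (W.ι ≫ V.ι) x ?_ T.obj₃ (CochainComplex.mappingCone g)
    (ff_cone (ff_restrict W.ι hK) (ff_restrict W.ι hL) g) ⟨e4 ≪≫ e3⟩
  exact ⟨⟨⟨x, hxV⟩, hxW⟩, rfl⟩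

theorem perfect_triangulated (X : Scheme.{0}) : (IsPerfect X).IsTriangulated := by
  have := perfect_iso X
  have h0 : (IsPerfect X).ContainsZero := ⟨⟨_, isZero_zero _, ptr2_zero X⟩⟩
  have h1 : (IsPerfect X).IsStableUnderShift ℤ := ⟨fun a => ⟨fun P hP => ptr2_shift X P hP a⟩⟩
  have h3 : (IsPerfect X).IsTriangulatedClosed₃ := ObjectProperty.IsTriangulatedClosed₃.mk' (fun T hT h1 h2 =>
    ptr2_cone X T hT h1 h2)
  have h2 : (IsPerfect X).IsTriangulatedClosed₂ := ObjectProperty.IsTriangulatedClosed₂.of_isTriangulatedClosed₃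
  constructor

end Pool.H33.P

end S_PTR2

section S_PCO1

/-! # PCO1: homology of complexes of finite free modules on a noetherian affine scheme

The homology is a cokernel of a map into a kernel (quasi-coherent by `qc_kernel`, `qc_cokernel`); the sections
over the affine open `⊤` of the kernel are a submodule of a finite free module over a noetherian ring, those of the
cokernel a quotient (`sec_exact`). -/

open CategoryTheory AlgebraicGeometry Limits TopologicalSpace

namespace Pool.H33.P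

theorem pco1_free_qc {Y : Scheme.{0}} (m : ℕ) :
    ((SheafOfModules.free (R := Y.ringCatSheaf) (Fin m) : Y.Modules)).IsQuasicoherent := by
  infer_instance

/-- abbreviation for the free module -/
noncomputable abbrev pco1F (Y : Scheme.{0}) (m : ℕ) : Y.Modules :=
  (SheafOfModules.free (R := Y.ringCatSheaf) (Fin m) : Y.Modules)

/-- abbreviation for the structure sheaf -/
noncomputable abbrev pco1U (Y : Scheme.{0}) : Y.Modules := SheafOfModules.unit _

noncomputable def pco1i {Y : Scheme.{0}} {m : ℕ} (j : Fin m) : pco1U Y ⟶ pco1F Y m :=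
  SheafOfModules.ιFree (R := Y.ringCatSheaf) j

theorem pco1_hom_ext {Y : Scheme.{0}} {m : ℕ} {M : Y.Modules} (f g : pco1F Y m ⟶ M)
    (h : ∀ j, pco1i j ≫ f = pco1i j ≫ g) : f = g :=
  Cofan.IsColimit.hom_ext (SheafOfModules.isColimitFreeCofan (R := Y.ringCatSheaf) (Fin m)) f g h

theorem pco1_desc {Y : Scheme.{0}} {m : ℕ} {M : Y.Modules} (f : Fin m → (pco1U Y ⟶ M)) :
    ∃ g : pco1F Y m ⟶ M, ∀ j, pco1i j ≫ g = f j :=
  ⟨Cofan.IsColimit.desc (SheafOfModules.isColimitFreeCofan (R := Y.ringCatSheaf) (Fin m)) f,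
    fun j => Cofan.IsColimit.fac (SheafOfModules.isColimitFreeCofan (R := Y.ringCatSheaf) (Fin m)) f j⟩

theorem pco1_proj (Y : Scheme.{0}) (m : ℕ) :
    ∃ p : Fin m → (pco1F Y m ⟶ pco1U Y),
      (∀ i j, pco1i i ≫ p j = if i = j then 𝟙 _ else 0) ∧ ∑ j, p j ≫ pco1i j = 𝟙 _ := by
  classical
  choose p hp using fun j : Fin m =>
    pco1_desc (M := pco1U Y) (fun i : Fin m => if i = j then 𝟙 (pco1U Y) else 0)
  refine ⟨p, fun i j => hp j i, ?_⟩
  apply pco1_hom_ext
  intro i
  rw [Preadditive.comp_sum, Category.comp_id, Finset.sum_eq_single i]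
  · rw [← Category.assoc, hp, if_pos rfl, Category.id_comp]
  · intro j _ hj
    rw [← Category.assoc, hp, if_neg (Ne.symm hj), zero_comp]
  · intro h
    exact absurd (Finset.mem_univ i) h

/-- sections of the structure sheaf -/
noncomputable def pco1E {Y : Scheme.{0}} (V : Y.Opens) : Γ(Y, V) ≃ₗ[Γ(Y, V)] Γ(pco1U Y, V) :=
  { toFun := fun r => r
    invFun := fun r => r
    map_add' := fun _ _ => rfl
    map_smul' := fun _ _ => rfl
    left_inv := fun _ => rfl
    right_inv := fun _ => rfl }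

/-- the linear map on sections -/
noncomputable def pco1L {Y : Scheme.{0}} {M N : Y.Modules} (f : M ⟶ N) (V : Y.Opens) :
    Γ(M, V) →ₗ[Γ(Y, V)] Γ(N, V) :=
  { toFun := fun x => f.app V x
    map_add' := fun x y => map_add _ x y
    map_smul' := fun r x => Scheme.Modules.Hom.app_smul f r x }

theorem pco1L_comp {Y : Scheme.{0}} {M N K : Y.Modules} (f : M ⟶ N) (g : N ⟶ K) (V : Y.Opens)
    (x : Γ(M, V)) : pco1L (f ≫ g) V x = pco1L g V (pco1L f V x) := rfl

theorem pco1L_id {Y : Scheme.{0}} {M : Y.Modules} (V : Y.Opens)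
    (x : Γ(M, V)) : pco1L (𝟙 M) V x = x := rfl

theorem pco1L_zero {Y : Scheme.{0}} {M N : Y.Modules} (V : Y.Opens)
    (x : Γ(M, V)) : pco1L (0 : M ⟶ N) V x = 0 := rfl

theorem pco1L_sum {Y : Scheme.{0}} {M N : Y.Modules} (V : Y.Opens) {κ : Type} (t : Finset κ)
    (f : κ → (M ⟶ N)) (x : Γ(M, V)) : pco1L (∑ j ∈ t, f j) V x = ∑ j ∈ t, pco1L (f j) V x := by
  classical
  induction t using Finset.induction_on with
  | empty => rfl
  | insert a t ha ih =>
    rw [Finset.sum_insert ha, Finset.sum_insert ha, ← ih]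
    rfl

theorem free_sec {Y : Scheme.{0}} (m : ℕ) (V : Y.Opens) :
    Nonempty (Γ((SheafOfModules.free (R := Y.ringCatSheaf) (Fin m) : Y.Modules), V) ≃ₗ[Γ(Y, V)]
      (Fin m → Γ(Y, V))) := by
  obtain ⟨p, h1, h2⟩ := pco1_proj Y m
  refine ⟨LinearEquiv.ofLinearMap
    (LinearMap.pi fun j => (pco1E V).symm.toLinearMap ∘ₗ pco1L (p j) V)
    (∑ j, (pco1L (pco1i j) V ∘ₗ (pco1E V).toLinearMap) ∘ₗ LinearMap.proj j) ?_ ?_⟩
  · apply LinearMap.ext
    intro a
    funext i
    simp only [LinearMap.comp_apply, LinearMap.pi_apply, LinearMap.sum_apply, map_sum,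
      LinearEquiv.coe_coe, LinearMap.proj_apply, LinearMap.id_apply]
    rw [Finset.sum_eq_single i]
    · rw [← pco1L_comp, h1, if_pos rfl, pco1L_id, LinearEquiv.symm_apply_apply]
    · intro j _ hj
      rw [← pco1L_comp, h1, if_neg hj, pco1L_zero, map_zero]
    · intro h
      exact absurd (Finset.mem_univ i) h
  · apply LinearMap.ext
    intro x
    simp only [LinearMap.comp_apply, LinearMap.pi_apply, LinearMap.sum_apply,
      LinearEquiv.coe_coe, LinearMap.proj_apply, LinearMap.id_apply, LinearEquiv.apply_symm_apply]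
    rw [← pco1L_id V x]
    conv_rhs => rw [← h2]
    rw [pco1L_sum]
    rfl

theorem pco1_finite_iso {Y : Scheme.{0}} {M N : Y.Modules} (e : M ≅ N) (V : Y.Opens)
    (h : Module.Finite Γ(Y, V) Γ(M, V)) : Module.Finite Γ(Y, V) Γ(N, V) := by
  apply Module.Finite.of_surjective (pco1L e.hom V)
  intro y
  refine ⟨pco1L e.inv V y, ?_⟩
  rw [← pco1L_comp, e.inv_hom_id, pco1L_id]

theorem pco1_finite_epi {Y : Scheme.{0}} (hY : IsAffineOpen (⊤ : Y.Opens)) {M N : Y.Modules}
    (f : M ⟶ N) [Epi f] (hM : M.IsQuasicoherent) (hN : N.IsQuasicoherent)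
    (h : Module.Finite Γ(Y, ⊤) Γ(M, ⊤)) : Module.Finite Γ(Y, ⊤) Γ(N, ⊤) := by
  apply Module.Finite.of_surjective (pco1L f ⊤)
  have hS : (ShortComplex.mk (kernel.ι f) f (kernel.condition f)).ShortExact :=
    { exact := ShortComplex.exact_kernel f
      mono_f := inferInstanceAs (Mono (kernel.ι f))
      epi_g := inferInstanceAs (Epi f) }
  exact (sec_exact hS (qc_kernel f hM hN) hM hN hY).2.2

theorem ff_homology_coh {Y : Scheme.{0}} (hY : IsAffineOpen (⊤ : Y.Opens))
    (hN : IsNoetherianRing Γ(Y, ⊤)) (K : CochainComplex Y.Modules ℤ) (hK : IsFF K) (i : ℤ) :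
    (K.homology i : Y.Modules).IsQuasicoherent ∧ Module.Finite Γ(Y, ⊤) Γ((K.homology i : Y.Modules), ⊤) := by
  have hq : ∀ n, (K.X n).IsQuasicoherent := by
    intro n
    obtain ⟨m, ⟨e⟩⟩ := hK.2 n
    exact qc_of_iso e.symm (pco1_free_qc m)
  have hfin : ∀ n, Module.Finite Γ(Y, ⊤) Γ(K.X n, ⊤) := by
    intro n
    obtain ⟨m, ⟨e⟩⟩ := hK.2 n
    obtain ⟨g⟩ := free_sec (Y := Y) m ⊤
    exact pco1_finite_iso e.symm ⊤ (Module.Finite.equiv g.symm)
  let S := K.sc i
  have hS1 : S.X₁.IsQuasicoherent := hq _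
  have hS2 : S.X₂.IsQuasicoherent := hq _
  have hS3 : S.X₃.IsQuasicoherent := hq _
  have hk : (kernel S.g).IsQuasicoherent := qc_kernel S.g hS2 hS3
  have hc : (cokernel (kernel.lift S.g S.f S.zero)).IsQuasicoherent := qc_cokernel _ hS1 hk
  let e : K.homology i ≅ cokernel (kernel.lift S.g S.f S.zero) := S.homologyIsoCokernelLift
  refine ⟨qc_of_iso e.symm hc, pco1_finite_iso e.symm ⊤ ?_⟩
  apply pco1_finite_epi hY (cokernel.π (kernel.lift S.g S.f S.zero)) hk hc
  have hf2 : Module.Finite Γ(Y, ⊤) Γ(S.X₂, ⊤) := hfin _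
  exact Module.Finite.of_injective (pco1L (kernel.ι S.g) ⊤) (sec_kernel S.g ⊤).1

end Pool.H33.P

end S_PCO1

section S_PCO

/-! # PCO: the cohomology sheaves of a perfect complex are coherent, and almost all vanish -/

open CategoryTheory AlgebraicGeometry Limits TopologicalSpace

namespace Pool.H33.P

variable {X : Scheme.{0}}

theorem pco_exact_homology {C D : Type*} [Category C] [Category D] [Abelian C] [Abelian D]
    (F : C ⥤ D) [F.Additive] [PreservesFiniteLimits F] [PreservesFiniteColimits F]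
    (K : CochainComplex C ℤ) (i : ℤ) :
    Nonempty ((((F.mapHomologicalComplex (ComplexShape.up ℤ)).obj K).homology i) ≅
      F.obj (K.homology i)) :=
  ⟨(K.sc i).mapHomologyIso F⟩

/-- the homology of the restriction is the restriction of the homology -/
theorem homology_restrict (P : DerivedCategory X.Modules) (V : X.Opens) (i : ℤ) :
    Nonempty ((DerivedCategory.homologyFunctor _ i).obj
        ((Scheme.Modules.restrictFunctor V.ι).mapDerivedCategory.obj P) ≅
      ((DerivedCategory.homologyFunctor X.Modules i).obj P).restrict V.ι) := by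
  let K := DerivedCategory.Q.objPreimage P
  let e : DerivedCategory.Q.obj K ≅ P := DerivedCategory.Q.objObjPreimageIso P
  obtain ⟨h1⟩ := pco_exact_homology (Scheme.Modules.restrictFunctor V.ι) K i
  let a := (DerivedCategory.homologyFunctor _ i).mapIso
    ((Scheme.Modules.restrictFunctor V.ι).mapDerivedCategory.mapIso e.symm)
  obtain ⟨b⟩ := rd_Q V K
  let c := (DerivedCategory.homologyFunctor _ i).mapIso b
  let d := (DerivedCategory.homologyFunctorFactors (V : Scheme.{0}).Modules i).app (rc V K)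
  let f := (Scheme.Modules.restrictFunctor V.ι).mapIso
    (((DerivedCategory.homologyFunctorFactors X.Modules i).app K).symm ≪≫
      (DerivedCategory.homologyFunctor _ i).mapIso e)
  exact ⟨a ≪≫ c ≪≫ d ≪≫ h1 ≪≫ f⟩

theorem pco_isZero_local (M : X.Modules)
    (h : ∀ x : X, ∃ V : X.Opens, x ∈ V ∧ IsZero (M.restrict V.ι)) : IsZero M := by
  choose V hxV hV using h
  apply isZero_of_cover (fun x : X => V x) _ M (fun x => hV x)
  rw [eq_top_iff]
  intro x _
  exact Opens.mem_iSup.2 ⟨x, hxV x⟩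

theorem pco_ff_homology_restrict (P : DerivedCategory X.Modules) (V : X.Opens)
    (K : CochainComplex (V : Scheme.{0}).Modules ℤ)
    (e : Nonempty ((Scheme.Modules.restrictFunctor V.ι).mapDerivedCategory.obj P ≅
      DerivedCategory.Q.obj K)) (i : ℤ) :
    Nonempty (K.homology i ≅ ((DerivedCategory.homologyFunctor X.Modules i).obj P).restrict V.ι) := by
  obtain ⟨e⟩ := e
  obtain ⟨h⟩ := homology_restrict P V i
  let c := (DerivedCategory.homologyFunctor _ i).mapIso e
  let d := (DerivedCategory.homologyFunctorFactors (V : Scheme.{0}).Modules i).app K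
  exact ⟨d.symm ≪≫ c.symm ≪≫ h⟩

/-- `X` is quasi-compact (finite affine cover), so finitely many opens suffice -/
theorem perfect_bounded {ι : Type} [Finite ι] (U : ι → X.Opens) (hU : ⨆ i, U i = ⊤)
    (hA : ∀ i, IsAffineOpen (U i)) (P : DerivedCategory X.Modules) (hP : IsPerfect X P) :
    ∃ a b : ℤ, P.IsGE a ∧ P.IsLE b := by
  have hcomp : IsCompact (Set.univ : Set X) := by
    have h1 : (Set.univ : Set X) = ⋃ i, (U i : Set X) := by
      rw [← Opens.coe_iSup, hU]
      rfl
    rw [h1]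
    exact isCompact_iUnion fun i => (hA i).isCompact
  choose V hxV K hK e using hP
  obtain ⟨t, ht⟩ := hcomp.elim_finite_subcover (fun x : X => (V x : Set X))
    (fun x => (V x).isOpen) (fun x _ => Set.mem_iUnion.2 ⟨x, hxV x⟩)
  choose a b hab using fun x => (hK x).1
  obtain ⟨A, hA'⟩ : ∃ A : ℤ, ∀ x ∈ t, A ≤ a x := by
    obtain ⟨A, hA'⟩ := (t.image a).finite_toSet.bddBelow
    exact ⟨A, fun x hx => hA' (Finset.mem_coe.2 (Finset.mem_image_of_mem a hx))⟩
  obtain ⟨B, hB'⟩ : ∃ B : ℤ, ∀ x ∈ t, b x ≤ B := by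
    obtain ⟨B, hB'⟩ := (t.image b).finite_toSet.bddAbove
    exact ⟨B, fun x hx => hB' (Finset.mem_coe.2 (Finset.mem_image_of_mem b hx))⟩
  have key : ∀ i : ℤ, (∀ x ∈ t, IsZero ((K x).homology i)) →
      IsZero ((DerivedCategory.homologyFunctor X.Modules i).obj P) := by
    intro i hi
    apply pco_isZero_local
    intro y
    obtain ⟨x, hx⟩ := Set.mem_iUnion.1 (ht (Set.mem_univ y))
    obtain ⟨hxt, hyx⟩ := Set.mem_iUnion.1 hx
    obtain ⟨f⟩ := pco_ff_homology_restrict P (V x) (K x) (e x) i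
    exact ⟨V x, hyx, (hi x hxt).of_iso f.symm⟩
  refine ⟨A, B, ?_, ?_⟩
  · rw [DerivedCategory.isGE_iff]
    intro i hi
    apply key
    intro x hx
    have := (hab x).1
    have : (K x).IsGE (a x) := inferInstance
    exact ((K x).exactAt_of_isGE (a x) i (lt_of_lt_of_le hi (hA' x hx))).isZero_homology
  · rw [DerivedCategory.isLE_iff]
    intro i hi
    apply key
    intro x hx
    have := (hab x).2
    have : (K x).IsLE (b x) := inferInstance
    exact ((K x).exactAt_of_isLE (b x) i (lt_of_le_of_lt (hB' x hx) hi)).isZero_homology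

theorem pco_rs_smul (M : X.Modules) {U V : X.Opens} (h : V ≤ U) (r : Γ(X, U)) (m : Γ(M, U)) :
    rs M h (r • m) = rf h r • rs M h m :=
  Scheme.Modules.map_smul M (homOfLE h) r m

theorem pco_rf_mul {U V : X.Opens} (h : V ≤ U) (r s : Γ(X, U)) :
    rf h (r * s) = rf h r * rf h s :=
  map_mul (X.presheaf.map (homOfLE h).op).hom r s

theorem pco_rs_sum (M : X.Modules) {U V : X.Opens} (h : V ≤ U) {κ : Type*} (t : Finset κ)
    (m : κ → Γ(M, U)) : rs M h (∑ j ∈ t, m j) = ∑ j ∈ t, rs M h (m j) :=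
  map_sum (M.presheaf.map (homOfLE h).op).hom m t

theorem pco_rs_sub (M : X.Modules) {U V : X.Opens} (h : V ≤ U) (m m' : Γ(M, U)) :
    rs M h (m - m') = rs M h m - rs M h m' := map_sub _ _ _

/-- finiteness of sections is invariant under isomorphisms -/
theorem pco_finite_iso {M N : X.Modules} (e : M ≅ N) (V : X.Opens)
    (h : Module.Finite Γ(X, V) Γ(M, V)) : Module.Finite Γ(X, V) Γ(N, V) := by
  let q : Γ(M, V) →ₗ[Γ(X, V)] Γ(N, V) :=
    { toFun := fun x => e.hom.app V x
      map_add' := fun x y => map_add _ x y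
      map_smul' := fun r x => Scheme.Modules.Hom.app_smul e.hom r x }
  apply Module.Finite.of_surjective q
  intro y
  refine ⟨e.inv.app V y, ?_⟩
  change (e.inv ≫ e.hom).app V y = y
  rw [e.inv_hom_id]
  rfl

theorem pco_finite_restrict (M : X.Modules) (V : X.Opens)
    (h : Module.Finite Γ((V : Scheme.{0}), ⊤) Γ(M.restrict V.ι, ⊤)) :
    Module.Finite Γ(X, V) Γ(M, V) := by
  have h1 : Module.Finite Γ(X, V.ι ''ᵁ ⊤) Γ(M, V.ι ''ᵁ ⊤) := by
    obtain ⟨n, s, hs⟩ := @Module.Finite.exists_fin _ _ _ _ _ h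
    rw [Module.finite_def]
    have h3 : ∀ y : Γ(M.restrict V.ι, ⊤),
        (M.restrictAppIso V.ι ⊤).hom y ∈ Submodule.span Γ(X, V.ι ''ᵁ ⊤)
          (Set.range fun j => (M.restrictAppIso V.ι ⊤).hom (s j)) := by
      intro y
      have hy : y ∈ Submodule.span Γ((V : Scheme.{0}), ⊤) (Set.range s) := by rw [hs]; trivial
      induction hy using Submodule.span_induction with
      | mem x hx =>
        obtain ⟨j, rfl⟩ := hx
        exact Submodule.subset_span ⟨j, rfl⟩
      | zero => rw [map_zero]; exact Submodule.zero_mem _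
      | add x y _ _ hx hy => rw [map_add]; exact Submodule.add_mem _ hx hy
      | smul r x _ hx =>
        have e1 : (M.restrictAppIso V.ι ⊤).hom (r • x) =
            (V.ι.appIso ⊤).inv r • (M.restrictAppIso V.ι ⊤).hom x := rfl
        rw [e1]
        exact Submodule.smul_mem _ _ hx
    have h4 : Submodule.span Γ(X, V.ι ''ᵁ ⊤)
        (Set.range fun j => (M.restrictAppIso V.ι ⊤).hom (s j)) = ⊤ := by
      rw [eq_top_iff]
      intro y _
      exact h3 y
    rw [← h4]
    exact Submodule.fg_span (Set.finite_range _)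
  have h2 : V.ι ''ᵁ ⊤ = V := by simp
  rw [h2] at h1
  exact h1

theorem pco_good (P : DerivedCategory X.Modules) (hP : IsPerfect X P) (i : ℤ) {U : X.Opens}
    (hU : IsAffineOpen U) (hN : IsNoetherianRing Γ(X, U)) (x : X) (hx : x ∈ U) :
    ∃ f : Γ(X, U), x ∈ X.basicOpen f ∧
      (((DerivedCategory.homologyFunctor X.Modules i).obj P).restrict
        (X.basicOpen f).ι).IsQuasicoherent ∧
      Module.Finite Γ(X, X.basicOpen f)
        Γ((DerivedCategory.homologyFunctor X.Modules i).obj P, X.basicOpen f) := by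
  obtain ⟨W, hxW, K, hK, e⟩ := hP x
  obtain ⟨f, hfW, hxf⟩ := hU.exists_basicOpen_le (V := W) ⟨x, hxW⟩ hx
  obtain ⟨K', hK', e'⟩ := perfectAt_mono hfW P K hK e
  obtain ⟨g⟩ := pco_ff_homology_restrict P _ K' e' i
  have haff : IsAffineOpen (X.basicOpen f) := hU.basicOpen f
  have hY : IsAffineOpen (⊤ : ((X.basicOpen f : X.Opens) : Scheme.{0}).Opens) := by
    have : IsAffine ((X.basicOpen f : X.Opens) : Scheme.{0}) := haff
    exact isAffineOpen_top _
  have hN1 : IsNoetherianRing Γ(X, X.basicOpen f) := by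
    have := hU.isLocalization_basicOpen f
    exact IsLocalization.isNoetherianRing (Submonoid.powers f) _ hN
  have hN2 : IsNoetherianRing Γ(((X.basicOpen f : X.Opens) : Scheme.{0}), ⊤) := by
    let ee := (X.basicOpen f).topIso
    exact isNoetherianRing_of_ringEquiv _ ee.commRingCatIsoToRingEquiv.symm
  obtain ⟨q1, q2⟩ := ff_homology_coh hY hN2 K' hK' i
  exact ⟨f, hxf, qc_of_iso g q1, pco_finite_restrict _ _ (pco_finite_iso g ⊤ q2)⟩

theorem pco_finite_glue (M : X.Modules) (hM : M.IsQuasicoherent) {U : X.Opens} (hU : IsAffineOpen U)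
    (S : Set Γ(X, U)) (hS : Ideal.span S = ⊤)
    (hfin : ∀ f ∈ S, Module.Finite Γ(X, X.basicOpen f) Γ(M, X.basicOpen f)) :
    Module.Finite Γ(X, U) Γ(M, U) := by
  classical
  obtain ⟨S', hS'S, hS'⟩ := (Ideal.span_eq_top_iff_finite S).1 hS
  have h1 : ∀ f : S', ∃ (n : ℕ) (g : Fin n → Γ(M, X.basicOpen (f : Γ(X, U)))),
      Submodule.span Γ(X, X.basicOpen (f : Γ(X, U))) (Set.range g) = ⊤ := fun f =>
    haveI := hfin f (hS'S f.2)
    Module.Finite.exists_fin
  choose n g hg using h1
  have h2 : ∀ (f : S') (j : Fin (n f)), ∃ (N : ℕ) (t : Γ(M, U)),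
      rs M (X.basicOpen_le (f : Γ(X, U))) t = rf (X.basicOpen_le (f : Γ(X, U))) ((f : Γ(X, U)) ^ N) • g f j :=
    fun f j => loc_surj M hM hU (f : Γ(X, U)) rfl (X.basicOpen_le _) (g f j)
  choose N t ht using h2
  let M' : Submodule Γ(X, U) Γ(M, U) :=
    Submodule.span Γ(X, U) (Set.range fun p : Σ f : S', Fin (n f) => t p.1 p.2)
  have hM' : M' = ⊤ := by
    rw [eq_top_iff]
    intro m _
    apply M'.mem_of_span_eq_top_of_smul_pow_mem (S' : Set Γ(X, U)) hS'
    intro f
    -- for every section over the basic open, a multiple comes from `M'`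
    have key : ∀ y ∈ Submodule.span Γ(X, X.basicOpen (f : Γ(X, U))) (Set.range (g f)),
        ∃ (k : ℕ) (z : Γ(M, U)), z ∈ M' ∧
          rs M (X.basicOpen_le (f : Γ(X, U))) z =
            rf (X.basicOpen_le (f : Γ(X, U))) ((f : Γ(X, U)) ^ k) • y := by
      intro y hy
      induction hy using Submodule.span_induction with
      | mem x hx =>
        obtain ⟨j, rfl⟩ := hx
        exact ⟨N f j, t f j, Submodule.subset_span ⟨⟨f, j⟩, rfl⟩, ht f j⟩
      | zero => exact ⟨0, 0, Submodule.zero_mem _, by rw [smul_zero]; exact map_zero _⟩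
      | add x y _ _ hx hy =>
        obtain ⟨k, z, hz, hk⟩ := hx
        obtain ⟨k', z', hz', hk'⟩ := hy
        refine ⟨k + k', (f : Γ(X, U)) ^ k' • z + (f : Γ(X, U)) ^ k • z',
          Submodule.add_mem _ (Submodule.smul_mem _ _ hz) (Submodule.smul_mem _ _ hz'), ?_⟩
        have e1 : rs M (X.basicOpen_le (f : Γ(X, U)))
            ((f : Γ(X, U)) ^ k' • z + (f : Γ(X, U)) ^ k • z') =
            rs M (X.basicOpen_le (f : Γ(X, U))) ((f : Γ(X, U)) ^ k' • z) +
            rs M (X.basicOpen_le (f : Γ(X, U))) ((f : Γ(X, U)) ^ k • z') := map_add _ _ _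
        rw [e1, pco_rs_smul, pco_rs_smul, hk, hk', smul_smul, smul_smul, ← pco_rf_mul,
          ← pco_rf_mul, ← pow_add, ← pow_add, smul_add, add_comm k' k]
      | smul r x _ hx =>
        obtain ⟨k, z, hz, hk⟩ := hx
        obtain ⟨k', r', hr'⟩ := loc_surj_fun hU (f : Γ(X, U)) rfl (X.basicOpen_le _) r
        refine ⟨k' + k, r' • z, Submodule.smul_mem _ _ hz, ?_⟩
        rw [pco_rs_smul, hk, hr', pow_add, pco_rf_mul, smul_smul, smul_smul]
        congr 1
        ring
    obtain ⟨k, z, hz, hk⟩ := key (rs M (X.basicOpen_le (f : Γ(X, U))) m)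
      (by rw [hg f]; trivial)
    obtain ⟨k', hk'⟩ := loc_inj M hM hU (f : Γ(X, U)) rfl (X.basicOpen_le _)
      ((f : Γ(X, U)) ^ k • m - z) (by
        rw [pco_rs_sub, pco_rs_smul, hk, sub_self])
    refine ⟨k' + k, ?_⟩
    rw [smul_sub, smul_smul, ← pow_add, sub_eq_zero] at hk'
    rw [hk']
    exact Submodule.smul_mem _ _ hz
  rw [Module.finite_def, ← hM']
  exact Submodule.fg_span (Set.finite_range _)

/-- On small basic opens `X.basicOpen f` of `U l` (`perfectAt_mono`) the homology is the homology of a complex of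
finite free modules on an affine noetherian scheme (`ff_homology_coh`), hence quasi-coherent with finitely generated
sections; then `qc_of_cover`, the localisation lemmas, and `Module.Finite.of_localizationSpan_finite` (or its primed
version). -/
theorem perfect_coh {ι : Type} [Finite ι] (U : ι → X.Opens) (hU : ⨆ i, U i = ⊤)
    (hA : ∀ i, IsAffineOpen (U i)) (hN : ∀ i, IsNoetherianRing Γ(X, U i))
    (P : DerivedCategory X.Modules) (hP : IsPerfect X P) (i : ℤ) :
    IsCoh U ((DerivedCategory.homologyFunctor X.Modules i).obj P) := by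
  have hqc : ((DerivedCategory.homologyFunctor X.Modules i).obj P).IsQuasicoherent := by
    have h : ∀ x : X, ∃ V : X.Opens, x ∈ V ∧
        (((DerivedCategory.homologyFunctor X.Modules i).obj P).restrict V.ι).IsQuasicoherent := by
      intro x
      have hx : x ∈ ⨆ i, U i := by rw [hU]; trivial
      obtain ⟨l, hl⟩ := Opens.mem_iSup.1 hx
      obtain ⟨f, h1, h2, _⟩ := pco_good P hP i (hA l) (hN l) x hl
      exact ⟨_, h1, h2⟩
    choose V hV hq using h
    apply qc_of_cover (fun x : X => V x) _ _ hq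
    rw [eq_top_iff]
    intro x _
    exact Opens.mem_iSup.2 ⟨x, hV x⟩
  refine ⟨hqc, fun l => ?_⟩
  apply pco_finite_glue _ hqc (hA l) {f | Module.Finite Γ(X, X.basicOpen f)
        Γ((DerivedCategory.homologyFunctor X.Modules i).obj P, X.basicOpen f)}
  · rw [← (hA l).self_le_iSup_basicOpen_iff]
    intro x hx
    obtain ⟨f, h1, _, h3⟩ := pco_good P hP i (hA l) (hN l) x hx
    exact Opens.mem_iSup.2 ⟨⟨f, h3⟩, h1⟩
  · intro f hf
    exact hf

end Pool.H33.P

end S_PCO

section S_VBP

/-! # VBP: vector bundles are perfect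

For `x ∈ U l` there is `f : Γ(X, U l)` with `x ∈ X.basicOpen f` and `Γ(M, U l)_f` free of finite rank
(finite projective modules are locally free), hence `M` restricted to `X.basicOpen f` is isomorphic to
`SheafOfModules.free (Fin m)`; take for `K` the single complex. -/

open CategoryTheory AlgebraicGeometry Limits TopologicalSpace

namespace Pool.H33.P

theorem vbp_alg {R P : Type} [CommRing R] [AddCommGroup P] [Module R P] [Module.Finite R P]
    [Module.Projective R P] (p : PrimeSpectrum R) : ∃ f ∉ p.asIdeal, ∃ m : ℕ,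
      Nonempty (Module.Basis (Fin m) (Localization (.powers f)) (LocalizedModule (.powers f) P)) := by
  have hfp : Module.FinitePresentation R P := Module.finitePresentation_of_projective R P
  have hfree : Module.Free (Localization.AtPrime p.asIdeal)
      (LocalizedModule p.asIdeal.primeCompl P) := Module.free_of_flat_of_isLocalRing
  have hfin : Module.Finite (Localization.AtPrime p.asIdeal)
      (LocalizedModule p.asIdeal.primeCompl P) := inferInstance
  obtain ⟨m, b⟩ : ∃ m : ℕ, Nonempty (Module.Basis (Fin m) (Localization.AtPrime p.asIdeal)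
      (LocalizedModule p.asIdeal.primeCompl P)) :=
    ⟨_, ⟨Module.finBasis _ _⟩⟩
  obtain ⟨b⟩ := b
  obtain ⟨r, hr, b', _⟩ := Module.FinitePresentation.exists_basis_localizedModule_powers
    p.asIdeal.primeCompl (LocalizedModule.mkLinearMap p.asIdeal.primeCompl P)
    (Localization.AtPrime p.asIdeal) b
  exact ⟨r, hr, m, ⟨b'⟩⟩

theorem vbp_transfer {R S P N : Type} [CommRing R] [CommRing S] [Algebra R S] [AddCommGroup P]
    [Module R P] [AddCommGroup N] [Module R N] [Module S N] [IsScalarTower R S N] (f : R)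
    [IsLocalization (.powers f) S] (g : P →ₗ[R] N) [IsLocalizedModule (.powers f) g] (m : ℕ)
    (b : Module.Basis (Fin m) (Localization (.powers f)) (LocalizedModule (.powers f) P)) :
    Nonempty (Module.Basis (Fin m) S N) := by
  let e : Localization (.powers f) ≃ₐ[R] S := IsLocalization.algEquiv (.powers f) _ S
  letI : Module (Localization (.powers f)) N := Module.compHom N (e : _ →+* S)
  haveI : IsScalarTower R (Localization (.powers f)) N := ⟨fun r x n => by
    show e (r • x) • n = r • (e x • n)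
    rw [map_smul, smul_assoc]⟩
  let i : LocalizedModule (.powers f) P ≃ₗ[R] N := IsLocalizedModule.iso (.powers f) g
  let i' := i.extendScalarsOfIsLocalization (.powers f) (Localization (.powers f))
  exact ⟨(b.map i').mapCoeffs e.toRingEquiv (fun c x => rfl)⟩

variable {X : Scheme.{0}}

theorem vbp_basis (M : X.Modules) (hM : M.IsQuasicoherent) {U : X.Opens} (hU : IsAffineOpen U)
    (f : Γ(X, U)) (m : ℕ) (b : Module.Basis (Fin m) (Localization (.powers f))
      (LocalizedModule (.powers f) Γ(M, U))) :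
    Nonempty (Module.Basis (Fin m) Γ(X, X.basicOpen f) Γ(M, X.basicOpen f)) := by
  have hVU : X.basicOpen f ≤ U := X.basicOpen_le f
  letI : Module Γ(X, U) Γ(M, X.basicOpen f) :=
    Module.compHom _ (algebraMap Γ(X, U) Γ(X, X.basicOpen f))
  haveI : IsScalarTower Γ(X, U) Γ(X, X.basicOpen f) Γ(M, X.basicOpen f) :=
    IsScalarTower.of_compHom _ _ _
  haveI : IsLocalization (.powers f) Γ(X, X.basicOpen f) := hU.isLocalization_basicOpen f
  let g : Γ(M, U) →ₗ[Γ(X, U)] Γ(M, X.basicOpen f) :=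
    { toFun := rs M hVU
      map_add' := map_add (M.presheaf.map (homOfLE hVU).op).hom
      map_smul' := fun r x => locm_rs_smul M hVU r x }
  haveI : IsLocalizedModule (.powers f) g := by
    refine IsLocalizedModule.Away.mk_of_addCommGroup ?_ ?_ ?_
    · have h1 : IsUnit (algebraMap Γ(X, U) Γ(X, X.basicOpen f) f) :=
        IsLocalization.Away.algebraMap_isUnit f
      rw [Module.End.isUnit_iff]
      have h2 := (h1.map (algebraMap Γ(X, X.basicOpen f)
        (Module.End Γ(X, X.basicOpen f) Γ(M, X.basicOpen f))))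
      rw [Module.End.isUnit_iff] at h2
      exact h2
    · intro s
      obtain ⟨n, t, ht⟩ := loc_surj M hM hU f rfl hVU s
      exact ⟨n, t, ht.symm⟩
    · intro t ht
      exact loc_inj M hM hU f rfl hVU t ht
  exact vbp_transfer f g m b

theorem vbp_free (M : X.Modules) (hM : M.IsQuasicoherent) {V : X.Opens} (hV : IsAffineOpen V)
    (m : ℕ) (b : Module.Basis (Fin m) Γ(X, V) Γ(M, V)) :
    Nonempty (M.restrict hV.fromSpec ≅
      (SheafOfModules.free (R := (Spec Γ(X, V)).ringCatSheaf) (Fin m) : (Spec Γ(X, V)).Modules)) := by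
  have hT : V ≤ hV.fromSpec ''ᵁ ⊤ := (locm_top hV).ge
  have hT' : hV.fromSpec ''ᵁ ⊤ ≤ V := (locm_top hV).le
  set M' : (Spec Γ(X, V)).Modules := M.restrict hV.fromSpec with hM'
  have h1 : M'.IsQuasicoherent :=
    Scheme.Modules.isQuasicoherent_restrictFunctor hV.fromSpec M
  have h2 : IsIso M'.fromTildeΓ :=
    Scheme.Modules.isIso_fromTildeΓ_of_isQuasicoherent _
  let φ : Γ(M, V) →ₗ[Γ(X, V)] ((modulesSpecToSheaf.obj M').presheaf.obj (.op ⊤)) :=
    { toFun := fun x => (M.restrictAppIso hV.fromSpec ⊤).inv (rs M hT' x)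
      map_add' := fun x y => map_add ((M.presheaf.map (homOfLE hT').op ≫
        (M.restrictAppIso hV.fromSpec ⊤).inv).hom) x y
      map_smul' := by
        intro r x
        have h3 := locm_smul hV M ⊤ hT' r ((M.restrictAppIso hV.fromSpec ⊤).inv (rs M hT' x))
        have h4 := congrArg (M.restrictAppIso hV.fromSpec ⊤).inv h3
        rw [locm_rs_smul]
        exact h4.symm }
  have hφ : Function.Bijective φ := by
    constructor
    · intro x y hxy
      have h3 : rs M hT' x = rs M hT' y := hxy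
      have h4 := congrArg (rs M hT) h3
      rwa [locm_rs_rs, locm_rs_rs, locm_rs_refl, locm_rs_refl] at h4
    · intro y
      refine ⟨rs M hT ((M.restrictAppIso hV.fromSpec ⊤).hom y), ?_⟩
      have h3 : rs M hT' (rs M hT ((M.restrictAppIso hV.fromSpec ⊤).hom y)) =
          (M.restrictAppIso hV.fromSpec ⊤).hom y := by
        rw [locm_rs_rs, locm_rs_refl]
      exact congrArg (M.restrictAppIso hV.fromSpec ⊤).inv h3
  let e1 : ((modulesSpecToSheaf.obj M').presheaf.obj (.op ⊤)) ≅
      ModuleCat.of Γ(X, V) (Fin m →₀ Γ(X, V)) :=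
    LinearEquiv.toModuleIso (((LinearEquiv.ofBijective φ hφ).symm).trans b.repr)
  exact ⟨(asIso M'.fromTildeΓ).symm ≪≫ (tilde.functor _).mapIso e1 ≪≫ tildeFinsupp (Fin m)⟩

theorem vb_perfect {X : Scheme.{0}} {ι : Type} (U : ι → X.Opens) (hU : ⨆ i, U i = ⊤)
    (hA : ∀ i, IsAffineOpen (U i)) {M : X.Modules} (hM : IsVB U M) : IsPerfect X (sg M) := by
  refine perfect_of_free M ?_
  intro x
  have h1 : x ∈ ⨆ i, U i := by rw [hU]; trivial
  obtain ⟨l, hl⟩ := Opens.mem_iSup.1 h1
  haveI := hM.fin l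
  haveI := hM.proj l
  obtain ⟨f, hf, m, ⟨b⟩⟩ := vbp_alg (R := Γ(X, U l)) (P := Γ(M, U l)) ((hA l).primeIdealOf ⟨x, hl⟩)
  obtain ⟨b2⟩ := vbp_basis M hM.qc (hA l) f m b
  have hV := (hA l).basicOpen f
  have e := vbp_free M hM.qc hV m b2
  refine ⟨hV.fromSpec.opensRange, ?_, m, free_of_immersion M hV.fromSpec m e⟩
  rw [hV.opensRange_fromSpec, ← (hA l).fromSpec_image_basicOpen f]
  exact ⟨(hA l).primeIdealOf ⟨x, hl⟩, hf, (hA l).fromSpec_primeIdealOf ⟨x, hl⟩⟩

end Pool.H33.P

end S_VBP
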