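import Mathlib
import Pool.Agent.H33.GP.Def
import Pool.Agent.H33.GP.A1
import Pool.Agent.H33.GP.A3
import Pool.Agent.H33.GP.A4
import Pool.Agent.H33.GP.A5

/-! Two line bundles generate the perfect complexes of the surface F_1, file A6 -/

section S_COQ

/-! # COQ: vector bundles and coherent modules lie in `Q` as soon as all `L a b` do

`vb_mem`: apply `exists_embed` three times, `exists_coresolution` with
`A0 = U 0 ⊔ U 2`, `A1 = U 1 ⊔ U 3`, `B0 = U 0 ⊔ U 1`, `B1 = U 2 ⊔ U 3`, and `retract_chain`; the maps `a0, w1, a1, w2, a2`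
come from relative injectivity (the maps `i0, i1, i2` are locally split) and the universal property of the
cokernels.
`coh_mem`: `exists_epi` twice; the second syzygy is a vector bundle by `T.syz` (sections of a kernel over `U l` are
the kernel; sections of `E` are free, `fs_sec`). -/

open CategoryTheory AlgebraicGeometry Limits TopologicalSpace

namespace Pool.H33.P

variable {X : Scheme.{0}} {T : ToricData X} (S : LSys T)

theorem coq_cover (T : ToricData X) : T.U 0 ⊔ T.U 1 ⊔ (T.U 2 ⊔ T.U 3) = ⊤ := by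
  rw [eq_top_iff, ← T.cov]
  refine iSup_le fun l => ?_
  fin_cases l
  · exact le_sup_left.trans le_sup_left
  · exact le_sup_right.trans le_sup_left
  · exact le_sup_left.trans le_sup_right
  · exact le_sup_right.trans le_sup_right

theorem vb_mem (Q : ObjectProperty (DerivedCategory X.Modules)) [Q.IsTriangulated]
    [Q.IsStableUnderRetracts] (hQ : ∀ a b, Q (sg (S.L a b))) {M : X.Modules} (hM : IsVB T.U M) :
    Q (sg M) := by
  obtain ⟨E0, V1, i0, p0, z0, s0, f0, l0, v1⟩ := exists_embed S hM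
  obtain ⟨E1, V2, i1, p1, z1, s1, f1, l1, v2⟩ := exists_embed S v1
  obtain ⟨E2, V3, i2, p2, z2, s2, f2, l2, v3⟩ := exists_embed S v2
  have hA : T.U 0 ⊔ T.U 2 ⊔ (T.U 1 ⊔ T.U 3) = ⊤ := by
    rw [← coq_cover T, sup_assoc, sup_assoc, sup_left_comm (T.U 2)]
  have hB : T.U 0 ⊔ T.U 1 ⊔ (T.U 2 ⊔ T.U 3) = ⊤ := coq_cover T
  have h00 : (T.U 0 ⊔ T.U 2) ⊓ (T.U 0 ⊔ T.U 1) ≤ T.U 0 := by
    rw [← sup_inf_left, inf_comm, T.inf12]
    exact sup_le le_rfl inf_le_left
  have h01 : (T.U 0 ⊔ T.U 2) ⊓ (T.U 2 ⊔ T.U 3) ≤ T.U 2 := by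
    rw [sup_comm (T.U 0), ← sup_inf_left, ← T.inf12]
    exact sup_le le_rfl inf_le_right
  have h10 : (T.U 1 ⊔ T.U 3) ⊓ (T.U 0 ⊔ T.U 1) ≤ T.U 1 := by
    rw [sup_comm (T.U 0), ← sup_inf_left, inf_comm (T.U 3), ← T.inf12]
    exact sup_le le_rfl inf_le_left
  have h11 : (T.U 1 ⊔ T.U 3) ⊓ (T.U 2 ⊔ T.U 3) ≤ T.U 3 := by
    rw [sup_comm (T.U 1), sup_comm (T.U 2), ← sup_inf_left, T.inf12]
    exact sup_le le_rfl inf_le_right
  obtain ⟨J0, J1, W1, W2, j0, r0, y0, j1, r1, y1, t0, t1, q0, q1, q2⟩ :=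
    exists_coresolution T.U (T.U 0 ⊔ T.U 2) (T.U 1 ⊔ T.U 3) (T.U 0 ⊔ T.U 1) (T.U 2 ⊔ T.U 3) hA hB
      ⟨0, h00⟩ ⟨2, h01⟩ ⟨1, h10⟩ ⟨3, h11⟩ M
  obtain ⟨a0, h0⟩ := q0 _ _ i0 l0 j0
  obtain ⟨w1, k0⟩ := CokernelCofork.IsColimit.desc' s0.gIsCokernel (a0 ≫ r0)
    (by
      change i0 ≫ a0 ≫ r0 = 0
      rw [← Category.assoc, h0, y0])
  obtain ⟨a1, h1⟩ := q1 _ _ i1 l1 (w1 ≫ j1)
  obtain ⟨w2, k1⟩ := CokernelCofork.IsColimit.desc' s1.gIsCokernel (a1 ≫ r1)
    (by
      change i1 ≫ a1 ≫ r1 = 0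
      rw [← Category.assoc, h1, Category.assoc, y1, comp_zero])
  obtain ⟨a2, h2⟩ := q2 _ _ i2 l2 w2
  exact retract_chain Q i0 p0 z0 s0 i1 p1 z1 s1 i2 p2 z2 s2 j0 r0 y0 t0 j1 r1 y1 t1 a0 h0 w1 k0
    a1 h1 w2 k1 a2 h2 (fs_q S Q hQ f0) (fs_q S Q hQ f1) (fs_q S Q hQ f2)

/-- the linear map on sections -/
noncomputable def coqApp {M N : X.Modules} (f : M ⟶ N) (V : X.Opens) :
    Γ(M, V) →ₗ[Γ(X, V)] Γ(N, V) where
  toFun := fun m => f.app V m
  map_add' := fun m m' => map_add (f.app V).hom m m'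
  map_smul' := fun c m => Scheme.Modules.Hom.app_smul f c m

theorem coq_kernel {M N : X.Modules} (f : M ⟶ N) (V : X.Opens) :
    Nonempty (Γ((kernel f : X.Modules), V) ≃ₗ[Γ(X, V)] LinearMap.ker (coqApp f V)) := by
  obtain ⟨h1, h2⟩ := sec_kernel f V
  refine ⟨LinearEquiv.ofBijective (LinearMap.codRestrict _ (coqApp (kernel.ι f) V) fun m => ?_)
    ⟨?_, ?_⟩⟩
  · exact (h2 _).2 ⟨m, rfl⟩
  · intro m m' h
    exact h1 (congrArg Subtype.val h)
  · rintro ⟨m, hm⟩
    obtain ⟨k, hk⟩ := (h2 m).1 hm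
    exact ⟨k, Subtype.ext hk⟩

theorem coq_kernel_coh {M N : X.Modules} (hM : IsCoh T.U M) (hN : IsCoh T.U N) (f : M ⟶ N) :
    IsCoh T.U (kernel f) := by
  refine ⟨qc_kernel f hM.qc hN.qc, fun l => ?_⟩
  have := hM.fin l
  have := T.noeth l
  obtain ⟨e⟩ := coq_kernel f (T.U l)
  exact Module.Finite.equiv e.symm

theorem coq_ses {M N : X.Modules} (f : M ⟶ N) [Epi f] :
    (ShortComplex.mk (kernel.ι f) f (kernel.condition f)).ShortExact where
  exact := ShortComplex.exact_of_f_is_kernel _ (kernelIsKernel f)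

/-- every coherent module has a resolution by two finite sums of line bundles and a vector bundle -/
theorem coh_resolution {M : X.Modules} (hM : IsCoh T.U M) :
    ∃ (E0 E1 K0 K1 : X.Modules) (k0 : K0 ⟶ E0) (p0 : E0 ⟶ M) (w0 : k0 ≫ p0 = 0)
      (k1 : K1 ⟶ E1) (p1 : E1 ⟶ K0) (w1 : k1 ≫ p1 = 0),
      (ShortComplex.mk k0 p0 w0).ShortExact ∧ (ShortComplex.mk k1 p1 w1).ShortExact ∧
      IsFS S E0 ∧ IsFS S E1 ∧ IsVB T.U K1 := by
  obtain ⟨E0, p0, f0, hp0⟩ := exists_epi S hM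
  have hE : ∀ E : X.Modules, IsFS S E → IsCoh T.U E := fun E h =>
    ⟨(fs_vb S h).qc, (fs_vb S h).fin⟩
  have hK0 : IsCoh T.U (kernel p0) := coq_kernel_coh (hE E0 f0) hM p0
  obtain ⟨E1, p1, f1, hp1⟩ := exists_epi S hK0
  have hK1 : IsCoh T.U (kernel p1) := coq_kernel_coh (hE E1 f1) hK0 p1
  refine ⟨E0, E1, kernel p0, kernel p1, kernel.ι p0, p0, kernel.condition p0, kernel.ι p1, p1,
    kernel.condition p1, coq_ses p0, coq_ses p1, f0, f1, hK1.qc, hK1.fin, fun l => ?_⟩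
  obtain ⟨m, ⟨em⟩⟩ := fs_sec S f1 l
  obtain ⟨n, ⟨en⟩⟩ := fs_sec S f0 l
  obtain ⟨e⟩ := coq_kernel p1 (T.U l)
  let g : (Fin m → Γ(X, T.U l)) →ₗ[Γ(X, T.U l)] (Fin n → Γ(X, T.U l)) :=
    en.toLinearMap ∘ₗ coqApp (kernel.ι p0) (T.U l) ∘ₗ coqApp p1 (T.U l) ∘ₗ em.symm.toLinearMap
  have hg := T.syz l m n g
  have hmem : ∀ v : Fin m → Γ(X, T.U l), v ∈ LinearMap.ker g ↔
      em.symm v ∈ LinearMap.ker (coqApp p1 (T.U l)) := by
    intro v
    rw [LinearMap.mem_ker, LinearMap.mem_ker]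
    constructor
    · intro h
      have h3 : coqApp (kernel.ι p0) (T.U l) (coqApp p1 (T.U l) (em.symm v)) = 0 := by
        apply en.injective
        rw [map_zero]
        exact h
      apply (sec_kernel p0 (T.U l)).1
      rw [map_zero]
      exact h3
    · intro h
      change en (coqApp (kernel.ι p0) (T.U l) (coqApp p1 (T.U l) (em.symm v))) = 0
      rw [h, map_zero, map_zero]
  let e2 : LinearMap.ker g ≃ₗ[Γ(X, T.U l)] LinearMap.ker (coqApp p1 (T.U l)) :=
    LinearEquiv.ofBijective (LinearMap.codRestrict _ (em.symm.toLinearMap ∘ₗ (LinearMap.ker g).subtype)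
      fun v => (hmem _).1 v.2) (by
      constructor
      · intro v w h
        have h4 := congrArg Subtype.val h
        exact Subtype.ext (em.symm.injective h4)
      · rintro ⟨w, hw⟩
        refine ⟨⟨em w, (hmem _).2 (by simpa using hw)⟩, Subtype.ext ?_⟩
        exact em.symm_apply_apply w)
  exact Module.Projective.of_equiv (e2.trans e.symm)

end Pool.H33.P

end S_COQ

section S_FIN

/-! # FIN: assembly -/

open CategoryTheory AlgebraicGeometry Limits TopologicalSpace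

namespace Pool.H33.P

variable {X : Scheme.{0}}

theorem exists_LSys (T : ToricData X) : Nonempty (LSys T) := by
  have h : ∀ a b : ℤ, ∃ (L : X.Modules) (e : ∀ l, Γ(L, T.U l)), IsTwist T.U (T.c a b) L e :=
    fun a b => exists_twist T.U (T.c a b) (cocycle_c T a b)
  choose L e h using h
  exact ⟨⟨L, e, h⟩⟩

theorem coh_mem {T : ToricData X} (S : LSys T) (Q : ObjectProperty (DerivedCategory X.Modules))
    [Q.IsTriangulated] [Q.IsClosedUnderIsomorphisms]
    (hQ : ∀ a b, Q (sg (S.L a b))) (hV : ∀ M : X.Modules, IsVB T.U M → Q (sg M))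
    {M : X.Modules} (hM : IsCoh T.U M) : Q (sg M) := by
  obtain ⟨E0, E1, K0, K1, k0, p0, w0, k1, p1, w1, h0, h1, f0, f1, hK⟩ := coh_resolution S hM
  have a0 : Q (sg E0) := fs_q S Q hQ f0
  have a1 : Q (sg E1) := fs_q S Q hQ f1
  have a2 : Q (sg K0) := ses3 Q h1 (hV K1 hK) a1
  exact ses3 Q h0 a2 a0

/-- a retract of a coherent module is coherent -/
theorem coh_retract {T : ToricData X} {A B : X.Modules} (r : Retract A B) (hB : IsCoh T.U B) :
    IsCoh T.U A := by
  have e : A ≅ kernel (𝟙 B - r.r ≫ r.i) := by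
    refine ⟨kernel.lift _ r.i (by simp), kernel.ι _ ≫ r.r, by simp, ?_⟩
    rw [← cancel_mono (kernel.ι (𝟙 B - r.r ≫ r.i))]
    have h := kernel.condition (𝟙 B - r.r ≫ r.i)
    rw [Preadditive.comp_sub, Category.comp_id, sub_eq_zero] at h
    simp only [Category.assoc, kernel.lift_ι, Category.id_comp]
    exact h.symm
  refine ⟨qc_of_iso e.symm (qc_kernel _ hB.qc hB.qc), fun l => ?_⟩
  have := hB.fin l
  let f : Γ(B, T.U l) →ₗ[Γ(X, T.U l)] Γ(A, T.U l) :=
    { toFun := fun m => r.r.app (T.U l) m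
      map_add' := fun m m' => map_add (r.r.app (T.U l)).hom m m'
      map_smul' := fun c m => Scheme.Modules.Hom.app_smul r.r c m }
  refine Module.Finite.of_surjective f fun m => ⟨r.i.app (T.U l) m, ?_⟩
  change r.r.app (T.U l) (r.i.app (T.U l) m) = m
  have h : (r.i ≫ r.r).app (T.U l) m = m := by
    rw [r.retract]
    rfl
  exact h

theorem perfect_retract (T : ToricData X) : (IsPerfect X).IsStableUnderRetracts := by
  obtain ⟨S⟩ := exists_LSys T
  have := perfect_iso X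
  have := perfect_triangulated X
  constructor
  intro A B r hB
  obtain ⟨a, b, ha, hb⟩ := perfect_bounded T.U T.cov T.aff B hB
  have hr : ∀ i, Retract ((DerivedCategory.homologyFunctor X.Modules i).obj A)
      ((DerivedCategory.homologyFunctor X.Modules i).obj B) := fun i =>
    r.map (DerivedCategory.homologyFunctor X.Modules i)
  have hz : ∀ i, IsZero ((DerivedCategory.homologyFunctor X.Modules i).obj B) →
      IsZero ((DerivedCategory.homologyFunctor X.Modules i).obj A) := by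
    intro i h
    rw [IsZero.iff_id_eq_zero]
    rw [← (hr i).retract, h.eq_of_tgt (hr i).i 0, zero_comp]
  refine q_bounded (IsPerfect X) A a b ?_ ?_ fun i => ?_
  · rw [DerivedCategory.isGE_iff] at ha ⊢
    exact fun i hi => hz i (ha i hi)
  · rw [DerivedCategory.isLE_iff] at hb ⊢
    exact fun i hi => hz i (hb i hi)
  · exact coh_mem S (IsPerfect X) (fun a b => lineBundle_perfect (twist_lineBundle T.cov (S.tw a b)))
      (fun M hM => vb_perfect T.U T.cov T.aff hM)
      (coh_retract (hr i) (perfect_coh T.U T.cov T.aff T.noeth B hB i))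

theorem generates (T : ToricData X) : ∃ L₁ L₂ : X.Modules, IsLineBundle L₁ ∧ IsLineBundle L₂ ∧
    ObjectProperty.triangEnvelope (C := DerivedCategory X.Modules) (Pair (sg L₁) (sg L₂)) =
      IsPerfect X := by
  obtain ⟨S⟩ := exists_LSys T
  have := perfect_iso X
  have := perfect_triangulated X
  have := perfect_retract T
  have hl : ∀ a b, IsLineBundle (S.L a b) := fun a b => twist_lineBundle T.cov (S.tw a b)
  refine ⟨S.L 0 0, S.L 2 4, hl 0 0, hl 2 4, ?_⟩
  set R : ObjectProperty (DerivedCategory X.Modules) := Pair (sg (S.L 0 0)) (sg (S.L 2 4)) with hR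
  have : R.Nonempty := ⟨_, Pair.left⟩
  apply le_antisymm
  · rw [ObjectProperty.triangEnvelope_le_iff]
    intro A hA
    cases hA with
    | left => exact lineBundle_perfect (hl 0 0)
    | right => exact lineBundle_perfect (hl 2 4)
  · intro P hP
    obtain ⟨a, b, ha, hb⟩ := perfect_bounded T.U T.cov T.aff P hP
    have h0 : R.triangEnvelope (sg (S.L 0 0)) := R.le_triangEnvelope _ Pair.left
    have h1 : R.triangEnvelope (sg (S.L 2 4)) := R.le_triangEnvelope _ Pair.right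
    have hQ := all_L S R.triangEnvelope h0 h1
    exact q_bounded R.triangEnvelope P a b ha hb fun i =>
      coh_mem S R.triangEnvelope hQ (fun M hM => vb_mem S R.triangEnvelope hQ hM)
        (perfect_coh T.U T.cov T.aff T.noeth P hP i)

end Pool.H33.P

end S_FIN
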