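import Mathlib
import Pool.Agent.H33.GP.E1

/-! Two line bundles generate the perfect complexes of the surface F_1, file E2 -/

section S_ESYZ

/-! # ESYZ: over `k[u, v]` the kernel of a map of finite free modules is projective

Submodules of projective modules over a principal ideal domain `R` are projective (quotients of injective
modules are injective).  For a module `M` over `R[X]` which is projective over `R` there is the exact sequence
`0 -> R[X] ⊗ M -> R[X] ⊗ M -> M -> 0` (maps `X ⊗ 1 - 1 ⊗ X`, action), so the projective dimension of `M` is at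
most one.  For a map `f` of finite free modules over `R[X]` this is used for `M = range f`. -/

open scoped TensorProduct

namespace Pool.H33.P

/-- kernels of maps of finite free modules are projective -/
def P2 (R : Type) [CommRing R] : Prop :=
  ∀ (m n : ℕ) (f : (Fin m → R) →ₗ[R] (Fin n → R)), Module.Projective R (LinearMap.ker f)

section PID

variable {R : Type} [CommRing R] [IsDomain R] [IsPrincipalIdealRing R]

theorem esyz_quot {I : Type} [AddCommGroup I] [Module R I] (hI : Module.Injective R I)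
    (W : Submodule R I) : Module.Injective R (I ⧸ W) := by
  apply Module.Baer.injective
  intro J g
  obtain ⟨g', hg'⟩ := Module.projective_lifting_property W.mkQ g W.mkQ_surjective
  obtain ⟨g'', hg''⟩ := Module.Baer.of_injective hI J g'
  refine ⟨W.mkQ.comp g'', fun x hx => ?_⟩
  rw [LinearMap.comp_apply, hg'' x hx, ← hg', LinearMap.comp_apply]

omit [IsDomain R] [IsPrincipalIdealRing R] in
theorem esyz_enough (Y : Type) [AddCommGroup Y] [Module R Y] :
    ∃ (E : Type) (_ : AddCommGroup E) (_ : Module R E) (j : Y →ₗ[R] E),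
      Module.Injective R E ∧ Function.Injective j := by
  have := (ModuleCat.enoughInjectives.{0} R)
  obtain ⟨pr⟩ := this.presentation (ModuleCat.of R Y)
  refine ⟨pr.J, inferInstance, inferInstance, pr.f.hom, ?_, ?_⟩
  · have hJ : CategoryTheory.Injective (ModuleCat.of R pr.J) := pr.injective
    exact Module.injective_module_of_injective_object R pr.J (inj := hJ)
  · exact (ModuleCat.mono_iff_injective _).1 pr.mono

theorem esyz_sub {P : Type} [AddCommGroup P] [Module R P] [Module.Projective R P]
    (N : Submodule R P) : Module.Projective R N := by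
  apply Module.Projective.of_lifting_property
  intro Y Z _ _ _ _ f g hf
  obtain ⟨E, _, _, j, hE, hj⟩ := esyz_enough (R := R) Y
  have hW : LinearMap.ker f ≤ (Submodule.map j (LinearMap.ker f)).comap j :=
    Submodule.le_comap_map _ _
  have hQ := esyz_quot hE (Submodule.map j (LinearMap.ker f))
  set W := Submodule.map j (LinearMap.ker f) with hWdef
  let θ : Z →ₗ[R] E ⧸ W := ((LinearMap.ker f).mapQ W j hW).comp
    (f.quotKerEquivOfSurjective hf).symm.toLinearMap
  have hθ : ∀ y, θ (f y) = W.mkQ (j y) := by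
    intro y
    have : (f.quotKerEquivOfSurjective hf).symm (f y) = (LinearMap.ker f).mkQ y := by
      rw [LinearEquiv.symm_apply_eq]
      rfl
    change ((LinearMap.ker f).mapQ W j hW) ((f.quotKerEquivOfSurjective hf).symm (f y)) = _
    rw [this]
    rfl
  obtain ⟨G, hG⟩ := hQ.out N.subtype N.injective_subtype (θ.comp g)
  obtain ⟨G', hG'⟩ := Module.projective_lifting_property W.mkQ G W.mkQ_surjective
  have key : ∀ x : N, ∃ y, j y = G' x ∧ f y = g x := by
    intro x
    obtain ⟨y, hy⟩ := hf (g x)
    have h1 : W.mkQ (G' x) = W.mkQ (j y) := by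
      rw [← hθ y, hy]
      have h2 := hG x
      have h3 := LinearMap.congr_fun hG' (x : P)
      rw [LinearMap.comp_apply] at h3
      rw [h3]
      exact h2
    have h2 : G' x - j y ∈ W := by
      rw [← Submodule.Quotient.mk_eq_zero, Submodule.Quotient.mk_sub]
      exact sub_eq_zero.2 h1
    obtain ⟨z, hz, hz'⟩ := h2
    refine ⟨y + z, ?_, ?_⟩
    · rw [map_add, hz']
      abel
    · rw [map_add, hy, LinearMap.mem_ker.1 hz, add_zero]
  have hr : ∀ x : N, (G'.comp N.subtype) x ∈ LinearMap.range j := by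
    intro x
    obtain ⟨y, hy, -⟩ := key x
    exact ⟨y, hy⟩
  refine ⟨(LinearEquiv.ofInjective j hj).symm.toLinearMap.comp
    ((G'.comp N.subtype).codRestrict (LinearMap.range j) hr), ?_⟩
  apply LinearMap.ext
  intro x
  obtain ⟨y, hy1, hy2⟩ := key x
  have : (LinearEquiv.ofInjective j hj).symm
      (((G'.comp N.subtype).codRestrict (LinearMap.range j) hr) x) = y := by
    rw [LinearEquiv.symm_apply_eq]
    apply Subtype.ext
    exact hy1.symm
  change f ((LinearEquiv.ofInjective j hj).symm
      (((G'.comp N.subtype).codRestrict (LinearMap.range j) hr) x)) = g x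
  rw [this, hy2]

end PID

section Schanuel

open CategoryTheory

theorem esyz_schanuel {A : Type} [CommRing A] {F I P : Type} [AddCommGroup F] [Module A F]
    [AddCommGroup I] [Module A I] [AddCommGroup P] [Module A P] [Module.Projective A F]
    [Module.Projective A P] (p : F →ₗ[A] I) (hp : Function.Surjective p) (q : P →ₗ[A] I)
    (hq : Function.Surjective q) (h : Module.Projective A (LinearMap.ker q)) :
    Module.Projective A (LinearMap.ker p) := by
  have h1 := LinearMap.shortExact_shortComplexKer hp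
  have h2 := LinearMap.shortExact_shortComplexKer hq
  have a1 : HasProjectiveDimensionLT q.shortComplexKer.X₁ 1 := by
    rw [← projective_iff_hasProjectiveDimensionLT_one]
    exact (IsProjective.iff_projective (R := A) (LinearMap.ker q)).1 h
  have a2 : HasProjectiveDimensionLT q.shortComplexKer.X₂ 1 := by
    rw [← projective_iff_hasProjectiveDimensionLT_one]
    exact (IsProjective.iff_projective (R := A) P).1 inferInstance
  have a3 : HasProjectiveDimensionLT p.shortComplexKer.X₂ 1 := by
    rw [← projective_iff_hasProjectiveDimensionLT_one]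
    exact (IsProjective.iff_projective (R := A) F).1 inferInstance
  have a4 : HasProjectiveDimensionLT q.shortComplexKer.X₃ 2 :=
    h2.hasProjectiveDimensionLT_X₃ 1 a1 (hasProjectiveDimensionLT_of_ge _ 1 2 (by norm_num))
  have a5 : HasProjectiveDimensionLT p.shortComplexKer.X₁ 1 :=
    h1.hasProjectiveDimensionLT_X₁ 1 a3 a4
  rw [← projective_iff_hasProjectiveDimensionLT_one] at a5
  exact (IsProjective.iff_projective (R := A) (LinearMap.ker p)).2 a5

end Schanuel

section Koszul

open Polynomial

variable {R : Type} [CommRing R] {M : Type} [AddCommGroup M] [Module R M] [Module R[X] M]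
  [IsScalarTower R R[X] M]

/-- multiplication by `X` -/
noncomputable def esyzXi : M →ₗ[R] M := Algebra.lsmul R R M (X : R[X])

theorem esyzXi_apply (m : M) : esyzXi (R := R) m = (X : R[X]) • m := rfl

theorem esyzXi_pow (n : ℕ) (m : M) : (esyzXi (R := R) ^ n) m = (X ^ n : R[X]) • m := by
  induction n with
  | zero => simp
  | succ n ih => rw [pow_succ', Module.End.mul_apply, ih, esyzXi_apply, smul_smul, pow_succ']

/-- the map `X ⊗ 1 - 1 ⊗ X` -/
noncomputable def esyzPhi : R[X] ⊗[R] M →ₗ[R[X]] R[X] ⊗[R] M :=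
  (X : R[X]) • LinearMap.id - (esyzXi (R := R) (M := M)).baseChange R[X]

theorem esyzPhi_tmul (a : R[X]) (m : M) :
    esyzPhi (a ⊗ₜ[R] m) = (X * a) ⊗ₜ[R] m - a ⊗ₜ[R] ((X : R[X]) • m) := rfl

/-- the action -/
noncomputable def esyzQ : R[X] ⊗[R] M →ₗ[R[X]] M :=
  (LinearMap.id : M →ₗ[R] M).liftBaseChange R[X]

theorem esyzQ_tmul (a : R[X]) (m : M) : esyzQ (a ⊗ₜ[R] m) = a • m := by
  simp [esyzQ]

/-- divided differences -/
noncomputable def esyzD : R[X] ⊗[R] M →ₗ[R] R[X] ⊗[R] M :=
  TensorProduct.lift (Polynomial.lsum (fun i => LinearMap.toSpanSingleton R _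
    (∑ j ∈ Finset.range i, (TensorProduct.mk R R[X] M (X ^ j)).comp
      (esyzXi (R := R) (M := M) ^ (i - 1 - j)))))

theorem esyzD_tmul (i : ℕ) (m : M) : esyzD ((X ^ i : R[X]) ⊗ₜ[R] m) =
    ∑ j ∈ Finset.range i, (X ^ j : R[X]) ⊗ₜ[R] ((X ^ (i - 1 - j) : R[X]) • m) := by
  rw [esyzD, TensorProduct.lift.tmul, Polynomial.lsum_apply]
  rw [X_pow_eq_monomial, Polynomial.sum_monomial_index]
  · simp [LinearMap.sum_apply, esyzXi_pow, X_pow_eq_monomial]
  · simp

omit [Module R[X] M] [IsScalarTower R R[X] M] in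
theorem esyz_ext {N : Type} [AddCommGroup N] [Module R N] {f g : R[X] ⊗[R] M →ₗ[R] N}
    (h : ∀ (i : ℕ) (m : M), f ((X ^ i : R[X]) ⊗ₜ[R] m) = g ((X ^ i : R[X]) ⊗ₜ[R] m)) : f = g := by
  apply TensorProduct.ext
  apply Polynomial.lhom_ext'
  intro i
  apply LinearMap.ext_ring
  apply LinearMap.ext
  intro m
  have := h i m
  rw [X_pow_eq_monomial] at this
  exact this

theorem esyzD_Phi (z : R[X] ⊗[R] M) : esyzD (esyzPhi z) = z := by
  have : (esyzD (R := R) (M := M)).comp (esyzPhi.restrictScalars R) = LinearMap.id := by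
    apply esyz_ext
    intro i m
    rw [LinearMap.comp_apply, LinearMap.restrictScalars_apply, esyzPhi_tmul, map_sub, ← pow_succ',
      esyzD_tmul, esyzD_tmul, Finset.sum_range_succ, LinearMap.id_apply]
    have e1 : ∀ j ∈ Finset.range i, (X ^ j : R[X]) ⊗ₜ[R] ((X ^ (i + 1 - 1 - j) : R[X]) • m) =
        (X ^ j : R[X]) ⊗ₜ[R] ((X ^ (i - 1 - j) : R[X]) • ((X : R[X]) • m)) := by
      intro j hj
      rw [Finset.mem_range] at hj
      rw [smul_smul, ← pow_succ]
      congr 3
      omega
    rw [Finset.sum_congr rfl e1]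
    simp
  exact LinearMap.congr_fun this z

theorem esyzPhi_D (z : R[X] ⊗[R] M) : esyzPhi (esyzD z) = z - (1 : R[X]) ⊗ₜ[R] esyzQ z := by
  have : (esyzPhi.restrictScalars R).comp (esyzD (R := R) (M := M)) =
      LinearMap.id - (TensorProduct.mk R R[X] M 1).comp (esyzQ.restrictScalars R) := by
    apply esyz_ext
    intro i m
    rw [LinearMap.comp_apply, LinearMap.restrictScalars_apply, esyzD_tmul, map_sum]
    have e1 : ∀ j ∈ Finset.range i, esyzPhi ((X ^ j : R[X]) ⊗ₜ[R] ((X ^ (i - 1 - j) : R[X]) • m)) =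
        (X ^ (j + 1) : R[X]) ⊗ₜ[R] ((X ^ (i - (j + 1)) : R[X]) • m) -
        (X ^ j : R[X]) ⊗ₜ[R] ((X ^ (i - j) : R[X]) • m) := by
      intro j hj
      rw [Finset.mem_range] at hj
      rw [esyzPhi_tmul, smul_smul, ← pow_succ', ← pow_succ']
      congr 4
      · omega
      · omega
    rw [Finset.sum_congr rfl e1, Finset.sum_range_sub
      (fun j => (X ^ j : R[X]) ⊗ₜ[R] ((X ^ (i - j) : R[X]) • m))]
    simp [esyzQ_tmul]
  exact LinearMap.congr_fun this z

theorem esyz_ker [Module.Projective R M] :
    Module.Projective R[X] (LinearMap.ker (esyzQ (R := R) (M := M))) := by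
  have hinj : Function.Injective (esyzPhi (R := R) (M := M)) :=
    Function.LeftInverse.injective esyzD_Phi
  have hr : LinearMap.range (esyzPhi (R := R) (M := M)) = LinearMap.ker esyzQ := by
    apply le_antisymm
    · rintro _ ⟨z, rfl⟩
      rw [LinearMap.mem_ker]
      have : (esyzQ (R := R) (M := M)).comp esyzPhi = 0 := by
        apply TensorProduct.AlgebraTensorModule.ext
        intro a m
        rw [LinearMap.comp_apply, esyzPhi_tmul, map_sub, esyzQ_tmul, esyzQ_tmul, smul_smul,
          mul_comm, sub_self]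
        rfl
      exact LinearMap.congr_fun this z
    · intro z hz
      refine ⟨esyzD z, ?_⟩
      rw [esyzPhi_D, LinearMap.mem_ker.1 hz, TensorProduct.tmul_zero, sub_zero]
  rw [← hr]
  exact Module.Projective.of_equiv' (LinearEquiv.ofInjective esyzPhi hinj)

end Koszul

open Polynomial in
theorem esyz_polynomial (R : Type) [CommRing R] [IsDomain R] [IsPrincipalIdealRing R] :
    P2 R[X] := by
  intro m n f
  have h1 : Module.Projective R (LinearMap.range f) :=
    esyz_sub ((LinearMap.range f).restrictScalars R)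
  have h2 := esyz_ker (R := R) (M := LinearMap.range f)
  have h3 := esyz_schanuel f.rangeRestrict f.surjective_rangeRestrict
    (esyzQ (R := R) (M := LinearMap.range f)) (fun x => ⟨1 ⊗ₜ x, by rw [esyzQ_tmul, one_smul]⟩) h2
  rwa [LinearMap.ker_rangeRestrict] at h3

/-- transport of a map of finite free modules -/
def esyzMap {R R' : Type} [CommRing R] [CommRing R'] (e : R ≃+* R') {m n : ℕ}
    (f : (Fin m → R') →ₗ[R'] (Fin n → R')) : (Fin m → R) →ₗ[R] (Fin n → R) where
  toFun x i := e.symm (f (fun j => e (x j)) i)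
  map_add' x y := by
    have : (fun j => e ((x + y) j)) = (fun j => e (x j)) + fun j => e (y j) := by
      funext j
      simp
    funext i
    rw [this, map_add]
    simp
  map_smul' r x := by
    have : (fun j => e ((r • x) j)) = e r • fun j => e (x j) := by
      funext j
      simp
    funext i
    rw [this, map_smul]
    simp

attribute [local instance] RingHomInvPair.of_ringEquiv in
theorem p2_equiv {R R' : Type} [CommRing R] [CommRing R'] (e : R ≃+* R') (h : P2 R) : P2 R' := by
  intro m n f
  have h1 := h m n (esyzMap e f)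
  have key : ∀ x : Fin m → R, x ∈ LinearMap.ker (esyzMap e f) ↔
      (fun j => e (x j)) ∈ LinearMap.ker f := by
    intro x
    rw [LinearMap.mem_ker, LinearMap.mem_ker]
    constructor
    · intro h2
      funext i
      have h3 := congrFun h2 i
      change e.symm (f (fun j => e (x j)) i) = 0 at h3
      rw [Pi.zero_apply]
      exact (map_eq_zero_iff e.symm e.symm.injective).1 h3
    · intro h2
      funext i
      change e.symm (f (fun j => e (x j)) i) = 0
      rw [h2, Pi.zero_apply, map_zero]
  let E : LinearMap.ker (esyzMap e f) ≃ₛₗ[(e : R →+* R')] LinearMap.ker f :=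
    { toFun := fun x => ⟨fun j => e (x.1 j), (key x.1).1 x.2⟩
      invFun := fun y => ⟨fun j => e.symm (y.1 j), (key _).2 (by simp)⟩
      map_add' := by
        intro x y
        apply Subtype.ext
        funext j
        simp
      map_smul' := by
        intro r x
        apply Subtype.ext
        funext j
        simp
      left_inv := by
        intro x
        apply Subtype.ext
        funext j
        simp
      right_inv := by
        intro x
        apply Subtype.ext
        funext j
        simp }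
  exact Module.Projective.of_equiv E

theorem p2_mvPolynomial (k : Type) [Field k] : P2 (MvPolynomial (Fin 2) k) := by
  have h1 : IsPrincipalIdealRing (MvPolynomial (Fin 1) k) := by
    have e := (MvPolynomial.finSuccEquiv k 0).trans
      (Polynomial.mapAlgEquiv (MvPolynomial.isEmptyAlgEquiv k (Fin 0)))
    exact IsPrincipalIdealRing.of_surjective e.symm.toRingEquiv.toRingHom e.symm.surjective
  exact p2_equiv (MvPolynomial.finSuccEquiv k 1).symm.toRingEquiv (esyz_polynomial _)

end Pool.H33.P

end S_ESYZ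

section S_ETOR

/-! # ETOR: the toric data on `Proj`

`U l = D+(f l)`.  On the charts `0, 1, 2, 3` (in `Frac A`):
`x0 : 1, f0/f1, 1, m/f3`;  `x1 : f1/f0, 1, m/f2, 1`;  `y : 1, 1, f0/f2, f1/f3`;  `z : f2/f0, f3/f1, 1, 1`.
Generators of `F`: `x0` on the charts `0, 2`, `x1` on the charts `1, 3`; of `G`: `y/x0, y/x1, z, z`;
`cF l l'` = (generator on `l'`) / (generator on `l`), so `cF = x1/x0` or its inverse or `1`;
`cG l l'` similarly, e.g. `cG 0 1 = x0/x1`, `cG 0 2 = cG 0 3 = x0 z / y = f2/f0`, `cG 1 2 = cG 1 3 = f3/f1`,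
`cG 2 3 = 1`.
All identities are checked in `Frac A` with `exists_val` and the relations `r1, r2, r3`; note that
`D+(m) = D+(f2) ⊓ D+(f3)` and `D+(f0) ⊓ D+(m) = D+(f1) ⊓ D+(f2)`, `D+(f0) ⊓ D+(f3) = D+(f1) ⊓ D+(m)`.
All `D+(f l)` are affine (`Proj.isAffineOpen_basicOpen`), with ring `Away (f l)` (`Proj.basicOpenIsoAway`). -/

open CategoryTheory AlgebraicGeometry Limits TopologicalSpace

namespace Pool.H33.P

section EtorField


variable {K : Type} [Field K]

/-- generators of `F` -/
def etorF (a : Fin 4 → K) : Fin 4 → K := ![1, a 1 / a 0, 1, a 1 / a 0]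

/-- generators of `G` -/
def etorG (a : Fin 4 → K) (l : Fin 4) : K := a l / (a 0 * etorF a l ^ 2)

variable {a : Fin 4 → K} {am : K} (ha : ∀ l, a l ≠ 0) (hm : am ≠ 0)

include ha in
theorem etorF_ne (l : Fin 4) : etorF a l ≠ 0 := by
  have h0 := ha 0
  have h1 := ha 1
  fin_cases l <;> simp [etorF, h0, h1]

include ha in
theorem etorG_ne (l : Fin 4) : etorG a l ≠ 0 := by
  have h0 := ha 0
  have h1 := ha l
  have h2 := etorF_ne ha l
  unfold etorG
  positivity

variable (r1 : a 0 * am = a 1 * a 2) (r2 : a 0 * a 3 = a 1 * am) (r3 : a 2 * a 3 = am * am)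

section
variable {S : Fin 4 → Subring K} (hS : ∀ l j, a j / a l ∈ S l) (hSm : ∀ l, am / a l ∈ S l)

include ha hS hSm r2 in
theorem etor_x0 (l : Fin 4) : (etorF a l)⁻¹ ∈ S l := by
  have h0 := ha 0
  have h1 := ha 1
  have h3 := ha 3
  fin_cases l
  · simp [etorF]
  · have h := hS 1 0
    simpa [etorF] using h
  · simp [etorF]
  · have h := hSm 3
    have e : (etorF a 3)⁻¹ = am / a 3 := by
      simp only [etorF]
      simp
      field_simp
      linear_combination r2
    show (etorF a 3)⁻¹ ∈ S 3
    rw [e]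
    exact h

include ha hS hSm r1 in
theorem etor_x1 (l : Fin 4) : (a 1 / a 0) / etorF a l ∈ S l := by
  have h0 := ha 0
  have h1 := ha 1
  have h2 := ha 2
  fin_cases l
  · have h := hS 0 1
    simpa [etorF] using h
  · have e : (a 1 / a 0) / etorF a 1 = 1 := by
      simp only [etorF]
      simp [ha]
      try field_simp
    show (a 1 / a 0) / etorF a 1 ∈ S 1
    rw [e]
    exact one_mem _
  · have h := hSm 2
    have e : (a 1 / a 0) / etorF a 2 = am / a 2 := by
      simp only [etorF]
      simp
      field_simp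
      linear_combination -r1
    show (a 1 / a 0) / etorF a 2 ∈ S 2
    rw [e]
    exact h
  · have e : (a 1 / a 0) / etorF a 3 = 1 := by
      simp only [etorF]
      simp [ha]
      try field_simp
    show (a 1 / a 0) / etorF a 3 ∈ S 3
    rw [e]
    exact one_mem _

include ha hS in
theorem etor_y (l : Fin 4) : (etorF a l * etorG a l)⁻¹ ∈ S l := by
  have h0 := ha 0
  have h1 := ha 1
  have h2 := ha 2
  have h3 := ha 3
  fin_cases l
  · have e : (etorF a 0 * etorG a 0)⁻¹ = 1 := by
      simp only [etorF, etorG]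
      simp [ha]
      try field_simp
    show (etorF a 0 * etorG a 0)⁻¹ ∈ S 0
    rw [e]
    exact one_mem _
  · have e : (etorF a 1 * etorG a 1)⁻¹ = 1 := by
      simp only [etorF, etorG]
      simp [ha]
      try field_simp
    show (etorF a 1 * etorG a 1)⁻¹ ∈ S 1
    rw [e]
    exact one_mem _
  · have e : (etorF a 2 * etorG a 2)⁻¹ = a 0 / a 2 := by
      simp only [etorF, etorG]
      simp
    show (etorF a 2 * etorG a 2)⁻¹ ∈ S 2
    rw [e]
    exact hS 2 0
  · have e : (etorF a 3 * etorG a 3)⁻¹ = a 1 / a 3 := by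
      simp only [etorF, etorG]
      simp [ha]
      try field_simp
    show (etorF a 3 * etorG a 3)⁻¹ ∈ S 3
    rw [e]
    exact hS 3 1

include ha hS r1 r2 in
theorem etor_z (l : Fin 4) : (a 2 / a 0) / etorG a l ∈ S l := by
  have h0 := ha 0
  have h1 := ha 1
  have h2 := ha 2
  have h3 := ha 3
  fin_cases l
  · have e : (a 2 / a 0) / etorG a 0 = a 2 / a 0 := by
      simp only [etorF, etorG]
      simp [ha]
      try field_simp
    show (a 2 / a 0) / etorG a 0 ∈ S 0
    rw [e]
    exact hS 0 2
  · have e : (a 2 / a 0) / etorG a 1 = a 3 / a 1 := by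
      simp only [etorF, etorG]
      simp
      field_simp
      linear_combination (a 1) * r1 * (-1) - (a 0) * r2
    show (a 2 / a 0) / etorG a 1 ∈ S 1
    rw [e]
    exact hS 1 3
  · have e : (a 2 / a 0) / etorG a 2 = 1 := by
      simp only [etorF, etorG]
      simp [ha]
      try field_simp
    show (a 2 / a 0) / etorG a 2 ∈ S 2
    rw [e]
    exact one_mem _
  · have e : (a 2 / a 0) / etorG a 3 = 1 := by
      simp only [etorF, etorG]
      simp
      field_simp
      linear_combination (a 1) * r1 * (-1) + (a 0) * r2 * (-1)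
    show (a 2 / a 0) / etorG a 3 ∈ S 3
    rw [e]
    exact one_mem _

include ha hS hSm r1 r2 in
theorem etor_cF (l l' : Fin 4) : etorF a l' / etorF a l ∈ S l := by
  have h : etorF a l' = 1 ∨ etorF a l' = a 1 / a 0 := by
    fin_cases l' <;> simp [etorF]
  rcases h with h | h
  · rw [h, one_div]
    exact etor_x0 ha r2 hS hSm l
  · rw [h]
    exact etor_x1 ha r1 hS hSm l

include ha hS hSm r1 r2 in
theorem etor_cG (l l' : Fin 4) (T : Subring K) (h1 : S l ≤ T) (h2 : S l' ≤ T) :
    etorG a l' / etorG a l ∈ T := by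
  have hF := etorF_ne ha l
  have hF' := etorF_ne ha l'
  have hG := etorG_ne ha l
  have h : etorF a l' * etorG a l' = 1 ∨ etorG a l' = a 2 / a 0 := by
    have e0 := ha 0
    have e1 := ha 1
    have e2 := ha 2
    have e3 := ha 3
    fin_cases l'
    · left
      simp only [etorF, etorG]
      simp [ha]
    · left
      simp only [etorF, etorG]
      simp
      field_simp
    · right
      simp only [etorF, etorG]
      simp
    · right
      simp only [etorF, etorG]
      simp
      field_simp
      linear_combination (a 1) * r1 + (a 0) * r2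
  rcases h with h | h
  · have e : etorG a l' / etorG a l = (etorF a l * etorG a l)⁻¹ * (etorF a l / etorF a l') := by
      have e1 : etorG a l' = (etorF a l')⁻¹ := eq_inv_of_mul_eq_one_right h
      rw [e1]
      field_simp
    rw [e]
    exact mul_mem (h1 (etor_y ha hS l)) (h2 (etor_cF ha r1 r2 hS hSm l' l))
  · rw [h]
    exact h1 (etor_z ha r1 r2 hS l)

end

include ha in
theorem etor_amp0 (l : Fin 4) : (etorF a l)⁻¹ * (etorF a l * etorG a l)⁻¹ = a 0 / a l := by
  have h0 := ha 0
  have hl := ha l
  have hF := etorF_ne ha l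
  unfold etorG
  field_simp

include ha in
theorem etor_amp1 (l : Fin 4) :
    (a 1 / a 0) / etorF a l * (etorF a l * etorG a l)⁻¹ = a 1 / a l := by
  have h0 := ha 0
  have hl := ha l
  have hF := etorF_ne ha l
  unfold etorG
  field_simp

include ha in
theorem etor_amp2 (l : Fin 4) :
    (etorF a l)⁻¹ * ((etorF a l)⁻¹ * ((a 2 / a 0) / etorG a l)) = a 2 / a l := by
  have h0 := ha 0
  have hl := ha l
  have hF := etorF_ne ha l
  unfold etorG
  field_simp

include ha r1 r2 in
theorem etor_amp3 (l : Fin 4) :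
    ((a 1 / a 0) / etorF a l) * (((a 1 / a 0) / etorF a l) * ((a 2 / a 0) / etorG a l)) =
      a 3 / a l := by
  have h0 := ha 0
  have hl := ha l
  have hF := etorF_ne ha l
  unfold etorG
  field_simp
  linear_combination (a 1) * r1 * (-1) - (a 0) * r2

include ha in
theorem etor_y1 : (etorF a 1 * etorG a 1)⁻¹ = 1 := by
  have h0 := ha 0
  have h1 := ha 1
  simp only [etorF, etorG]
  simp
  field_simp

include ha r1 r2 in
theorem etor_z3 : (a 2 / a 0) / etorG a 3 = 1 := by
  have h0 := ha 0
  have h1 := ha 1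
  have h2 := ha 2
  have h3 := ha 3
  simp only [etorF, etorG]
  simp
  field_simp
  linear_combination (a 1) * r1 * (-1) + (a 0) * r2 * (-1)

theorem etor_i1 {x y c : K} (hy : y ≠ 0) : c / x = y / x * (c / y) := by
  field_simp

theorem etor_i2 {x y : K} (hy : y ≠ 0) : x⁻¹ = y / x * y⁻¹ := by
  field_simp

theorem etor_i3 {x y u v : K} (hy : y ≠ 0) (hv : v ≠ 0) :
    (x * u)⁻¹ = y / x * (v / u) * (y * v)⁻¹ := by
  field_simp

end EtorField

theorem exists_toricData {k : Type} [Field k] (D : ScrollData k) :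
    Nonempty (ToricData (Proj D.gr)) := by
  obtain ⟨val, frac, inj, res, vf, bo, nb⟩ := exists_val D
  have hU : ∀ l, Proj.basicOpen D.gr (D.f l) ≠ ⊥ := fun l => nb _ (D.ne l)
  have hU2 : ∀ l l', Proj.basicOpen D.gr (D.f l) ⊓ Proj.basicOpen D.gr (D.f l') ≠ ⊥ := by
    intro l l'
    have h := nb (D.f l * D.f l') (mul_ne_zero (D.ne l) (D.ne l'))
    rwa [Proj.basicOpen_mul] at h
  have hU3 : ∀ l l' l'', Proj.basicOpen D.gr (D.f l) ⊓ Proj.basicOpen D.gr (D.f l') ⊓
      Proj.basicOpen D.gr (D.f l'') ≠ ⊥ := by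
    intro l l' l''
    have h := nb (D.f l * D.f l' * D.f l'') (mul_ne_zero (mul_ne_zero (D.ne l) (D.ne l')) (D.ne l''))
    rwa [Proj.basicOpen_mul, Proj.basicOpen_mul] at h
  set K := FractionRing D.A with hK
  set a : Fin 4 → K := fun l => algebraMap D.A K (D.f l) with haa
  set am : K := algebraMap D.A K D.m with ham
  have ha : ∀ l, a l ≠ 0 := fun l => by
    rw [haa]
    exact (map_ne_zero_iff _ (IsFractionRing.injective D.A K)).mpr (D.ne l)
  have r1 : a 0 * am = a 1 * a 2 := by
    simp only [haa, ham]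
    rw [← map_mul, D.r1, map_mul]
  have r2 : a 0 * a 3 = a 1 * am := by
    simp only [haa, ham]
    rw [← map_mul, D.r2, map_mul]
  let S : Fin 4 → Subring K := fun l => (val _ (hU l)).range
  have hS : ∀ l j, a j / a l ∈ S l := fun l j =>
    ⟨frac (D.f l) (D.f j), vf _ _ (D.hf l) (D.hf j) _⟩
  have hSm : ∀ l, am / a l ∈ S l := fun l =>
    ⟨frac (D.f l) D.m, vf _ _ (D.hf l) D.hm _⟩
  let S2 : Fin 4 → Fin 4 → Subring K := fun l l' => (val _ (hU2 l l')).range
  have hSL : ∀ l l', S l ≤ S2 l l' := by
    rintro l l' _ ⟨s, rfl⟩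
    exact ⟨rf inf_le_left s, res _ _ _ _ _ _⟩
  have hSR : ∀ l l', S l' ≤ S2 l l' := by
    rintro l l' _ ⟨s, rfl⟩
    exact ⟨rf inf_le_right s, res _ _ _ _ _ _⟩
  choose X0 hX0 using fun l => (etor_x0 ha r2 hS hSm l : ∃ s, val _ (hU l) s = _)
  choose X1 hX1 using fun l => (etor_x1 ha r1 hS hSm l : ∃ s, val _ (hU l) s = _)
  choose Y hY using fun l => (etor_y ha hS l : ∃ s, val _ (hU l) s = _)
  choose Z hZ using fun l => (etor_z ha r1 r2 hS l : ∃ s, val _ (hU l) s = _)
  choose CF hCF using fun l l' =>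
    (hSL l l' (etor_cF ha r1 r2 hS hSm l l') : ∃ s, val _ (hU2 l l') s = _)
  choose CF' hCF' using fun l l' =>
    (hSR l l' (etor_cF ha r1 r2 hS hSm l' l) : ∃ s, val _ (hU2 l l') s = _)
  choose CG hCG using fun l l' =>
    (etor_cG ha r1 r2 hS hSm l l' (S2 l l') (hSL l l') (hSR l l') :
      ∃ s, val _ (hU2 l l') s = _)
  choose CG' hCG' using fun l l' =>
    (etor_cG ha r1 r2 hS hSm l' l (S2 l l') (hSR l l') (hSL l l') :
      ∃ s, val _ (hU2 l l') s = _)
  have hF := etorF_ne ha
  have hG := etorG_ne ha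
  let e : ∀ l, Γ(Proj D.gr, Proj.basicOpen D.gr (D.f l)) ≃+* MvPolynomial (Fin 2) k := fun l =>
    (Proj.basicOpenIsoAway D.gr (D.f l) (D.hf l) one_pos).commRingCatIsoToRingEquiv.symm.trans
      (D.chart l).some
  refine ⟨{
    int := proj_integral D
    U := fun l => Proj.basicOpen D.gr (D.f l)
    aff := fun l => Proj.isAffineOpen_basicOpen D.gr (D.f l) (D.hf l) one_pos
    cov := D.cov
    inf12 := ?_
    noeth := fun l => isNoetherianRing_of_ringEquiv _ (e l).symm
    syz := fun l => p2_equiv (e l).symm (p2_mvPolynomial k)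
    cF := fun l l' => ⟨CF l l', CF' l l', ?_, ?_⟩
    cG := fun l l' => ⟨CG l l', CG' l l', ?_, ?_⟩
    cocF := ?_
    cocG := ?_
    x0 := X0
    x1 := X1
    y := Y
    z := Z
    sx0 := ?_
    sx1 := ?_
    sy := ?_
    sz := ?_
    x00 := ?_
    x02 := ?_
    x11 := ?_
    x13 := ?_
    y0 := ?_
    y1 := ?_
    z2 := ?_
    z3 := ?_
    amp0 := ?_
    amp1 := ?_
    amp2 := ?_
    amp3 := ?_ }⟩
  · -- inf12
    have e1 : Proj.basicOpen D.gr (D.f 0) ⊓ Proj.basicOpen D.gr D.m =
        Proj.basicOpen D.gr (D.f 1) ⊓ Proj.basicOpen D.gr (D.f 2) := by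
      rw [← Proj.basicOpen_mul, D.r1, Proj.basicOpen_mul]
    have e2 : Proj.basicOpen D.gr (D.f 0) ⊓ Proj.basicOpen D.gr (D.f 3) =
        Proj.basicOpen D.gr (D.f 1) ⊓ Proj.basicOpen D.gr D.m := by
      rw [← Proj.basicOpen_mul, D.r2, Proj.basicOpen_mul]
    have e3 : Proj.basicOpen D.gr (D.f 2) ⊓ Proj.basicOpen D.gr (D.f 3) =
        Proj.basicOpen D.gr D.m := by
      rw [← Proj.basicOpen_mul, D.r3, Proj.basicOpen_mul, inf_idem]
    apply le_antisymm
    · refine le_inf ?_ ?_
      · rw [← e1]; exact inf_le_left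
      · rw [← e1, ← e3]; exact inf_le_right.trans inf_le_right
    · refine le_inf ?_ ?_
      · rw [e2]; exact inf_le_left
      · rw [e2, ← e3]; exact inf_le_right.trans inf_le_left
  · apply inj _ (hU2 l l')
    rw [map_mul, hCF, hCF', map_one]
    have := hF l; have := hF l'
    field_simp
  · apply inj _ (hU2 l l')
    rw [map_mul, hCF, hCF', map_one]
    have := hF l; have := hF l'
    field_simp
  · apply inj _ (hU2 l l')
    rw [map_mul, hCG, hCG', map_one]
    have := hG l; have := hG l'
    field_simp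
  · apply inj _ (hU2 l l')
    rw [map_mul, hCG, hCG', map_one]
    have := hG l; have := hG l'
    field_simp
  · -- cocF
    constructor
    · intro l
      apply inj _ (hU2 l l)
      show val _ (hU2 l l) (CF l l) = _
      rw [hCF, map_one, div_self (hF l)]
    · intro l l' l''
      apply inj _ (hU3 l l' l'')
      show val _ (hU3 l l' l'') (rf _ (CF l l') * rf _ (CF l' l'')) = val _ _ (rf _ (CF l l''))
      rw [map_mul, res _ _ _ _ (hU2 _ _), res _ _ _ _ (hU2 _ _), res _ _ _ _ (hU2 _ _), hCF, hCF,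
        hCF]
      have := hF l; have := hF l'; have := hF l''
      field_simp
  · -- cocG
    constructor
    · intro l
      apply inj _ (hU2 l l)
      show val _ (hU2 l l) (CG l l) = _
      rw [hCG, map_one, div_self (hG l)]
    · intro l l' l''
      apply inj _ (hU3 l l' l'')
      show val _ (hU3 l l' l'') (rf _ (CG l l') * rf _ (CG l' l'')) = val _ _ (rf _ (CG l l''))
      rw [map_mul, res _ _ _ _ (hU2 _ _), res _ _ _ _ (hU2 _ _), res _ _ _ _ (hU2 _ _), hCG, hCG,
        hCG]
      have := hG l; have := hG l'; have := hG l''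
      field_simp
  · -- sx0
    intro l l'
    apply inj _ (hU2 l l')
    show val _ _ (rf _ (X0 l)) = val _ _ (CF l l' * rf _ (X0 l'))
    rw [map_mul, res _ _ _ _ (hU _), res _ _ _ _ (hU _), hCF, hX0, hX0]
    exact etor_i2 (hF l')
  · -- sx1
    intro l l'
    apply inj _ (hU2 l l')
    show val _ _ (rf _ (X1 l)) = val _ _ (CF l l' * rf _ (X1 l'))
    rw [map_mul, res _ _ _ _ (hU _), res _ _ _ _ (hU _), hCF, hX1, hX1]
    exact etor_i1 (hF l')
  · -- sy
    intro l l'
    apply inj _ (hU2 l l')
    show val _ _ (rf _ (Y l)) = val _ _ ((CF l l' * CG l l') * rf _ (Y l'))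
    rw [map_mul, map_mul, res _ _ _ _ (hU _), res _ _ _ _ (hU _), hCF, hCG, hY, hY]
    exact etor_i3 (hF l') (hG l')
  · -- sz
    intro l l'
    apply inj _ (hU2 l l')
    show val _ _ (rf _ (Z l)) = val _ _ (CG l l' * rf _ (Z l'))
    rw [map_mul, res _ _ _ _ (hU _), res _ _ _ _ (hU _), hCG, hZ, hZ]
    exact etor_i1 (hG l')
  · apply inj _ (hU 0)
    rw [hX0, map_one]
    simp [etorF]
  · apply inj _ (hU 2)
    rw [hX0, map_one]
    simp [etorF]
  · apply inj _ (hU 1)
    rw [hX1, map_one]
    have h0 := ha 0; have h1 := ha 1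
    simp only [etorF]
    simp [ha]
  · apply inj _ (hU 3)
    rw [hX1, map_one]
    have h0 := ha 0; have h1 := ha 1
    simp only [etorF]
    simp [ha]
  · apply inj _ (hU 0)
    rw [hY, map_one]
    simp only [etorF, etorG]
    simp [ha]
  · apply inj _ (hU 1)
    rw [hY, map_one]
    exact etor_y1 ha
  · apply inj _ (hU 2)
    rw [hZ, map_one]
    have h0 := ha 0; have h2 := ha 2
    simp only [etorF, etorG]
    simp [ha]
  · apply inj _ (hU 3)
    rw [hZ, map_one]
    exact etor_z3 ha r1 r2
  · -- amp0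
    intro l
    have h : X0 l * Y l = frac (D.f l) (D.f 0) := by
      apply inj _ (hU l)
      rw [map_mul, hX0, hY, etor_amp0 ha, vf _ _ (D.hf l) (D.hf 0)]
    rw [h, bo _ _ (D.hf l) (D.hf 0), inf_comm]
  · -- amp1
    intro l
    have h : X1 l * Y l = frac (D.f l) (D.f 1) := by
      apply inj _ (hU l)
      rw [map_mul, hX1, hY, etor_amp1 ha, vf _ _ (D.hf l) (D.hf 1)]
    rw [h, bo _ _ (D.hf l) (D.hf 1), inf_comm]
  · -- amp2
    intro l
    have h : X0 l * (X0 l * Z l) = frac (D.f l) (D.f 2) := by
      apply inj _ (hU l)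
      rw [map_mul, map_mul, hX0, hZ, etor_amp2 ha, vf _ _ (D.hf l) (D.hf 2)]
    have h' : (Proj D.gr).basicOpen (X0 l * (X0 l * Z l)) = (Proj D.gr).basicOpen (X0 l * Z l) := by
      rw [Scheme.basicOpen_mul, Scheme.basicOpen_mul, ← inf_assoc, inf_idem]
    rw [← h', h, bo _ _ (D.hf l) (D.hf 2), inf_comm]
  · -- amp3
    intro l
    have h : X1 l * (X1 l * Z l) = frac (D.f l) (D.f 3) := by
      apply inj _ (hU l)
      rw [map_mul, map_mul, hX1, hZ, etor_amp3 ha r1 r2, vf _ _ (D.hf l) (D.hf 3)]
    have h' : (Proj D.gr).basicOpen (X1 l * (X1 l * Z l)) = (Proj D.gr).basicOpen (X1 l * Z l) := by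
      rw [Scheme.basicOpen_mul, Scheme.basicOpen_mul, ← inf_assoc, inf_idem]
    rw [← h', h, bo _ _ (D.hf l) (D.hf 3), inf_comm]

end Pool.H33.P

end S_ETOR

section S_EDIM

/-! # EDIM: properness and dimension

`Proj.toSpecZero` is proper (`Mathlib.AlgebraicGeometry.ProjectiveSpectrum.Proper`), and `gr 0 = k`.  The dimension:
chains of irreducible closed subsets meet a chart in a chain of the same length
(`PrimeSpectrum.topologicalKrullDim_eq_ringKrullDim`, `MvPolynomial.ringKrullDim_of_isNoetherianRing`). -/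

open CategoryTheory AlgebraicGeometry Limits TopologicalSpace

namespace Pool.H33.P

theorem exists_proper {k : Type} [Field k] (D : ScrollData k) :
    ∃ f : Proj D.gr ⟶ Spec (CommRingCat.of k), IsProper f := by
  have := D.ft
  let e : k ≃+* D.gr 0 := RingEquiv.ofBijective (algebraMap k (D.gr 0)) D.zero
  refine ⟨Proj.toSpecZero D.gr ≫ Spec.map e.toCommRingCatIso.hom, inferInstance⟩

/-- restriction of an irreducible closed set to an open set -/
def edimRestrict {X : Type} [TopologicalSpace X] (U : Opens X)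
    (Z : {Z : IrreducibleCloseds X // (Z.carrier ∩ U).Nonempty}) : IrreducibleCloseds U where
  carrier := Subtype.val ⁻¹' Z.1.carrier
  isIrreducible' := by
    refine ⟨?_, Z.1.isIrreducible'.2.preimage U.isOpen.isOpenEmbedding_subtypeVal⟩
    obtain ⟨x, hx, hxU⟩ := Z.2
    exact ⟨⟨x, hxU⟩, hx⟩
  isClosed' := Z.1.isClosed'.preimage continuous_subtype_val

theorem edimRestrict_strictMono {X : Type} [TopologicalSpace X] (U : Opens X) :
    StrictMono (edimRestrict U) := by
  intro Z W h
  have hZW : Z.1.carrier ⊆ W.1.carrier := h.le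
  refine lt_of_le_not_ge (fun x hx => hZW hx) fun hle => h.not_ge ?_
  show W.1.carrier ⊆ Z.1.carrier
  have h1 : W.1.carrier ⊆ Z.1.carrier ∪ (U : Set X)ᶜ := by
    intro x hx
    by_cases hxU : x ∈ U
    · exact Or.inl (hle (show (⟨x, hxU⟩ : U) ∈ edimRestrict U W from hx))
    · exact Or.inr hxU
  rcases isPreirreducible_iff_isClosed_union_isClosed.1 W.1.isIrreducible'.2 _ _ Z.1.isClosed'
    U.isOpen.isClosed_compl h1 with h2 | h2
  · exact h2
  · obtain ⟨x, hx, hxU⟩ := W.2
    exact absurd hxU (h2 hx)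

/-- the dimension of a scheme is the supremum of the dimensions of the members of an open cover -/
theorem krullDim_cover {X : Type} [TopologicalSpace X] {ι : Type} (U : ι → Opens X)
    (hU : ⨆ i, U i = ⊤) (n : WithBot ℕ∞) (hn : ∀ i, topologicalKrullDim (U i) = n) [Nonempty ι] :
    topologicalKrullDim X = n := by
  apply le_antisymm
  · refine iSup_le fun p => ?_
    obtain ⟨x, hx⟩ := p.head.isIrreducible'.1
    obtain ⟨i, hi⟩ : ∃ i, x ∈ U i := by
      have : x ∈ (⨆ i, U i) := by rw [hU]; trivial
      exact Opens.mem_iSup.1 this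
    have hmem : ∀ j, ((p j).carrier ∩ U i).Nonempty := fun j =>
      ⟨x, (show p.head ≤ p j from LTSeries.head_le p j) hx, hi⟩
    let q : LTSeries {Z : IrreducibleCloseds X // (Z.carrier ∩ U i).Nonempty} :=
      { length := p.length
        toFun := fun j => ⟨p j, hmem j⟩
        step := fun j => p.step j }
    rw [← hn i]
    have h1 : (q.length : WithBot ℕ∞) ≤ Order.krullDim
        {Z : IrreducibleCloseds X // (Z.carrier ∩ U i).Nonempty} := Order.LTSeries.length_le_krullDim q
    exact h1.trans (Order.krullDim_le_of_strictMono _ (edimRestrict_strictMono (U i)))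
  · obtain ⟨i⟩ := (inferInstance : Nonempty ι)
    rw [← hn i]
    exact topologicalKrullDim_subspace_le X (U i : Set X)

theorem proj_dim {k : Type} [Field k] (D : ScrollData k) :
    topologicalKrullDim (Proj D.gr) = 2 := by
  refine krullDim_cover (fun l => Proj.basicOpen D.gr (D.f l)) D.cov 2 fun l => ?_
  obtain ⟨e⟩ := D.chart l
  have h1 : topologicalKrullDim (Proj.basicOpen D.gr (D.f l)) =
      topologicalKrullDim (Spec (.of <| HomogeneousLocalization.Away D.gr (D.f l))) :=
    (Proj.basicOpenIsoSpec D.gr (D.f l) (D.hf l) one_pos).hom.homeomorph.isHomeomorph.topologicalKrullDim_eq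
  refine h1.trans ?_
  refine (PrimeSpectrum.topologicalKrullDim_eq_ringKrullDim
    (HomogeneousLocalization.Away D.gr (D.f l))).trans ?_
  rw [ringKrullDim_eq_of_ringEquiv e, MvPolynomial.ringKrullDim_of_isNoetherianRing,
    ringKrullDim_eq_zero_of_field]
  simp

end Pool.H33.P

end S_EDIM
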